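import Pool.Agent.H838.Hyp

/-!
# The action of matrices of determinant `± 1` in vector coordinates
-/

set_option autoImplicit false

namespace Pool.Agent.H838

open UpperHalfPlane Matrix

noncomputable section

lemma vR_smul (g : GL (Fin 2) ℝ) (hg : |g.det.val| = 1) (z : ℍ) :
    vR (g • z) = (g 1 0) ^ 2 * vP z + 2 * (g 1 0) * (g 1 1) * vQ z + (g 1 1) ^ 2 * vR z := by
  have h := UpperHalfPlane.im_smul_eq_div_normSq g z
  rw [hg, one_mul] at h
  have h0 := UpperHalfPlane.normSq_denom_ne_zero g z.im_ne_zero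
  have h1 := z.im_ne_zero
  unfold vR vP vQ
  rw [h]
  have e : Complex.normSq (denom g z) = (g 1 0 * z.re + g 1 1) ^ 2 + (g 1 0 * z.im) ^ 2 := by
    simp [Complex.normSq_apply, denom]
    ring
  rw [e] at h0 ⊢
  field_simp
  ring

lemma vQ_smul (g : GL (Fin 2) ℝ) (hg : |g.det.val| = 1) (z : ℍ) :
    vQ (g • z) = (g 0 0) * (g 1 0) * vP z + ((g 0 0) * (g 1 1) + (g 0 1) * (g 1 0)) * vQ z
      + (g 0 1) * (g 1 1) * vR z := by
  have h := UpperHalfPlane.im_smul_eq_div_normSq g z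
  rw [hg, one_mul] at h
  have h0 := UpperHalfPlane.normSq_denom_ne_zero g z.im_ne_zero
  have h1 := z.im_ne_zero
  have h2 := UpperHalfPlane.re_smul g z
  unfold vR vP vQ
  rw [h, h2, Complex.div_re]
  generalize Complex.normSq (denom g z) = N at h0 ⊢
  simp only [denom, num]
  simp
  field_simp
  ring

lemma vP_smul (g : GL (Fin 2) ℝ) (hg : |g.det.val| = 1) (z : ℍ) :
    vP (g • z) = (g 0 0) ^ 2 * vP z + 2 * (g 0 0) * (g 0 1) * vQ z + (g 0 1) ^ 2 * vR z := by
  have h1 := vPR (g • z)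
  have h2 := vR_smul g hg z
  have h3 := vQ_smul g hg z
  have h4 := vPR z
  have h5 := vR_pos (g • z)
  have hd : g 0 0 * g 1 1 - g 0 1 * g 1 0 = g.det.val := by
    rw [Matrix.GeneralLinearGroup.val_det_apply, Matrix.det_fin_two]
  have hd2 : (g 0 0 * g 1 1 - g 0 1 * g 1 0) ^ 2 = 1 := by
    rw [hd, ← sq_abs, hg]; norm_num
  have h6 : vR (g • z) * (vP (g • z) -
    ((g 0 0) ^ 2 * vP z + 2 * (g 0 0) * (g 0 1) * vQ z + (g 0 1) ^ 2 * vR z)) = 0 := by
    have : vR (g • z) * vP (g • z) = 1 + vQ (g • z) ^ 2 := by linarith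
    rw [mul_sub, this, h3, h2]
    linear_combination -hd2 * (vP z * vR z - vQ z ^ 2) - h4
  rcases mul_eq_zero.mp h6 with h | h
  · exact absurd h h5.ne'
  · linarith

lemma dist_smul_gl (g : GL (Fin 2) ℝ) (hg : |g.det.val| = 1) (z w : ℍ) :
    dist (g • z) (g • w) = dist z w := by
  apply Real.cosh_injOn (Set.mem_Ici.mpr dist_nonneg) (Set.mem_Ici.mpr dist_nonneg)
  rw [cosh_dist_vec, cosh_dist_vec, vR_smul g hg, vR_smul g hg, vP_smul g hg, vP_smul g hg,
    vQ_smul g hg, vQ_smul g hg]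
  have hd : g 0 0 * g 1 1 - g 0 1 * g 1 0 = g.det.val := by
    rw [Matrix.GeneralLinearGroup.val_det_apply, Matrix.det_fin_two]
  have hd2 : (g 0 0 * g 1 1 - g 0 1 * g 1 0) ^ 2 = 1 := by
    rw [hd, ← sq_abs, hg]; norm_num
  linear_combination hd2 * ((vP z * vR w + vP w * vR z) / 2 - vQ z * vQ w)

end

end Pool.Agent.H838
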