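import Pool.Agent.H838.Contr

/-!
# The large group of matrices with continuous arguments
-/

set_option autoImplicit false

namespace Pool.Agent.H838

open UpperHalfPlane Matrix

noncomputable section

/-- the unit part of the automorphy factor -/
def U (g : GL (Fin 2) ℝ) (z : ℍ) : ℂ := denom g z / ‖denom g z‖

lemma norm_U (g : GL (Fin 2) ℝ) (z : ℍ) : ‖U g z‖ = 1 := by
  unfold U
  have h := denom_ne_zero g z
  rw [norm_div, Complex.norm_real, norm_norm, div_self (norm_ne_zero_iff.mpr h)]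

lemma U_ne_zero (g : GL (Fin 2) ℝ) (z : ℍ) : U g z ≠ 0 := by
  rw [← norm_ne_zero_iff, norm_U]; exact one_ne_zero

lemma U_one (z : ℍ) : U 1 z = 1 := by
  unfold U
  have : denom (1 : GL (Fin 2) ℝ) z = 1 := denom_one z
  rw [this]; simp

lemma U_mul (g h : GL (Fin 2) ℝ) (z : ℍ) : U (g * h) z = σ h (U g (h • z)) * U h z := by
  unfold U
  rw [denom_cocycle_σ, norm_mul, norm_σ, map_div₀, σ_ofReal]
  push_cast
  rw [mul_div_mul_comm]

lemma U_mul_pos (g h : GL (Fin 2) ℝ) (hh : 0 < h.det.val) (z : ℍ) :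
    U (g * h) z = U g (h • z) * U h z := by
  rw [U_mul]
  simp only [σ, if_pos hh]
  rfl

lemma conj_eq_inv {x : ℂ} (hx : ‖x‖ = 1) : (starRingEnd ℂ) x = x⁻¹ := by
  rw [Complex.inv_def, Complex.normSq_eq_norm_sq, hx]
  simp

lemma U_mul_neg (g h : GL (Fin 2) ℝ) (hh : h.det.val < 0) (z : ℍ) :
    U (g * h) z = (U g (h • z))⁻¹ * U h z := by
  rw [U_mul]
  simp only [σ, if_neg (not_lt.mpr hh.le)]
  congr 1
  exact conj_eq_inv (norm_U _ _)

lemma exp_arg (g : GL (Fin 2) ℝ) (z : ℍ) :
    Complex.exp ((Complex.arg (denom g z) : ℝ) * Complex.I) = U g z := by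
  unfold U
  have h := denom_ne_zero g z
  have h1 := Complex.norm_mul_exp_arg_mul_I (denom g z)
  rw [eq_div_iff (by simp), mul_comm]
  exact h1

/-- matrices together with a function -/
@[ext] structure Big where
  /-- first matrix -/
  a : GL (Fin 2) ℝ
  /-- second matrix -/
  b : GL (Fin 2) ℝ
  /-- the function -/
  f : ℍ → ℍ → ℝ

namespace Big

instance : Mul Big := ⟨fun x y => ⟨x.a * y.a, x.b * y.b,
  fun z w => y.a.det.val * x.f (y.a • z) (y.b • w) + y.f z w⟩⟩

instance : One Big := ⟨⟨1, 1, fun _ _ => 0⟩⟩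

instance : Inv Big := ⟨fun x => ⟨x.a⁻¹, x.b⁻¹,
  fun z w => -((x.a⁻¹).det.val * x.f (x.a⁻¹ • z) (x.b⁻¹ • w))⟩⟩

@[simp] lemma mul_a (x y : Big) : (x * y).a = x.a * y.a := rfl
@[simp] lemma mul_b (x y : Big) : (x * y).b = x.b * y.b := rfl
lemma mul_f (x y : Big) (z w : ℍ) :
    (x * y).f z w = y.a.det.val * x.f (y.a • z) (y.b • w) + y.f z w := rfl
@[simp] lemma one_a : (1 : Big).a = 1 := rfl
@[simp] lemma one_b : (1 : Big).b = 1 := rfl
@[simp] lemma one_f (z w : ℍ) : (1 : Big).f z w = 0 := rfl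
@[simp] lemma inv_a (x : Big) : (x⁻¹).a = x.a⁻¹ := rfl
@[simp] lemma inv_b (x : Big) : (x⁻¹).b = x.b⁻¹ := rfl
lemma inv_f (x : Big) (z w : ℍ) :
    (x⁻¹).f z w = -((x.a⁻¹).det.val * x.f (x.a⁻¹ • z) (x.b⁻¹ • w)) := rfl

instance : Group Big where
  mul_assoc x y t := by
    refine Big.ext (mul_assoc _ _ _) (mul_assoc _ _ _) ?_
    funext z w
    simp only [mul_f, mul_a, mul_b, map_mul, Units.val_mul, mul_smul]
    ring
  one_mul x := by
    refine Big.ext (one_mul _) (one_mul _) ?_
    funext z w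
    simp only [mul_f, one_f]
    ring
  mul_one x := by
    refine Big.ext (mul_one _) (mul_one _) ?_
    funext z w
    simp only [mul_f, one_f, one_a, one_b, one_smul, map_one, Units.val_one]
    ring
  inv_mul_cancel x := by
    refine Big.ext (inv_mul_cancel _) (inv_mul_cancel _) ?_
    funext z w
    have h : x.a.det.val * (x.a⁻¹).det.val = 1 := by
      rw [← Units.val_mul, ← map_mul, mul_inv_cancel, map_one, Units.val_one]
    simp only [mul_f, inv_f, one_f, inv_smul_smul]
    linear_combination -h * x.f z w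

/-- the first projection -/
def ahom : Big →* GL (Fin 2) ℝ where
  toFun := a
  map_one' := rfl
  map_mul' _ _ := rfl

/-- the second projection -/
def bhom : Big →* GL (Fin 2) ℝ where
  toFun := b
  map_one' := rfl
  map_mul' _ _ := rfl

@[simp] lemma ahom_apply (x : Big) : ahom x = x.a := rfl
@[simp] lemma bhom_apply (x : Big) : bhom x = x.b := rfl

end Big

open DihedralGroup

/-- the phases -/
def κ (i : ZMod 3) : ℝ := -(2 * Real.pi / 3) * (i.val : ℝ)

/-- cube roots of unity -/
def ζ (i : ZMod 3) : ℂ := Complex.exp ((κ i : ℝ) * Complex.I)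

/-- a primitive one -/
def om0 : ℂ := Complex.exp ((-(2 * Real.pi / 3) : ℝ) * Complex.I)

lemma om0_cube : om0 ^ 3 = 1 := by
  unfold om0
  rw [← Complex.exp_nat_mul]
  have : ((3 : ℕ) : ℂ) * (((-(2 * Real.pi / 3) : ℝ) : ℂ) * Complex.I) =
    -(2 * Real.pi * Complex.I) := by
    push_cast; ring
  rw [this, Complex.exp_neg, Complex.exp_two_pi_mul_I, inv_one]

lemma ζ_eq (i : ZMod 3) : ζ i = om0 ^ i.val := by
  unfold ζ om0 κ
  rw [← Complex.exp_nat_mul]
  congr 1
  push_cast; ring

lemma ζ_add (i j : ZMod 3) : ζ (i + j) = ζ i * ζ j := by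
  rw [ζ_eq, ζ_eq, ζ_eq, ZMod.val_add, ← pow_add]
  conv_rhs => rw [← Nat.mod_add_div (i.val + j.val) 3, pow_add, pow_mul, om0_cube, one_pow, mul_one]

lemma ζ_zero : ζ 0 = 1 := by simp [ζ, κ]

lemma ζ_sub (i j : ZMod 3) : ζ (j - i) = (ζ i)⁻¹ * ζ j := by
  have h : ζ (j - i) * ζ i = ζ j := by rw [← ζ_add, sub_add_cancel]
  have h0 : ζ i ≠ 0 := Complex.exp_ne_zero _
  field_simp
  linear_combination h

/-- sign of an element of the dihedral group -/
def sgn : DihedralGroup 3 → ℝ
  | r _ => 1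
  | sr _ => -1

/-- phase of an element of the dihedral group -/
def om : DihedralGroup 3 → ℂ
  | r i => ζ i
  | sr i => ζ i

/-- compatibility of the function with the matrices -/
def Good (x : Big) (q : DihedralGroup 3) : Prop :=
  x.a.det.val = sgn q ∧ x.b.det.val = sgn q ∧ (Continuous fun p : ℍ × ℍ => x.f p.1 p.2) ∧
    ∀ z w, Complex.exp ((x.f z w : ℝ) * Complex.I) = om q * U x.a z * (U x.b w ^ 2)⁻¹

lemma Good.one : Good 1 1 := by
  rw [Good, one_def]
  refine ⟨?_, ?_, continuous_const, ?_⟩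
  · simp only [Big.one_a, map_one, Units.val_one, sgn]
  · simp only [Big.one_b, map_one, Units.val_one, sgn]
  · intro z w
    simp only [Big.one_f, Big.one_a, Big.one_b, om, ζ_zero, U_one]
    simp

lemma Good.mul {x y : Big} {p q : DihedralGroup 3} (hx : Good x p) (hy : Good y q) :
    Good (x * y) (p * q) := by
  obtain ⟨x1, x2, x3, x4⟩ := hx
  obtain ⟨y1, y2, y3, y4⟩ := hy
  have hc : Continuous fun p : ℍ × ℍ => (x * y).f p.1 p.2 := by
    have h1 : Continuous fun p : ℍ × ℍ => (y.a • p.1, y.b • p.2) :=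
      ((continuous_const_smul y.a).comp continuous_fst).prodMk
        ((continuous_const_smul y.b).comp continuous_snd)
    have h2 := x3.comp h1
    have : (fun p : ℍ × ℍ => (x * y).f p.1 p.2) = fun p : ℍ × ℍ =>
      y.a.det.val * ((fun p : ℍ × ℍ => x.f p.1 p.2) ∘ fun p : ℍ × ℍ => (y.a • p.1, y.b • p.2)) p
        + y.f p.1 p.2 := rfl
    rw [this]
    exact (continuous_const.mul h2).add y3
  refine ⟨?_, ?_, hc, ?_⟩
  · simp only [Big.mul_a, map_mul, Units.val_mul, x1, y1]
    cases p <;> cases q <;> simp [sgn]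
  · simp only [Big.mul_b, map_mul, Units.val_mul, x2, y2]
    cases p <;> cases q <;> simp [sgn]
  · intro z w
    rw [Big.mul_f, Big.mul_a, Big.mul_b, y1]
    have h1 := x4 (y.a • z) (y.b • w)
    have h2 := y4 z w
    have n1 := U_ne_zero x.a (y.a • z)
    have n2 := U_ne_zero x.b (y.b • w)
    have n3 := U_ne_zero y.a z
    have n4 := U_ne_zero y.b w
    cases q with
    | r j =>
      have hpa : 0 < y.a.det.val := by rw [y1]; simp [sgn]
      have hpb : 0 < y.b.det.val := by rw [y2]; simp [sgn]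
      rw [U_mul_pos _ _ hpa, U_mul_pos _ _ hpb]
      have e : (((sgn (r j) * x.f (y.a • z) (y.b • w) + y.f z w : ℝ)) : ℂ) * Complex.I =
        (x.f (y.a • z) (y.b • w) : ℝ) * Complex.I + (y.f z w : ℝ) * Complex.I := by
        simp [sgn]; ring
      rw [e, Complex.exp_add, h1, h2]
      have e2 : om (p * r j) = om p * om (r j) := by
        cases p <;> simp [om, ζ_add]
      rw [e2]
      field_simp
    | sr j =>
      have hpa : y.a.det.val < 0 := by rw [y1]; simp [sgn]
      have hpb : y.b.det.val < 0 := by rw [y2]; simp [sgn]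
      rw [U_mul_neg _ _ hpa, U_mul_neg _ _ hpb]
      have e : (((sgn (sr j) * x.f (y.a • z) (y.b • w) + y.f z w : ℝ)) : ℂ) * Complex.I =
        -((x.f (y.a • z) (y.b • w) : ℝ) * Complex.I) + (y.f z w : ℝ) * Complex.I := by
        simp [sgn]; ring
      rw [e, Complex.exp_add, Complex.exp_neg, h1, h2]
      have e2 : om (p * sr j) = (om p)⁻¹ * om (sr j) := by
        cases p <;> simp [om, ζ_sub]
      have n5 : om p ≠ 0 := by cases p <;> exact Complex.exp_ne_zero _
      rw [e2]
      field_simp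

/-- A continuous function with values in `2 π ℤ` is constant. -/
lemma const_of_exp {X : Type*} [TopologicalSpace X] [PreconnectedSpace X] (f : X → ℝ)
    (hf : Continuous f) (h : ∀ x, Complex.exp ((f x : ℝ) * Complex.I) = 1) (x y : X) :
    f x = f y := by
  have hlc : IsLocallyConstant f := by
    rw [IsLocallyConstant.iff_eventually_eq]
    intro x
    have h1 := hf.continuousAt (x := x) (Metric.ball_mem_nhds (f x) (one_pos))
    filter_upwards [h1] with y hy
    have hy' : |f y - f x| < 1 := by simpa [Real.dist_eq] using hy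
    have e : Complex.exp (((f y - f x : ℝ)) * Complex.I) = 1 := by
      push_cast
      rw [sub_mul, Complex.exp_sub, h x, h y, div_one]
    rw [Complex.exp_eq_one_iff] at e
    obtain ⟨n, hn⟩ := e
    have hn' : f y - f x = n * (2 * Real.pi) := by
      have : ((f y - f x : ℝ) : ℂ) = ((n * (2 * Real.pi) : ℝ) : ℂ) := by
        apply mul_right_cancel₀ Complex.I_ne_zero
        rw [hn]; push_cast; ring
      exact_mod_cast this
    have hpi := Real.pi_gt_three
    have hn0 : n = 0 := by
      by_contra hne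
      have h1 : (1 : ℝ) ≤ |(n : ℝ)| := by
        have := Int.one_le_abs hne
        exact_mod_cast this
      rw [hn', abs_mul, abs_of_pos (by positivity : (0 : ℝ) < 2 * Real.pi)] at hy'
      nlinarith
    rw [hn0] at hn'
    simp at hn'
    linarith
  exact hlc.apply_eq_of_preconnectedSpace x y

end

end Pool.Agent.H838
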