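import Pool.Agent.H838.Fund

/-!
# The contraction
-/

set_option autoImplicit false

namespace Pool.Agent.H838

open UpperHalfPlane Matrix

noncomputable section

/-- comparison of two triangles -/
lemma cosh_compare (T T' : Tri) (hlt : T'.C < T.C) {z w z' w' : ℍ} {k k' : ℝ}
    (hz : z ∈ T.Tr) (hw : w ∈ T.Tr) (hk : 0 < k) (hk' : 0 < k')
    (h1 : ∀ i, T'.l i z' = k * T.l i z) (h2 : ∀ i, T'.l i w' = k' * T.l i w) :
    (2 * T.C - 1) * (1 + T'.C) * (Real.cosh (dist z' w') - 1) ≤
      (2 * T'.C - 1) * (1 + T.C) * (Real.cosh (dist z w) - 1) := by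
  have hC := T.hC
  have hC' := T'.hC
  have d1 := T.dual_pt z w
  have d2 := T.dual_self z
  have d3 := T.dual_self w
  have d1' := T'.dual_pt z' w'
  have d2' := T'.dual_self z'
  have d3' := T'.dual_self w'
  have hSz := T.S_nonneg hz
  have hSw := T.S_nonneg hw
  have hSz2 := T.S_sq_ge z
  have hSw2 := T.S_sq_ge w
  have eSz : T'.S z' = k * T.S z := by unfold Tri.S; rw [h1, h1, h1]; ring
  have eSw : T'.S w' = k' * T.S w := by unfold Tri.S; rw [h2, h2, h2]; ring
  have ePzw : T'.Pr z' w' = k * k' * T.Pr z w := by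
    unfold Tri.Pr; rw [h1, h1, h1, h2, h2, h2]; ring
  have ePzz : T'.Pr z' z' = k ^ 2 * T.Pr z z := by unfold Tri.Pr; rw [h1, h1, h1]; ring
  have ePww : T'.Pr w' w' = k' ^ 2 * T.Pr w w := by unfold Tri.Pr; rw [h2, h2, h2]; ring
  rw [eSz, eSw, ePzw] at d1'
  rw [eSz, ePzz] at d2'
  rw [eSw, ePww] at d3'
  set C := T.C
  set C' := T'.C
  set D := Real.cosh (dist z w)
  set D' := Real.cosh (dist z' w')
  have hD : 1 ≤ D := Real.one_le_cosh _
  set x := T.S z
  set y := T.S w
  -- main identities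
  have m1 : (2 * C - 1) * ((1 + C') * (2 * C' - 1)) * D' =
      k * k' * ((2 * C' - 1) * ((1 + C) * (2 * C - 1)) * D + (C - C') * x * y) := by
    linear_combination (2 * C - 1) * d1' - k * k' * (2 * C' - 1) * d1
  have m2 : (2 * C - 1) * ((1 + C') * (2 * C' - 1)) =
      k ^ 2 * ((2 * C' - 1) * ((1 + C) * (2 * C - 1)) + (C - C') * x ^ 2) := by
    linear_combination (2 * C - 1) * d2' - k ^ 2 * (2 * C' - 1) * d2
  have m3 : (2 * C - 1) * ((1 + C') * (2 * C' - 1)) =
      k' ^ 2 * ((2 * C' - 1) * ((1 + C) * (2 * C - 1)) + (C - C') * y ^ 2) := by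
    linear_combination (2 * C - 1) * d3' - k' ^ 2 * (2 * C' - 1) * d3
  set A := (2 * C' - 1) * ((1 + C) * (2 * C - 1)) with hA
  set B := (2 * C - 1) * ((1 + C') * (2 * C' - 1)) with hB
  have hApos : 0 < A := by
    rw [hA]
    exact mul_pos (by linarith) (mul_pos (by linarith) (by linarith))
  have hBpos : 0 < B := by
    rw [hB]
    exact mul_pos (by linarith) (mul_pos (by linarith) (by linarith))
  have hδ : 0 < C - C' := by linarith
  have cs1 : k * k' * (A + (C - C') * x * y) ≤ B := by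
    apply le_of_sq_le_sq _ hBpos.le
    have e : B ^ 2 = (k ^ 2 * (A + (C - C') * x ^ 2)) * (k' ^ 2 * (A + (C - C') * y ^ 2)) := by
      rw [← m2, ← m3]; ring
    rw [e]
    have e2 : (k ^ 2 * (A + (C - C') * x ^ 2)) * (k' ^ 2 * (A + (C - C') * y ^ 2)) -
      (k * k' * (A + (C - C') * x * y)) ^ 2 = k ^ 2 * k' ^ 2 * (A * (C - C')) * (x - y) ^ 2 := by
      ring
    have : 0 ≤ k ^ 2 * k' ^ 2 * (A * (C - C')) * (x - y) ^ 2 := by positivity
    linarith
  -- bound on `k`
  have bk : ∀ (κ s : ℝ), B = κ ^ 2 * (A + (C - C') * s ^ 2) → 3 * (2 * C - 1) ≤ s ^ 2 →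
      (2 * C - 1) * κ ^ 2 ≤ 2 * C' - 1 := by
    intro κ s hκ hs
    have a1 : κ ^ 2 * (A + (C - C') * (3 * (2 * C - 1))) ≤ B := by
      rw [hκ]
      apply mul_le_mul_of_nonneg_left _ (sq_nonneg κ)
      nlinarith
    have a2 : A + (C - C') * (3 * (2 * C - 1)) = (2 * C - 1) ^ 2 * (1 + C') := by
      rw [hA]; ring
    rw [a2, hB] at a1
    have a3 : ((2 * C - 1) * (1 + C')) * ((2 * C - 1) * κ ^ 2) ≤
      ((2 * C - 1) * (1 + C')) * (2 * C' - 1) := by nlinarith
    exact le_of_mul_le_mul_left a3 (mul_pos (by linarith) (by linarith))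
  have b1 := bk k x m2 hSz2
  have b2 := bk k' y m3 hSw2
  have b3 : (2 * C - 1) * (k * k') ≤ 2 * C' - 1 := by
    have : k * k' ≤ (k ^ 2 + k' ^ 2) / 2 := by nlinarith [sq_nonneg (k - k')]
    have := mul_le_mul_of_nonneg_left this (by linarith : (0 : ℝ) ≤ 2 * C - 1)
    linarith
  -- conclusion
  have c1 : B * (D' - 1) ≤ k * k' * A * (D - 1) := by
    have : B * (D' - 1) = k * k' * A * (D - 1) + (k * k' * (A + (C - C') * x * y) - B) := by
      linear_combination m1
    linarith
  have c2 : (2 * C - 1) * (B * (D' - 1)) ≤ (2 * C' - 1) * (A * (D - 1)) := by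
    have h3 := mul_le_mul_of_nonneg_left c1 (by linarith : (0 : ℝ) ≤ 2 * C - 1)
    have h4 := mul_le_mul_of_nonneg_right b3 (mul_nonneg hApos.le (by linarith : 0 ≤ D - 1))
    nlinarith
  have c3 : ((2 * C - 1) * (2 * C' - 1)) * ((2 * C - 1) * (1 + C') * (D' - 1)) ≤
      ((2 * C - 1) * (2 * C' - 1)) * ((2 * C' - 1) * (1 + C) * (D - 1)) := by
    have e1 : ((2 * C - 1) * (2 * C' - 1)) * ((2 * C - 1) * (1 + C') * (D' - 1)) =
      (2 * C - 1) * (B * (D' - 1)) := by rw [hB]; ring
    have e2 : ((2 * C - 1) * (2 * C' - 1)) * ((2 * C' - 1) * (1 + C) * (D - 1)) =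
      (2 * C' - 1) * (A * (D - 1)) := by rw [hA]; ring
    rw [e1, e2]
    exact c2
  exact le_of_mul_le_mul_left c3 (mul_pos (by linarith) (by linarith))

lemma T2_lt_T1 : T2.C < T1.C := by
  show Real.cos (Real.pi / (5 : ℕ)) < Real.cos (Real.pi / (15 : ℕ))
  have hpi := Real.pi_pos
  apply Real.cos_lt_cos_of_nonneg_of_le_pi
  · positivity
  · push_cast; linarith
  · push_cast; linarith

/-- the squared contraction constant -/
def E : ℝ := (2 * T2.C - 1) * (1 + T1.C) / ((2 * T1.C - 1) * (1 + T2.C))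

/-- the contraction constant -/
def ε : ℝ := Real.sqrt E

lemma E_pos : 0 < E := by
  have h1 := T1.hC
  have h2 := T2.hC
  unfold E
  apply div_pos <;> apply mul_pos <;> linarith

lemma E_lt : E < 1 := by
  have h1 := T1.hC
  have h2 := T2.hC
  have h3 := T2_lt_T1
  unfold E
  rw [div_lt_one (mul_pos (by linarith) (by linarith))]
  nlinarith

lemma ε_pos : 0 < ε := Real.sqrt_pos.mpr E_pos

lemma ε_lt : ε < 1 := by
  unfold ε
  rw [Real.sqrt_lt' one_pos, one_pow]
  exact E_lt

lemma ε_sq : ε ^ 2 = E := Real.sq_sqrt E_pos.le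

lemma cosh_sub_one (d : ℝ) : Real.cosh d - 1 = 2 * Real.sinh (d / 2) ^ 2 := by
  have h := Real.cosh_two_mul (d / 2)
  rw [show 2 * (d / 2) = d by ring] at h
  have h2 := Real.cosh_sq (d / 2)
  rw [h, h2]; ring

lemma exists_F (z : ℍ) : ∃ z' : ℍ, z ∈ T1.Tr → ∃ k : ℝ, 0 < k ∧ ∀ i, T2.l i z' = k * T1.l i z := by
  by_cases hz : z ∈ T1.Tr
  · obtain ⟨z', k, hk, h⟩ := T2.exists_pt (fun i => T1.l i z) hz (by
      have h0 := hz 0
      have h1 := hz 1
      have h2 := hz 2
      have hC := T2.hC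
      have hC1 := T2.hC1
      have hC0 := T1.hC
      have hS := T1.S_sq_ge z
      unfold Tri.S at hS
      have h3 : T1.l 0 z ^ 2 + T1.l 1 z ^ 2 + T1.l 2 z ^ 2 ≤
          (T1.l 0 z + T1.l 1 z + T1.l 2 z) ^ 2 := by
        nlinarith [mul_nonneg h0 h1, mul_nonneg h0 h2, mul_nonneg h1 h2]
      have h4 := mul_le_mul_of_nonneg_left h3 (by linarith : (0 : ℝ) ≤ 2 * T2.C - 1)
      have h5 : 0 < (1 - T2.C) * (T1.l 0 z + T1.l 1 z + T1.l 2 z) ^ 2 := by
        apply mul_pos (by linarith)
        linarith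
      nlinarith)
    exact ⟨z', fun _ => ⟨k, hk, h⟩⟩
  · exact ⟨z, fun h => absurd h hz⟩

/-- the comparison map -/
def F (z : ℍ) : ℍ := (exists_F z).choose

lemma F_spec {z : ℍ} (hz : z ∈ T1.Tr) :
    ∃ k : ℝ, 0 < k ∧ ∀ i, T2.l i (F z) = k * T1.l i z := (exists_F z).choose_spec hz

lemma sinh_F {z w : ℍ} (hz : z ∈ T1.Tr) (hw : w ∈ T1.Tr) :
    Real.sinh (dist (F z) (F w) / 2) ≤ ε * Real.sinh (dist z w / 2) := by
  obtain ⟨k, hk, h1⟩ := F_spec hz
  obtain ⟨k', hk', h2⟩ := F_spec hw
  have h := cosh_compare T1 T2 T2_lt_T1 hz hw hk hk' h1 h2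
  rw [cosh_sub_one, cosh_sub_one] at h
  have hC := T1.hC
  have hC2 := T2.hC
  have hpos : 0 < (2 * T1.C - 1) * (1 + T2.C) := mul_pos (by linarith) (by linarith)
  have h3 : Real.sinh (dist (F z) (F w) / 2) ^ 2 ≤ E * Real.sinh (dist z w / 2) ^ 2 := by
    unfold E
    rw [div_mul_eq_mul_div, le_div_iff₀ hpos]
    nlinarith
  have h4 : 0 ≤ Real.sinh (dist z w / 2) := Real.sinh_nonneg_iff.mpr (by positivity)
  apply le_of_sq_le_sq _ (mul_nonneg ε_pos.le h4)
  rw [mul_pow, ε_sq]
  exact h3

lemma dist_F_aux (n : ℕ) : ∀ {z w : ℍ}, z ∈ T1.Tr → w ∈ T1.Tr →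
    dist (F z) (F w) ≤ 2 ^ (n + 1) * ε * Real.sinh (dist z w / 2 ^ (n + 1)) := by
  induction n with
  | zero =>
    intro z w hz hw
    have h := sinh_F hz hw
    have h1 : dist (F z) (F w) / 2 ≤ Real.sinh (dist (F z) (F w) / 2) :=
      Real.self_le_sinh_iff.mpr (by positivity)
    simp only [zero_add, pow_one]
    linarith
  | succ n ih =>
    intro z w hz hw
    obtain ⟨y, c, hc, hp, hq, hr, d1, d2⟩ := midpt z w
    have hy : y ∈ T1.Tr := by
      intro i
      have e : T1.l i y = c * (T1.l i z + T1.l i w) := by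
        simp only [T1.l_def]
        rw [hp, hq, hr]; ring
      rw [e]
      exact mul_nonneg hc.le (add_nonneg (hz i) (hw i))
    have h1 := ih hz hy
    have h2 := ih hy hw
    rw [d1] at h1
    rw [d2] at h2
    have h3 := dist_triangle (F z) (F y) (F w)
    have e : dist z w / 2 / 2 ^ (n + 1) = dist z w / 2 ^ (n + 1 + 1) := by
      rw [pow_succ (2 : ℝ) (n + 1)]
      field_simp
    rw [e] at h1 h2
    have e2 : (2 : ℝ) ^ (n + 1 + 1) = 2 * 2 ^ (n + 1) := by ring
    rw [e2] at h1 h2 ⊢
    linarith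

lemma sinh_le_mul_cosh {x : ℝ} (hx : 0 ≤ x) : Real.sinh x ≤ x * Real.cosh x := by
  have h : ∀ y : ℝ, 0 ≤ y → 0 ≤ y * Real.cosh y - Real.sinh y := by
    intro y hy
    have hmono : MonotoneOn (fun y : ℝ => y * Real.cosh y - Real.sinh y) (Set.Ici 0) := by
      apply monotoneOn_of_deriv_nonneg (convex_Ici 0)
      · have h1 := Real.continuous_cosh
        have h2 := Real.continuous_sinh
        fun_prop
      · intro y _
        exact ((differentiableAt_id.mul Real.differentiable_cosh.differentiableAt).sub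
          Real.differentiable_sinh.differentiableAt).differentiableWithinAt
      · intro y hy
        rw [interior_Ici] at hy
        have hd : HasDerivAt (fun y : ℝ => y * Real.cosh y - Real.sinh y)
            (1 * Real.cosh y + y * Real.sinh y - Real.cosh y) y :=
          ((hasDerivAt_id y).mul (Real.hasDerivAt_cosh y)).sub (Real.hasDerivAt_sinh y)
        rw [hd.deriv]
        have : 0 ≤ y * Real.sinh y :=
          mul_nonneg (le_of_lt hy) (Real.sinh_nonneg_iff.mpr (le_of_lt hy))
        linarith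
    have := hmono (Set.mem_Ici.mpr le_rfl) (Set.mem_Ici.mpr hy) hy
    simpa using this
  linarith [h x hx]

/-- `F` contracts on the triangle. -/
lemma dist_F {z w : ℍ} (hz : z ∈ T1.Tr) (hw : w ∈ T1.Tr) :
    dist (F z) (F w) ≤ ε * dist z w := by
  have hle : ∀ n : ℕ, dist (F z) (F w) ≤
      ε * dist z w * Real.cosh (dist z w / 2 ^ (n + 1)) := by
    intro n
    have h1 := dist_F_aux n hz hw
    have h2 := sinh_le_mul_cosh (x := dist z w / 2 ^ (n + 1)) (by positivity)
    have h3 : 2 ^ (n + 1) * ε * Real.sinh (dist z w / 2 ^ (n + 1)) ≤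
        2 ^ (n + 1) * ε * (dist z w / 2 ^ (n + 1) * Real.cosh (dist z w / 2 ^ (n + 1))) :=
      mul_le_mul_of_nonneg_left h2 (mul_nonneg (by positivity) ε_pos.le)
    have e : 2 ^ (n + 1) * ε * (dist z w / 2 ^ (n + 1) * Real.cosh (dist z w / 2 ^ (n + 1))) =
        ε * dist z w * Real.cosh (dist z w / 2 ^ (n + 1)) := by
      field_simp
    linarith
  have hlim : Filter.Tendsto (fun n : ℕ => ε * dist z w * Real.cosh (dist z w / 2 ^ (n + 1)))
      Filter.atTop (nhds (ε * dist z w * Real.cosh 0)) := by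
    apply Filter.Tendsto.const_mul
    apply (Real.continuous_cosh.tendsto 0).comp
    have h1 : Filter.Tendsto (fun n : ℕ => (2 : ℝ) ^ (n + 1)) Filter.atTop Filter.atTop :=
      (tendsto_pow_atTop_atTop_of_one_lt one_lt_two).comp (Filter.tendsto_add_atTop_nat 1)
    exact h1.const_div_atTop _
  rw [Real.cosh_zero, mul_one] at hlim
  exact ge_of_tendsto' hlim hle

/-- The equivariant contraction. -/
theorem contr (w : W) : ∀ {x y : ℍ}, x ∈ T1.Tr → y ∈ T1.Tr →
    dist (F x) (rh w • F y) ≤ ε * dist x (jh w • y) := by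
  obtain ⟨n, hn⟩ : ∃ n, cs.length w = n := ⟨_, rfl⟩
  induction n using Nat.strong_induction_on generalizing w with
  | _ n ih =>
    intro x y hx hy
    by_cases hw : w = 1
    · subst hw
      simpa using dist_F hx hy
    -- the exit step
    have step : ∀ (i : Fin 3) (p : ℍ), cs.IsLeftDescent w i → p ∈ T1.Tr → T1.l i p = 0 →
        dist x p + dist p (jh w • y) = dist x (jh w • y) →
        dist (F x) (rh w • F y) ≤ ε * dist x (jh w • y) := by
      intro i p hi hp hip hd
      have hlen : cs.length (cs.simple i * w) < n := by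
        have := cs.isLeftDescent_iff.mp hi
        omega
      have h1 := ih _ hlen (cs.simple i * w) rfl hp hy
      have ep : T1.A i • p = p := (T1.fixed_iff i p).mpr hip
      obtain ⟨k, hk, hF⟩ := F_spec hp
      have eFp : T2.A i • F p = F p := (T2.fixed_iff i _).mpr (by rw [hF i, hip, mul_zero])
      have e1 : dist p (jh (cs.simple i * w) • y) = dist p (jh w • y) := by
        rw [map_mul, mul_smul, jh_s]
        conv_lhs => rw [← ep]
        exact dist_smul_gl _ (T1.abs_det_A i) _ _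
      have e2 : dist (F p) (rh (cs.simple i * w) • F y) = dist (F p) (rh w • F y) := by
        rw [map_mul, mul_smul, rh_s]
        conv_lhs => rw [← eFp]
        exact dist_smul_gl _ (T2.abs_det_A i) _ _
      rw [e1, e2] at h1
      have h2 := dist_F hx hp
      have h3 := dist_triangle (F x) (F p) (rh w • F y)
      calc dist (F x) (rh w • F y) ≤ ε * dist x p + ε * dist p (jh w • y) := by linarith
        _ = ε * dist x (jh w • y) := by rw [← mul_add, hd]
    set z := jh w • y with hz
    by_cases hcase : ∃ i, T1.l i z < 0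
    · -- choose the wall which is met first
      let s : Finset (Fin 3) := Finset.univ.filter (fun i => T1.l i z < 0)
      have hs : s.Nonempty := by
        obtain ⟨i, hi⟩ := hcase
        exact ⟨i, by simp [s, hi]⟩
      obtain ⟨i, his, hmin⟩ := s.exists_min_image
        (fun i => T1.l i x / (T1.l i x - T1.l i z)) hs
      have hi : T1.l i z < 0 := by simpa [s] using his
      have hxi : 0 ≤ T1.l i x := hx i
      set u := T1.l i x / (T1.l i x - T1.l i z) with hu
      have hu0 : 0 ≤ u := div_nonneg hxi (by linarith)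
      have hu1 : u ≤ 1 := by
        rw [hu, div_le_one (by linarith)]; linarith
      obtain ⟨p, c, hc, hp, hq, hr, hd, -⟩ := seg x z u hu0 hu1
      have hlp : ∀ k, T1.l k p = c * ((1 - u) * T1.l k x + u * T1.l k z) := by
        intro k
        simp only [T1.l_def]
        rw [hp, hq, hr]; ring
      have hdesc : cs.IsLeftDescent w i := by
        by_contra hnd
        have := (pos w i hnd y hy).1
        rw [← hz] at this
        linarith
      apply step i p hdesc _ _ hd
      · intro k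
        rw [hlp k]
        apply mul_nonneg hc.le
        by_cases hk : T1.l k z < 0
        · have h1 := hmin k (by simp [s, hk])
          have h2 : 0 < T1.l k x - T1.l k z := by have := hx k; linarith
          have h3 : u * (T1.l k x - T1.l k z) ≤ T1.l k x := by
            rw [le_div_iff₀ h2] at h1
            exact h1
          linarith
        · push Not at hk
          exact add_nonneg (mul_nonneg (by linarith) (hx k)) (mul_nonneg hu0 hk)
      · rw [hlp i]
        have h2 : T1.l i x - T1.l i z ≠ 0 := by linarith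
        have h3 : u * (T1.l i x - T1.l i z) = T1.l i x := by
          rw [hu]; field_simp
        have : (1 - u) * T1.l i x + u * T1.l i z = 0 := by linarith
        rw [this, mul_zero]
    · push Not at hcase
      obtain ⟨i, hi⟩ := cs.exists_leftDescent_of_ne_one hw
      have h1 := (neg' w i hi y hy).1
      rw [← hz] at h1
      exact step i z hi hcase (le_antisymm h1 (hcase i)) (by simp)

end

end Pool.Agent.H838
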