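import Pool.Agent.H838.Grp

/-!
# The covering map, and connectedness
-/

set_option autoImplicit false

namespace Pool.Agent.H838

open UpperHalfPlane Matrix Topology
open scoped MatrixGroups

noncomputable section

instance : LocallyCompactSpace (Matrix (Fin 2) (Fin 2) ℝ) :=
  inferInstanceAs (LocallyCompactSpace (Fin 2 → Fin 2 → ℝ))

instance : SigmaCompactSpace (Matrix (Fin 2) (Fin 2) ℝ) :=
  inferInstanceAs (SigmaCompactSpace (Fin 2 → Fin 2 → ℝ))

instance : LocallyCompactSpace SL(2, ℝ) :=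
  (Matrix.SpecialLinearGroup.isClosedEmbedding_val (n := Fin 2) (R := ℝ)).locallyCompactSpace

instance : SigmaCompactSpace SL(2, ℝ) :=
  (Matrix.SpecialLinearGroup.isClosedEmbedding_val (n := Fin 2) (R := ℝ)).sigmaCompactSpace

namespace Gp

instance : LocallyCompactSpace Gp := isClosedEmbedding_coord.locallyCompactSpace

instance : SigmaCompactSpace Gp := isClosedEmbedding_coord.sigmaCompactSpace

/-- the covering homomorphism -/
def pr : Gp →* SL(2, ℝ) × SL(2, ℝ) where
  toFun x := (x.g1, x.g2)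
  map_one' := rfl
  map_mul' _ _ := rfl

lemma pr_apply (x : Gp) : pr x = (x.g1, x.g2) := rfl

lemma continuous_pr : Continuous pr := continuous_g1.prodMk continuous_g2

lemma exists_of (g1 g2 : SL(2, ℝ)) : ∃ x : Gp, x.g1 = g1 ∧ x.g2 = g2 := by
  set c : ℂ := U (tg g1) I * (U (tg g2) I ^ 2)⁻¹ with hc
  have hn : ‖c‖ = 1 := by
    rw [hc, norm_mul, norm_inv, norm_pow, norm_U, norm_U]; norm_num
  have h := Complex.norm_mul_exp_arg_mul_I c
  rw [hn, Complex.ofReal_one, one_mul] at h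
  exact ⟨mk' g1 g2 (Complex.arg c) h, rfl, rfl⟩

lemma pr_surjective : Function.Surjective pr := by
  rintro ⟨g1, g2⟩
  obtain ⟨x, h1, h2⟩ := exists_of g1 g2
  exact ⟨x, by rw [pr_apply, h1, h2]⟩

lemma ker_f {x : Gp} (hx : pr x = 1) (z w : ℍ) : x.f z w = x.f I I ∧
    ∃ n : ℤ, x.f I I = n * (2 * Real.pi) := by
  rw [pr_apply, Prod.mk_eq_one] at hx
  constructor
  · rw [f_eq x z w, hx.1, hx.2]; simp
  · have h := x.he I I
    rw [hx.1, hx.2, map_one, U_one, one_pow, inv_one, one_mul, Complex.exp_eq_one_iff] at h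
    obtain ⟨n, hn⟩ := h
    refine ⟨n, ?_⟩
    have : ((x.f I I : ℝ) : ℂ) = ((n * (2 * Real.pi) : ℝ) : ℂ) := by
      apply mul_right_cancel₀ Complex.I_ne_zero
      rw [hn]; push_cast; ring
    exact_mod_cast this

/-- the generator of the kernel -/
def zed (n : ℤ) : Gp := mk' 1 1 (n * (2 * Real.pi)) (by
  rw [map_one, U_one, one_pow, inv_one, one_mul, Complex.exp_eq_one_iff]
  exact ⟨n, by push_cast; ring⟩)

@[simp] lemma zed_g1 (n : ℤ) : (zed n).g1 = 1 := rfl
@[simp] lemma zed_g2 (n : ℤ) : (zed n).g2 = 1 := rfl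
@[simp] lemma zed_f (n : ℤ) (z w : ℍ) : (zed n).f z w = n * (2 * Real.pi) := by
  rw [f_eq]
  simp [zed]

lemma mem_ker_iff {x : Gp} : x ∈ pr.ker ↔ ∃ n : ℤ, x = zed n := by
  rw [MonoidHom.mem_ker]
  constructor
  · intro hx
    obtain ⟨n, hn⟩ := (ker_f hx I I).2
    rw [pr_apply, Prod.mk_eq_one] at hx
    exact ⟨n, ext' hx.1 hx.2 (by rw [hn]; simp)⟩
  · rintro ⟨n, rfl⟩
    rfl

lemma isDiscrete_ker : IsDiscrete (pr.ker : Set Gp) := by
  rw [isDiscrete_iff_forall_mem_exists_isOpen]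
  intro y hy
  obtain ⟨n, rfl⟩ := mem_ker_iff.mp hy
  refine ⟨{x : Gp | |x.f I I - n * (2 * Real.pi)| < 1}, ?_, ?_⟩
  · exact isOpen_lt ((continuous_f0.sub continuous_const).abs) continuous_const
  · ext x
    constructor
    · rintro ⟨h1, h2⟩
      obtain ⟨m, rfl⟩ := mem_ker_iff.mp h2
      have h3 : |(zed m).f I I - n * (2 * Real.pi)| < 1 := h1
      rw [zed_f, ← sub_mul, abs_mul, abs_of_pos (by positivity : (0 : ℝ) < 2 * Real.pi)] at h3
      have hpi := Real.pi_gt_three
      have hmn : m = n := by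
        by_contra hne
        have h4 : (1 : ℝ) ≤ |(m : ℝ) - n| := by
          have := Int.one_le_abs (sub_ne_zero.mpr hne)
          exact_mod_cast this
        nlinarith
      rw [hmn]
      rfl
    · rintro rfl
      refine ⟨?_, hy⟩
      show |(zed n).f I I - n * (2 * Real.pi)| < 1
      rw [zed_f, sub_self, abs_zero]
      exact one_pos

lemma isCoveringMap_pr : IsCoveringMap pr := by
  have hopen : IsOpenMap pr := pr.isOpenMap_of_sigmaCompact pr_surjective continuous_pr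
  have hq : IsQuotientMap pr := hopen.isQuotientMap continuous_pr pr_surjective
  exact (hq.isQuotientCoveringMap_of_isDiscrete_ker_monoidHom isDiscrete_ker).isCoveringMap

/-- rotations -/
def rot (θ : ℝ) : SL(2, ℝ) := ⟨!![Real.cos θ, -Real.sin θ; Real.sin θ, Real.cos θ], by
  rw [Matrix.det_fin_two_of]
  have := Real.cos_sq_add_sin_sq θ
  linarith⟩

lemma rot_smul_I (θ : ℝ) : rot θ • I = I := by
  have h := (gl_smul_I_eq_I_iff_of_pos (g := tg (rot θ)) (by rw [det_tg]; exact one_pos)).mpr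
  apply h
  simp only [tg_apply]
  constructor
  · simp [rot]
  · simp [rot]

lemma U_rot (θ : ℝ) : U (tg (rot θ)) I = Complex.exp ((θ : ℝ) * Complex.I) := by
  have h : denom (tg (rot θ)) I = Complex.exp ((θ : ℝ) * Complex.I) := by
    rw [denom_tg, Complex.exp_mul_I]
    simp [rot]
    ring
  unfold U
  rw [h, Complex.norm_exp_ofReal_mul_I]
  simp

lemma U_toSL2R (τ : ℍ) : U (tg τ.toSL2R) I = 1 := by
  have h : denom (tg τ.toSL2R) I = ((1 / Real.sqrt τ.im : ℝ) : ℂ) := by
    rw [denom_tg]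
    simp
  have hp : 0 < 1 / Real.sqrt τ.im := by
    have := Real.sqrt_pos.mpr τ.im_pos
    positivity
  unfold U
  rw [h, Complex.norm_real, Real.norm_of_nonneg hp.le]
  exact div_self (by exact_mod_cast hp.ne')

lemma U_bk (τ : ℍ) (θ : ℝ) :
    U (tg (τ.toSL2R * rot θ)) I = Complex.exp ((θ : ℝ) * Complex.I) := by
  rw [U_mul_tg, rot_smul_I, U_rot, U_toSL2R, one_mul]

lemma exists_bk (g : SL(2, ℝ)) : ∃ (τ : ℍ) (θ : ℝ), g = τ.toSL2R * rot θ := by
  set τ := g • I with hτ
  set k := (τ.toSL2R)⁻¹ * g with hk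
  have hkI : tg k • I = I := by
    show k • I = I
    rw [hk, mul_smul, ← hτ, inv_smul_eq_iff, toSL2R_smul_I]
  have h := (gl_smul_I_eq_I_iff_of_pos (g := tg k) (by rw [det_tg]; exact one_pos)).mp hkI
  simp only [tg_apply] at h
  have hdet := k.det_coe
  rw [Matrix.det_fin_two, h.1, h.2] at hdet
  have hcs : (k 1 1) ^ 2 + (k 1 0) ^ 2 = 1 := by linarith
  have hn : ‖(⟨k 1 1, k 1 0⟩ : ℂ)‖ = 1 := by
    have : ‖(⟨k 1 1, k 1 0⟩ : ℂ)‖ ^ 2 = 1 := by
      rw [Complex.sq_norm, Complex.normSq_mk]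
      linarith
    have h0 := norm_nonneg (⟨k 1 1, k 1 0⟩ : ℂ)
    nlinarith
  have he := Complex.norm_mul_exp_arg_mul_I (⟨k 1 1, k 1 0⟩ : ℂ)
  rw [hn, Complex.ofReal_one, one_mul] at he
  set θ := Complex.arg (⟨k 1 1, k 1 0⟩ : ℂ) with hθ
  have h1 : Real.cos θ = k 1 1 := by
    have := congrArg Complex.re he
    rwa [Complex.exp_ofReal_mul_I_re] at this
  have h2 : Real.sin θ = k 1 0 := by
    have := congrArg Complex.im he
    rwa [Complex.exp_ofReal_mul_I_im] at this
  refine ⟨τ, θ, ?_⟩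
  have hkr : k = rot θ := by
    apply Matrix.SpecialLinearGroup.ext
    intro i j
    have a1 : (rot θ) 0 0 = Real.cos θ := rfl
    have a2 : (rot θ) 0 1 = -Real.sin θ := rfl
    have a3 : (rot θ) 1 0 = Real.sin θ := rfl
    have a4 : (rot θ) 1 1 = Real.cos θ := rfl
    fin_cases i <;> fin_cases j
    · show k 0 0 = rot θ 0 0
      rw [a1, h1, h.1]
    · show k 0 1 = rot θ 0 1
      rw [a2, h2, h.2]
    · show k 1 0 = rot θ 1 0
      rw [a3, h2]
    · show k 1 1 = rot θ 1 1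
      rw [a4, h1]
  rw [← hkr, hk, mul_inv_cancel_left]

lemma continuous_rot : Continuous rot := by
  apply continuous_induced_rng.mpr
  have : Continuous fun θ : ℝ =>
      (!![Real.cos θ, -Real.sin θ; Real.sin θ, Real.cos θ] : Matrix (Fin 2) (Fin 2) ℝ) := by
    apply continuous_matrix
    intro i j
    fin_cases i <;> fin_cases j <;> simp <;> fun_prop
  exact this

/-- a parametrisation of the covering group -/
def par (p : (ℍ × ℝ) × (ℍ × ℝ)) : Gp :=
  mk' (p.1.1.toSL2R * rot p.1.2) (p.2.1.toSL2R * rot p.2.2) (p.1.2 - 2 * p.2.2) (by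
    rw [U_bk, U_bk, ← Complex.exp_nat_mul, ← Complex.exp_neg, ← Complex.exp_add]
    congr 1
    push_cast; ring)

lemma continuous_par : Continuous par := by
  rw [isEmbedding_coord.continuous_iff]
  have h1 : Continuous fun p : (ℍ × ℝ) × (ℍ × ℝ) => p.1.1.toSL2R * rot p.1.2 :=
    (continuous_toSL2R.comp (continuous_fst.comp continuous_fst)).mul
      (continuous_rot.comp (continuous_snd.comp continuous_fst))
  have h2 : Continuous fun p : (ℍ × ℝ) × (ℍ × ℝ) => p.2.1.toSL2R * rot p.2.2 :=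
    (continuous_toSL2R.comp (continuous_fst.comp continuous_snd)).mul
      (continuous_rot.comp (continuous_snd.comp continuous_snd))
  have h3 : Continuous fun p : (ℍ × ℝ) × (ℍ × ℝ) => p.1.2 - 2 * p.2.2 := by fun_prop
  have e : coord ∘ par = fun p : (ℍ × ℝ) × (ℍ × ℝ) =>
      (p.1.1.toSL2R * rot p.1.2, p.2.1.toSL2R * rot p.2.2, p.1.2 - 2 * p.2.2) := by
    funext p
    simp [coord, par]
  rw [e]
  exact h1.prodMk (h2.prodMk h3)

lemma rot_add_int (θ : ℝ) (n : ℤ) : rot (θ + n * (2 * Real.pi)) = rot θ := by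
  apply Matrix.SpecialLinearGroup.ext
  intro i j
  simp only [rot, Real.cos_add_int_mul_two_pi, Real.sin_add_int_mul_two_pi]

lemma phase_eq (x : Gp) {τ1 τ2 : ℍ} {θ1 θ2 : ℝ} (h1 : x.g1 = τ1.toSL2R * rot θ1)
    (h2 : x.g2 = τ2.toSL2R * rot θ2) : ∃ n : ℤ, x.f I I = θ1 - 2 * θ2 + n * (2 * Real.pi) := by
  have h := x.he I I
  rw [h1, h2, U_bk, U_bk, ← Complex.exp_nat_mul, ← Complex.exp_neg, ← Complex.exp_add,
    Complex.exp_eq_exp_iff_exists_int] at h
  obtain ⟨n, hn⟩ := h
  refine ⟨n, ?_⟩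
  have : ((x.f I I : ℝ) : ℂ) = ((θ1 - 2 * θ2 + n * (2 * Real.pi) : ℝ) : ℂ) := by
    apply mul_right_cancel₀ Complex.I_ne_zero
    rw [hn]; push_cast; ring
  exact_mod_cast this

lemma par_surjective : Function.Surjective par := by
  intro x
  obtain ⟨τ1, θ1, h1⟩ := exists_bk x.g1
  obtain ⟨τ2, θ2, h2⟩ := exists_bk x.g2
  obtain ⟨n, hn⟩ := phase_eq x h1 h2
  refine ⟨((τ1, θ1 + n * (2 * Real.pi)), (τ2, θ2)), ?_⟩
  apply ext'
  · simp only [par, mk'_g1, rot_add_int]; exact h1.symm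
  · simp only [par, mk'_g2]; exact h2.symm
  · simp only [par, mk'_f]; rw [hn]; ring

instance : ConnectedSpace Gp := by
  have h : IsConnected (Set.range par) := isConnected_range continuous_par
  rw [par_surjective.range_eq] at h
  exact connectedSpace_iff_univ.mpr h

/-- the subgroup `H` -/
def Hs : Subgroup Gp where
  carrier := {x | x.g1 = x.g2}
  mul_mem' := by
    intro x y hx hy
    show x.g1 * y.g1 = x.g2 * y.g2
    rw [show x.g1 = x.g2 from hx, show y.g1 = y.g2 from hy]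
  one_mem' := rfl
  inv_mem' := by
    intro x hx
    show x.g1⁻¹ = x.g2⁻¹
    rw [show x.g1 = x.g2 from hx]

lemma mem_Hs {x : Gp} : x ∈ Hs ↔ x.g1 = x.g2 := Iff.rfl

lemma isClosed_Hs : IsClosed (Hs : Set Gp) := isClosed_eq continuous_g1 continuous_g2

lemma isConnected_Hs : IsConnected (Hs : Set Gp) := by
  have h : IsConnected (Set.range fun p : ℍ × ℝ => par (p, p)) :=
    isConnected_range (continuous_par.comp (continuous_id.prodMk continuous_id))
  have e : (Set.range fun p : ℍ × ℝ => par (p, p)) = (Hs : Set Gp) := by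
    ext x
    constructor
    · rintro ⟨p, rfl⟩
      rfl
    · intro hx
      have hx' : x.g1 = x.g2 := hx
      obtain ⟨τ, θ, h1⟩ := exists_bk x.g1
      have h2 := h1
      rw [hx'] at h2
      obtain ⟨n, hn⟩ := phase_eq x h1 h2
      refine ⟨(τ, θ + (-n : ℤ) * (2 * Real.pi)), ?_⟩
      apply ext'
      · simp only [par, mk'_g1, rot_add_int]; exact h1.symm
      · simp only [par, mk'_g2, rot_add_int]; exact h2.symm
      · simp only [par, mk'_f]; rw [hn]; push_cast; ring
  rw [← e]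
  exact h

end Gp

end

end Pool.Agent.H838
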