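import Pool.Agent.H838.Tri

/-!
# The triangle groups
-/

set_option autoImplicit false

namespace Pool.Agent.H838

open UpperHalfPlane Matrix

noncomputable section

/-- the equilateral triangle with angles `π / m` -/
def mkTri (m : ℕ) (hm : 4 ≤ m) : Tri where
  C := Real.cos (Real.pi / m)
  s := Real.sin (Real.pi / m)
  t := (Real.sqrt (2 / (1 - Real.cos (Real.pi / m))) +
    Real.sqrt ((4 * Real.cos (Real.pi / m) - 2) / (1 - Real.cos (Real.pi / m)))) / 2
  u := (Real.sqrt (2 / (1 - Real.cos (Real.pi / m))) -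
    Real.sqrt ((4 * Real.cos (Real.pi / m) - 2) / (1 - Real.cos (Real.pi / m)))) / 2
  hs := by
    have h4 : (4 : ℝ) ≤ m := by exact_mod_cast hm
    have hpi := Real.pi_pos
    apply Real.sin_pos_of_pos_of_lt_pi
    · positivity
    · rw [div_lt_iff₀ (by linarith)]
      nlinarith
  hC := by
    have h4 : (4 : ℝ) ≤ m := by exact_mod_cast hm
    have hpi := Real.pi_pos
    rw [← Real.cos_pi_div_three]
    apply Real.cos_lt_cos_of_nonneg_of_le_pi
    · positivity
    · linarith
    · exact div_lt_div_of_pos_left hpi (by norm_num) (by linarith)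
  hCs := Real.cos_sq_add_sin_sq _
  hu := by
    have h4 : (4 : ℝ) ≤ m := by exact_mod_cast hm
    have hpi := Real.pi_pos
    have h1 : Real.cos (Real.pi / m) < 1 := by
      rw [← Real.cos_zero]
      apply Real.cos_lt_cos_of_nonneg_of_le_pi le_rfl
      · rw [div_le_iff₀ (by linarith)]
        nlinarith
      · positivity
    have h2 : (4 * Real.cos (Real.pi / m) - 2) / (1 - Real.cos (Real.pi / m)) <
      2 / (1 - Real.cos (Real.pi / m)) :=
      div_lt_div_of_pos_right (by linarith) (by linarith)
    have h3 := Real.sqrt_lt_sqrt_iff_of_pos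
      (x := (4 * Real.cos (Real.pi / m) - 2) / (1 - Real.cos (Real.pi / m)))
      (y := 2 / (1 - Real.cos (Real.pi / m)))
      (div_pos (by norm_num) (by linarith))
    have := h3.mpr h2
    linarith
  hut := by
    have h4 : (4 : ℝ) ≤ m := by exact_mod_cast hm
    have hpi := Real.pi_pos
    have h1 : Real.cos (Real.pi / m) < 1 := by
      rw [← Real.cos_zero]
      apply Real.cos_lt_cos_of_nonneg_of_le_pi le_rfl
      · rw [div_le_iff₀ (by linarith)]
        nlinarith
      · positivity
    have hC : 1 / 2 < Real.cos (Real.pi / m) := by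
      rw [← Real.cos_pi_div_three]
      apply Real.cos_lt_cos_of_nonneg_of_le_pi
      · positivity
      · linarith
      · exact div_lt_div_of_pos_left hpi (by norm_num) (by linarith)
    have : 0 < Real.sqrt ((4 * Real.cos (Real.pi / m) - 2) / (1 - Real.cos (Real.pi / m))) := by
      apply Real.sqrt_pos.mpr
      apply div_pos <;> linarith
    linarith
  htu := by
    have h4 : (4 : ℝ) ≤ m := by exact_mod_cast hm
    have hpi := Real.pi_pos
    have h1 : Real.cos (Real.pi / m) < 1 := by
      rw [← Real.cos_zero]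
      apply Real.cos_lt_cos_of_nonneg_of_le_pi le_rfl
      · rw [div_le_iff₀ (by linarith)]
        nlinarith
      · positivity
    have hC : 1 / 2 < Real.cos (Real.pi / m) := by
      rw [← Real.cos_pi_div_three]
      apply Real.cos_lt_cos_of_nonneg_of_le_pi
      · positivity
      · linarith
      · exact div_lt_div_of_pos_left hpi (by norm_num) (by linarith)
    set C := Real.cos (Real.pi / m)
    have e1 : Real.sqrt (2 / (1 - C)) ^ 2 = 2 / (1 - C) :=
      Real.sq_sqrt (div_nonneg (by norm_num) (by linarith))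
    have e2 : Real.sqrt ((4 * C - 2) / (1 - C)) ^ 2 = (4 * C - 2) / (1 - C) :=
      Real.sq_sqrt (div_nonneg (by linarith) (by linarith))
    have e3 : 2 / (1 - C) - (4 * C - 2) / (1 - C) = 4 := by
      have : 1 - C ≠ 0 := by linarith
      field_simp
      ring
    linear_combination (1 / 4) * e1 - (1 / 4) * e2 + (1 / 4) * e3
  hT := by
    have h4 : (4 : ℝ) ≤ m := by exact_mod_cast hm
    have hpi := Real.pi_pos
    have h1 : Real.cos (Real.pi / m) < 1 := by
      rw [← Real.cos_zero]
      apply Real.cos_lt_cos_of_nonneg_of_le_pi le_rfl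
      · rw [div_le_iff₀ (by linarith)]
        nlinarith
      · positivity
    have hC : 1 / 2 < Real.cos (Real.pi / m) := by
      rw [← Real.cos_pi_div_three]
      apply Real.cos_lt_cos_of_nonneg_of_le_pi
      · positivity
      · linarith
      · exact div_lt_div_of_pos_left hpi (by norm_num) (by linarith)
    set C := Real.cos (Real.pi / m)
    have e1 : Real.sqrt (2 / (1 - C)) ^ 2 = 2 / (1 - C) :=
      Real.sq_sqrt (div_nonneg (by norm_num) (by linarith))
    have e2 : Real.sqrt ((4 * C - 2) / (1 - C)) ^ 2 = (4 * C - 2) / (1 - C) :=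
      Real.sq_sqrt (div_nonneg (by linarith) (by linarith))
    have e3 : (1 - C) * (2 / (1 - C) + (4 * C - 2) / (1 - C)) = 4 * C := by
      have : 1 - C ≠ 0 := by linarith
      field_simp
      ring
    linear_combination (1 - C) * (1 / 2) * e1 + (1 - C) * (1 / 2) * e2 + (1 / 2) * e3

namespace Tri
variable (T : Tri)

/-- The characteristic equation of a product of two reflections. -/
lemma A_mul_sq {i j : Fin 3} (h : i ≠ j) :
    (T.A i * T.A j).val * (T.A i * T.A j).val =
      (-(2 * T.C)) • (T.A i * T.A j).val - 1 := by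
  have h1 := T.norm_eq i
  have h2 := T.norm_eq j
  have h3 := T.gram h
  have e00 : (T.A i * T.A j).val 0 0 = T.a i * T.a j + T.b i * T.c j := by
    simp [Matrix.mul_apply, Fin.sum_univ_two]
  have e01 : (T.A i * T.A j).val 0 1 = T.a i * T.b j - T.b i * T.a j := by
    simp [Matrix.mul_apply, Fin.sum_univ_two]; ring
  have e10 : (T.A i * T.A j).val 1 0 = T.c i * T.a j - T.a i * T.c j := by
    simp [Matrix.mul_apply, Fin.sum_univ_two]; ring
  have e11 : (T.A i * T.A j).val 1 1 = T.c i * T.b j + T.a i * T.a j := by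
    simp [Matrix.mul_apply, Fin.sum_univ_two]
  have htr : (T.A i * T.A j).val 0 0 + (T.A i * T.A j).val 1 1 = -(2 * T.C) := by
    rw [e00, e11]; linarith
  have hdet : (T.A i * T.A j).val 0 0 * (T.A i * T.A j).val 1 1 -
      (T.A i * T.A j).val 0 1 * (T.A i * T.A j).val 1 0 = 1 := by
    rw [e00, e01, e10, e11]
    linear_combination (T.a j ^ 2 + T.b j * T.c j) * h1 + h2
  generalize (T.A i * T.A j).val = g at htr hdet
  ext k l
  fin_cases k <;> fin_cases l <;>
    simp [Matrix.mul_apply, Fin.sum_univ_two]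
  · linear_combination g 0 0 * htr - hdet
  · linear_combination g 0 1 * htr
  · linear_combination g 1 0 * htr
  · linear_combination g 1 1 * htr - hdet

lemma A_mul_pow {i j : Fin 3} (h : i ≠ j) (θ : ℝ) (hC : T.C = Real.cos θ)
    (n : ℕ) : Real.sin θ • (-(T.A i * T.A j).val) ^ (n + 1) =
      Real.sin ((n + 1) * θ) • (-(T.A i * T.A j).val) - Real.sin (n * θ) •
        (1 : Matrix (Fin 2) (Fin 2) ℝ) := by
  have h0 := T.A_mul_sq h
  generalize (T.A i * T.A j).val = g at h0
  have h1 : (-g) * (-g) = (2 * Real.cos θ) • (-g) - 1 := by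
    rw [neg_mul_neg, h0, hC]
    simp
  generalize -g = k at h1
  induction n with
  | zero => simp
  | succ n ih =>
    rw [pow_succ, ← smul_mul_assoc, ih, sub_mul, smul_mul_assoc, h1, smul_sub, smul_smul,
      smul_mul_assoc, one_mul]
    have e1 : Real.sin (((n + 1 : ℕ) + 1 : ℝ) * θ) =
      Real.sin ((n + 1) * θ) * (2 * Real.cos θ) - Real.sin (n * θ) := by
      have a1 : ((n + 1 : ℕ) + 1 : ℝ) * θ = (n + 1) * θ + θ := by push_cast; ring
      have a2 : (n : ℝ) * θ = (n + 1) * θ - θ := by ring
      rw [a1, a2, Real.sin_add, Real.sin_sub]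
      ring
    have e2 : Real.sin (((n + 1 : ℕ) : ℝ) * θ) = Real.sin ((n + 1) * θ) := by push_cast; rfl
    rw [e1, e2, sub_smul]
    abel

end Tri

lemma mkTri_pow (m : ℕ) (hm : 4 ≤ m) (hodd : Odd m) {i j : Fin 3} (h : i ≠ j) :
    ((mkTri m hm).A i * (mkTri m hm).A j) ^ m = 1 := by
  obtain ⟨n, rfl⟩ : ∃ n, m = n + 1 := ⟨m - 1, by omega⟩
  have h1 := (mkTri (n + 1) hm).A_mul_pow h (Real.pi / (n + 1 : ℕ)) rfl n
  have hs : 0 < Real.sin (Real.pi / (n + 1 : ℕ)) := (mkTri (n + 1) hm).hs
  have hn : ((n : ℝ) + 1) ≠ 0 := by positivity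
  have e1 : ((n : ℝ) + 1) * (Real.pi / (n + 1 : ℕ)) = Real.pi := by
    push_cast
    field_simp
  have e2 : (n : ℝ) * (Real.pi / (n + 1 : ℕ)) = Real.pi - Real.pi / (n + 1 : ℕ) := by
    linarith
  rw [e1, e2, Real.sin_pi, Real.sin_pi_sub, zero_smul, zero_sub, ← smul_neg] at h1
  have h2 := smul_right_injective _ hs.ne' h1
  rw [hodd.neg_pow] at h2
  have h3 := neg_injective h2
  apply Units.ext
  rw [Units.val_pow_eq_pow_val, h3]
  rfl

/-- The Coxeter matrix -/
def CM : CoxeterMatrix (Fin 3) where
  M := Matrix.of fun i j => if i = j then 1 else 15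
  isSymm := by decide
  diagonal := by decide
  off_diagonal := by decide

lemma CM_ne {i j : Fin 3} (h : i ≠ j) : CM i j = 15 := by
  show (if i = j then 1 else 15) = 15
  simp [h]

/-- The Coxeter group -/
abbrev W : Type := CM.Group

/-- The Coxeter system -/
def cs : CoxeterSystem CM W := CM.toCoxeterSystem

/-- a liftability criterion -/
lemma liftable {G : Type*} [Monoid G] (f : Fin 3 → G) (h1 : ∀ i, f i * f i = 1)
    (h2 : ∀ i j, i ≠ j → (f i * f j) ^ 15 = 1) : CM.IsLiftable f := by
  intro i j
  by_cases h : i = j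
  · subst h
    rw [CM.diagonal, pow_one]
    exact h1 i
  · rw [CM_ne h]
    exact h2 i j h

/-- the big triangle -/
def T1 : Tri := mkTri 15 (by norm_num)

/-- the small triangle -/
def T2 : Tri := mkTri 5 (by norm_num)

/-- the discrete faithful representation -/
def jh : W →* GL (Fin 2) ℝ :=
  cs.lift ⟨T1.A, liftable _ T1.A_sq (fun _ _ h => mkTri_pow 15 (by norm_num) (by decide) h)⟩

/-- the contracting representation -/
def rh : W →* GL (Fin 2) ℝ :=
  cs.lift ⟨T2.A, liftable _ T2.A_sq (fun i j h => by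
    have := mkTri_pow 5 (by norm_num) (by decide) h
    have e : (T2.A i * T2.A j) ^ 15 = ((T2.A i * T2.A j) ^ 5) ^ 3 := by rw [← pow_mul]
    rw [e]
    unfold T2
    rw [this, one_pow])⟩

@[simp] lemma jh_s (i : Fin 3) : jh (cs.simple i) = T1.A i := cs.lift_apply_simple _ i
@[simp] lemma rh_s (i : Fin 3) : rh (cs.simple i) = T2.A i := cs.lift_apply_simple _ i

lemma abs_det_jh (w : W) : |(jh w).det.val| = 1 := by
  induction w using cs.simple_induction with
  | simple i => rw [jh_s]; exact T1.abs_det_A i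
  | one => simp
  | mul w w' h h' => rw [map_mul, map_mul, Units.val_mul, abs_mul, h, h', one_mul]

lemma abs_det_rh (w : W) : |(rh w).det.val| = 1 := by
  induction w using cs.simple_induction with
  | simple i => rw [rh_s]; exact T2.abs_det_A i
  | one => simp
  | mul w w' h h' => rw [map_mul, map_mul, Units.val_mul, abs_mul, h, h', one_mul]

lemma det_jh_rh (w : W) : (jh w).det = (rh w).det := by
  induction w using cs.simple_induction with
  | simple i => rw [jh_s, rh_s]; apply Units.ext; rw [T1.det_A, T2.det_A]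
  | one => simp
  | mul w w' h h' => rw [map_mul, map_mul, map_mul, map_mul, h, h']

end

end Pool.Agent.H838
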