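import Pool.Agent.H838.Sl2

/-!
# Exclusion of nondiscrete groups, part 1
-/

set_option autoImplicit false

namespace Pool.Agent.H838

open Filter Topology Matrix UpperHalfPlane
open scoped MatrixGroups Matrix.Norms.Operator

noncomputable section

/-- traceless matrices -/
def sl2 : Submodule ℝ Mat where
  carrier := {X | X.trace = 0}
  zero_mem' := by simp
  add_mem' := by
    intro X Y hX hY
    show (X + Y).trace = 0
    rw [Matrix.trace_add, show X.trace = 0 from hX, show Y.trace = 0 from hY, add_zero]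
  smul_mem' := by
    intro c X hX
    show (c • X).trace = 0
    rw [Matrix.trace_smul, show X.trace = 0 from hX, smul_zero]

lemma mem_sl2 {X : Mat} : X ∈ sl2 ↔ X.trace = 0 := Iff.rfl

/-- conjugation -/
def cj (g : SL(2, ℝ)) (X : Mat) : Mat := g.val * X * (g⁻¹).val

lemma val_mul_inv (g : SL(2, ℝ)) : g.val * (g⁻¹).val = 1 :=
  congrArg Subtype.val (mul_inv_cancel g)

lemma val_inv_mul (g : SL(2, ℝ)) : (g⁻¹).val * g.val = 1 :=
  congrArg Subtype.val (inv_mul_cancel g)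

lemma cj_mul (g h : SL(2, ℝ)) (X : Mat) : cj (g * h) X = cj g (cj h X) := by
  unfold cj
  rw [_root_.mul_inv_rev]
  show (g.val * h.val) * X * ((h⁻¹).val * (g⁻¹).val) = _
  simp only [mul_assoc]

lemma cj_one (X : Mat) : cj 1 X = X := by
  unfold cj
  rw [inv_one]
  show (1 : Mat) * X * 1 = X
  rw [one_mul, mul_one]

lemma cj_inv_cj (g : SL(2, ℝ)) (X : Mat) : cj g⁻¹ (cj g X) = X := by
  rw [← cj_mul, inv_mul_cancel, cj_one]

lemma cj_cj_inv (g : SL(2, ℝ)) (X : Mat) : cj g (cj g⁻¹ X) = X := by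
  rw [← cj_mul, mul_inv_cancel, cj_one]

lemma cj_add (g : SL(2, ℝ)) (X Y : Mat) : cj g (X + Y) = cj g X + cj g Y := by
  unfold cj; rw [mul_add, add_mul]

lemma cj_smul (g : SL(2, ℝ)) (c : ℝ) (X : Mat) : cj g (c • X) = c • cj g X := by
  unfold cj; rw [mul_smul_comm, smul_mul_assoc]

lemma cj_neg (g : SL(2, ℝ)) (X : Mat) : cj g (-X) = -cj g X := by
  unfold cj; rw [mul_neg, neg_mul]

lemma cj_zero (g : SL(2, ℝ)) : cj g 0 = 0 := by unfold cj; rw [mul_zero, zero_mul]

lemma cj_mulm (g : SL(2, ℝ)) (X Y : Mat) : cj g (X * Y) = cj g X * cj g Y := by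
  unfold cj
  calc g.val * (X * Y) * (g⁻¹).val = g.val * X * 1 * Y * (g⁻¹).val := by
        rw [mul_one]; simp only [mul_assoc]
    _ = _ := by rw [← val_inv_mul g]; simp only [mul_assoc]

lemma cj_sub (g : SL(2, ℝ)) (X Y : Mat) : cj g (X - Y) = cj g X - cj g Y := by
  unfold cj; rw [mul_sub, sub_mul]

lemma trace_cj (g : SL(2, ℝ)) (X : Mat) : (cj g X).trace = X.trace := by
  unfold cj
  rw [Matrix.trace_mul_comm, ← mul_assoc, val_inv_mul, one_mul]

lemma det_cj (g : SL(2, ℝ)) (X : Mat) : (cj g X).det = X.det := by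
  unfold cj
  rw [Matrix.det_mul, Matrix.det_mul, g.2, (g⁻¹).2, one_mul, mul_one]

lemma cj_mem_sl2 (g : SL(2, ℝ)) {X : Mat} (hX : X ∈ sl2) : cj g X ∈ sl2 := by
  rw [mem_sl2, trace_cj]; exact hX

/-- invariance of a subspace -/
def Inv (P : SL(2, ℝ) → Prop) (V : Submodule ℝ Mat) : Prop :=
  ∀ g, P g → ∀ X ∈ V, cj g X ∈ V

/-- complete reducibility -/
def CR (P : SL(2, ℝ) → Prop) : Prop :=
  ∀ V ≤ sl2, Inv P V → ∃ V' ≤ sl2, Inv P V' ∧ V ⊓ V' = ⊥ ∧ V ⊔ V' = sl2

/-- irreducibility -/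
def Irr (P : SL(2, ℝ) → Prop) : Prop := ∀ V ≤ sl2, Inv P V → V = ⊥ ∨ V = sl2

lemma finrank_sl2 : Module.finrank ℝ sl2 = 3 := by
  let e : sl2 ≃ₗ[ℝ] (Fin 3 → ℝ) :=
    { toFun := fun X => ![X.1 0 0, X.1 0 1, X.1 1 0]
      map_add' := by
        intro X Y
        funext i
        fin_cases i <;> rfl
      map_smul' := by
        intro c X
        funext i
        fin_cases i <;> rfl
      invFun := fun v => ⟨!![v 0, v 1; v 2, -v 0], by
        rw [mem_sl2, Matrix.trace_fin_two]; simp⟩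
      left_inv := by
        intro X
        apply Subtype.ext
        have h : X.1 1 1 = -X.1 0 0 := by
          have := X.2
          rw [mem_sl2, Matrix.trace_fin_two] at this
          linarith
        ext i j
        fin_cases i <;> fin_cases j
        · rfl
        · rfl
        · rfl
        · exact h.symm
      right_inv := by
        intro v
        funext i
        fin_cases i <;> rfl }
  rw [LinearEquiv.finrank_eq e]
  simp

lemma entry11 {X : Mat} (hX : X ∈ sl2) : X 1 1 = -X 0 0 := by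
  rw [mem_sl2, Matrix.trace_fin_two] at hX
  linarith

lemma eq_of_entries {X : Mat} (hX : X ∈ sl2) : X = !![X 0 0, X 0 1; X 1 0, -X 0 0] := by
  rw [← entry11 hX]
  ext i j
  fin_cases i <;> fin_cases j <;> rfl

/-- the triple product -/
lemma trip {X Z1 Z2 : Mat} (hX : X ∈ sl2) (h1 : Z1 ∈ sl2) (h2 : Z2 ∈ sl2) :
    (X * (Z1 * Z2 - Z2 * Z1)).trace =
      2 * (!![X 0 0, X 0 1, X 1 0; Z1 0 0, Z1 0 1, Z1 1 0; Z2 0 0, Z2 0 1, Z2 1 0] :
        Matrix (Fin 3) (Fin 3) ℝ).det := by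
  rw [eq_of_entries hX, eq_of_entries h1, eq_of_entries h2, Matrix.det_fin_three,
    Matrix.trace_fin_two]
  simp [Matrix.mul_apply, Fin.sum_univ_two]
  ring

/-- nonvanishing of the triple product -/
lemma trip_ne {X Z1 Z2 : Mat} (hX : X ∈ sl2) (h1 : Z1 ∈ sl2) (h2 : Z2 ∈ sl2)
    (hind : ∀ a b c : ℝ, a • X + b • Z1 + c • Z2 = 0 → a = 0 ∧ b = 0 ∧ c = 0) :
    (X * (Z1 * Z2 - Z2 * Z1)).trace ≠ 0 := by
  rw [trip hX h1 h2]
  intro h0
  have h0' : (!![X 0 0, X 0 1, X 1 0; Z1 0 0, Z1 0 1, Z1 1 0; Z2 0 0, Z2 0 1, Z2 1 0] :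
        Matrix (Fin 3) (Fin 3) ℝ).det = 0 := by linarith
  obtain ⟨v, hv, hv0⟩ := Matrix.exists_vecMul_eq_zero_iff.mpr h0'
  have hz := hind (v 0) (v 1) (v 2) (by
    have e0 := congrFun hv0 0
    have e1 := congrFun hv0 1
    have e2 := congrFun hv0 2
    simp [Matrix.vecMul, dotProduct, Fin.sum_univ_three] at e0 e1 e2
    have x11 := entry11 hX
    have z11 := entry11 h1
    have y11 := entry11 h2
    ext i j
    fin_cases i <;> fin_cases j
    · simp; linarith
    · simp; linarith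
    · simp; linarith
    · simp [x11, z11, y11]; linarith)
  apply hv
  funext i
  fin_cases i
  · exact hz.1
  · exact hz.2.1
  · exact hz.2.2

lemma comm_mem {X Y : Mat} : X * Y - Y * X ∈ sl2 := by
  rw [mem_sl2, Matrix.trace_sub, Matrix.trace_mul_comm, sub_self]

lemma sq_sl2 {X : Mat} (hX : X ∈ sl2) : X * X = -(X.det • (1 : Mat)) := by
  have h11 := entry11 hX
  rw [Matrix.det_fin_two, h11]
  ext i j
  fin_cases i <;> fin_cases j <;> simp [Matrix.mul_apply, Fin.sum_univ_two, h11] <;> ring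

lemma sq_eq_one_iff_of_side' {a : ℝ} (h : a ^ 2 = 1) : a = 1 ∨ a = -1 := by
  have : (a - 1) * (a + 1) = 0 := by linarith
  rcases mul_eq_zero.mp this with h | h
  · left; linarith
  · right; linarith

/-- The line case. -/
lemma line_of {P : SL(2, ℝ) → Prop} {X Z1 Z2 : Mat} (hX : X ∈ sl2) (h1 : Z1 ∈ sl2)
    (h2 : Z2 ∈ sl2) (hXi : ∀ g, P g → ∃ a : ℝ, cj g X = a • X)
    (hZ1 : ∀ g, P g → ∃ a b : ℝ, cj g Z1 = a • Z1 + b • Z2)
    (hZ2 : ∀ g, P g → ∃ a b : ℝ, cj g Z2 = a • Z1 + b • Z2)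
    (hind : ∀ a b c : ℝ, a • X + b • Z1 + c • Z2 = 0 → a = 0 ∧ b = 0 ∧ c = 0) :
    ∃ Y ∈ sl2, Y.det ≠ 0 ∧ ∀ g, P g → cj g Y = Y ∨ cj g Y = -Y := by
  have pm : ∀ Y : Mat, Y.det ≠ 0 → (∀ g, P g → ∃ a : ℝ, cj g Y = a • Y) →
      ∀ g, P g → cj g Y = Y ∨ cj g Y = -Y := by
    intro Y hY h g hg
    obtain ⟨a, ha⟩ := h g hg
    have hd := congrArg Matrix.det ha
    rw [det_cj, Matrix.det_smul, Fintype.card_fin] at hd
    have : a ^ 2 = 1 := by
      have h3 : Y.det * (a ^ 2 - 1) = 0 := by linarith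
      rcases mul_eq_zero.mp h3 with h4 | h4
      · exact absurd h4 hY
      · linarith
    rcases sq_eq_one_iff_of_side' this with h4 | h4
    · left; rw [ha, h4, one_smul]
    · right; rw [ha, h4, neg_one_smul]
  by_cases hdX : X.det = 0
  · set Y : Mat := Z1 * Z2 - Z2 * Z1 with hYdef
    have hY : Y ∈ sl2 := comm_mem
    have htr : (X * Y).trace ≠ 0 := trip_ne hX h1 h2 hind
    have hYi : ∀ g, P g → ∃ a : ℝ, cj g Y = a • Y := by
      intro g hg
      obtain ⟨a, b, hab⟩ := hZ1 g hg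
      obtain ⟨c, d, hcd⟩ := hZ2 g hg
      refine ⟨a * d - b * c, ?_⟩
      rw [hYdef, cj_sub, cj_mulm, cj_mulm, hab, hcd]
      simp only [add_mul, mul_add, smul_mul_assoc, mul_smul_comm]
      module
    by_cases hdY : Y.det = 0
    · set N : Mat := X * Y - Y * X with hNdef
      have hN : N ∈ sl2 := comm_mem
      have hdN : N.det ≠ 0 := by
        have e : N.det = -((X * Y).trace) ^ 2 + 4 * X.det * Y.det := by
          rw [hNdef, eq_of_entries hX, eq_of_entries hY]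
          rw [Matrix.det_fin_two, Matrix.det_fin_two, Matrix.det_fin_two, Matrix.trace_fin_two]
          simp [Matrix.mul_apply, Fin.sum_univ_two]
          ring
        rw [e, hdX]
        intro h0
        apply htr
        have : ((X * Y).trace) ^ 2 = 0 := by linarith
        exact pow_eq_zero_iff (two_ne_zero) |>.mp this
      refine ⟨N, hN, hdN, pm N hdN ?_⟩
      intro g hg
      obtain ⟨a, ha⟩ := hXi g hg
      obtain ⟨b, hb⟩ := hYi g hg
      refine ⟨a * b, ?_⟩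
      rw [hNdef, cj_sub, cj_mulm, cj_mulm, ha, hb]
      simp only [smul_mul_assoc, mul_smul_comm]
      module
    · exact ⟨Y, hY, hdY, pm Y hdY hYi⟩
  · exact ⟨X, hX, hdX, pm X hdX hXi⟩

/-- A completely reducible, not irreducible group preserves a nonisotropic line. -/
lemma exists_line {P : SL(2, ℝ) → Prop} (hcr : CR P) (hirr : ¬ Irr P) :
    ∃ Y ∈ sl2, Y.det ≠ 0 ∧ ∀ g, P g → cj g Y = Y ∨ cj g Y = -Y := by
  unfold Irr at hirr
  push Not at hirr
  obtain ⟨V, hV, hVi, hV0, hV1⟩ := hirr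
  obtain ⟨V', hV', hVi', hinf, hsup⟩ := hcr V hV hVi
  have hV0' : V' ≠ ⊥ := by
    rintro rfl
    apply hV1
    rwa [sup_bot_eq] at hsup
  have hdim := Submodule.finrank_sup_add_finrank_inf_eq V V'
  rw [hinf, hsup, finrank_bot, finrank_sl2, add_zero] at hdim
  have hp1 : 0 < Module.finrank ℝ V := by
    rw [Nat.pos_iff_ne_zero]
    intro h
    exact hV0 (Submodule.finrank_eq_zero.mp h)
  have hp2 : 0 < Module.finrank ℝ V' := by
    rw [Nat.pos_iff_ne_zero]
    intro h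
    exact hV0' (Submodule.finrank_eq_zero.mp h)
  -- symmetric statement
  have main : ∀ A B : Submodule ℝ Mat, A ≤ sl2 → B ≤ sl2 → Inv P A → Inv P B → A ⊓ B = ⊥ →
      Module.finrank ℝ A = 1 → Module.finrank ℝ B = 2 →
      ∃ Y ∈ sl2, Y.det ≠ 0 ∧ ∀ g, P g → cj g Y = Y ∨ cj g Y = -Y := by
    intro A B hA hB hAi hBi hAB hA1 hB2
    obtain ⟨X, hX0, hXs⟩ := finrank_eq_one_iff'.mp hA1
    let bs := Module.finBasisOfFinrankEq ℝ B hB2
    have hBrep : ∀ Z ∈ B, ∃ a b : ℝ, Z = a • (bs 0).1 + b • (bs 1).1 := by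
      intro Z hZ
      refine ⟨bs.repr ⟨Z, hZ⟩ 0, bs.repr ⟨Z, hZ⟩ 1, ?_⟩
      have h := bs.sum_repr ⟨Z, hZ⟩
      rw [Fin.sum_univ_two] at h
      have h2 := congrArg Subtype.val h
      exact h2.symm
    have hArep : ∀ Z ∈ A, ∃ a : ℝ, Z = a • X.1 := by
      intro Z hZ
      obtain ⟨a, ha⟩ := hXs ⟨Z, hZ⟩
      exact ⟨a, (congrArg Subtype.val ha).symm⟩
    apply line_of (X := X.1) (Z1 := (bs 0).1) (Z2 := (bs 1).1) (hA X.2) (hB (bs 0).2)
      (hB (bs 1).2)
    · intro g hg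
      exact hArep _ (hAi g hg _ X.2)
    · intro g hg
      exact hBrep _ (hBi g hg _ (bs 0).2)
    · intro g hg
      exact hBrep _ (hBi g hg _ (bs 1).2)
    · intro a b c habc
      have h1 : a • X.1 ∈ A ⊓ B := by
        refine ⟨A.smul_mem a X.2, ?_⟩
        have : a • X.1 = (-b) • (bs 0).1 + (-c) • (bs 1).1 := by
          rw [← sub_eq_zero, ← habc]
          module
        rw [this]
        exact B.add_mem (B.smul_mem _ (bs 0).2) (B.smul_mem _ (bs 1).2)
      rw [hAB, Submodule.mem_bot] at h1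
      have ha : a = 0 := by
        rcases smul_eq_zero.mp h1 with h | h
        · exact h
        · exact absurd (Subtype.ext h) hX0
      rw [ha, zero_smul, zero_add] at habc
      have hli := bs.linearIndependent
      rw [Fintype.linearIndependent_iff] at hli
      have h2 := hli ![b, c] (by
        rw [Fin.sum_univ_two]
        apply Subtype.ext
        simpa using habc)
      exact ⟨ha, h2 0, h2 1⟩
  have hcases : (Module.finrank ℝ V = 1 ∧ Module.finrank ℝ V' = 2) ∨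
      (Module.finrank ℝ V' = 1 ∧ Module.finrank ℝ V = 2) := by omega
  rcases hcases with ⟨h1, h2⟩ | ⟨h1, h2⟩
  · exact main V V' hV hV' hVi hVi' hinf h1 h2
  · exact main V' V hV' hV hVi' hVi (by rw [inf_comm]; exact hinf) h1 h2

end

end Pool.Agent.H838
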