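import Pool.Agent.H838.Ex1

/-!
# Exclusion of nondiscrete groups, part 2
-/

set_option autoImplicit false

namespace Pool.Agent.H838

open Filter Topology Matrix UpperHalfPlane
open scoped MatrixGroups Matrix.Norms.Operator

noncomputable section

/-- The hypotheses on a subgroup of `SL(2, ℝ) × SL(2, ℝ)`. -/
structure Hyp (M : Subgroup (SL(2, ℝ) × SL(2, ℝ))) : Prop where
  closed : IsClosed (M : Set (SL(2, ℝ) × SL(2, ℝ)))
  prop : ∀ R : ℝ, ∃ B : ℝ, ∀ m ∈ M, (∃ x : SL(2, ℝ), Dd x ≤ R ∧ Dd (m.1 * x * m.2⁻¹) ≤ R) →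
    Dd m.1 ≤ B ∧ Dd m.2 ≤ B
  coc : ∃ R : ℝ, ∀ x : SL(2, ℝ), ∃ m ∈ M, Dd (m.1 * x * m.2⁻¹) ≤ R
  tor1 : ∀ k : SL(2, ℝ), k ^ 3 = 1 → (k, (1 : SL(2, ℝ))) ∈ M → k = 1
  tor2 : ∀ k : SL(2, ℝ), k ^ 3 = 1 → ((1 : SL(2, ℝ)), k) ∈ M → k = 1
  cr1 : CR (fun g => ∃ m ∈ M, m.1 = g)
  cr2 : CR (fun g => ∃ m ∈ M, m.2 = g)

/-- exchange of the factors -/
def sw (M : Subgroup (SL(2, ℝ) × SL(2, ℝ))) : Subgroup (SL(2, ℝ) × SL(2, ℝ)) :=
  Subgroup.comap (MulEquiv.prodComm : SL(2, ℝ) × SL(2, ℝ) ≃* SL(2, ℝ) × SL(2, ℝ)).toMonoidHom M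

lemma mem_sw {M : Subgroup (SL(2, ℝ) × SL(2, ℝ))} {a b : SL(2, ℝ)} :
    (a, b) ∈ sw M ↔ (b, a) ∈ M := Iff.rfl

lemma Hyp.swap {M : Subgroup (SL(2, ℝ) × SL(2, ℝ))} (h : Hyp M) : Hyp (sw M) where
  closed := h.closed.preimage continuous_swap
  prop := by
    intro R
    obtain ⟨B, hB⟩ := h.prop R
    refine ⟨B, ?_⟩
    rintro ⟨a, b⟩ hm ⟨x, hx1, hx2⟩
    have h1 := hB (b, a) hm ⟨x⁻¹, by rw [Dd_inv]; exact hx1, by
      rw [← Dd_inv]
      simp only [_root_.mul_inv_rev, inv_inv]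
      rw [← mul_assoc]
      exact hx2⟩
    exact ⟨h1.2, h1.1⟩
  coc := by
    obtain ⟨R, hR⟩ := h.coc
    refine ⟨R, fun x => ?_⟩
    obtain ⟨⟨a, b⟩, hm, hx⟩ := hR x⁻¹
    refine ⟨(b, a), hm, ?_⟩
    rw [← Dd_inv]
    simp only [_root_.mul_inv_rev, inv_inv]
    rw [← mul_assoc]
    exact hx
  tor1 := fun k hk hm => h.tor2 k hk hm
  tor2 := fun k hk hm => h.tor1 k hk hm
  cr1 := by
    have e : (fun g => ∃ m ∈ sw M, m.1 = g) = (fun g => ∃ m ∈ M, m.2 = g) := by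
      funext g
      apply propext
      constructor
      · rintro ⟨⟨a, b⟩, hm, rfl⟩; exact ⟨(b, a), hm, rfl⟩
      · rintro ⟨⟨a, b⟩, hm, rfl⟩; exact ⟨(b, a), hm, rfl⟩
    rw [e]; exact h.cr2
  cr2 := by
    have e : (fun g => ∃ m ∈ sw M, m.2 = g) = (fun g => ∃ m ∈ M, m.1 = g) := by
      funext g
      apply propext
      constructor
      · rintro ⟨⟨a, b⟩, hm, rfl⟩; exact ⟨(b, a), hm, rfl⟩
      · rintro ⟨⟨a, b⟩, hm, rfl⟩; exact ⟨(b, a), hm, rfl⟩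
    rw [e]; exact h.cr1

variable {M : Subgroup (SL(2, ℝ) × SL(2, ℝ))}

lemma tan_swap {h : Hyp M} {X Y : Mat} (hv : (X, Y) ∈ tanSp M h.closed) :
    (Y, X) ∈ tanSp (sw M) h.swap.closed := by
  rw [mem_tanSp'] at hv ⊢
  intro t
  obtain ⟨⟨a, b⟩, hm, h1, h2⟩ := hv t
  exact ⟨(b, a), hm, h2, h1⟩

lemma E1_zero' (t : ℝ) : E1 (0 : Mat) t = 1 := by
  unfold E1; rw [smul_zero, NormedSpace.exp_zero]

/-- elliptic elements in one factor are excluded -/
lemma kill_ell1 (h : Hyp M) {X : Mat} (hX : X ∈ sl2) (hd : 0 < X.det)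
    (hv : (X, (0 : Mat)) ∈ tanSp M h.closed) : False := by
  obtain ⟨t, ht, ht1⟩ := elliptic hX hd
  rw [mem_tanSp'] at hv
  obtain ⟨⟨a, b⟩, hm, h1, h2⟩ := hv t
  rw [E1_zero'] at h2
  have hb : b = 1 := Subtype.ext h2
  subst hb
  have ha3 : a ^ 3 = 1 := by
    apply Subtype.ext
    have : (a ^ 3).val = a.val ^ 3 := Matrix.SpecialLinearGroup.coe_pow a 3
    rw [this]
    show a.val ^ 3 = (1 : Mat)
    rw [show a.val = E1 X t from h1, ht]
  have ha := h.tor1 a ha3 hm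
  apply ht1
  rw [← show a.val = E1 X t from h1, ha]
  rfl

lemma kill_ell2 (h : Hyp M) {X : Mat} (hX : X ∈ sl2) (hd : 0 < X.det)
    (hv : ((0 : Mat), X) ∈ tanSp M h.closed) : False :=
  kill_ell1 h.swap hX hd (tan_swap (h := h) hv)

/-- a bounded hyperbolic one-parameter group is impossible -/
lemma unbdd {X : Mat} (hX : X ∈ sl2) (hd : X.det < 0) (B : ℝ)
    (hB : ∀ t : ℝ, ∃ a : SL(2, ℝ), a.val = E1 X t ∧ Dd a ≤ B) : False := by
  obtain ⟨g, c, hc, hg⟩ := exists_diag hX hd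
  obtain ⟨a, ha, haB⟩ := hB ((B + 2 * Dd g + 1) / c)
  have h1 : a = g * aa ((B + 2 * Dd g + 1) / c * c) * g⁻¹ := by
    apply Subtype.ext
    rw [ha, hg, E1_conj, E1_dg]
    rfl
  have h2 : aa ((B + 2 * Dd g + 1) / c * c) = g⁻¹ * a * g := by
    rw [h1]; group
  have h3 := Dd_mul_le (g⁻¹ * a) g
  have h4 := Dd_mul_le g⁻¹ a
  rw [← h2, Dd_aa', Dd_inv] at *
  rw [div_mul_cancel₀ _ hc] at h3
  have hB0 : 0 ≤ B := (Dd_nonneg a).trans haB
  have hg0 := Dd_nonneg g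
  rw [abs_of_pos (by positivity)] at h3
  linarith

/-- noncompact stabilisers are excluded -/
lemma kill_stab (h : Hyp M) {X Y : Mat} (hX : X ∈ sl2) (hY : Y ∈ sl2) (hd : X.det < 0)
    (hXY : X.det = Y.det) (hv : (X, Y) ∈ tanSp M h.closed) : False := by
  obtain ⟨x, hx⟩ := exists_conj hX hY hd hXY
  obtain ⟨B, hB⟩ := h.prop (Dd x)
  rw [mem_tanSp'] at hv
  apply unbdd hX hd B
  intro t
  obtain ⟨⟨a, b⟩, hm, h1, h2⟩ := hv t
  refine ⟨a, h1, ?_⟩
  have h3 : a = x * b * x⁻¹ := by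
    apply Subtype.ext
    rw [show a.val = E1 X t from h1, ← hx, E1_conj, ← show b.val = E1 Y t from h2]
    rfl
  have h4 : a * x * b⁻¹ = x := by rw [h3]; group
  exact (hB (a, b) hm ⟨x, le_rfl, by rw [h4]⟩).1

lemma conj_axis {n : SL(2, ℝ)} {c : ℝ} (hc : c ≠ 0)
    (hn : cj n (dg c) = dg c ∨ cj n (dg c) = -dg c) {z : ℍ} (hz : vQ z = 0) :
    vQ (n • z) = 0 := by
  have key : n.val * dg c = dg c * n.val ∨ n.val * dg c + dg c * n.val = 0 := by
    have e : cj n (dg c) * n.val = n.val * dg c := by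
      unfold cj
      rw [mul_assoc, val_inv_mul, mul_one]
    rcases hn with hn | hn
    · left; rw [← e, hn]
    · right; rw [← e, hn, neg_mul, neg_add_cancel]
  rw [sl_vQ, hz]
  rcases key with key | key
  · have h1 := congrFun (congrFun key 0) 1
    have h2 := congrFun (congrFun key 1) 0
    simp [dg, Matrix.mul_apply, Fin.sum_univ_two] at h1 h2
    have e1 : n 0 1 = 0 := by
      have : c * n 0 1 = 0 := by linarith
      exact (mul_eq_zero.mp this).resolve_left hc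
    have e2 : n 1 0 = 0 := by
      have : c * n 1 0 = 0 := by linarith
      exact (mul_eq_zero.mp this).resolve_left hc
    rw [e1, e2]; ring
  · have h1 := congrFun (congrFun key 0) 0
    have h2 := congrFun (congrFun key 1) 1
    simp [dg, Matrix.mul_apply, Matrix.vecMul, dotProduct, Fin.sum_univ_two] at h1 h2
    have e1 : n 0 0 = 0 := by
      have : c * n 0 0 = 0 := by linarith
      exact (mul_eq_zero.mp this).resolve_left hc
    have e2 : n 1 1 = 0 := by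
      have : c * n 1 1 = 0 := by linarith
      exact (mul_eq_zero.mp this).resolve_left hc
    rw [e1, e2]; ring

/-- points far from the axis -/
lemma exists_far (R : ℝ) : ∃ y : SL(2, ℝ), ∀ z : ℍ, vQ z = 0 → R < dist (y • I) z := by
  obtain ⟨z0, h1, h2, h3⟩ := exists_vec ((Real.exp R) ^ 2 + 1) (Real.exp R) 1 one_pos (by ring)
  obtain ⟨y, hy⟩ := MulAction.exists_smul_eq SL(2, ℝ) I z0
  refine ⟨y, fun z hz => ?_⟩
  rw [hy]
  have hpr := vPR z
  rw [hz] at hpr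
  have hc := cosh_dist_vec z0 z
  rw [h1, h2, h3, hz] at hc
  have hP := vP_pos z
  have hR := vR_pos z
  set e := Real.exp R with he
  have he0 : 0 < e := Real.exp_pos R
  -- `cosh ≥ e`
  have hge : e < Real.cosh (dist z0 z) := by
    rw [hc]
    have hprod : vP z * vR z = 1 := by linarith
    have h4 : (2 * e) ^ 2 < ((e ^ 2 + 1) * vR z + vP z) ^ 2 := by
      have : ((e ^ 2 + 1) * vR z + vP z) ^ 2 =
          ((e ^ 2 + 1) * vR z - vP z) ^ 2 + 4 * (e ^ 2 + 1) * (vP z * vR z) := by ring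
      rw [this, hprod]
      nlinarith [sq_nonneg ((e ^ 2 + 1) * vR z - vP z)]
    have h5 : 2 * e < (e ^ 2 + 1) * vR z + vP z :=
      lt_of_pow_lt_pow_left₀ 2 (by positivity) h4
    linarith
  by_contra hle
  push Not at hle
  have h6 : Real.cosh (dist z0 z) ≤ Real.exp (dist z0 z) := by
    rw [Real.cosh_eq]
    have : Real.exp (-dist z0 z) ≤ Real.exp (dist z0 z) :=
      Real.exp_le_exp.mpr (by have := dist_nonneg (x := z0) (y := z); linarith)
    linarith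
  have h7 : Real.exp (dist z0 z) ≤ e := Real.exp_le_exp.mpr hle
  linarith

/-- the case of a hyperbolic element in the first factor whose line is preserved -/
lemma kill_hyp1 (h : Hyp M) {X : Mat} (hX : X ∈ sl2) (hd : X.det < 0)
    (hv : (X, (0 : Mat)) ∈ tanSp M h.closed)
    (hN : ∀ m ∈ M, cj m.1 X = X ∨ cj m.1 X = -X) : False := by
  obtain ⟨g, c, hc, hg⟩ := exists_diag hX hd
  -- the one-parameter group
  have hA : ∀ s : ℝ, (g * aa s * g⁻¹, (1 : SL(2, ℝ))) ∈ M := by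
    intro s
    rw [mem_tanSp'] at hv
    obtain ⟨⟨a, b⟩, hm, h1, h2⟩ := hv (s / c)
    rw [E1_zero'] at h2
    have hb : b = 1 := Subtype.ext h2
    subst hb
    have ha : a = g * aa s * g⁻¹ := by
      apply Subtype.ext
      rw [show a.val = E1 X (s / c) from h1, hg, E1_conj, E1_dg, div_mul_cancel₀ _ hc]
      rfl
    rw [← ha]; exact hm
  -- normaliser
  have hNn : ∀ m ∈ M, cj (g⁻¹ * m.1 * g) (dg c) = dg c ∨ cj (g⁻¹ * m.1 * g) (dg c) = -dg c := by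
    intro m hm
    have e1 : cj g (dg c) = X := hg.symm
    have e2 : cj g⁻¹ X = dg c := by rw [← e1, cj_inv_cj]
    rw [cj_mul, cj_mul, e1]
    rcases hN m hm with h1 | h1
    · left; rw [h1, e2]
    · right; rw [h1, cj_neg, e2]
  -- the second projection is bounded
  obtain ⟨B, hB⟩ := h.prop (Dd g)
  have hbd : ∀ m ∈ M, Dd m.2 ≤ B := by
    intro m hm
    obtain ⟨θ, hθ⟩ := exists_rot (m.2⁻¹ • I)
    have h1 := conj_axis hc (hNn m hm) hθ
    obtain ⟨s, hs⟩ := exists_aa h1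
    have hm' : (g * aa s * g⁻¹ * m.1, m.2) ∈ M := by
      have h2 := M.mul_mem (hA s) hm
      have e : (g * aa s * g⁻¹, (1 : SL(2, ℝ))) * m = (g * aa s * g⁻¹ * m.1, m.2) :=
        Prod.ext rfl (one_mul _)
      rw [← e]; exact h2
    refine (hB _ hm' ⟨g * Gp.rot θ, ?_, ?_⟩).2
    · have := Dd_mul_le g (Gp.rot θ)
      rw [Dd_rot] at this
      linarith
    · have e : g * aa s * g⁻¹ * m.1 * (g * Gp.rot θ) * m.2⁻¹ =
          g * (aa s * (g⁻¹ * m.1 * g) * Gp.rot θ * m.2⁻¹) := by group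
      show Dd (g * aa s * g⁻¹ * m.1 * (g * Gp.rot θ) * m.2⁻¹) ≤ Dd g
      rw [e]
      have h2 := Dd_mul_le g (aa s * (g⁻¹ * m.1 * g) * Gp.rot θ * m.2⁻¹)
      have h3 : Dd (aa s * (g⁻¹ * m.1 * g) * Gp.rot θ * m.2⁻¹) = 0 := by
        unfold Dd
        rw [mul_smul, mul_smul, mul_smul, hs, dist_self]
      linarith
  -- contradiction with cocompactness
  obtain ⟨R, hR⟩ := h.coc
  obtain ⟨y, hy⟩ := exists_far (R + B + Dd g)
  obtain ⟨m, hm, hmx⟩ := hR (g * y)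
  set n := g⁻¹ * m.1 * g with hn
  have h1 : Dd (n * y) ≤ R + B + Dd g := by
    have e : n * y = g⁻¹ * (m.1 * (g * y) * m.2⁻¹ * m.2) := by rw [hn]; group
    rw [e]
    have h2 := Dd_mul_le g⁻¹ (m.1 * (g * y) * m.2⁻¹ * m.2)
    have h3 := Dd_mul_le (m.1 * (g * y) * m.2⁻¹) m.2
    have h4 := hbd m hm
    rw [Dd_inv] at h2
    linarith
  have h5 : dist (y • I) (n⁻¹ • I) ≤ R + B + Dd g := by
    have : dist (y • I) (n⁻¹ • I) = Dd (n * y) := by
      unfold Dd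
      rw [← dist_sl n (y • I) (n⁻¹ • I), smul_inv_smul, ← mul_smul]
    rw [this]; exact h1
  have h6 : vQ (n⁻¹ • I) = 0 := by
    apply conj_axis hc _ vQ_I
    have := hNn m⁻¹ (M.inv_mem hm)
    have e : n⁻¹ = g⁻¹ * (m⁻¹).1 * g := by
      rw [hn]
      show (g⁻¹ * m.1 * g)⁻¹ = g⁻¹ * m.1⁻¹ * g
      group
    rw [e]; exact this
  have h7 := hy _ h6
  linarith

end

end Pool.Agent.H838
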