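import Pool.Agent.H838.Ex2

/-!
# Exclusion of nondiscrete groups, part 3
-/

set_option autoImplicit false

namespace Pool.Agent.H838

open Filter Topology Matrix UpperHalfPlane
open scoped MatrixGroups Matrix.Norms.Operator

noncomputable section

variable {M : Subgroup (SL(2, ℝ) × SL(2, ℝ))}

lemma poly_bdd {α β γ c : ℝ} (h : ∀ s : ℝ, |α + β * s + γ * s ^ 2| ≤ c) : β = 0 ∧ γ = 0 := by
  have hc : 0 ≤ c := (abs_nonneg _).trans (h 0)
  have hγ : γ = 0 := by
    by_contra hne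
    -- use the combination `f(s) + f(-s) - 2 f(0) = 2 γ s ^ 2`
    have h2 : ∀ s : ℝ, |2 * γ * s ^ 2| ≤ 4 * c := by
      intro s
      have e : 2 * γ * s ^ 2 = (α + β * s + γ * s ^ 2) + (α + β * (-s) + γ * (-s) ^ 2) -
        2 * (α + β * 0 + γ * 0 ^ 2) := by ring
      have a1 := abs_le.mp (h s)
      have a2 := abs_le.mp (h (-s))
      have a3 := abs_le.mp (h 0)
      rw [e, abs_le]
      constructor <;> linarith [a1.1, a1.2, a2.1, a2.2, a3.1, a3.2]
    have h3 := h2 (Real.sqrt ((4 * c + 1) / |γ|))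
    have hγ0 : 0 < |γ| := abs_pos.mpr hne
    rw [Real.sq_sqrt (by positivity), abs_mul, abs_mul, abs_of_pos (by norm_num : (0 : ℝ) < 2),
      abs_of_nonneg (by positivity : 0 ≤ (4 * c + 1) / |γ|)] at h3
    have e : 2 * |γ| * ((4 * c + 1) / |γ|) = 2 * (4 * c + 1) := by field_simp
    rw [e] at h3
    linarith
  refine ⟨?_, hγ⟩
  by_contra hne
  have h2 : ∀ s : ℝ, |2 * β * s| ≤ 2 * c := by
    intro s
    have e : 2 * β * s = (α + β * s + γ * s ^ 2) - (α + β * (-s) + γ * (-s) ^ 2) := by ring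
    have a1 := abs_le.mp (h s)
    have a2 := abs_le.mp (h (-s))
    rw [e, abs_le]
    constructor <;> linarith [a1.1, a1.2, a2.1, a2.2]
  have h3 := h2 ((c + 1) / |β|)
  have hβ0 : 0 < |β| := abs_pos.mpr hne
  rw [abs_mul, abs_mul, abs_of_pos (by norm_num : (0 : ℝ) < 2),
      abs_of_nonneg (by positivity : 0 ≤ (c + 1) / |β|)] at h3
  have e : 2 * |β| * ((c + 1) / |β|) = 2 * (c + 1) := by field_simp
  rw [e] at h3
  linarith

/-- unipotent elements -/
def uu (s : ℝ) : SL(2, ℝ) := ⟨!![1, s; 0, 1], by simp [Matrix.det_fin_two_of]⟩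

lemma cj_uu (s : ℝ) {Y : Mat} (hY : Y ∈ sl2) : cj (uu s) Y =
    !![Y 0 0 + s * Y 1 0, Y 0 1 - 2 * Y 0 0 * s - Y 1 0 * s ^ 2; Y 1 0, -(Y 0 0 + s * Y 1 0)] := by
  have h : (uu s).val * Y = !![Y 0 0 + s * Y 1 0, Y 0 1 - 2 * Y 0 0 * s - Y 1 0 * s ^ 2;
      Y 1 0, -(Y 0 0 + s * Y 1 0)] * (uu s).val := by
    have h11 := entry11 hY
    ext i j
    fin_cases i <;> fin_cases j <;>
      simp [uu, Matrix.mul_apply, Fin.sum_univ_two, h11] <;> ring
  unfold cj
  rw [h, mul_assoc, val_mul_inv, mul_one]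

/-- not all conjugates of a nonzero traceless matrix of nonzero determinant are upper
triangular -/
lemma exists_lower {Y : Mat} (hY : Y ∈ sl2) (hd : Y.det ≠ 0) : ∃ y : SL(2, ℝ), cj y Y 1 0 ≠ 0 := by
  by_contra hall
  push Not at hall
  have h1 := hall 1
  rw [cj_one] at h1
  have h11 := entry11 hY
  rw [Matrix.det_fin_two, h1, h11] at hd
  have ha : Y 0 0 ≠ 0 := by
    intro h0; apply hd; rw [h0]; ring
  -- the lower unipotent element
  let l : SL(2, ℝ) := ⟨!![1, 0; 1, 1], by simp [Matrix.det_fin_two_of]⟩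
  let l' : SL(2, ℝ) := ⟨!![1, 0; -1, 1], by simp [Matrix.det_fin_two_of]⟩
  have e : ∀ (g : SL(2, ℝ)) (Z : Mat), g.val * Y = Z * g.val → cj g Y = Z := by
    intro g Z h
    unfold cj
    rw [h, mul_assoc, val_mul_inv, mul_one]
  have c1 : cj l Y = !![Y 0 0 - Y 0 1, Y 0 1; 2 * Y 0 0 - Y 0 1, -(Y 0 0 - Y 0 1)] := by
    apply e
    ext i j
    fin_cases i <;> fin_cases j <;>
      simp [l, Matrix.mul_apply, Fin.sum_univ_two, h11, h1] <;> ring
  have c2 : cj l' Y = !![Y 0 0 + Y 0 1, Y 0 1; -2 * Y 0 0 - Y 0 1, -(Y 0 0 + Y 0 1)] := by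
    apply e
    ext i j
    fin_cases i <;> fin_cases j <;>
      simp [l', Matrix.mul_apply, Fin.sum_univ_two, h11, h1] <;> ring
  have h2 := hall l
  have h3 := hall l'
  rw [c1] at h2
  rw [c2] at h3
  simp at h2 h3
  apply ha
  linarith

/-- Both factors preserve a nonisotropic line: impossible. -/
lemma kill_lines (h : Hyp M) {X1 X2 : Mat} (hX1 : X1 ∈ sl2) (hX2 : X2 ∈ sl2)
    (hd1 : X1.det ≠ 0) (hd2 : X2.det ≠ 0) (h1 : ∀ m ∈ M, cj m.1 X1 = X1 ∨ cj m.1 X1 = -X1)
    (h2 : ∀ m ∈ M, cj m.2 X2 = X2 ∨ cj m.2 X2 = -X2) : False := by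
  let f : SL(2, ℝ) → ℝ := fun x => (X1 * cj x X2).trace
  have hinv : ∀ m ∈ M, ∀ x, |f (m.1 * x * m.2⁻¹)| = |f x| := by
    intro m hm x
    have e1 : cj m.2⁻¹ X2 = X2 ∨ cj m.2⁻¹ X2 = -X2 := h2 m⁻¹ (M.inv_mem hm)
    have e2 : cj m.1⁻¹ X1 = X1 ∨ cj m.1⁻¹ X1 = -X1 := h1 m⁻¹ (M.inv_mem hm)
    have e3 : ∀ Z : Mat, (X1 * cj m.1 Z).trace = (cj m.1⁻¹ X1 * Z).trace := by
      intro Z
      rw [← trace_cj m.1 (cj m.1⁻¹ X1 * Z), cj_mulm, cj_cj_inv]
    show |(X1 * cj (m.1 * x * m.2⁻¹) X2).trace| = |(X1 * cj x X2).trace|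
    rw [cj_mul, cj_mul, e3]
    rcases e1 with e1 | e1 <;> rcases e2 with e2 | e2 <;> rw [e1, e2]
    · rw [neg_mul, Matrix.trace_neg, abs_neg]
    · rw [cj_neg, mul_neg, Matrix.trace_neg, abs_neg]
    · rw [cj_neg, neg_mul_neg]
  have hcont : Continuous f := by
    have hv : Continuous fun x : SL(2, ℝ) => x.val := continuous_subtype_val
    have hvi : Continuous fun x : SL(2, ℝ) => (x⁻¹).val := continuous_subtype_val.comp continuous_inv
    have : Continuous fun x : SL(2, ℝ) => X1 * (x.val * X2 * (x⁻¹).val) :=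
      continuous_const.mul ((hv.mul continuous_const).mul hvi)
    exact this.matrix_trace
  obtain ⟨R, hR⟩ := h.coc
  obtain ⟨c, hc⟩ := (isCompact_Dd R).exists_bound_of_continuousOn hcont.continuousOn
  have hb : ∀ x, |f x| ≤ c := by
    intro x
    obtain ⟨m, hm, hx⟩ := hR x
    have := hc _ hx
    rw [Real.norm_eq_abs, hinv m hm] at this
    exact this
  -- polynomial computations
  have hpoly : ∀ y : SL(2, ℝ), 2 * X1 0 0 * cj y X2 1 0 - 2 * X1 1 0 * cj y X2 0 0 = 0 ∧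
      -(X1 1 0 * cj y X2 1 0) = 0 := by
    intro y
    apply poly_bdd (c := c) (α := 2 * X1 0 0 * cj y X2 0 0 + X1 0 1 * cj y X2 1 0 +
      X1 1 0 * cj y X2 0 1)
    intro s
    have h3 := hb (uu s * y)
    have e : f (uu s * y) = 2 * X1 0 0 * cj y X2 0 0 + X1 0 1 * cj y X2 1 0 +
        X1 1 0 * cj y X2 0 1 + (2 * X1 0 0 * cj y X2 1 0 - 2 * X1 1 0 * cj y X2 0 0) * s +
        -(X1 1 0 * cj y X2 1 0) * s ^ 2 := by
      show (X1 * cj (uu s * y) X2).trace = _
      rw [cj_mul, cj_uu s (cj_mem_sl2 y hX2), Matrix.trace_fin_two]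
      have h11 := entry11 hX1
      simp [Matrix.mul_apply, Fin.sum_univ_two, h11]
      ring
    rw [e] at h3
    exact h3
  have h11 := entry11 hX1
  by_cases hr : X1 1 0 = 0
  · obtain ⟨y, hy⟩ := exists_lower hX2 hd2
    have h3 := (hpoly y).1
    rw [hr] at h3
    rw [Matrix.det_fin_two, hr, h11] at hd1
    have hp : X1 0 0 ≠ 0 := by intro h0; apply hd1; rw [h0]; ring
    have : X1 0 0 * cj y X2 1 0 = 0 := by linarith
    rcases mul_eq_zero.mp this with h4 | h4
    · exact hp h4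
    · exact hy h4
  · have h3 := hpoly 1
    rw [cj_one] at h3
    have e1 : X2 1 0 = 0 := by
      have : X1 1 0 * X2 1 0 = 0 := by linarith [h3.2]
      exact (mul_eq_zero.mp this).resolve_left hr
    have e2 : X2 0 0 = 0 := by
      have h4 := h3.1
      rw [e1] at h4
      have : X1 1 0 * X2 0 0 = 0 := by linarith
      exact (mul_eq_zero.mp this).resolve_left hr
    apply hd2
    rw [Matrix.det_fin_two, e1, e2]; ring

/-- commuting elements are proportional -/
lemma prop_of_comm {X Y : Mat} (hX : X ∈ sl2) (hY : Y ∈ sl2) (hX0 : X ≠ 0)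
    (hc : Y * X - X * Y = 0) : ∃ a : ℝ, Y = a • X := by
  have hx := entry11 hX
  have hy := entry11 hY
  have e0 := congrFun (congrFun hc 0) 0
  have e1 := congrFun (congrFun hc 0) 1
  have e2 := congrFun (congrFun hc 1) 0
  simp [Matrix.mul_apply, Fin.sum_univ_two, hx, hy] at e0 e1 e2
  have hout : ∀ a : ℝ, Y 0 0 = a * X 0 0 → Y 0 1 = a * X 0 1 → Y 1 0 = a * X 1 0 →
      Y = a • X := by
    intro a h1 h2 h3
    ext i j
    fin_cases i <;> fin_cases j
    · simpa using h1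
    · simpa using h2
    · simpa using h3
    · simp [hx, hy, h1]
  by_cases ha : X 0 0 = 0
  · by_cases hb : X 0 1 = 0
    · have hcc : X 1 0 ≠ 0 := by
        intro hcc
        apply hX0
        rw [eq_of_entries hX, ha, hb, hcc]
        ext i j
        fin_cases i <;> fin_cases j <;> simp
      refine ⟨Y 1 0 / X 1 0, hout _ ?_ ?_ ?_⟩
      · rw [ha] at e2 ⊢
        have : Y 0 0 * X 1 0 = 0 := by linarith
        rw [(mul_eq_zero.mp this).resolve_right hcc]; ring
      · rw [hb] at e0 ⊢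
        have : Y 0 1 * X 1 0 = 0 := by linarith
        rw [(mul_eq_zero.mp this).resolve_right hcc]; ring
      · field_simp
    · refine ⟨Y 0 1 / X 0 1, hout _ ?_ ?_ ?_⟩
      · rw [ha] at e1 ⊢
        have : Y 0 0 * X 0 1 = 0 := by linarith
        rw [(mul_eq_zero.mp this).resolve_right hb]; ring
      · field_simp
      · field_simp; linarith
  · refine ⟨Y 0 0 / X 0 0, hout _ ?_ ?_ ?_⟩
    · field_simp
    · field_simp; linarith
    · field_simp; linarith

/-- tangent vectors commute with preserved lines -/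
lemma comm_of_line (h : Hyp M) {X : Mat} (hX0 : X ≠ 0)
    (h2 : ∀ m ∈ M, cj m.2 X = X ∨ cj m.2 X = -X) {v : Mat × Mat}
    (hv : v ∈ tanSp M h.closed) : v.2 * X - X * v.2 = 0 := by
  set Y := v.2 with hY
  let G : ℝ → Mat := fun t => E1 Y t * X * E1 Y (-t)
  have hG : ∀ t, G t = X ∨ G t = -X := by
    intro t
    rw [mem_tanSp'] at hv
    obtain ⟨g, hg, -, hg2⟩ := hv t
    have e : G t = cj g.2 X := by
      show E1 Y t * X * E1 Y (-t) = g.2.val * X * (g.2⁻¹).val
      rw [hg2]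
      congr 1
      calc E1 Y (-t) = E1 Y (-t) * (g.2.val * (g.2⁻¹).val) := by rw [val_mul_inv, mul_one]
        _ = (E1 Y (-t) * E1 Y t) * (g.2⁻¹).val := by rw [hg2, mul_assoc]
        _ = _ := by rw [E1_neg_mul, one_mul]
    rw [e]
    exact h2 g hg
  have hd : HasDerivAt G (Y * X - X * Y) 0 := by
    have h1 : HasDerivAt (fun t => E1 Y t * X) (Y * X) 0 := (hasDerivAt_E1 Y).mul_const X
    have h2 : HasDerivAt (fun t => E1 Y (-t)) (-Y) 0 := by
      have h3 : HasDerivAt (E1 Y) Y (-0) := by rw [neg_zero]; exact hasDerivAt_E1 Y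
      have h4 := HasDerivAt.scomp (0 : ℝ) h3 (hasDerivAt_neg (0 : ℝ))
      rw [neg_one_smul] at h4
      exact h4
    have h5 := h1.mul h2
    rw [neg_zero, E1_zero, mul_one, one_mul, mul_neg, ← sub_eq_add_neg] at h5
    exact h5
  have hG0 : G 0 = X := by
    show E1 Y 0 * X * E1 Y (-0) = X
    rw [neg_zero, E1_zero, one_mul, mul_one]
  have hne : X ≠ -X := by
    intro h3
    apply hX0
    have : (2 : ℝ) • X = 0 := by
      rw [two_smul]
      nth_rw 2 [h3]
      rw [add_neg_cancel]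
    exact (smul_eq_zero.mp this).resolve_left two_ne_zero
  have hev : G =ᶠ[𝓝 0] fun _ => X := by
    have h3 : ∀ᶠ t in 𝓝 (0 : ℝ), G t ≠ -X := by
      have := hd.continuousAt.eventually_ne (by rw [hG0]; exact hne)
      exact this
    filter_upwards [h3] with t ht
    exact (hG t).resolve_right ht
  have hd2 : HasDerivAt G 0 0 := (hasDerivAt_const (0 : ℝ) X).congr_of_eventuallyEq hev
  exact hd.unique hd2

end

end Pool.Agent.H838
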