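import Pool.Agent.H838.Ex3

/-!
# Exclusion of nondiscrete groups, part 4
-/

set_option autoImplicit false

namespace Pool.Agent.H838

open Filter Topology Matrix UpperHalfPlane
open scoped MatrixGroups Matrix.Norms.Operator

noncomputable section

variable {M : Subgroup (SL(2, ℝ) × SL(2, ℝ))}

/-- an elliptic element -/
def Je : Mat := !![0, 1; -1, 0]

lemma Je_mem : Je ∈ sl2 := by simp [mem_sl2, Je, Matrix.trace_fin_two]

lemma Je_det : 0 < Je.det := by simp [Je, Matrix.det_fin_two_of]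

/-- a nilpotent element -/
def Ee : Mat := !![0, 1; 0, 0]

lemma Ee_mem : Ee ∈ sl2 := by simp [mem_sl2, Ee, Matrix.trace_fin_two]

lemma Ee_ne : Ee ≠ 0 := by
  intro h
  have := congrFun (congrFun h 0) 1
  simp [Ee] at this

lemma dg_mem (c : ℝ) : dg c ∈ sl2 := by simp [mem_sl2, dg, Matrix.trace_fin_two]

lemma dg_Ee : dg 1 * Ee - Ee * dg 1 = (2 : ℝ) • Ee := by
  ext i j
  fin_cases i <;> fin_cases j <;> simp [dg, Ee]
  norm_num

lemma fst_mem_sl2 {hM : IsClosed (M : Set (SL(2, ℝ) × SL(2, ℝ)))} {v : Mat × Mat}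
    (hv : v ∈ tanSp M hM) : v.1 ∈ sl2 :=
  (trace_tanSp hv).1

lemma snd_mem_sl2 {hM : IsClosed (M : Set (SL(2, ℝ) × SL(2, ℝ)))} {v : Mat × Mat}
    (hv : v ∈ tanSp M hM) : v.2 ∈ sl2 :=
  (trace_tanSp hv).2

lemma n1_bot (h : Hyp M) (hirr : Irr (fun g => ∃ m ∈ M, m.1 = g)) {X : Mat}
    (hX : (X, (0 : Mat)) ∈ tanSp M h.closed) : X = 0 := by
  let n : Submodule ℝ Mat := (tanSp M h.closed).comap (LinearMap.inl ℝ Mat Mat)
  have hn : ∀ Y : Mat, Y ∈ n ↔ (Y, (0 : Mat)) ∈ tanSp M h.closed := fun Y => Iff.rfl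
  rcases hirr n (fun Y hY => fst_mem_sl2 ((hn Y).mp hY)) (by
    rintro _ ⟨m, hm, rfl⟩ Y hY
    rw [hn] at hY ⊢
    have := conj_tanSp hY hm
    have e : m.2.val * ((Y, (0 : Mat)) : Mat × Mat).2 * (m.2⁻¹).val = 0 := by
      show m.2.val * 0 * (m.2⁻¹).val = 0
      rw [mul_zero, zero_mul]
    rw [e] at this
    exact this) with h0 | h0
  · have : X ∈ n := (hn X).mpr hX
    rw [h0, Submodule.mem_bot] at this
    exact this
  · exfalso
    have : Je ∈ n := by rw [h0]; exact Je_mem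
    exact kill_ell1 h Je_mem Je_det ((hn Je).mp this)

lemma n2_bot (h : Hyp M) (hirr : Irr (fun g => ∃ m ∈ M, m.2 = g)) {X : Mat}
    (hX : ((0 : Mat), X) ∈ tanSp M h.closed) : X = 0 := by
  apply n1_bot h.swap _ (tan_swap (h := h) hX)
  have e : (fun g => ∃ m ∈ sw M, m.1 = g) = (fun g => ∃ m ∈ M, m.2 = g) := by
    funext g
    apply propext
    constructor
    · rintro ⟨⟨a, b⟩, hm, rfl⟩; exact ⟨(b, a), hm, rfl⟩
    · rintro ⟨⟨a, b⟩, hm, rfl⟩; exact ⟨(b, a), hm, rfl⟩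
  rw [e]; exact hirr

/-- the projection of the tangent space to the first factor -/
lemma pr1_cases (h : Hyp M) (hirr : Irr (fun g => ∃ m ∈ M, m.1 = g)) :
    (∀ v ∈ tanSp M h.closed, v.1 = 0) ∨ ∀ X ∈ sl2, ∃ v ∈ tanSp M h.closed, v.1 = X := by
  let V : Submodule ℝ Mat := (tanSp M h.closed).map (LinearMap.fst ℝ Mat Mat)
  rcases hirr V (by
    rintro _ ⟨v, hv, rfl⟩
    exact fst_mem_sl2 hv) (by
    rintro _ ⟨m, hm, rfl⟩ _ ⟨v, hv, rfl⟩
    exact ⟨_, conj_tanSp hv hm, rfl⟩) with h0 | h0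
  · left
    intro v hv
    have : v.1 ∈ V := ⟨v, hv, rfl⟩
    rw [h0, Submodule.mem_bot] at this
    exact this
  · right
    intro X hX
    rw [← h0] at hX
    obtain ⟨v, hv, rfl⟩ := hX
    exact ⟨v, hv, rfl⟩

/-- the mixed case -/
lemma mixed (h : Hyp M) (hirr : Irr (fun g => ∃ m ∈ M, m.1 = g)) {X : Mat} (hX : X ∈ sl2)
    (hd : X.det ≠ 0) (hl : ∀ m ∈ M, cj m.2 X = X ∨ cj m.2 X = -X) :
    ∀ v ∈ tanSp M h.closed, v = 0 := by
  have hX0 : X ≠ 0 := by
    rintro rfl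
    apply hd
    simp
  have hprop : ∀ v ∈ tanSp M h.closed, ∃ a : ℝ, v.2 = a • X := fun v hv =>
    prop_of_comm hX (snd_mem_sl2 hv) hX0 (comm_of_line h hX0 hl hv)
  rcases pr1_cases h hirr with h0 | h0
  · intro v hv
    by_contra hne
    obtain ⟨a, ha⟩ := hprop v hv
    have hv1 := h0 v hv
    have ha0 : a ≠ 0 := by
      rintro rfl
      apply hne
      rw [zero_smul] at ha
      exact Prod.ext hv1 ha
    have hX' : ((0 : Mat), X) ∈ tanSp M h.closed := by
      have h1 := (tanSp M h.closed).smul_mem a⁻¹ hv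
      have e : a⁻¹ • v = ((0 : Mat), X) := by
        apply Prod.ext
        · show a⁻¹ • v.1 = 0
          rw [hv1, smul_zero]
        · show a⁻¹ • v.2 = X
          rw [ha, smul_smul, inv_mul_cancel₀ ha0, one_smul]
      rw [e] at h1
      exact h1
    rcases lt_or_gt_of_ne hd with hd' | hd'
    · apply kill_hyp1 h.swap hX hd' (tan_swap (h := h) hX')
      rintro ⟨a, b⟩ hm
      exact hl (b, a) hm
    · exact kill_ell2 h hX hd' hX'
  · exfalso
    obtain ⟨v, hv, hv1⟩ := h0 _ (dg_mem 1)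
    obtain ⟨w, hw, hw1⟩ := h0 _ Ee_mem
    obtain ⟨a, ha⟩ := hprop v hv
    obtain ⟨b, hb⟩ := hprop w hw
    have hz := bracket_tanSp hv hw
    have e : v * w - w * v = ((2 : ℝ) • Ee, (0 : Mat)) := by
      apply Prod.ext
      · show v.1 * w.1 - w.1 * v.1 = _
        rw [hv1, hw1, dg_Ee]
      · show v.2 * w.2 - w.2 * v.2 = 0
        rw [ha, hb, smul_mul_smul_comm, smul_mul_smul_comm, mul_comm b a, sub_self]
    rw [e] at hz
    have := n1_bot h hirr hz
    rcases smul_eq_zero.mp this with h1 | h1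
    · norm_num at h1
    · exact Ee_ne h1

lemma det_of_bracket {Y Z : Mat} (hY : Y ∈ sl2) (hZ0 : Z ≠ 0)
    (hb : Y * Z - Z * Y = (2 : ℝ) • Z) : Y.det = -1 := by
  have hYY := sq_sl2 hY
  -- `Y Z = - Z Y`
  have h1 : Y * (Y * Z - Z * Y) + (Y * Z - Z * Y) * Y = 0 := by
    have e : Y * (Y * Z - Z * Y) + (Y * Z - Z * Y) * Y = (Y * Y) * Z - Z * (Y * Y) := by
      noncomm_ring
    rw [e, hYY]
    simp
  rw [hb, mul_smul_comm, smul_mul_assoc, ← smul_add] at h1
  have h2 : Y * Z + Z * Y = 0 := (smul_eq_zero.mp h1).resolve_left two_ne_zero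
  have h3 : Y * Z = Z := by
    have h4 : (2 : ℝ) • (Y * Z) = (2 : ℝ) • Z := by
      rw [two_smul, ← hb]
      nth_rw 2 [← add_zero (Y * Z)]
      rw [← h2]
      have : Z * Y = -(Y * Z) := by
        rw [eq_neg_iff_add_eq_zero, add_comm]; exact h2
      rw [this]
      abel
    exact smul_right_injective _ (two_ne_zero (α := ℝ)) h4
  have h5 : (Y - 1).det = 0 := by
    by_contra hne
    apply hZ0
    have hu : IsUnit (Y - 1).det := isUnit_iff_ne_zero.mpr hne
    have h6 : (Y - 1) * Z = 0 := by rw [sub_mul, one_mul, h3, sub_self]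
    calc Z = ((Y - 1)⁻¹ * (Y - 1)) * Z := by rw [Matrix.nonsing_inv_mul _ hu, one_mul]
      _ = (Y - 1)⁻¹ * ((Y - 1) * Z) := by rw [mul_assoc]
      _ = 0 := by rw [h6, mul_zero]
  have h11 := entry11 hY
  rw [Matrix.det_fin_two] at h5 ⊢
  simp [h11] at h5
  rw [h11]
  linarith

/-- The tangent space vanishes. -/
theorem tan_zero (h : Hyp M) : ∀ v ∈ tanSp M h.closed, v = 0 := by
  by_cases h1 : Irr (fun g => ∃ m ∈ M, m.1 = g)
  · by_cases h2 : Irr (fun g => ∃ m ∈ M, m.2 = g)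
    · intro v hv
      rcases pr1_cases h h1 with h0 | h0
      · have hv1 := h0 v hv
        have hv' : ((0 : Mat), v.2) ∈ tanSp M h.closed := by
          have : v = ((0 : Mat), v.2) := Prod.ext hv1 rfl
          rw [← this]; exact hv
        exact Prod.ext hv1 (n2_bot h h2 hv')
      · exfalso
        obtain ⟨x, hx, hx1⟩ := h0 _ (dg_mem 1)
        obtain ⟨y, hy, hy1⟩ := h0 _ Ee_mem
        have hz := (tanSp M h.closed).sub_mem (bracket_tanSp hx hy)
          ((tanSp M h.closed).smul_mem (2 : ℝ) hy)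
        have e : x * y - y * x - (2 : ℝ) • y =
            ((0 : Mat), x.2 * y.2 - y.2 * x.2 - (2 : ℝ) • y.2) := by
          apply Prod.ext
          · show x.1 * y.1 - y.1 * x.1 - (2 : ℝ) • y.1 = 0
            rw [hx1, hy1, dg_Ee, sub_self]
          · rfl
        rw [e] at hz
        have hb := sub_eq_zero.mp (n2_bot h h2 hz)
        have hy2 : y.2 ≠ 0 := by
          intro h3
          have : y = (Ee, (0 : Mat)) := Prod.ext hy1 h3
          rw [this] at hy
          exact Ee_ne (n1_bot h h1 hy)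
        have hdet := det_of_bracket (snd_mem_sl2 hx) hy2 hb
        have hdg : (dg 1).det = -1 := by simp [dg, Matrix.det_fin_two_of]
        have hx' : (dg 1, x.2) ∈ tanSp M h.closed := by
          rw [← hx1]; exact hx
        exact kill_stab h (dg_mem 1) (snd_mem_sl2 hx) (by rw [hdg]; norm_num)
          (by rw [hdg, hdet]) hx'
    · obtain ⟨X, hX, hd, hl⟩ := exists_line h.cr2 h2
      exact mixed h h1 hX hd (fun m hm => hl m.2 ⟨m, hm, rfl⟩)
  · obtain ⟨X1, hX1, hd1, hl1⟩ := exists_line h.cr1 h1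
    by_cases h2 : Irr (fun g => ∃ m ∈ M, m.2 = g)
    · -- exchange the factors
      have hirr : Irr (fun g => ∃ m ∈ sw M, m.1 = g) := by
        have e : (fun g => ∃ m ∈ sw M, m.1 = g) = (fun g => ∃ m ∈ M, m.2 = g) := by
          funext g
          apply propext
          constructor
          · rintro ⟨⟨a, b⟩, hm, rfl⟩; exact ⟨(b, a), hm, rfl⟩
          · rintro ⟨⟨a, b⟩, hm, rfl⟩; exact ⟨(b, a), hm, rfl⟩
        rw [e]; exact h2
      have hm := mixed h.swap hirr hX1 hd1 (by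
        rintro ⟨a, b⟩ hm
        exact hl1 b ⟨(b, a), hm, rfl⟩)
      intro v hv
      have := hm (v.2, v.1) (tan_swap (h := h) hv)
      exact Prod.ext (congrArg Prod.snd this) (congrArg Prod.fst this)
    · exfalso
      obtain ⟨X2, hX2, hd2, hl2⟩ := exists_line h.cr2 h2
      exact kill_lines h hX1 hX2 hd1 hd2 (fun m hm => hl1 m.1 ⟨m, hm, rfl⟩)
        (fun m hm => hl2 m.2 ⟨m, hm, rfl⟩)

/-- Hence the group is discrete near the identity. -/
theorem exists_gap (h : Hyp M) : ∃ δ : ℝ, 0 < δ ∧ ∀ m ∈ M,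
    ‖((m.1.val, m.2.val) : Mat × Mat) - 1‖ < δ → m = 1 := by
  by_contra hno
  push Not at hno
  obtain ⟨v, hv, hv0⟩ := exists_tan (M := M) (hM := h.closed) (by
    intro δ hδ
    obtain ⟨m, hm, hm1, hm2⟩ := hno δ hδ
    refine ⟨(m.1.val, m.2.val), ⟨m, hm, rfl⟩, ?_, hm1⟩
    intro he
    apply hm2
    exact Prod.ext (Subtype.ext (congrArg Prod.fst he)) (Subtype.ext (congrArg Prod.snd he)))
  exact hv0 (tan_zero h v hv)

end

end Pool.Agent.H838
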