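import Pool.Agent.H838.Quo

/-!
# Freeness
-/

set_option autoImplicit false

namespace Pool.Agent.H838

open UpperHalfPlane Matrix Topology
open scoped MatrixGroups Pointwise

noncomputable section

lemma sl_vR (g : SL(2, ℝ)) (z : ℍ) :
    vR (g • z) = (g 1 0) ^ 2 * vP z + 2 * (g 1 0) * (g 1 1) * vQ z + (g 1 1) ^ 2 * vR z := by
  have := vR_smul (tg g) (abs_det_tg g) z
  simp only [tg_apply] at this
  exact this

lemma sl_vQ (g : SL(2, ℝ)) (z : ℍ) :
    vQ (g • z) = (g 0 0) * (g 1 0) * vP z + ((g 0 0) * (g 1 1) + (g 0 1) * (g 1 0)) * vQ z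
      + (g 0 1) * (g 1 1) * vR z := by
  have := vQ_smul (tg g) (abs_det_tg g) z
  simp only [tg_apply] at this
  exact this

lemma quad_pos {p q r P Q : ℝ} (h : p * r - q ^ 2 = 1) (hp : 0 < p) (hP : 0 < P) :
    0 < p * Q ^ 2 - 2 * P * Q * q + P ^ 2 * r := by
  have h4 : p * (p * Q ^ 2 - 2 * P * Q * q + P ^ 2 * r) = (p * Q - P * q) ^ 2 + P ^ 2 := by
    linear_combination P ^ 2 * h
  have h5 : 0 < p * (p * Q ^ 2 - 2 * P * Q * q + P ^ 2 * r) := by
    rw [h4]; positivity
  exact (mul_pos_iff_of_pos_left hp).mp h5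

/-- An element of finite order has a fixed point. -/
lemma exists_fix {g : SL(2, ℝ)} {n : ℕ} (hn : 0 < n) (hg : g ^ n = 1) :
    ∃ τ : ℍ, g • τ = τ := by
  set P := ∑ k ∈ Finset.range n, vP (g ^ k • I) with hP
  set Qs := ∑ k ∈ Finset.range n, vQ (g ^ k • I) with hQ
  set R := ∑ k ∈ Finset.range n, vR (g ^ k • I) with hR
  have hne : (Finset.range n).Nonempty := ⟨0, Finset.mem_range.mpr hn⟩
  have hR0 : 0 < R := Finset.sum_pos (fun k _ => vR_pos _) hne
  have hP0 : 0 < P := Finset.sum_pos (fun k _ => vP_pos _) hne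
  -- positivity of the quadratic form
  have hpos : 0 < P * R - Qs ^ 2 := by
    -- for every real `t`, `P t ^ 2 + 2 Q t + R > 0`
    have hquad : 0 < P * Qs ^ 2 - 2 * P * Qs ^ 2 + P ^ 2 * R := by
      have e : P * Qs ^ 2 - 2 * P * Qs ^ 2 + P ^ 2 * R = ∑ k ∈ Finset.range n,
          (vP (g ^ k • I) * Qs ^ 2 - 2 * P * Qs * vQ (g ^ k • I) + P ^ 2 * vR (g ^ k • I)) := by
        rw [Finset.sum_add_distrib, Finset.sum_sub_distrib, ← Finset.sum_mul, ← Finset.mul_sum,
          ← Finset.mul_sum, ← hP, ← hQ, ← hR]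
        ring
      rw [e]
      apply Finset.sum_pos _ hne
      intro k _
      exact quad_pos (vPR _) (vP_pos _) hP0
    have : P * Qs ^ 2 - 2 * P * Qs ^ 2 + P ^ 2 * R = P * (P * R - Qs ^ 2) := by ring
    rw [this] at hquad
    exact (mul_pos_iff_of_pos_left hP0).mp hquad
  obtain ⟨z, c, hc, h1, h2, h3⟩ := exists_vec' P Qs R hR0 hpos
  have hshift : ∀ f : ℍ → ℝ, ∑ k ∈ Finset.range n, f (g • (g ^ k • I)) =
      ∑ k ∈ Finset.range n, f (g ^ k • I) := by
    intro f
    have h1 := Finset.sum_range_succ' (fun k => f (g ^ k • I)) n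
    have h' := Finset.sum_range_succ (fun k => f (g ^ k • I)) n
    rw [h1, hg, pow_zero] at h'
    have h2 : ∑ k ∈ Finset.range n, f (g • (g ^ k • I)) =
        ∑ k ∈ Finset.range n, f (g ^ (k + 1) • I) :=
      Finset.sum_congr rfl (fun k _ => by rw [pow_succ', mul_smul])
    rw [h2]
    linarith
  refine ⟨z, ext_vec ?_ ?_⟩
  · rw [sl_vQ, h1, h2, h3]
    have h4 := hshift vQ
    rw [Finset.sum_congr rfl (fun k _ => sl_vQ g (g ^ k • I))] at h4
    rw [Finset.sum_add_distrib, Finset.sum_add_distrib, ← Finset.mul_sum, ← Finset.mul_sum,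
      ← Finset.mul_sum, ← hP, ← hQ, ← hR] at h4
    linear_combination c * h4
  · rw [sl_vR, h1, h2, h3]
    have h4 := hshift vR
    rw [Finset.sum_congr rfl (fun k _ => sl_vR g (g ^ k • I))] at h4
    rw [Finset.sum_add_distrib, Finset.sum_add_distrib, ← Finset.mul_sum, ← Finset.mul_sum,
      ← Finset.mul_sum, ← hP, ← hQ, ← hR] at h4
    linear_combination c * h4

lemma eq_one_of_U {g : SL(2, ℝ)} {τ : ℍ} (h : g • τ = τ) (hU : U (tg g) τ = 1) : g = 1 := by
  have hd : denom (tg g) τ = ‖denom (tg g) τ‖ := by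
    unfold U at hU
    have n0 : (‖denom (tg g) τ‖ : ℂ) ≠ 0 := by simp
    rwa [div_eq_one_iff_eq n0] at hU
  have hpos : 0 < ‖denom (tg g) τ‖ := norm_pos_iff.mpr (denom_ne_zero _ _)
  generalize ‖denom (tg g) τ‖ = N at hd hpos
  rw [denom_tg] at hd
  have him := congrArg Complex.im hd
  have hre := congrArg Complex.re hd
  simp at him hre
  have hc : g 1 0 = 0 := him.resolve_right τ.im_ne_zero
  rw [hc] at hre
  simp at hre
  have hd0 : 0 < g 1 1 := by linarith
  have hdet := g.det_coe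
  rw [Matrix.det_fin_two, hc, mul_zero, sub_zero] at hdet
  have h1 := sl_vR g τ
  rw [h, hc] at h1
  have h2 := vR_pos τ
  have hd1 : g 1 1 = 1 := by
    have : vR τ * ((g 1 1) ^ 2 - 1) = 0 := by linarith
    rcases mul_eq_zero.mp this with h3 | h3
    · linarith
    · nlinarith
  have ha1 : g 0 0 = 1 := by rw [hd1, mul_one] at hdet; exact hdet
  have h4 := sl_vQ g τ
  rw [h, hc, hd1, ha1] at h4
  have hb : g 0 1 = 0 := by
    have : g 0 1 * vR τ = 0 := by linarith
    exact (mul_eq_zero.mp this).resolve_right h2.ne'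
  apply Matrix.SpecialLinearGroup.ext
  intro i j
  fin_cases i <;> fin_cases j
  · simpa using ha1
  · simpa using hb
  · simpa using hc
  · simpa using hd1

namespace Gp

lemma pow_g1 (x : Gp) (n : ℕ) : (x ^ n).g1 = x.g1 ^ n := by
  have := map_pow pr x n
  exact congrArg Prod.fst this

lemma pow_g2 (x : Gp) (n : ℕ) : (x ^ n).g2 = x.g2 ^ n := by
  have := map_pow pr x n
  exact congrArg Prod.snd this

lemma pow_f (x : Gp) {z w : ℍ} (hz : x.g1 • z = z) (hw : x.g2 • w = w) (n : ℕ) :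
    (x ^ n).f z w = n * x.f z w := by
  induction n with
  | zero => simp
  | succ n ih =>
    rw [pow_succ, mul_f, hz, hw, ih]
    push_cast; ring

lemma f_eq_zero_of_pow {x : Gp} {n : ℕ} (hn : 0 < n) (h : x ^ n = 1) {z w : ℍ}
    (hz : x.g1 • z = z) (hw : x.g2 • w = w) : x.f z w = 0 := by
  have h1 := pow_f x hz hw n
  rw [h, one_f] at h1
  have h2 : (n : ℝ) ≠ 0 := by exact_mod_cast hn.ne'
  exact (mul_eq_zero.mp h1.symm).resolve_left h2

/-- `H` is torsion free. -/
lemma Hs_torsionFree {x : Gp} (hx : x ∈ Hs) {n : ℕ} (hn : 0 < n) (h : x ^ n = 1) : x = 1 := by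
  have hg : x.g1 = x.g2 := hx
  have h1 : x.g1 ^ n = 1 := by rw [← pow_g1, h]; rfl
  obtain ⟨τ, hτ⟩ := exists_fix hn h1
  have hτ2 : x.g2 • τ = τ := by rw [← hg]; exact hτ
  have hf := f_eq_zero_of_pow hn h hτ hτ2
  have he := x.he τ τ
  rw [hf, ← hg] at he
  have hU : U (tg x.g1) τ = 1 := by
    have n1 := U_ne_zero (tg x.g1) τ
    have : (1 : ℂ) = (U (tg x.g1) τ)⁻¹ := by
      rw [← mul_right_inj' n1]
      simp only [Complex.ofReal_zero, zero_mul, Complex.exp_zero] at he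
      rw [mul_one, mul_inv_cancel₀ n1]
      field_simp at he
      exact he
    rw [← inv_inv (U (tg x.g1) τ), ← this, inv_one]
  have hg1 := eq_one_of_U hτ hU
  have hpr : pr x = 1 := by rw [pr_apply, ← hg, hg1]; rfl
  apply ext' hg1 (by rw [← hg]; exact hg1)
  rw [← (ker_f hpr τ τ).1, hf]
  rfl

/-- freeness of the action -/
lemma free_Gam {x : Gp} (hx : x ∈ Gam) (a : Gp ⧸ Hs) (ha : x • a = a) : x = 1 := by
  -- finite order
  have hfin : {y : Gam | ((y • ·) '' {a} ∩ {a}).Nonempty}.Finite :=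
    ProperlyDiscontinuousSMul.finite_disjoint_inter_image isCompact_singleton isCompact_singleton
  have hmem : ∀ k : ℕ, (⟨x, hx⟩ : Gam) ^ k ∈ {y : Gam | ((y • ·) '' {a} ∩ {a}).Nonempty} := by
    intro k
    refine ⟨a, ⟨a, rfl, ?_⟩, rfl⟩
    show ((⟨x, hx⟩ : Gam) ^ k) • a = a
    induction k with
    | zero => simp
    | succ k ih =>
      rw [pow_succ, mul_smul]
      have : (⟨x, hx⟩ : Gam) • a = a := ha
      rw [this, ih]
  have hford : IsOfFinOrder (⟨x, hx⟩ : Gam) := by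
    by_contra hno
    have hinj := injective_pow_iff_not_isOfFinOrder.mpr hno
    exact Set.infinite_range_of_injective hinj (hfin.subset (by rintro _ ⟨k, rfl⟩; exact hmem k))
  obtain ⟨n, hn, hxn⟩ := isOfFinOrder_iff_pow_eq_one.mp hford
  have hxn' : x ^ n = 1 := congrArg Subtype.val hxn
  induction a using QuotientGroup.induction_on with
  | H y =>
    have h1 : ((x * y : Gp) : Gp ⧸ Hs) = (y : Gp ⧸ Hs) := ha
    have h2 : y⁻¹ * x * y ∈ Hs := by
      have := QuotientGroup.eq.mp h1.symm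
      rwa [← mul_assoc] at this
    have h3 : (y⁻¹ * x * y) ^ n = 1 := by
      have : y⁻¹ * x * y = y⁻¹ * x * (y⁻¹)⁻¹ := by rw [inv_inv]
      rw [this, conj_pow, hxn']
      simp
    have h4 := Hs_torsionFree h2 hn h3
    have : x = y * (y⁻¹ * x * y) * y⁻¹ := by group
    rw [this, h4]
    simp

end Gp

end

end Pool.Agent.H838
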