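import Pool.Agent.H838.Pos

/-!
# Discreteness and coboundedness of the large triangle group
-/

set_option autoImplicit false

namespace Pool.Agent.H838

open UpperHalfPlane Matrix

noncomputable section

lemma exists_o : ∃ z : ℍ, ∀ i, 0 < T1.l i z := by
  have hC := T1.hC
  obtain ⟨z, k, hk, h⟩ := T1.exists_pt (fun _ => 1) (fun _ => zero_le_one) (by nlinarith)
  exact ⟨z, fun i => by rw [h i]; linarith⟩

/-- an interior point of the triangle -/
def o : ℍ := exists_o.choose

lemma o_pos (i : Fin 3) : 0 < T1.l i o := exists_o.choose_spec i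

lemma o_mem : o ∈ T1.Tr := fun i => (o_pos i).le

lemma continuous_vP : Continuous vP := by
  unfold vP
  exact ((UpperHalfPlane.continuous_re.pow 2).add (UpperHalfPlane.continuous_im.pow 2)).div₀
    UpperHalfPlane.continuous_im (fun z => z.im_ne_zero)

lemma continuous_vQ : Continuous vQ := by
  unfold vQ
  exact UpperHalfPlane.continuous_re.div₀ UpperHalfPlane.continuous_im (fun z => z.im_ne_zero)

lemma continuous_vR : Continuous vR := by
  unfold vR
  exact continuous_const.div₀ UpperHalfPlane.continuous_im (fun z => z.im_ne_zero)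

lemma continuous_l (T : Tri) (i : Fin 3) : Continuous (T.l i) := by
  have : T.l i = fun z => (T.c i * vP z - 2 * T.a i * vQ z - T.b i * vR z) / 2 := by
    funext z; exact T.l_def i z
  rw [this]
  have h1 := continuous_vP
  have h2 := continuous_vQ
  have h3 := continuous_vR
  fun_prop

lemma isOpen_int : IsOpen {z : ℍ | ∀ i, 0 < T1.l i z} := by
  rw [Set.ofPred_forall]
  exact isOpen_iInter_of_finite fun i => isOpen_lt continuous_const (continuous_l T1 i)

/-- separation of the orbit -/
lemma exists_sep : ∃ r : ℝ, 0 < r ∧ ∀ w : W, w ≠ 1 → r ≤ dist (jh w • o) o := by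
  obtain ⟨r, hr, hb⟩ := Metric.isOpen_iff.mp isOpen_int o o_pos
  refine ⟨r, hr, fun w hw => ?_⟩
  by_contra hlt
  push Not at hlt
  have h1 := hb (Metric.mem_ball.mpr hlt)
  obtain ⟨i, hi⟩ := cs.exists_leftDescent_of_ne_one hw
  have h2 := (neg' w i hi o o_mem).2 o_pos
  have h3 := h1 i
  linarith

lemma dist_orbit (w w' : W) : dist (jh w • o) (jh w' • o) = dist (jh (w'⁻¹ * w) • o) o := by
  rw [← dist_smul_gl (jh w') (abs_det_jh w') (jh (w'⁻¹ * w) • o) o, ← mul_smul, ← map_mul,
    mul_inv_cancel_left]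

/-- the orbit is locally finite -/
theorem finite_le (R : ℝ) : {w : W | dist (jh w • o) o ≤ R}.Finite := by
  obtain ⟨r, hr, hsep⟩ := exists_sep
  obtain ⟨t, -, htf, hcov⟩ := (isCompact_closedBall o R).finite_cover_balls (half_pos hr)
  have hex : ∀ w : W, ∃ x : ℍ, w ∈ {w : W | dist (jh w • o) o ≤ R} →
      x ∈ t ∧ dist (jh w • o) x < r / 2 := by
    intro w
    by_cases hw : dist (jh w • o) o ≤ R
    · have := hcov (Metric.mem_closedBall.mpr hw)
      simp only [Set.mem_iUnion, Metric.mem_ball, exists_prop] at this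
      obtain ⟨x, hx, hx'⟩ := this
      exact ⟨x, fun _ => ⟨hx, hx'⟩⟩
    · exact ⟨o, fun h => absurd h hw⟩
  choose f hf using hex
  apply Set.Finite.of_injOn (f := f) (t := t) (fun w hw => (hf w hw).1) _ htf
  intro w hw w' hw' he
  by_contra hne
  have h1 := (hf w hw).2
  have h2 := (hf w' hw').2
  rw [← he] at h2
  have h3 := dist_triangle_right (jh w • o) (jh w' • o) (f w)
  rw [dist_orbit] at h3
  have h4 := hsep (w'⁻¹ * w) (by
    intro h
    apply hne
    exact (inv_mul_eq_one.mp h).symm)
  linarith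

lemma jh_injective : Function.Injective jh := by
  rw [injective_iff_map_eq_one]
  intro w hw
  by_contra hne
  obtain ⟨r, hr, hsep⟩ := exists_sep
  have := hsep w hne
  rw [hw, one_smul, dist_self] at this
  linarith

/-- the translates of the triangle cover the plane -/
theorem cover (τ : ℍ) : ∃ w : W, (jh w)⁻¹ • τ ∈ T1.Tr := by
  have hfin : {w : W | dist (jh w • o) τ ≤ dist (jh (1 : W) • o) τ}.Finite := by
    apply (finite_le (dist (jh (1 : W) • o) τ + dist τ o)).subset
    intro w hw
    have h1 : dist (jh w • o) τ ≤ dist (jh (1 : W) • o) τ := hw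
    have h2 := dist_triangle (jh w • o) τ o
    show dist (jh w • o) o ≤ _
    linarith
  obtain ⟨w, hw, hmin⟩ := hfin.exists_minimalFor (fun w => dist (jh w • o) τ) _
    ⟨1, le_refl (dist (jh (1 : W) • o) τ)⟩
  have hmin' : ∀ w', dist (jh w • o) τ ≤ dist (jh w' • o) τ := by
    intro w'
    by_cases h : w' ∈ {w : W | dist (jh w • o) τ ≤ dist (jh (1 : W) • o) τ}
    · rcases le_total (dist (jh w • o) τ) (dist (jh w' • o) τ) with h1 | h1
      · exact h1
      · exact hmin h h1
    · have h1 : ¬ dist (jh w' • o) τ ≤ dist (jh (1 : W) • o) τ := h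
      have h2 : dist (jh w • o) τ ≤ dist (jh (1 : W) • o) τ := hw
      linarith
  refine ⟨w, fun i => ?_⟩
  have h1 := hmin' (w * cs.simple i)
  have hdet : |((jh w)⁻¹).det.val| = 1 := by
    rw [← map_inv]; exact abs_det_jh _
  rw [← dist_smul_gl _ hdet (jh w • o), ← dist_smul_gl _ hdet (jh (w * cs.simple i) • o),
    map_mul, mul_smul, inv_smul_smul, inv_smul_smul, jh_s, dist_comm, dist_comm (T1.A i • o)] at h1
  have h2 := Real.cosh_le_cosh.mpr (by rwa [abs_of_nonneg dist_nonneg, abs_of_nonneg dist_nonneg] :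
    |dist ((jh w)⁻¹ • τ) o| ≤ |dist ((jh w)⁻¹ • τ) (T1.A i • o)|)
  rw [T1.cosh_refl] at h2
  have h3 := o_pos i
  by_contra hneg
  push Not at hneg
  nlinarith

end

end Pool.Agent.H838
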