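import Pool.Agent.H838.Cov

/-!
# Properness and cocompactness of the exotic subgroup, at the level of matrices
-/

set_option autoImplicit false

namespace Pool.Agent.H838

open UpperHalfPlane Matrix Topology
open scoped MatrixGroups

noncomputable section

/-- second base point -/
def o' : ℍ := F o

lemma dist_rh (w : W) : dist (rh w • o') o' ≤ ε * dist (jh w • o) o := by
  have h := contr w o_mem o_mem
  rw [dist_comm (F o), dist_comm o (jh w • o)] at h
  exact h

/-- properness -/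
theorem finite_prop (M : ℝ) : {w : W | ∃ x0 x1 : SL(2, ℝ), jh w * tg x0 = tg x1 * rh w ∧
    dist (x0⁻¹ • o) o' ≤ M ∧ dist (x1 • o') o ≤ M}.Finite := by
  have hε := ε_lt
  apply (finite_le (2 * M / (1 - ε))).subset
  rintro w ⟨x0, x1, h, h0, h1⟩
  show dist (jh w • o) o ≤ 2 * M / (1 - ε)
  rw [le_div_iff₀ (by linarith)]
  have hj : jh w = tg x1 * rh w * tg x0⁻¹ := by
    rw [← h, map_inv, mul_inv_cancel_right]
  have e1 : jh w • o = tg x1 • rh w • (x0⁻¹ • o) := by
    rw [hj, mul_smul, mul_smul]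
    rfl
  have d1 := dist_triangle (tg x1 • rh w • (x0⁻¹ • o)) (tg x1 • rh w • o') o
  have d2 := dist_triangle (tg x1 • rh w • o') (tg x1 • o') o
  rw [dist_smul_gl _ (abs_det_tg x1), dist_smul_gl _ (abs_det_rh w)] at d1
  rw [dist_smul_gl _ (abs_det_tg x1)] at d2
  rw [← e1] at d1
  have d3 := dist_rh w
  have d4 : dist (tg x1 • o') o ≤ M := h1
  have : dist (jh w • o) o ≤ 2 * M + ε * dist (jh w • o) o := by linarith
  nlinarith

lemma le_cosh (x : ℝ) (hx : 0 ≤ x) : x ≤ Real.cosh x := by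
  have h1 := Real.self_le_sinh_iff.mpr hx
  have h2 := Real.sinh_lt_cosh x
  linarith

/-- bound for the diameter of the triangle -/
def Dm : ℝ := T1.C / (1 - T1.C)

lemma dist_le_Dm {z w : ℍ} (hz : z ∈ T1.Tr) (hw : w ∈ T1.Tr) : dist z w ≤ Dm := by
  have h1 := T1.dist_le hz hw
  have h2 := T1.hC1
  have h3 := le_cosh (dist z w) dist_nonneg
  have : Real.cosh (dist z w) ≤ Dm := by
    unfold Dm
    rw [le_div_iff₀ (by linarith)]
    linarith
  linarith

/-- cocompactness for the whole Coxeter group -/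
theorem exists_near (x : GL (Fin 2) ℝ) (hx : |x.det.val| = 1) :
    ∃ w : W, dist ((jh w)⁻¹ • x • rh w • o') o ≤ (ε * Dm + Dm + 1) / (1 - ε) := by
  have hε := ε_lt
  let δ : W → ℝ := fun w => dist ((jh w)⁻¹ • x • rh w • o') o
  have hbdd : BddBelow (Set.range δ) := ⟨0, by rintro _ ⟨w, rfl⟩; exact dist_nonneg⟩
  obtain ⟨_, ⟨w, rfl⟩, hw⟩ := exists_lt_of_csInf_lt (Set.range_nonempty δ)
    (lt_add_one (sInf (Set.range δ)))
  have hmin : ∀ w', δ w ≤ δ w' + 1 := by
    intro w'
    have := csInf_le hbdd (Set.mem_range_self w')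
    linarith
  refine ⟨w, ?_⟩
  rw [le_div_iff₀ (by linarith)]
  set p := (jh w)⁻¹ • x • rh w • o' with hp
  obtain ⟨w', hw'⟩ := cover p
  have h1 := hmin (w * w')
  have hdi : ∀ v : W, |((jh v)⁻¹).det.val| = 1 := by
    intro v; rw [← map_inv]; exact abs_det_jh _
  have e1 : δ (w * w') = dist ((jh w)⁻¹ • x • rh w • rh w' • o') (jh w' • o) := by
    show dist ((jh (w * w'))⁻¹ • x • rh (w * w') • o') o = _
    rw [map_mul, map_mul, _root_.mul_inv_rev, mul_smul, mul_smul,
      ← dist_smul_gl (jh w') (abs_det_jh w'), smul_inv_smul]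
  have d1 := dist_triangle ((jh w)⁻¹ • x • rh w • rh w' • o') p (jh w' • o)
  have e2 : dist ((jh w)⁻¹ • x • rh w • rh w' • o') p = dist (rh w' • o') o' := by
    rw [hp, dist_smul_gl _ (hdi w), dist_smul_gl _ hx, dist_smul_gl _ (abs_det_rh w)]
  have d2 : dist p (jh w' • o) ≤ Dm := by
    have h3 := dist_le_Dm hw' o_mem
    rw [← dist_smul_gl (jh w') (abs_det_jh w'), smul_inv_smul] at h3
    exact h3
  have d3 := dist_rh w'
  have d4 := dist_triangle (jh w' • o) p o
  rw [dist_comm (jh w' • o) p] at d4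
  have h5 : δ w = dist p o := rfl
  have hεp := ε_pos
  have d5 : ε * dist (jh w' • o) o ≤ ε * (Dm + dist p o) :=
    mul_le_mul_of_nonneg_left (by linarith) hεp.le
  rw [e2] at d1
  have : dist p o ≤ ε * (Dm + dist p o) + Dm + 1 := by linarith
  linarith

/-- cocompactness for the kernel of `χ` -/
theorem exists_near' : ∃ D : ℝ, ∀ x : GL (Fin 2) ℝ, |x.det.val| = 1 →
    ∃ w : W, χ w = 1 ∧ dist ((jh w)⁻¹ • x • rh w • o') o ≤ D := by
  classical
  let rep : DihedralGroup 3 → W := fun q => if h : ∃ w, χ w = q then h.choose else 1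
  have hrep : ∀ w, χ (rep (χ w)) = χ w := by
    intro w
    have h : ∃ w', χ w' = χ w := ⟨w, rfl⟩
    simp only [rep, dif_pos h]
    exact h.choose_spec
  let B : DihedralGroup 3 → ℝ := fun q =>
    dist ((rh (rep q))⁻¹ • o') o' + dist (jh (rep q) • o) o
  obtain ⟨q0, -, hq0⟩ := Finset.exists_max_image (Finset.univ : Finset (DihedralGroup 3)) B
    ⟨1, Finset.mem_univ _⟩
  refine ⟨(ε * Dm + Dm + 1) / (1 - ε) + B q0, fun x hx => ?_⟩
  obtain ⟨w, hw⟩ := exists_near x hx
  set s := rep (χ w) with hs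
  refine ⟨w * s⁻¹, ?_, ?_⟩
  · rw [map_mul, map_inv, hrep, mul_inv_cancel]
  · have hdi : ∀ v : W, |((jh v)⁻¹).det.val| = 1 := by
      intro v; rw [← map_inv]; exact abs_det_jh _
    have e1 : (jh (w * s⁻¹))⁻¹ • x • rh (w * s⁻¹) • o' =
        jh s • (jh w)⁻¹ • x • rh w • (rh s)⁻¹ • o' := by
      rw [map_mul, map_mul, map_inv, map_inv, _root_.mul_inv_rev, inv_inv, mul_smul, mul_smul]
    rw [e1]
    have d1 := dist_triangle (jh s • (jh w)⁻¹ • x • rh w • (rh s)⁻¹ • o')
      (jh s • (jh w)⁻¹ • x • rh w • o') o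
    have d2 := dist_triangle (jh s • (jh w)⁻¹ • x • rh w • o') (jh s • o) o
    rw [dist_smul_gl _ (abs_det_jh s), dist_smul_gl _ (hdi w), dist_smul_gl _ hx,
      dist_smul_gl _ (abs_det_rh w)] at d1
    rw [dist_smul_gl _ (abs_det_jh s)] at d2
    have h3 := hq0 (χ w) (Finset.mem_univ _)
    have h4 : B (χ w) = dist ((rh s)⁻¹ • o') o' + dist (jh s • o) o := rfl
    linarith

end

end Pool.Agent.H838
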