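import Pool.Agent.H838.Phi

/-!
# The covering group
-/

set_option autoImplicit false

namespace Pool.Agent.H838

open UpperHalfPlane Matrix Topology
open scoped MatrixGroups

noncomputable section

/-- shorthand for the inclusion -/
abbrev tg : SL(2, ℝ) →* GL (Fin 2) ℝ := Matrix.SpecialLinearGroup.mapGL ℝ

lemma tg_smul (g : SL(2, ℝ)) (z : ℍ) : tg g • z = g • z := rfl

lemma tg_apply (g : SL(2, ℝ)) (i j : Fin 2) : (tg g) i j = g i j := by
  simp [tg]

lemma det_tg (g : SL(2, ℝ)) : (tg g).det.val = 1 := by simp [tg]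

lemma abs_det_tg (g : SL(2, ℝ)) : |(tg g).det.val| = 1 := by rw [det_tg, abs_one]

lemma denom_tg (g : SL(2, ℝ)) (z : ℂ) : denom (tg g) z = (g 1 0 : ℂ) * z + g 1 1 := by
  simp only [denom, tg_apply]

lemma tg_injective : Function.Injective tg := by
  intro g h hgh
  apply Matrix.SpecialLinearGroup.ext
  intro i j
  rw [← tg_apply, ← tg_apply, hgh]

lemma U_mul_tg (g h : SL(2, ℝ)) (z : ℍ) :
    U (tg (g * h)) z = U (tg g) (h • z) * U (tg h) z := by
  rw [map_mul, U_mul_pos _ _ (by rw [det_tg]; exact one_pos)]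
  rfl

/-- continuous difference of arguments -/
def del (g : SL(2, ℝ)) (z : ℍ) : ℝ := Complex.arg (denom (tg g) z / denom (tg g) I)

@[simp] lemma del_I (g : SL(2, ℝ)) : del g I = 0 := by
  unfold del
  rw [div_self (denom_ne_zero _ _), Complex.arg_one]

@[simp] lemma del_one (z : ℍ) : del 1 z = 0 := by
  unfold del
  have h1 : denom (tg 1) z = 1 := by rw [map_one]; exact denom_one z
  have h2 : denom (tg 1) I = 1 := by rw [map_one]; exact denom_one I
  rw [h1, h2, div_one, Complex.arg_one]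

lemma ratio_mem (g : SL(2, ℝ)) (z : ℍ) :
    denom (tg g) z / denom (tg g) I ∈ Complex.slitPlane := by
  have hd : g 1 0 ^ 2 + g 1 1 ^ 2 > 0 := by
    have h := g.det_coe
    rw [Matrix.det_fin_two] at h
    by_contra hle
    push Not at hle
    have h1 : g 1 0 = 0 := by nlinarith [sq_nonneg (g 1 0), sq_nonneg (g 1 1)]
    have h2 : g 1 1 = 0 := by nlinarith [sq_nonneg (g 1 0), sq_nonneg (g 1 1)]
    rw [h1, h2] at h
    simp at h
  have hy := z.im_pos
  rw [denom_tg, denom_tg, Complex.mem_slitPlane_iff]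
  have hN : Complex.normSq ((g 1 0 : ℂ) * (I : ℍ) + g 1 1) = g 1 0 ^ 2 + g 1 1 ^ 2 := by
    simp [Complex.normSq_apply]; ring
  have hre : (((g 1 0 : ℂ) * z + g 1 1) / ((g 1 0 : ℂ) * (I : ℍ) + g 1 1)).re =
      (g 1 1 * (g 1 0 * z.re + g 1 1) + g 1 0 ^ 2 * z.im) / (g 1 0 ^ 2 + g 1 1 ^ 2) := by
    rw [Complex.div_re, hN]
    simp
    field_simp
  have him : (((g 1 0 : ℂ) * z + g 1 1) / ((g 1 0 : ℂ) * (I : ℍ) + g 1 1)).im =
      g 1 0 * (z.im * g 1 1 - (g 1 0 * z.re + g 1 1)) / (g 1 0 ^ 2 + g 1 1 ^ 2) := by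
    rw [Complex.div_im, hN]
    simp
    field_simp
  rw [hre, him]
  by_cases h : g 1 0 * (z.im * g 1 1 - (g 1 0 * z.re + g 1 1)) = 0
  · left
    apply div_pos _ hd
    rcases mul_eq_zero.mp h with h1 | h1
    · rw [h1] at hd ⊢
      nlinarith
    · have : g 1 0 * z.re + g 1 1 = z.im * g 1 1 := by linarith
      rw [this]
      nlinarith [mul_pos hy hd]
  · right
    exact div_ne_zero h hd.ne'

lemma continuous_denom_tg : Continuous fun p : SL(2, ℝ) × ℍ => denom (tg p.1) p.2 := by
  have : (fun p : SL(2, ℝ) × ℍ => denom (tg p.1) p.2) =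
      fun p : SL(2, ℝ) × ℍ => (p.1 1 0 : ℂ) * p.2 + p.1 1 1 := by
    funext p; exact denom_tg _ _
  rw [this]
  have h1 : ∀ i j, Continuous fun p : SL(2, ℝ) × ℍ => p.1 i j := by
    intro i j
    have : Continuous fun p : SL(2, ℝ) × ℍ => (p.1 : Matrix (Fin 2) (Fin 2) ℝ) :=
      continuous_subtype_val.comp continuous_fst
    exact this.matrix_elem i j
  have h2 : Continuous fun p : SL(2, ℝ) × ℍ => (p.2 : ℂ) :=
    UpperHalfPlane.continuous_coe.comp continuous_snd
  exact ((Complex.continuous_ofReal.comp (h1 1 0)).mul h2).add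
    (Complex.continuous_ofReal.comp (h1 1 1))

lemma continuous_del : Continuous fun p : SL(2, ℝ) × ℍ => del p.1 p.2 := by
  rw [continuous_iff_continuousAt]
  intro p
  have h1 : Continuous fun p : SL(2, ℝ) × ℍ => denom (tg p.1) p.2 / denom (tg p.1) I := by
    apply continuous_denom_tg.div₀
    · exact continuous_denom_tg.comp (continuous_fst.prodMk continuous_const)
    · intro p
      exact denom_ne_zero _ _
  exact ContinuousAt.comp (f := fun p : SL(2, ℝ) × ℍ => denom (tg p.1) p.2 / denom (tg p.1) I)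
    (g := Complex.arg) (Complex.continuousAt_arg (ratio_mem p.1 p.2)) h1.continuousAt

lemma exp_del (g : SL(2, ℝ)) (z : ℍ) :
    Complex.exp ((del g z : ℝ) * Complex.I) = U (tg g) z / U (tg g) I := by
  have h1 := Complex.norm_mul_exp_arg_mul_I (denom (tg g) z / denom (tg g) I)
  have h2 := denom_ne_zero (tg g) z
  have h3 := denom_ne_zero (tg g) I
  have n2 : (‖denom (tg g) z‖ : ℂ) ≠ 0 := by simp
  have n3 : (‖denom (tg g) I‖ : ℂ) ≠ 0 := by
    rw [Complex.ofReal_ne_zero, norm_ne_zero_iff]; exact h3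
  unfold del U
  rw [norm_div, Complex.ofReal_div, div_mul_eq_mul_div, div_eq_div_iff n3 h3] at h1
  rw [div_div_div_eq, eq_div_iff (mul_ne_zero n2 h3)]
  linear_combination h1

lemma cont_del {X : Type*} [TopologicalSpace X] {g : X → SL(2, ℝ)} {z : X → ℍ}
    (hg : Continuous g) (hz : Continuous z) : Continuous fun x => del (g x) (z x) :=
  Continuous.comp (g := fun p : SL(2, ℝ) × ℍ => del p.1 p.2) (f := fun x => (g x, z x))
    continuous_del (hg.prodMk hz)

lemma continuous_U : Continuous fun p : SL(2, ℝ) × ℍ => U (tg p.1) p.2 := by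
  unfold U
  apply continuous_denom_tg.div₀ (Complex.continuous_ofReal.comp continuous_denom_tg.norm)
  intro p
  have : (‖denom (tg p.1) p.2‖ : ℂ) ≠ 0 := by
    rw [Complex.ofReal_ne_zero, norm_ne_zero_iff]
    exact denom_ne_zero _ _
  exact this

lemma cont_U {X : Type*} [TopologicalSpace X] {g : X → SL(2, ℝ)} {z : X → ℍ}
    (hg : Continuous g) (hz : Continuous z) : Continuous fun x => U (tg (g x)) (z x) :=
  Continuous.comp (g := fun p : SL(2, ℝ) × ℍ => U (tg p.1) p.2) (f := fun x => (g x, z x))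
    continuous_U (hg.prodMk hz)

/-- The covering group. -/
@[ext] structure Gp where
  /-- first matrix -/
  g1 : SL(2, ℝ)
  /-- second matrix -/
  g2 : SL(2, ℝ)
  /-- continuous choice of the phase -/
  f : ℍ → ℍ → ℝ
  hf : Continuous fun p : ℍ × ℍ => f p.1 p.2
  he : ∀ z w, Complex.exp ((f z w : ℝ) * Complex.I) = U (tg g1) z * (U (tg g2) w ^ 2)⁻¹

namespace Gp

/-- embedding in the large group -/
def big (x : Gp) : Big := ⟨tg x.g1, tg x.g2, x.f⟩

lemma good_big (x : Gp) : Good x.big 1 := by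
  refine ⟨?_, ?_, x.hf, ?_⟩
  · rw [DihedralGroup.one_def]; exact det_tg _
  · rw [DihedralGroup.one_def]; exact det_tg _
  · intro z w
    rw [DihedralGroup.one_def]
    show Complex.exp ((x.f z w : ℝ) * Complex.I) = ζ 0 * U (tg x.g1) z * (U (tg x.g2) w ^ 2)⁻¹
    rw [x.he, ζ_zero, one_mul]

/-- elements of the large group which come from the covering group -/
def ofGood (x : Big) (h : Good x 1) : Gp where
  g1 := ⟨x.a.val, by
    have := h.1
    rw [DihedralGroup.one_def] at this
    exact this⟩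
  g2 := ⟨x.b.val, by
    have := h.2.1
    rw [DihedralGroup.one_def] at this
    exact this⟩
  f := x.f
  hf := h.2.2.1
  he := by
    intro z w
    have h1 := h.2.2.2 z w
    rw [DihedralGroup.one_def] at h1
    simp only [om, ζ_zero, one_mul] at h1
    have e1 : ∀ (y : GL (Fin 2) ℝ) (hy : y.val.det = 1), tg ⟨y.val, hy⟩ = y := by
      intro y hy
      apply Matrix.GeneralLinearGroup.ext
      intro i j
      rw [tg_apply]
    rw [e1, e1]
    exact h1

lemma tg_ofGood_g1 (x : Big) (h : Good x 1) : tg (ofGood x h).g1 = x.a := by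
  apply Matrix.GeneralLinearGroup.ext
  intro i j
  rw [tg_apply]
  rfl

lemma tg_ofGood_g2 (x : Big) (h : Good x 1) : tg (ofGood x h).g2 = x.b := by
  apply Matrix.GeneralLinearGroup.ext
  intro i j
  rw [tg_apply]
  rfl

lemma big_ofGood (x : Big) (h : Good x 1) : (ofGood x h).big = x :=
  Big.ext (tg_ofGood_g1 x h) (tg_ofGood_g2 x h) rfl

lemma big_injective : Function.Injective big := by
  intro x y h
  apply Gp.ext
  · exact tg_injective (congrArg Big.a h)
  · exact tg_injective (congrArg Big.b h)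
  · exact congrArg Big.f h

instance : Mul Gp := ⟨fun x y => ⟨x.g1 * y.g1, x.g2 * y.g2,
  fun z w => x.f (y.g1 • z) (y.g2 • w) + y.f z w, by
    have h1 : Continuous fun p : ℍ × ℍ => (y.g1 • p.1, y.g2 • p.2) :=
      ((continuous_const_smul y.g1).comp continuous_fst).prodMk
        ((continuous_const_smul y.g2).comp continuous_snd)
    exact (x.hf.comp h1).add y.hf, by
    intro z w
    have e : (((x.f (y.g1 • z) (y.g2 • w) + y.f z w : ℝ)) : ℂ) * Complex.I =
        (x.f (y.g1 • z) (y.g2 • w) : ℝ) * Complex.I + (y.f z w : ℝ) * Complex.I := by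
      push_cast; ring
    rw [e, Complex.exp_add, x.he, y.he, U_mul_tg, U_mul_tg]
    have n1 := U_ne_zero (tg x.g2) (y.g2 • w)
    have n2 := U_ne_zero (tg y.g2) w
    field_simp⟩⟩

instance : One Gp := ⟨⟨1, 1, fun _ _ => 0, continuous_const, by
    intro z w
    rw [map_one, U_one, U_one]
    simp⟩⟩

instance : Inv Gp := ⟨fun x => ⟨x.g1⁻¹, x.g2⁻¹,
  fun z w => -x.f (x.g1⁻¹ • z) (x.g2⁻¹ • w), by
    have h1 : Continuous fun p : ℍ × ℍ => (x.g1⁻¹ • p.1, x.g2⁻¹ • p.2) :=
      ((continuous_const_smul x.g1⁻¹).comp continuous_fst).prodMk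
        ((continuous_const_smul x.g2⁻¹).comp continuous_snd)
    exact (x.hf.comp h1).neg, by
    intro z w
    have e : (((-x.f (x.g1⁻¹ • z) (x.g2⁻¹ • w) : ℝ)) : ℂ) * Complex.I =
        -((x.f (x.g1⁻¹ • z) (x.g2⁻¹ • w) : ℝ) * Complex.I) := by
      push_cast; ring
    rw [e, Complex.exp_neg, x.he]
    have h1 := U_mul_tg x.g1 x.g1⁻¹ z
    have h2 := U_mul_tg x.g2 x.g2⁻¹ w
    rw [mul_inv_cancel, map_one, U_one] at h1 h2
    have n1 := U_ne_zero (tg x.g1) (x.g1⁻¹ • z)
    have n2 := U_ne_zero (tg x.g2) (x.g2⁻¹ • w)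
    have e1 : U (tg x.g1⁻¹) z = (U (tg x.g1) (x.g1⁻¹ • z))⁻¹ := by
      field_simp; linear_combination -h1
    have e2 : U (tg x.g2⁻¹) w = (U (tg x.g2) (x.g2⁻¹ • w))⁻¹ := by
      field_simp; linear_combination -h2
    rw [e1, e2]
    field_simp⟩⟩

@[simp] lemma mul_g1 (x y : Gp) : (x * y).g1 = x.g1 * y.g1 := rfl
@[simp] lemma mul_g2 (x y : Gp) : (x * y).g2 = x.g2 * y.g2 := rfl
lemma mul_f (x y : Gp) (z w : ℍ) :
    (x * y).f z w = x.f (y.g1 • z) (y.g2 • w) + y.f z w := rfl
@[simp] lemma one_g1 : (1 : Gp).g1 = 1 := rfl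
@[simp] lemma one_g2 : (1 : Gp).g2 = 1 := rfl
@[simp] lemma one_f (z w : ℍ) : (1 : Gp).f z w = 0 := rfl
@[simp] lemma inv_g1 (x : Gp) : (x⁻¹).g1 = x.g1⁻¹ := rfl
@[simp] lemma inv_g2 (x : Gp) : (x⁻¹).g2 = x.g2⁻¹ := rfl
lemma inv_f (x : Gp) (z w : ℍ) : (x⁻¹).f z w = -x.f (x.g1⁻¹ • z) (x.g2⁻¹ • w) := rfl

instance : Group Gp where
  mul_assoc x y t := by
    refine Gp.ext (mul_assoc _ _ _) (mul_assoc _ _ _) ?_
    funext z w
    simp only [mul_f, mul_g1, mul_g2, mul_smul]
    ring
  one_mul x := by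
    refine Gp.ext (one_mul _) (one_mul _) ?_
    funext z w
    simp only [mul_f, one_f]
    ring
  mul_one x := by
    refine Gp.ext (mul_one _) (mul_one _) ?_
    funext z w
    simp only [mul_f, one_f, one_g1, one_g2, one_smul]
    ring
  inv_mul_cancel x := by
    refine Gp.ext (inv_mul_cancel _) (inv_mul_cancel _) ?_
    funext z w
    simp only [mul_f, inv_f, one_f, inv_smul_smul]
    ring

/-- the embedding as a homomorphism -/
def bigHom : Gp →* Big where
  toFun := big
  map_one' := by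
    refine Big.ext ?_ ?_ rfl
    · exact map_one tg
    · exact map_one tg
  map_mul' x y := by
    refine Big.ext ?_ ?_ ?_
    · exact map_mul tg _ _
    · exact map_mul tg _ _
    · funext z w
      rw [Big.mul_f]
      show x.f (y.g1 • z) (y.g2 • w) + y.f z w =
        (tg y.g1).det.val * x.f (tg y.g1 • z) (tg y.g2 • w) + y.f z w
      rw [det_tg, one_mul]
      rfl

@[simp] lemma bigHom_apply (x : Gp) : bigHom x = x.big := rfl

/-- The function of an element is determined by its value at the base point. -/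
lemma f_eq (x : Gp) (z w : ℍ) : x.f z w = x.f I I + del x.g1 z - 2 * del x.g2 w := by
  have hcont : Continuous fun p : ℍ × ℍ =>
      x.f p.1 p.2 - x.f I I - del x.g1 p.1 + 2 * del x.g2 p.2 := by
    have h1 : Continuous fun p : ℍ × ℍ => del x.g1 p.1 :=
      cont_del continuous_const continuous_fst
    have h2 : Continuous fun p : ℍ × ℍ => del x.g2 p.2 :=
      cont_del continuous_const continuous_snd
    exact ((x.hf.sub continuous_const).sub h1).add (continuous_const.mul h2)
  have hexp : ∀ p : ℍ × ℍ, Complex.exp ((x.f p.1 p.2 - x.f I I - del x.g1 p.1 +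
      2 * del x.g2 p.2 : ℝ) * Complex.I) = 1 := by
    intro p
    have e : ((x.f p.1 p.2 - x.f I I - del x.g1 p.1 + 2 * del x.g2 p.2 : ℝ) : ℂ) * Complex.I =
        (x.f p.1 p.2 : ℝ) * Complex.I + -((x.f I I : ℝ) * Complex.I) +
        -((del x.g1 p.1 : ℝ) * Complex.I) + ((2 : ℕ) : ℂ) * ((del x.g2 p.2 : ℝ) * Complex.I) := by
      push_cast; ring
    rw [e, Complex.exp_add, Complex.exp_add, Complex.exp_add, Complex.exp_neg, Complex.exp_neg,
      Complex.exp_nat_mul, x.he, x.he, exp_del, exp_del]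
    have n1 := U_ne_zero (tg x.g1) p.1
    have n2 := U_ne_zero (tg x.g2) p.2
    have n3 := U_ne_zero (tg x.g1) I
    have n4 := U_ne_zero (tg x.g2) I
    field_simp
  have := const_of_exp _ hcont hexp (z, w) (I, I)
  simp only [del_I] at this
  linarith

lemma ext' {x y : Gp} (h1 : x.g1 = y.g1) (h2 : x.g2 = y.g2) (h3 : x.f I I = y.f I I) :
    x = y := by
  refine Gp.ext h1 h2 ?_
  funext z w
  rw [f_eq x, f_eq y, h1, h2, h3]

/-- construction of elements -/
def mk' (g1 g2 : SL(2, ℝ)) (t : ℝ)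
    (h : Complex.exp ((t : ℝ) * Complex.I) = U (tg g1) I * (U (tg g2) I ^ 2)⁻¹) : Gp where
  g1 := g1
  g2 := g2
  f := fun z w => t + del g1 z - 2 * del g2 w
  hf := by
    have h1 : Continuous fun p : ℍ × ℍ => del g1 p.1 :=
      cont_del continuous_const continuous_fst
    have h2 : Continuous fun p : ℍ × ℍ => del g2 p.2 :=
      cont_del continuous_const continuous_snd
    exact (continuous_const.add h1).sub (continuous_const.mul h2)
  he := by
    intro z w
    have e : (((t + del g1 z - 2 * del g2 w : ℝ)) : ℂ) * Complex.I =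
        (t : ℝ) * Complex.I + (del g1 z : ℝ) * Complex.I +
          -(((2 : ℕ) : ℂ) * ((del g2 w : ℝ) * Complex.I)) := by
      push_cast; ring
    rw [e, Complex.exp_add, Complex.exp_add, Complex.exp_neg, Complex.exp_nat_mul, h, exp_del,
      exp_del]
    have n1 := U_ne_zero (tg g1) I
    have n2 := U_ne_zero (tg g2) I
    field_simp

@[simp] lemma mk'_g1 (g1 g2 : SL(2, ℝ)) (t : ℝ) (h) : (mk' g1 g2 t h).g1 = g1 := rfl
@[simp] lemma mk'_g2 (g1 g2 : SL(2, ℝ)) (t : ℝ) (h) : (mk' g1 g2 t h).g2 = g2 := rfl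
@[simp] lemma mk'_f (g1 g2 : SL(2, ℝ)) (t : ℝ) (h) : (mk' g1 g2 t h).f I I = t := by
  show t + del g1 I - 2 * del g2 I = t
  simp

/-- coordinates -/
def coord (x : Gp) : SL(2, ℝ) × SL(2, ℝ) × ℝ := (x.g1, x.g2, x.f I I)

lemma coord_injective : Function.Injective coord := by
  intro x y h
  simp only [coord, Prod.mk.injEq] at h
  exact ext' h.1 h.2.1 h.2.2

instance : TopologicalSpace Gp := TopologicalSpace.induced coord inferInstance

lemma isEmbedding_coord : IsEmbedding coord := ⟨⟨rfl⟩, coord_injective⟩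

lemma range_coord : Set.range coord = {p : SL(2, ℝ) × SL(2, ℝ) × ℝ |
    Complex.exp ((p.2.2 : ℝ) * Complex.I) * U (tg p.2.1) I ^ 2 = U (tg p.1) I} := by
  ext ⟨g1, g2, t⟩
  constructor
  · rintro ⟨x, hx⟩
    simp only [coord, Prod.mk.injEq] at hx
    obtain ⟨rfl, rfl, rfl⟩ := hx
    show Complex.exp ((x.f I I : ℝ) * Complex.I) * U (tg x.g2) I ^ 2 = U (tg x.g1) I
    rw [x.he]
    have n2 := U_ne_zero (tg x.g2) I
    field_simp
  · intro h
    have h' : Complex.exp ((t : ℝ) * Complex.I) * U (tg g2) I ^ 2 = U (tg g1) I := h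
    have n2 := U_ne_zero (tg g2) I
    refine ⟨mk' g1 g2 t ?_, ?_⟩
    · rw [← h']; field_simp
    · simp [coord]

lemma isClosedEmbedding_coord : IsClosedEmbedding coord := by
  refine ⟨isEmbedding_coord, ?_⟩
  rw [range_coord]
  apply isClosed_eq
  · apply Continuous.mul
    · have : Continuous fun p : SL(2, ℝ) × SL(2, ℝ) × ℝ => p.2.2 := by fun_prop
      exact Complex.continuous_exp.comp
        ((Complex.continuous_ofReal.comp this).mul continuous_const)
    · exact (cont_U (continuous_fst.comp continuous_snd) continuous_const).pow 2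
  · exact cont_U continuous_fst continuous_const

lemma continuous_g1 : Continuous Gp.g1 := continuous_fst.comp isEmbedding_coord.continuous
lemma continuous_g2 : Continuous Gp.g2 :=
  (continuous_fst.comp continuous_snd).comp isEmbedding_coord.continuous
lemma continuous_f0 : Continuous fun x : Gp => x.f I I :=
  (continuous_snd.comp continuous_snd).comp isEmbedding_coord.continuous

lemma continuous_f : Continuous fun q : Gp × ℍ × ℍ => q.1.f q.2.1 q.2.2 := by
  have : (fun q : Gp × ℍ × ℍ => q.1.f q.2.1 q.2.2) = fun q : Gp × ℍ × ℍ =>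
      q.1.f I I + del q.1.g1 q.2.1 - 2 * del q.1.g2 q.2.2 := by
    funext q; exact f_eq _ _ _
  rw [this]
  have h1 : Continuous fun q : Gp × ℍ × ℍ => del q.1.g1 q.2.1 :=
    cont_del (continuous_g1.comp continuous_fst) (continuous_fst.comp continuous_snd)
  have h2 : Continuous fun q : Gp × ℍ × ℍ => del q.1.g2 q.2.2 :=
    cont_del (continuous_g2.comp continuous_fst) (continuous_snd.comp continuous_snd)
  exact ((continuous_f0.comp continuous_fst).add h1).sub (continuous_const.mul h2)

lemma cont_f {X : Type*} [TopologicalSpace X] {x : X → Gp} {z w : X → ℍ}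
    (hx : Continuous x) (hz : Continuous z) (hw : Continuous w) :
    Continuous fun t => (x t).f (z t) (w t) :=
  Continuous.comp (g := fun q : Gp × ℍ × ℍ => q.1.f q.2.1 q.2.2)
    (f := fun t => (x t, z t, w t)) continuous_f (hx.prodMk (hz.prodMk hw))

instance : T2Space Gp := isEmbedding_coord.t2Space

instance : IsTopologicalGroup Gp where
  continuous_mul := by
    rw [isEmbedding_coord.continuous_iff]
    have h1 : Continuous fun q : Gp × Gp => q.1.g1 * q.2.g1 :=
      (continuous_g1.comp continuous_fst).mul (continuous_g1.comp continuous_snd)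
    have h2 : Continuous fun q : Gp × Gp => q.1.g2 * q.2.g2 :=
      (continuous_g2.comp continuous_fst).mul (continuous_g2.comp continuous_snd)
    have h3 : Continuous fun q : Gp × Gp => q.1.f (q.2.g1 • I) (q.2.g2 • I) + q.2.f I I := by
      apply Continuous.add _ (continuous_f0.comp continuous_snd)
      have a1 : Continuous fun q : Gp × Gp => q.2.g1 • I :=
        (continuous_g1.comp continuous_snd).smul continuous_const
      have a2 : Continuous fun q : Gp × Gp => q.2.g2 • I :=
        (continuous_g2.comp continuous_snd).smul continuous_const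
      exact cont_f continuous_fst a1 a2
    exact h1.prodMk (h2.prodMk h3)
  continuous_inv := by
    rw [isEmbedding_coord.continuous_iff]
    have h1 : Continuous fun q : Gp => q.g1⁻¹ := continuous_g1.inv
    have h2 : Continuous fun q : Gp => q.g2⁻¹ := continuous_g2.inv
    have h3 : Continuous fun q : Gp => -q.f (q.g1⁻¹ • I) (q.g2⁻¹ • I) := by
      apply Continuous.neg
      have a1 : Continuous fun q : Gp => q.g1⁻¹ • I := h1.smul continuous_const
      have a2 : Continuous fun q : Gp => q.g2⁻¹ • I := h2.smul continuous_const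
      exact cont_f continuous_id a1 a2
    exact h1.prodMk (h2.prodMk h3)

end Gp

end

end Pool.Agent.H838
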