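import Pool.Agent.H838.Link

/-!
# Reductivity of `H`
-/

set_option autoImplicit false

namespace Pool.Agent.H838

open Matrix
open scoped MatrixGroups

noncomputable section

/-- the Frobenius form -/
def Bf : LinearMap.BilinForm ℝ (Mat × Mat) :=
  LinearMap.mk₂ ℝ (fun X Y => (X.1ᵀ * Y.1).trace + (X.2ᵀ * Y.2).trace)
    (by
      intro X X' Y
      simp only [Prod.fst_add, Prod.snd_add, Matrix.transpose_add, add_mul, Matrix.trace_add]
      ring)
    (by
      intro c X Y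
      simp only [Prod.smul_fst, Prod.smul_snd, Matrix.transpose_smul, smul_mul_assoc,
        Matrix.trace_smul, smul_eq_mul]
      ring)
    (by
      intro X Y Y'
      simp only [Prod.fst_add, Prod.snd_add, mul_add, Matrix.trace_add]
      ring)
    (by
      intro c X Y
      simp only [Prod.smul_fst, Prod.smul_snd, mul_smul_comm, Matrix.trace_smul, smul_eq_mul]
      ring)

lemma Bf_apply (X Y : Mat × Mat) : Bf X Y = (X.1ᵀ * Y.1).trace + (X.2ᵀ * Y.2).trace := rfl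

lemma Bf_symm (X Y : Mat × Mat) : Bf X Y = Bf Y X := by
  rw [Bf_apply, Bf_apply]
  congr 1
  · rw [← Matrix.trace_transpose, Matrix.transpose_mul, Matrix.transpose_transpose]
  · rw [← Matrix.trace_transpose, Matrix.transpose_mul, Matrix.transpose_transpose]

lemma tr_nonneg (X : Mat) : (Xᵀ * X).trace = X 0 0 ^ 2 + X 0 1 ^ 2 + X 1 0 ^ 2 + X 1 1 ^ 2 := by
  rw [Matrix.trace_fin_two]
  simp [Matrix.mul_apply, Fin.sum_univ_two]
  ring

lemma Bf_def {X : Mat × Mat} (h : Bf X X = 0) : X = 0 := by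
  rw [Bf_apply, tr_nonneg, tr_nonneg] at h
  have z : ∀ Y : Mat, Y 0 0 ^ 2 + Y 0 1 ^ 2 + Y 1 0 ^ 2 + Y 1 1 ^ 2 = 0 → Y = 0 := by
    intro Y hY
    have h1 : Y 0 0 = 0 := by
      nlinarith [sq_nonneg (Y 0 0), sq_nonneg (Y 0 1), sq_nonneg (Y 1 0), sq_nonneg (Y 1 1)]
    have h2 : Y 0 1 = 0 := by
      nlinarith [sq_nonneg (Y 0 0), sq_nonneg (Y 0 1), sq_nonneg (Y 1 0), sq_nonneg (Y 1 1)]
    have h3 : Y 1 0 = 0 := by
      nlinarith [sq_nonneg (Y 0 0), sq_nonneg (Y 0 1), sq_nonneg (Y 1 0), sq_nonneg (Y 1 1)]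
    have h4 : Y 1 1 = 0 := by
      nlinarith [sq_nonneg (Y 0 0), sq_nonneg (Y 0 1), sq_nonneg (Y 1 0), sq_nonneg (Y 1 1)]
    ext i j
    fin_cases i <;> fin_cases j
    · exact h1
    · exact h2
    · exact h3
    · exact h4
  have n1 : 0 ≤ X.1 0 0 ^ 2 + X.1 0 1 ^ 2 + X.1 1 0 ^ 2 + X.1 1 1 ^ 2 := by positivity
  have n2 : 0 ≤ X.2 0 0 ^ 2 + X.2 0 1 ^ 2 + X.2 1 0 ^ 2 + X.2 1 1 ^ 2 := by positivity
  exact Prod.ext (z _ (by linarith)) (z _ (by linarith))

lemma trace_cj_transpose (g : SL(2, ℝ)) (X Y : Mat) :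
    (Xᵀ * cj g Y).trace = ((cj g.transpose X)ᵀ * Y).trace := by
  unfold cj
  have e1 : ((g.transpose)⁻¹).val = ((g⁻¹).val)ᵀ := by
    rw [Matrix.SpecialLinearGroup.coe_inv, Matrix.SpecialLinearGroup.coe_inv,
      Matrix.SpecialLinearGroup.coe_transpose, Matrix.adjugate_transpose]
  rw [Matrix.SpecialLinearGroup.coe_transpose, e1, Matrix.transpose_mul, Matrix.transpose_mul,
    Matrix.transpose_transpose, Matrix.transpose_transpose]
  rw [← mul_assoc, ← mul_assoc, Matrix.trace_mul_comm]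
  simp only [mul_assoc]

namespace Gp

/-- The adjoint action of `H` is completely reducible. -/
theorem crg_Hs : CRG Hs := by
  intro V hV hinv
  have hdisj : Disjoint V (Bf.orthogonal V) := by
    rw [Submodule.disjoint_def]
    intro X hX hX'
    exact Bf_def (hX' X hX)
  have hcompl : IsCompl V (Bf.orthogonal V) :=
    (LinearMap.BilinForm.isCompl_orthogonal_iff_disjoint
      (fun X Y h => by rw [Bf_symm]; exact h)).mpr hdisj
  refine ⟨Bf.orthogonal V ⊓ sl2.prod sl2, inf_le_right, ?_, ?_, ?_⟩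
  · rintro g hg X ⟨hX1, hX2⟩
    refine ⟨?_, cj_mem_sl2 _ hX2.1, cj_mem_sl2 _ hX2.2⟩
    intro Y hY
    have hgg : g.g1 = g.g2 := hg
    obtain ⟨x, hx1, hx2⟩ := exists_of g.g1.transpose g.g1.transpose
    have hx : x ∈ Hs := by rw [mem_Hs, hx1, hx2]
    have h1 := hinv x hx Y hY
    rw [hx1, hx2] at h1
    have h2 := hX1 _ h1
    show Bf Y (cj g.g1 X.1, cj g.g2 X.2) = 0
    rw [Bf_apply]
    show (Y.1ᵀ * cj g.g1 X.1).trace + (Y.2ᵀ * cj g.g2 X.2).trace = 0
    rw [← hgg, trace_cj_transpose, trace_cj_transpose]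
    exact h2
  · rw [eq_bot_iff, ← hdisj.eq_bot]
    exact inf_le_inf_left _ inf_le_left
  · rw [← sup_inf_assoc_of_le _ hV, hcompl.sup_eq_top, top_inf_eq]

end Gp

end

end Pool.Agent.H838
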