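import Mathlib

/-!
# The hyperbolic plane: vector coordinates

`(P, Q, R)` are the coordinates of a point of the upper half plane on the hyperboloid
`P R - Q ^ 2 = 1`.
-/

set_option autoImplicit false

namespace Pool.Agent.H838

open UpperHalfPlane

noncomputable section

/-- first vector coordinate -/
def vP (z : ℍ) : ℝ := (z.re ^ 2 + z.im ^ 2) / z.im
/-- second vector coordinate -/
def vQ (z : ℍ) : ℝ := z.re / z.im
/-- third vector coordinate -/
def vR (z : ℍ) : ℝ := 1 / z.im

lemma vR_pos (z : ℍ) : 0 < vR z := by unfold vR; have := z.im_pos; positivity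

lemma vP_pos (z : ℍ) : 0 < vP z := by unfold vP; have := z.im_pos; positivity

lemma vPR (z : ℍ) : vP z * vR z - vQ z ^ 2 = 1 := by
  unfold vP vQ vR
  have := z.im_ne_zero
  field_simp
  ring

lemma cosh_dist_vec (z w : ℍ) :
    Real.cosh (dist z w) = (vP z * vR w + vP w * vR z) / 2 - vQ z * vQ w := by
  rw [UpperHalfPlane.cosh_dist, Complex.dist_eq, Complex.sq_norm, Complex.normSq_apply]
  simp only [Complex.sub_re, Complex.sub_im, UpperHalfPlane.coe_re, UpperHalfPlane.coe_im]
  unfold vP vQ vR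
  have h1 := z.im_ne_zero
  have h2 := w.im_ne_zero
  field_simp
  ring

lemma exists_vec (p q r : ℝ) (hr : 0 < r) (h : p * r - q ^ 2 = 1) :
    ∃ z : ℍ, vP z = p ∧ vQ z = q ∧ vR z = r := by
  refine ⟨⟨⟨q / r, 1 / r⟩, by simpa using hr⟩, ?_, ?_, ?_⟩
  · simp only [vP, UpperHalfPlane.re, UpperHalfPlane.im]
    field_simp
    linarith
  · simp only [vQ, UpperHalfPlane.re, UpperHalfPlane.im]
    field_simp
  · simp only [vR, UpperHalfPlane.im]
    field_simp

/-- normalisation of a future timelike vector -/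
lemma exists_vec' (p q r : ℝ) (hr : 0 < r) (h : 0 < p * r - q ^ 2) :
    ∃ (z : ℍ) (c : ℝ), 0 < c ∧ vP z = c * p ∧ vQ z = c * q ∧ vR z = c * r := by
  have hs : 0 < Real.sqrt (p * r - q ^ 2) := Real.sqrt_pos.mpr h
  have hs2 : Real.sqrt (p * r - q ^ 2) ^ 2 = p * r - q ^ 2 := Real.sq_sqrt h.le
  set n := Real.sqrt (p * r - q ^ 2)
  obtain ⟨z, h1, h2, h3⟩ := exists_vec (p / n) (q / n) (r / n) (by positivity) (by
    field_simp
    linarith)
  refine ⟨z, 1 / n, by positivity, ?_, ?_, ?_⟩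
  · rw [h1]; ring
  · rw [h2]; ring
  · rw [h3]; ring

lemma ext_vec {z w : ℍ} (h2 : vQ z = vQ w) (h3 : vR z = vR w) : z = w := by
  unfold vQ at h2
  unfold vR at h3
  have a := z.im_ne_zero
  have b := w.im_ne_zero
  have him : z.im = w.im := by
    field_simp at h3
    linarith
  have hre : z.re = w.re := by
    rw [him] at h2
    field_simp at h2
    linarith
  exact UpperHalfPlane.ext (Complex.ext hre him)

/-- Points of a hyperbolic segment, in projective coordinates. -/
lemma seg (x z : ℍ) (u : ℝ) (hu0 : 0 ≤ u) (hu1 : u ≤ 1) :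
    ∃ (y : ℍ) (c : ℝ), 0 < c ∧
      vP y = c * ((1 - u) * vP x + u * vP z) ∧
      vQ y = c * ((1 - u) * vQ x + u * vQ z) ∧
      vR y = c * ((1 - u) * vR x + u * vR z) ∧
      dist x y + dist y z = dist x z ∧
      (u = 1 / 2 → dist x y = dist y z) := by
  set D := Real.cosh (dist x z) with hD
  have hD1 : 1 ≤ D := Real.one_le_cosh _
  have hx := vPR x
  have hz := vPR z
  have hxz := cosh_dist_vec x z
  rw [← hD] at hxz
  have hN : 0 < ((1 - u) * vP x + u * vP z) * ((1 - u) * vR x + u * vR z)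
      - ((1 - u) * vQ x + u * vQ z) ^ 2 := by
    have e : ((1 - u) * vP x + u * vP z) * ((1 - u) * vR x + u * vR z)
      - ((1 - u) * vQ x + u * vQ z) ^ 2 = (1 - u) ^ 2 + u ^ 2 + 2 * u * (1 - u) * D := by
      rw [hxz]
      linear_combination (1 - u) ^ 2 * hx + u ^ 2 * hz
    rw [e]
    have h3 : 0 ≤ u * (1 - u) := mul_nonneg hu0 (by linarith)
    nlinarith
  have hR : 0 < (1 - u) * vR x + u * vR z := by
    have h1 := vR_pos x
    have h2 := vR_pos z
    rcases eq_or_lt_of_le hu0 with h | h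
    · rw [← h]; simpa using h1
    · have : 0 ≤ (1 - u) * vR x := mul_nonneg (by linarith) h1.le
      have : 0 < u * vR z := mul_pos h h2
      linarith
  obtain ⟨y, c, hc, hp, hq, hr⟩ := exists_vec' _ _ _ hR hN
  have hy := vPR y
  rw [hp, hq, hr] at hy
  have hcN : c ^ 2 * ((1 - u) ^ 2 + u ^ 2 + 2 * u * (1 - u) * D) = 1 := by
    rw [hxz]
    linear_combination hy - c ^ 2 * (1 - u) ^ 2 * hx - c ^ 2 * u ^ 2 * hz
  have hxy : Real.cosh (dist x y) = c * ((1 - u) + u * D) := by
    rw [cosh_dist_vec, hp, hq, hr, hxz]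
    linear_combination c * (1 - u) * hx
  have hyz : Real.cosh (dist y z) = c * ((1 - u) * D + u) := by
    rw [cosh_dist_vec, hp, hq, hr, hxz]
    linear_combination c * u * hz
  have hsD : Real.sinh (dist x z) ^ 2 = D ^ 2 - 1 := by
    rw [Real.sinh_sq, hD]
  have hs0 : 0 ≤ Real.sinh (dist x z) := Real.sinh_nonneg_iff.mpr dist_nonneg
  have hsxy : Real.sinh (dist x y) = c * u * Real.sinh (dist x z) := by
    have h1 : 0 ≤ Real.sinh (dist x y) := Real.sinh_nonneg_iff.mpr dist_nonneg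
    have h2 : 0 ≤ c * u * Real.sinh (dist x z) := by positivity
    rw [← sq_eq_sq₀ h1 h2, Real.sinh_sq, hxy, mul_pow, mul_pow, hsD]
    linear_combination hcN
  have hsyz : Real.sinh (dist y z) = c * (1 - u) * Real.sinh (dist x z) := by
    have h1 : 0 ≤ Real.sinh (dist y z) := Real.sinh_nonneg_iff.mpr dist_nonneg
    have h2 : 0 ≤ c * (1 - u) * Real.sinh (dist x z) := by
      have : 0 ≤ 1 - u := by linarith
      positivity
    rw [← sq_eq_sq₀ h1 h2, Real.sinh_sq, hyz, mul_pow, mul_pow, hsD]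
    linear_combination hcN
  refine ⟨y, c, hc, hp, hq, hr, ?_, ?_⟩
  · have h1 : 0 ≤ dist x y + dist y z := by positivity
    have h2 : (0 : ℝ) ≤ dist x z := dist_nonneg
    apply Real.cosh_injOn h1 h2
    rw [Real.cosh_add, hxy, hyz, hsxy, hsyz, ← hD]
    have : c * u * Real.sinh (dist x z) * (c * (1 - u) * Real.sinh (dist x z)) =
      c ^ 2 * u * (1 - u) * Real.sinh (dist x z) ^ 2 := by ring
    rw [this, hsD]
    linear_combination D * hcN
  · intro hu
    have h1 : (0 : ℝ) ≤ dist x y := dist_nonneg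
    have h2 : (0 : ℝ) ≤ dist y z := dist_nonneg
    apply Real.cosh_injOn h1 h2
    rw [hxy, hyz, hu]
    ring

/-- Midpoints. -/
lemma midpt (x z : ℍ) : ∃ (y : ℍ) (c : ℝ), 0 < c ∧
      vP y = c * (vP x + vP z) ∧ vQ y = c * (vQ x + vQ z) ∧ vR y = c * (vR x + vR z) ∧
      dist x y = dist x z / 2 ∧ dist y z = dist x z / 2 := by
  obtain ⟨y, c, hc, hp, hq, hr, h1, h2⟩ := seg x z (1 / 2) (by norm_num) (by norm_num)
  have h3 := h2 rfl
  refine ⟨y, c / 2, by positivity, ?_, ?_, ?_, by linarith, by linarith⟩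
  · rw [hp]; ring
  · rw [hq]; ring
  · rw [hr]; ring

end

end Pool.Agent.H838
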