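import Pool.Agent.H838.Tan

/-!
# The Lie algebra of a closed subgroup of `SL(2, ℝ) × SL(2, ℝ)`
-/

set_option autoImplicit false

namespace Pool.Agent.H838

open Filter Topology Matrix
open scoped MatrixGroups Matrix.Norms.Operator

noncomputable section

/-- two by two matrices -/
abbrev Mat : Type := Matrix (Fin 2) (Fin 2) ℝ

lemma E1_fst (v : Mat × Mat) (t : ℝ) : (E1 v t).1 = E1 v.1 t := by
  let : NormedAlgebra ℚ Mat := NormedAlgebra.restrictScalars ℚ ℝ Mat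
  unfold E1
  rw [Prod.fst_exp]
  rfl

lemma E1_snd (v : Mat × Mat) (t : ℝ) : (E1 v t).2 = E1 v.2 t := by
  let : NormedAlgebra ℚ Mat := NormedAlgebra.restrictScalars ℚ ℝ Mat
  unfold E1
  rw [Prod.snd_exp]
  rfl

/-- the matrices of the elements of a subgroup -/
def SM (M : Subgroup (SL(2, ℝ) × SL(2, ℝ))) : Submonoid (Mat × Mat) where
  carrier := {p | ∃ g ∈ M, p = (g.1.val, g.2.val)}
  mul_mem' := by
    rintro _ _ ⟨g, hg, rfl⟩ ⟨h, hh, rfl⟩
    exact ⟨g * h, M.mul_mem hg hh, rfl⟩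
  one_mem' := ⟨1, M.one_mem, rfl⟩

lemma mem_SM {M : Subgroup (SL(2, ℝ) × SL(2, ℝ))} {p : Mat × Mat} :
    p ∈ SM M ↔ ∃ g ∈ M, p = (g.1.val, g.2.val) := Iff.rfl

lemma isClosed_SM {M : Subgroup (SL(2, ℝ) × SL(2, ℝ))}
    (hM : IsClosed (M : Set (SL(2, ℝ) × SL(2, ℝ)))) : IsClosed (SM M : Set (Mat × Mat)) := by
  have he : IsClosedEmbedding fun g : SL(2, ℝ) × SL(2, ℝ) => ((g.1.val, g.2.val) : Mat × Mat) :=
    (Matrix.SpecialLinearGroup.isClosedEmbedding_val (n := Fin 2) (R := ℝ)).prodMap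
      (Matrix.SpecialLinearGroup.isClosedEmbedding_val (n := Fin 2) (R := ℝ))
  have : (SM M : Set (Mat × Mat)) =
      (fun g : SL(2, ℝ) × SL(2, ℝ) => ((g.1.val, g.2.val) : Mat × Mat)) '' M := by
    ext p
    constructor
    · rintro ⟨g, hg, rfl⟩
      exact ⟨g, hg, rfl⟩
    · rintro ⟨g, hg, rfl⟩
      exact ⟨g, hg, rfl⟩
  rw [this]
  exact he.isClosedMap _ hM

lemma E1_neg_mem {M : Subgroup (SL(2, ℝ) × SL(2, ℝ))} {v : Mat × Mat} {t : ℝ}
    (h : E1 v t ∈ SM M) : E1 v (-t) ∈ SM M := by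
  obtain ⟨g, hg, he⟩ := h
  refine ⟨g⁻¹, M.inv_mem hg, ?_⟩
  have h1 : ((g.1.val, g.2.val) : Mat × Mat) * ((g⁻¹).1.val, (g⁻¹).2.val) = 1 := by
    have e1 : g.1.val * (g.1⁻¹).val = 1 := by
      have := congrArg Subtype.val (mul_inv_cancel g.1)
      exact this
    have e2 : g.2.val * (g.2⁻¹).val = 1 := by
      have := congrArg Subtype.val (mul_inv_cancel g.2)
      exact this
    exact Prod.ext e1 e2
  calc E1 v (-t) = E1 v (-t) * (((g.1.val, g.2.val) : Mat × Mat) *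
        ((g⁻¹).1.val, (g⁻¹).2.val)) := by rw [h1, mul_one]
    _ = (E1 v (-t) * E1 v t) * ((g⁻¹).1.val, (g⁻¹).2.val) := by rw [he, mul_assoc]
    _ = _ := by rw [E1_neg_mul, one_mul]

lemma E1_mem_of_nonneg {M : Subgroup (SL(2, ℝ) × SL(2, ℝ))} {v : Mat × Mat}
    (h : ∀ t, 0 ≤ t → E1 v t ∈ SM M) (t : ℝ) : E1 v t ∈ SM M := by
  rcases le_total 0 t with ht | ht
  · exact h t ht
  · have := E1_neg_mem (h (-t) (by linarith))
    rwa [neg_neg] at this

lemma norm_one_le : ‖(1 : Mat × Mat)‖ ≤ 1 := by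
  rw [Prod.norm_def]
  simp

/-- the Lie algebra -/
def tanSp (M : Subgroup (SL(2, ℝ) × SL(2, ℝ)))
    (hM : IsClosed (M : Set (SL(2, ℝ) × SL(2, ℝ)))) : Submodule ℝ (Mat × Mat) where
  carrier := {v | ∀ t : ℝ, E1 v t ∈ SM M}
  zero_mem' := by
    intro t
    have : E1 (0 : Mat × Mat) t = 1 := by unfold E1; rw [smul_zero, NormedSpace.exp_zero]
    rw [this]
    exact (SM M).one_mem
  add_mem' := by
    intro v w hv hw
    apply E1_mem_of_nonneg
    intro t ht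
    have hτ : ∀ n : ℕ, 0 < (1 : ℝ) / ((n : ℝ) + 1) := fun n => by positivity
    have hτ0 : Tendsto (fun n : ℕ => (1 : ℝ) / ((n : ℝ) + 1)) atTop (𝓝 0) :=
      tendsto_one_div_add_atTop_nhds_zero_nat
    have hd : HasDerivAt (fun s => E1 v s * E1 w s) (v + w) 0 := by
      have := (hasDerivAt_E1 v).mul (hasDerivAt_E1 w)
      rw [E1_zero, E1_zero, mul_one, one_mul] at this
      exact this
    exact tangent norm_one_le (SM M) (isClosed_SM hM) (v + w) hτ hτ0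
      (fun n => (SM M).mul_mem (hv _) (hw _))
      (slope_seq hd (by simp [E1_zero]) hτ hτ0) ht
  smul_mem' := by
    intro c v hv t
    rw [E1_smul]
    exact hv _

variable {M : Subgroup (SL(2, ℝ) × SL(2, ℝ))} {hM : IsClosed (M : Set (SL(2, ℝ) × SL(2, ℝ)))}

lemma mem_tanSp {v : Mat × Mat} : v ∈ tanSp M hM ↔ ∀ t : ℝ, E1 v t ∈ SM M := Iff.rfl

lemma mem_tanSp' {v : Mat × Mat} : v ∈ tanSp M hM ↔
    ∀ t : ℝ, ∃ g ∈ M, g.1.val = E1 v.1 t ∧ g.2.val = E1 v.2 t := by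
  rw [mem_tanSp]
  apply forall_congr'
  intro t
  rw [mem_SM]
  constructor
  · rintro ⟨g, hg, h⟩
    exact ⟨g, hg, by rw [← E1_fst, h], by rw [← E1_snd, h]⟩
  · rintro ⟨g, hg, h1, h2⟩
    refine ⟨g, hg, Prod.ext ?_ ?_⟩
    · rw [E1_fst, h1]
    · rw [E1_snd, h2]

lemma trace_of_det {X : Mat} (h : ∀ t : ℝ, (E1 X t).det = 1) : X.trace = 0 := by
  have hd := hasDerivAt_E1 X
  have hent : ∀ i j, HasDerivAt (fun t => (E1 X t) i j) (X i j) 0 := by
    intro i j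
    have h1 := hasDerivAt_pi.mp hd i
    exact hasDerivAt_pi.mp h1 j
  have hdet : HasDerivAt (fun t => (E1 X t).det) (X.trace) 0 := by
    have e : (fun t => (E1 X t).det) = fun t => (E1 X t) 0 0 * (E1 X t) 1 1 -
        (E1 X t) 0 1 * (E1 X t) 1 0 := by
      funext t; rw [Matrix.det_fin_two]
    rw [e]
    have h1 := ((hent 0 0).mul (hent 1 1)).sub ((hent 0 1).mul (hent 1 0))
    rw [E1_zero] at h1
    have e2 : X.trace = X 0 0 * (1 : Mat) 1 1 + (1 : Mat) 0 0 * X 1 1 -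
        (X 0 1 * (1 : Mat) 1 0 + (1 : Mat) 0 1 * X 1 0) := by
      simp [Matrix.trace_fin_two]
    rw [e2]
    exact h1
  have hc : HasDerivAt (fun t => (E1 X t).det) 0 0 := by
    have : (fun t => (E1 X t).det) = fun _ => (1 : ℝ) := by funext t; exact h t
    rw [this]
    exact hasDerivAt_const _ _
  exact hdet.unique hc

lemma trace_tanSp {v : Mat × Mat} (hv : v ∈ tanSp M hM) : v.1.trace = 0 ∧ v.2.trace = 0 := by
  rw [mem_tanSp'] at hv
  constructor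
  · apply trace_of_det
    intro t
    obtain ⟨g, -, h1, -⟩ := hv t
    rw [← h1]; exact g.1.2
  · apply trace_of_det
    intro t
    obtain ⟨g, -, -, h2⟩ := hv t
    rw [← h2]; exact g.2.2

lemma E1_conj (g : SL(2, ℝ)) (X : Mat) (t : ℝ) :
    E1 (g.val * X * (g⁻¹).val) t = g.val * E1 X t * (g⁻¹).val := by
  let : NormedAlgebra ℚ Mat := NormedAlgebra.restrictScalars ℚ ℝ Mat
  let u : Matˣ := ⟨g.val, (g⁻¹).val, congrArg Subtype.val (mul_inv_cancel g),
    congrArg Subtype.val (inv_mul_cancel g)⟩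
  have h := NormedSpace.exp_units_conj u (t • X)
  unfold E1
  have e : t • (g.val * X * (g⁻¹).val) = (u : Mat) * (t • X) * ((u⁻¹ : Matˣ) : Mat) := by
    show t • (g.val * X * (g⁻¹).val) = g.val * (t • X) * (g⁻¹).val
    rw [mul_smul_comm, smul_mul_assoc]
  rw [e, h]
  rfl

lemma conj_tanSp {v : Mat × Mat} (hv : v ∈ tanSp M hM) {g : SL(2, ℝ) × SL(2, ℝ)} (hg : g ∈ M) :
    (g.1.val * v.1 * (g.1⁻¹).val, g.2.val * v.2 * (g.2⁻¹).val) ∈ tanSp M hM := by
  rw [mem_tanSp'] at hv ⊢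
  intro t
  obtain ⟨h, hh, h1, h2⟩ := hv t
  refine ⟨g * h * g⁻¹, M.mul_mem (M.mul_mem hg hh) (M.inv_mem hg), ?_, ?_⟩
  · rw [E1_conj, ← h1]; rfl
  · rw [E1_conj, ← h2]; rfl

lemma bracket_tanSp {v w : Mat × Mat} (hv : v ∈ tanSp M hM) (hw : w ∈ tanSp M hM) :
    v * w - w * v ∈ tanSp M hM := by
  have hcl : IsClosed (tanSp M hM : Set (Mat × Mat)) := Submodule.closed_of_finiteDimensional _
  have hmem : ∀ t, E1 v t * w * E1 v (-t) ∈ tanSp M hM := by
    intro t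
    obtain ⟨g, hg, h⟩ := mem_SM.mp (mem_tanSp.mp hv t)
    have h' : E1 v (-t) = ((g.1⁻¹).val, (g.2⁻¹).val) := by
      have h1 : ((g.1.val, g.2.val) : Mat × Mat) * ((g.1⁻¹).val, (g.2⁻¹).val) = 1 :=
        Prod.ext (congrArg Subtype.val (mul_inv_cancel g.1))
          (congrArg Subtype.val (mul_inv_cancel g.2))
      calc E1 v (-t) = E1 v (-t) * (((g.1.val, g.2.val) : Mat × Mat) *
            ((g.1⁻¹).val, (g.2⁻¹).val)) := by rw [h1, mul_one]
        _ = (E1 v (-t) * E1 v t) * ((g.1⁻¹).val, (g.2⁻¹).val) := by rw [h, mul_assoc]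
        _ = _ := by rw [E1_neg_mul, one_mul]
    rw [h, h']
    exact conj_tanSp hw hg
  have hd : HasDerivAt (fun t => E1 v t * w * E1 v (-t)) (v * w - w * v) 0 := by
    have h1 : HasDerivAt (fun t => E1 v t * w) (v * w) 0 := (hasDerivAt_E1 v).mul_const w
    have h2 : HasDerivAt (fun t => E1 v (-t)) (-v) 0 := by
      have h3 : HasDerivAt (E1 v) v (-0) := by rw [neg_zero]; exact hasDerivAt_E1 v
      have h4 := HasDerivAt.scomp (0 : ℝ) h3 (hasDerivAt_neg (0 : ℝ))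
      rw [neg_one_smul] at h4
      exact h4
    have h5 := h1.mul h2
    rw [neg_zero, E1_zero, mul_one, one_mul, mul_neg, ← sub_eq_add_neg] at h5
    exact h5
  have hs := hasDerivAt_iff_tendsto_slope.mp hd
  have hmem2 : ∀ t, slope (fun t => E1 v t * w * E1 v (-t)) 0 t ∈ tanSp M hM := by
    intro t
    rw [slope_def_module]
    apply Submodule.smul_mem
    apply Submodule.sub_mem _ (hmem t)
    have := hmem 0
    exact this
  exact hcl.mem_of_tendsto hs (Eventually.of_forall hmem2)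

/-- A closed subgroup which is not discrete has a nonzero tangent vector. -/
lemma exists_tan (hne : ∀ δ : ℝ, 0 < δ → ∃ p ∈ SM M, p ≠ 1 ∧ ‖p - 1‖ < δ) :
    ∃ v ∈ tanSp M hM, v ≠ 0 := by
  have hchoose : ∀ n : ℕ, ∃ p ∈ SM M, p ≠ 1 ∧ ‖p - 1‖ < 1 / ((n : ℝ) + 1) :=
    fun n => hne _ (by positivity)
  choose p hp hp1 hpn using hchoose
  have hτ : ∀ n, 0 < ‖p n - 1‖ := fun n => norm_pos_iff.mpr (sub_ne_zero.mpr (hp1 n))
  have hτ0 : Tendsto (fun n => ‖p n - 1‖) atTop (𝓝 0) :=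
    squeeze_zero (fun n => norm_nonneg _) (fun n => (hpn n).le)
      tendsto_one_div_add_atTop_nhds_zero_nat
  have hprop : ProperSpace (Mat × Mat) := FiniteDimensional.proper ℝ _
  have hsph : ∀ n, ‖p n - 1‖⁻¹ • (p n - 1) ∈ Metric.sphere (0 : Mat × Mat) 1 := by
    intro n
    rw [mem_sphere_zero_iff_norm, norm_smul, norm_inv, norm_norm, inv_mul_cancel₀ (hτ n).ne']
  obtain ⟨v, hv, φ, hφ, hlim⟩ := (isCompact_sphere (0 : Mat × Mat) 1).tendsto_subseq hsph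
  refine ⟨v, ?_, ?_⟩
  · rw [mem_tanSp]
    apply E1_mem_of_nonneg
    intro t ht
    exact tangent norm_one_le (SM M) (isClosed_SM hM) v (fun n => hτ (φ n))
      (hτ0.comp hφ.tendsto_atTop) (fun n => hp (φ n)) hlim ht
  · rintro rfl
    rw [mem_sphere_zero_iff_norm, norm_zero] at hv
    exact zero_ne_one hv

end

end Pool.Agent.H838
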