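import Pool.Agent.H838.Ex4

/-!
# Closed subgroups acting properly and cocompactly are discrete
-/

set_option autoImplicit false

namespace Pool.Agent.H838

open Filter Topology Matrix UpperHalfPlane
open scoped MatrixGroups Matrix.Norms.Operator Pointwise

noncomputable section

namespace Gp

/-- complete reducibility of the adjoint action of a subgroup of the covering group -/
def CRG (L : Subgroup Gp) : Prop :=
  ∀ V : Submodule ℝ (Mat × Mat), V ≤ sl2.prod sl2 →
    (∀ g ∈ L, ∀ X ∈ V, (cj g.g1 X.1, cj g.g2 X.2) ∈ V) →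
    ∃ V' ≤ sl2.prod sl2, (∀ g ∈ L, ∀ X ∈ V', (cj g.g1 X.1, cj g.g2 X.2) ∈ V') ∧
      V ⊓ V' = ⊥ ∧ V ⊔ V' = sl2.prod sl2

variable {L : Subgroup Gp}

/-- the base point -/
def a0 : Gp ⧸ Hs := ((1 : Gp) : Gp ⧸ Hs)

lemma Q_a0 : Q a0 = 1 := by
  show (1 : Gp).g1 * ((1 : Gp).g2)⁻¹ = 1
  simp

lemma isCompact_ret (hp : ProperSMul L (Gp ⧸ Hs)) {K K' : Set SL(2, ℝ)} (hK : IsCompact K)
    (hK' : IsCompact K') :
    IsCompact {l : L | ∃ x ∈ K, (l : Gp).g1 * x * ((l : Gp).g2)⁻¹ ∈ K'} := by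
  have h1 : IsCompact (Q ⁻¹' K) := Q.isCompact_preimage.mpr hK
  have h2 : IsCompact (Q ⁻¹' K') := Q.isCompact_preimage.mpr hK'
  have h3 : IsCompact {g : L | (g • (Q ⁻¹' K) ∩ (Q ⁻¹' K')).Nonempty} :=
    ProperSMul.isCompact_setOfPred_inter_nonempty h1 h2
  have e : {l : L | ∃ x ∈ K, (l : Gp).g1 * x * ((l : Gp).g2)⁻¹ ∈ K'} =
      {g : L | (g • (Q ⁻¹' K) ∩ (Q ⁻¹' K')).Nonempty} := by
    ext l
    constructor
    · rintro ⟨x, hx, hx'⟩
      refine ⟨l • Q.symm x, Set.smul_mem_smul_set ?_, ?_⟩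
      · show Q (Q.symm x) ∈ K
        rw [Q.apply_symm_apply]; exact hx
      · show Q ((l : Gp) • Q.symm x) ∈ K'
        rw [Q_smul, Q.apply_symm_apply]; exact hx'
    · rintro ⟨_, ⟨a, ha, rfl⟩, ha'⟩
      refine ⟨Q a, ha, ?_⟩
      have h4 : Q ((l : Gp) • a) ∈ K' := ha'
      rw [Q_smul] at h4
      exact h4
  rw [e]; exact h3

lemma continuous_L1 : Continuous fun l : L => (l : Gp).g1 := continuous_g1.comp continuous_subtype_val
lemma continuous_L2 : Continuous fun l : L => (l : Gp).g2 := continuous_g2.comp continuous_subtype_val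

lemma zed_mul (m n : ℤ) : zed m * zed n = zed (m + n) := by
  apply ext'
  · simp
  · simp
  · rw [mul_f]
    simp
    ring

lemma zed_pow (n : ℤ) (k : ℕ) : zed n ^ k = zed (k * n) := by
  induction k with
  | zero =>
    simp
    apply ext'
    · rfl
    · rfl
    · simp
  | succ k ih =>
    rw [pow_succ, ih, zed_mul]
    congr 1
    push_cast; ring

/-- proper actions do not see the kernel -/
lemma ker_trivial (hp : ProperSMul L (Gp ⧸ Hs)) {x : Gp} (hx : x ∈ L) (hk : pr x = 1) :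
    x = 1 := by
  obtain ⟨n, rfl⟩ := mem_ker_iff.mp hk
  have hc := isCompact_ret hp (isCompact_singleton (x := (1 : SL(2, ℝ))))
    (isCompact_singleton (x := (1 : SL(2, ℝ))))
  have hcont : Continuous fun l : L => (l : Gp).f I I := continuous_f0.comp continuous_subtype_val
  obtain ⟨B, hB⟩ := hc.exists_bound_of_continuousOn hcont.continuousOn
  have hb : ∀ k : ℕ, ‖((k : ℝ) * n) * (2 * Real.pi)‖ ≤ B := by
    intro k
    have hmem : zed n ^ k ∈ L := L.pow_mem hx k
    have h1 := hB ⟨zed n ^ k, hmem⟩ ⟨1, rfl, by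
      show (zed n ^ k).g1 * 1 * ((zed n ^ k).g2)⁻¹ ∈ ({1} : Set SL(2, ℝ))
      rw [zed_pow]
      simp⟩
    have e : (zed n ^ k).f I I = ((k : ℝ) * n) * (2 * Real.pi) := by
      rw [zed_pow, zed_f]; push_cast; ring
    rw [← e]; exact h1
  have hn : n = 0 := by
    by_contra hne
    obtain ⟨k, hk⟩ := exists_nat_gt B
    have h1 := hb k
    have h2 : (1 : ℝ) ≤ |(n : ℝ)| := by exact_mod_cast Int.one_le_abs hne
    rw [Real.norm_eq_abs, abs_mul, abs_mul, Nat.abs_cast,
      abs_of_pos (by positivity : (0 : ℝ) < 2 * Real.pi)] at h1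
    have hpi := Real.pi_gt_three
    have h3 : (k : ℝ) * 1 ≤ k * |(n : ℝ)| := mul_le_mul_of_nonneg_left h2 (by positivity)
    have h4 : (0 : ℝ) ≤ k := by positivity
    nlinarith
  rw [hn]
  apply ext'
  · rfl
  · rfl
  · simp

lemma isClosed_map (hp : ProperSMul L (Gp ⧸ Hs)) :
    IsClosed ((L.map pr : Subgroup (SL(2, ℝ) × SL(2, ℝ))) : Set (SL(2, ℝ) × SL(2, ℝ))) := by
  let f : L → SL(2, ℝ) × SL(2, ℝ) := fun l => pr l
  let g : SL(2, ℝ) × SL(2, ℝ) → SL(2, ℝ) := fun p => p.1 * p.2⁻¹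
  have hf : Continuous f := continuous_pr.comp continuous_subtype_val
  have hg : Continuous g := by fun_prop
  have hgf : IsProperMap (g ∘ f) := by
    rw [isProperMap_iff_isCompact_preimage]
    refine ⟨hg.comp hf, fun K hK => ?_⟩
    have h1 := isCompact_ret hp (isCompact_singleton (x := (1 : SL(2, ℝ)))) hK
    have e : (g ∘ f) ⁻¹' K = {l : L | ∃ x ∈ ({1} : Set SL(2, ℝ)),
        (l : Gp).g1 * x * ((l : Gp).g2)⁻¹ ∈ K} := by
      ext l
      constructor
      · intro hl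
        refine ⟨1, rfl, ?_⟩
        rw [mul_one]; exact hl
      · rintro ⟨x, rfl, hx⟩
        rw [mul_one] at hx
        exact hx
    rw [e]; exact h1
  have hpf : IsProperMap f := isProperMap_of_comp_of_t2 hf hg hgf
  have hr := hpf.isClosedMap.isClosed_range
  have e : ((L.map pr : Subgroup (SL(2, ℝ) × SL(2, ℝ))) : Set (SL(2, ℝ) × SL(2, ℝ))) =
      Set.range f := by
    ext p
    constructor
    · rintro ⟨l, hl, rfl⟩; exact ⟨⟨l, hl⟩, rfl⟩
    · rintro ⟨l, rfl⟩; exact ⟨l, l.2, rfl⟩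
  rw [e]; exact hr

lemma exists_coc [ContinuousConstSMul L (Gp ⧸ Hs)]
    (hc : CompactSpace (MulAction.orbitRel.Quotient L (Gp ⧸ Hs))) :
    ∃ R : ℝ, ∀ x : SL(2, ℝ), ∃ l ∈ L, Dd (l.g1 * x * l.g2⁻¹) ≤ R := by
  let p : Gp ⧸ Hs → MulAction.orbitRel.Quotient L (Gp ⧸ Hs) := Quotient.mk _
  have hop : IsOpenMap p := isOpenMap_quotient_mk'_mul
  let U : ℕ → Set (MulAction.orbitRel.Quotient L (Gp ⧸ Hs)) :=
    fun n => p '' {a | Dd (Q a) < n}
  have hU : ∀ n, IsOpen (U n) := fun n =>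
    hop _ (isOpen_lt (continuous_Dd.comp Q.continuous) continuous_const)
  have hcov : (Set.univ : Set (MulAction.orbitRel.Quotient L (Gp ⧸ Hs))) ⊆ ⋃ n, U n := by
    intro a _
    induction a using Quotient.inductionOn with
    | h a =>
      obtain ⟨n, hn⟩ := exists_nat_gt (Dd (Q a))
      exact Set.mem_iUnion.mpr ⟨n, a, hn, rfl⟩
  obtain ⟨n, hn⟩ := isCompact_univ.elim_directed_cover U hU hcov (by
    intro m n
    refine ⟨max m n, Set.image_mono ?_, Set.image_mono ?_⟩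
    · intro a (ha : Dd (Q a) < m)
      show Dd (Q a) < (max m n : ℕ)
      exact ha.trans_le (by exact_mod_cast le_max_left m n)
    · intro a (ha : Dd (Q a) < n)
      show Dd (Q a) < (max m n : ℕ)
      exact ha.trans_le (by exact_mod_cast le_max_right m n))
  refine ⟨n, fun x => ?_⟩
  obtain ⟨b, hb, hb'⟩ := hn (Set.mem_univ (p (Q.symm x)))
  have h1 : (MulAction.orbitRel L (Gp ⧸ Hs)) b (Q.symm x) := Quotient.exact hb'
  obtain ⟨l, hl⟩ := h1
  refine ⟨l, l.2, ?_⟩
  have h2 : (l : Gp) • Q.symm x = b := hl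
  have h3 := Q_smul (l : Gp) (Q.symm x)
  rw [h2, Q.apply_symm_apply] at h3
  rw [← h3]
  exact le_of_lt hb

lemma cr_one (h : CRG L) : CR (fun g => ∃ m ∈ L.map pr, m.1 = g) := by
  intro V hV hVi
  obtain ⟨W', hW', hWi', hinf, hsup⟩ := h (V.prod ⊥) (Submodule.prod_mono hV bot_le) (by
    rintro g hg ⟨X, Y⟩ ⟨hX, hY⟩
    refine ⟨hVi g.g1 ⟨pr g, ⟨g, hg, rfl⟩, rfl⟩ X hX, ?_⟩
    have hY0 : Y = 0 := hY
    show cj g.g2 Y ∈ (⊥ : Submodule ℝ Mat)
    rw [hY0, cj_zero]
    exact Submodule.zero_mem _)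
  refine ⟨W'.comap (LinearMap.inl ℝ Mat Mat), ?_, ?_, ?_, ?_⟩
  · intro X hX
    exact (hW' hX).1
  · rintro _ ⟨_, ⟨g, hg, rfl⟩, rfl⟩ X hX
    have h1 := hWi' g hg _ hX
    have e : cj g.g2 ((LinearMap.inl ℝ Mat Mat) X).2 = 0 := cj_zero _
    rw [e] at h1
    exact h1
  · rw [eq_bot_iff]
    rintro X ⟨hX1, hX2⟩
    have h1 : ((X, (0 : Mat)) : Mat × Mat) ∈ V.prod ⊥ ⊓ W' := ⟨⟨hX1, Submodule.zero_mem _⟩, hX2⟩
    rw [hinf, Submodule.mem_bot] at h1
    exact congrArg Prod.fst h1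
  · apply le_antisymm
    · apply sup_le hV
      intro X hX
      exact (hW' hX).1
    · intro X hX
      have h1 : ((X, (0 : Mat)) : Mat × Mat) ∈ V.prod ⊥ ⊔ W' := by
        rw [hsup]; exact ⟨hX, Submodule.zero_mem _⟩
      obtain ⟨w, hw, w', hw', hww⟩ := Submodule.mem_sup.mp h1
      have hw2 : w.2 = 0 := hw.2
      have e1 : w.1 + w'.1 = X := congrArg Prod.fst hww
      have e2 : w'.2 = 0 := by
        have := congrArg Prod.snd hww
        simp only [Prod.snd_add, hw2, zero_add] at this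
        exact this
      rw [Submodule.mem_sup]
      refine ⟨w.1, hw.1, w'.1, ?_, e1⟩
      show (w'.1, (0 : Mat)) ∈ W'
      rw [← e2]; exact hw'

lemma cr_two (h : CRG L) : CR (fun g => ∃ m ∈ L.map pr, m.2 = g) := by
  intro V hV hVi
  obtain ⟨W', hW', hWi', hinf, hsup⟩ := h (Submodule.prod ⊥ V) (Submodule.prod_mono bot_le hV) (by
    rintro g hg ⟨Y, X⟩ ⟨hY, hX⟩
    refine ⟨?_, hVi g.g2 ⟨pr g, ⟨g, hg, rfl⟩, rfl⟩ X hX⟩
    have hY0 : Y = 0 := hY
    show cj g.g1 Y ∈ (⊥ : Submodule ℝ Mat)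
    rw [hY0, cj_zero]
    exact Submodule.zero_mem _)
  refine ⟨W'.comap (LinearMap.inr ℝ Mat Mat), ?_, ?_, ?_, ?_⟩
  · intro X hX
    exact (hW' hX).2
  · rintro _ ⟨_, ⟨g, hg, rfl⟩, rfl⟩ X hX
    have h1 := hWi' g hg _ hX
    have e : cj g.g1 ((LinearMap.inr ℝ Mat Mat) X).1 = 0 := cj_zero _
    rw [e] at h1
    exact h1
  · rw [eq_bot_iff]
    rintro X ⟨hX1, hX2⟩
    have h1 : (((0 : Mat), X) : Mat × Mat) ∈ Submodule.prod ⊥ V ⊓ W' :=
      ⟨⟨Submodule.zero_mem _, hX1⟩, hX2⟩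
    rw [hinf, Submodule.mem_bot] at h1
    exact congrArg Prod.snd h1
  · apply le_antisymm
    · apply sup_le hV
      intro X hX
      exact (hW' hX).2
    · intro X hX
      have h1 : (((0 : Mat), X) : Mat × Mat) ∈ Submodule.prod ⊥ V ⊔ W' := by
        rw [hsup]; exact ⟨Submodule.zero_mem _, hX⟩
      obtain ⟨w, hw, w', hw', hww⟩ := Submodule.mem_sup.mp h1
      have hw2 : w.1 = 0 := hw.1
      have e1 : w.2 + w'.2 = X := congrArg Prod.snd hww
      have e2 : w'.1 = 0 := by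
        have := congrArg Prod.fst hww
        simp only [Prod.fst_add, hw2, zero_add] at this
        exact this
      rw [Submodule.mem_sup]
      refine ⟨w.2, hw.2, w'.2, ?_, e1⟩
      show ((0 : Mat), w'.2) ∈ W'
      rw [← e2]; exact hw'

/-- the hypotheses of the abstract theorem -/
lemma hyp_of (hcr : CRG L) (hp : ProperSMul L (Gp ⧸ Hs))
    (hc : CompactSpace (MulAction.orbitRel.Quotient L (Gp ⧸ Hs))) : Hyp (L.map pr) where
  closed := isClosed_map hp
  prop := by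
    intro R
    have h1 := isCompact_ret hp (isCompact_Dd R) (isCompact_Dd R)
    obtain ⟨B1, hB1⟩ := h1.exists_bound_of_continuousOn
      (continuous_Dd.comp continuous_L1).continuousOn
    obtain ⟨B2, hB2⟩ := h1.exists_bound_of_continuousOn
      (continuous_Dd.comp continuous_L2).continuousOn
    refine ⟨max B1 B2, ?_⟩
    rintro _ ⟨l, hl, rfl⟩ ⟨x, hx, hx'⟩
    have h2 := hB1 ⟨l, hl⟩ ⟨x, hx, hx'⟩
    have h3 := hB2 ⟨l, hl⟩ ⟨x, hx, hx'⟩
    rw [Real.norm_eq_abs] at h2 h3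
    exact ⟨(le_abs_self _).trans (h2.trans (le_max_left _ _)),
      (le_abs_self _).trans (h3.trans (le_max_right _ _))⟩
  coc := by
    have : ContinuousSMul L (Gp ⧸ Hs) := ProperSMul.toContinuousSMul
    obtain ⟨R, hR⟩ := exists_coc hc
    refine ⟨R, fun x => ?_⟩
    obtain ⟨l, hl, hx⟩ := hR x
    exact ⟨pr l, ⟨l, hl, rfl⟩, hx⟩
  tor1 := by
    rintro k hk ⟨l, hl, he⟩
    have e1 : l.g1 = k := congrArg Prod.fst he
    have e2 : l.g2 = 1 := congrArg Prod.snd he
    have h3 : l ^ 3 = 1 := by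
      apply ker_trivial hp (L.pow_mem hl 3)
      rw [map_pow, he]
      show (k ^ 3, (1 : SL(2, ℝ)) ^ 3) = 1
      rw [hk, one_pow]; rfl
    obtain ⟨τ, hτ⟩ := exists_fix (by norm_num : 0 < 3) hk
    have hf := f_eq_zero_of_pow (by norm_num : 0 < 3) h3 (z := τ) (w := I)
      (by rw [e1]; exact hτ) (by rw [e2]; exact one_smul _ _)
    have hU := l.he τ I
    rw [hf, e1, e2, map_one, U_one] at hU
    apply eq_one_of_U hτ
    simpa using hU.symm
  tor2 := by
    rintro k hk ⟨l, hl, he⟩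
    have e1 : l.g1 = 1 := congrArg Prod.fst he
    have e2 : l.g2 = k := congrArg Prod.snd he
    have h3 : l ^ 3 = 1 := by
      apply ker_trivial hp (L.pow_mem hl 3)
      rw [map_pow, he]
      show ((1 : SL(2, ℝ)) ^ 3, k ^ 3) = 1
      rw [hk, one_pow]; rfl
    obtain ⟨τ, hτ⟩ := exists_fix (by norm_num : 0 < 3) hk
    have hf := f_eq_zero_of_pow (by norm_num : 0 < 3) h3 (z := I) (w := τ)
      (by rw [e1]; exact one_smul _ _) (by rw [e2]; exact hτ)
    have hU := l.he I τ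
    rw [hf, e1, e2, map_one, U_one] at hU
    have hU2 : U (tg k) τ ^ 2 = 1 := by
      have : (1 : ℂ) = (U (tg k) τ ^ 2)⁻¹ := by simpa using hU
      rw [← inv_inv (U (tg k) τ ^ 2), ← this, inv_one]
    have hU3 : U (tg k) τ ^ 3 = 1 := by
      have h4 : ∀ n : ℕ, U (tg (k ^ n)) τ = U (tg k) τ ^ n := by
        intro n
        induction n with
        | zero => rw [pow_zero, map_one, U_one, pow_zero]
        | succ n ih =>
          rw [pow_succ, U_mul_tg, hτ, ih, pow_succ]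
      rw [← h4, hk, map_one, U_one]
    apply eq_one_of_U hτ
    calc U (tg k) τ = U (tg k) τ ^ 3 * (U (tg k) τ ^ 2)⁻¹ := by
          have := U_ne_zero (tg k) τ
          field_simp
      _ = 1 := by rw [hU2, hU3]; simp
  cr1 := cr_one hcr
  cr2 := cr_two hcr

/-- Closed subgroups with completely reducible adjoint action which act properly and
cocompactly are discrete. -/
theorem discrete_of (hcr : CRG L) (hp : ProperSMul L (Gp ⧸ Hs))
    (hc : CompactSpace (MulAction.orbitRel.Quotient L (Gp ⧸ Hs))) : DiscreteTopology L := by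
  obtain ⟨δ, hδ, h⟩ := exists_gap (hyp_of hcr hp hc)
  apply discreteTopology_of_isOpen_singleton_one
  have hcont : Continuous fun l : L =>
      ‖(((l : Gp).g1.val, (l : Gp).g2.val) : Mat × Mat) - 1‖ := by
    have h1 : Continuous fun l : L => (l : Gp).g1.val := continuous_subtype_val.comp continuous_L1
    have h2 : Continuous fun l : L => (l : Gp).g2.val := continuous_subtype_val.comp continuous_L2
    exact ((h1.prodMk h2).sub continuous_const).norm
  have e : ({1} : Set L) = {l : L | ‖(((l : Gp).g1.val, (l : Gp).g2.val) : Mat × Mat) - 1‖ < δ} := by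
    ext l
    constructor
    · rintro rfl
      show ‖((((1 : L) : Gp).g1.val, ((1 : L) : Gp).g2.val) : Mat × Mat) - 1‖ < δ
      have : ((((1 : L) : Gp).g1.val, ((1 : L) : Gp).g2.val) : Mat × Mat) = 1 := rfl
      rw [this, sub_self, norm_zero]
      exact hδ
    · intro hl
      have h1 : pr (l : Gp) = 1 := h (pr l) ⟨l, l.2, rfl⟩ hl
      exact Subtype.ext (ker_trivial hp l.2 h1)
  rw [e]
  exact isOpen_lt hcont continuous_const

/-- There is no such subgroup with finitely many components. -/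
theorem no_finite (hcr : CRG L) (hp : ProperSMul L (Gp ⧸ Hs))
    (hc : CompactSpace (MulAction.orbitRel.Quotient L (Gp ⧸ Hs)))
    (hfc : Finite (ConnectedComponents L)) : False := by
  have hd := discrete_of hcr hp hc
  have hfin : Finite L := by
    have hinj : Function.Injective (fun l : L => (l : ConnectedComponents L)) := by
      intro a b hab
      have h1 := ConnectedComponents.coe_eq_coe.mp hab
      have h2 : connectedComponent a = {a} := by
        exact connectedComponent_eq_singleton a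
      have h3 : connectedComponent b = {b} := connectedComponent_eq_singleton b
      rw [h2, h3] at h1
      exact Set.singleton_injective h1
    exact Finite.of_injective _ hinj
  have : ContinuousSMul L (Gp ⧸ Hs) := ProperSMul.toContinuousSMul
  obtain ⟨R, hR⟩ := exists_coc hc
  obtain ⟨B, hB⟩ := (Set.finite_range fun l : L => Dd (l : Gp).g1 + Dd (l : Gp).g2).bddAbove
  have hall : ∀ x : SL(2, ℝ), Dd x ≤ R + B := by
    intro x
    obtain ⟨l, hl, hx⟩ := hR x
    have h1 : Dd l.g1 + Dd l.g2 ≤ B := hB ⟨⟨l, hl⟩, rfl⟩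
    have e : x = l.g1⁻¹ * (l.g1 * x * l.g2⁻¹) * l.g2 := by group
    have h2 := Dd_mul_le (l.g1⁻¹ * (l.g1 * x * l.g2⁻¹)) l.g2
    have h3 := Dd_mul_le l.g1⁻¹ (l.g1 * x * l.g2⁻¹)
    rw [Dd_inv] at h3
    rw [← e] at h2
    linarith
  have h4 := hall (aa (|R + B| + 1))
  rw [Dd_aa'] at h4
  have h5 := abs_nonneg (R + B)
  have h6 := le_abs_self (R + B)
  rw [abs_of_pos (by positivity)] at h4
  linarith

end Gp

end

end Pool.Agent.H838
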