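import Pool.Agent.H838.Vert

/-!
# The lift of the Coxeter group to the large group
-/

set_option autoImplicit false

namespace Pool.Agent.H838

open UpperHalfPlane Matrix DihedralGroup

noncomputable section

/-- the functions of the generators -/
def φ (i : Fin 3) (z w : ℍ) : ℝ :=
  Complex.arg (denom (T1.A i) z) - 2 * Complex.arg (denom (T2.A i) w) + κ i

/-- the generators -/
def Rg (i : Fin 3) : Big := ⟨T1.A i, T2.A i, φ i⟩

lemma good_Rg (i : Fin 3) : Good (Rg i) (sr (i : ZMod 3)) := by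
  refine ⟨T1.det_A i, T2.det_A i, ?_, ?_⟩
  · show Continuous fun p : ℍ × ℍ => φ i p.1 p.2
    unfold φ
    have h1 := (T1.continuous_arg i).comp (continuous_fst (X := ℍ) (Y := ℍ))
    have h2 := (T2.continuous_arg i).comp (continuous_snd (X := ℍ) (Y := ℍ))
    exact (h1.sub (continuous_const.mul h2)).add continuous_const
  · intro z w
    show Complex.exp ((φ i z w : ℝ) * Complex.I) = ζ i * U (T1.A i) z * (U (T2.A i) w ^ 2)⁻¹
    have h1 := exp_arg (T1.A i) z
    have h2 := exp_arg (T2.A i) w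
    rw [← h1, ← h2, ζ, ← Complex.exp_nat_mul, ← Complex.exp_neg, ← Complex.exp_add,
      ← Complex.exp_add]
    congr 1
    unfold φ
    push_cast
    ring

lemma Rg_sq (i : Fin 3) : Rg i * Rg i = 1 := by
  refine Big.ext (T1.A_sq i) (T2.A_sq i) ?_
  funext z w
  rw [Big.mul_f]
  show (T1.A i).det.val * φ i (T1.A i • z) (T2.A i • w) + φ i z w = 0
  rw [T1.det_A]
  unfold φ
  rw [T1.arg_smul_self, T2.arg_smul_self]
  ring

lemma sr_pow (i j : ZMod 3) : (sr i * sr j : DihedralGroup 3) ^ 15 = 1 := by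
  have : ((15 : ℕ) : ZMod 3) = 0 := by decide
  rw [sr_mul_sr, r_pow, this, mul_zero]
  rfl

lemma good_pow {x : Big} {q : DihedralGroup 3} (h : Good x q) (n : ℕ) : Good (x ^ n) (q ^ n) := by
  induction n with
  | zero => simpa using Good.one
  | succ n ih => rw [pow_succ, pow_succ]; exact ih.mul h

/-- a common fixed point at which the functions agree -/
lemma vert {i j : Fin 3} (h : i ≠ j) : ∃ v v' : ℍ, T1.A i • v = v ∧ T1.A j • v = v ∧
    T2.A i • v' = v' ∧ T2.A j • v' = v' ∧ φ i v v' = φ j v v' := by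
  have hpi := Real.pi_pos
  have c1 : T1.C = Real.cos (Real.pi / (15 : ℕ)) := rfl
  have s1 : T1.s = Real.sin (Real.pi / (15 : ℕ)) := rfl
  have c2 : T2.C = Real.cos (Real.pi / (5 : ℕ)) := rfl
  have s2 : T2.s = Real.sin (Real.pi / (5 : ℕ)) := rfl
  have k0 : κ (0 : Fin 3) = 0 := by simp [κ]
  have k1 : κ (1 : Fin 3) = -(2 * Real.pi / 3) := by
    have : (ZMod.val (n := 3) (1 : Fin 3) : ℝ) = 1 := by norm_cast
    unfold κ
    rw [this]; ring
  have k2 : κ (2 : Fin 3) = -(4 * Real.pi / 3) := by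
    have : (ZMod.val (n := 3) (2 : Fin 3) : ℝ) = 2 := by norm_cast
    unfold κ
    rw [this]; ring
  obtain ⟨v01, p0, p1, p2⟩ := T1.vert01 _ c1 s1 ⟨by push_cast; linarith, by push_cast; linarith⟩
  obtain ⟨w01, q0, q1, q2⟩ := T2.vert01 _ c2 s2 ⟨by push_cast; linarith, by push_cast; linarith⟩
  obtain ⟨v02, p3, p4, p5⟩ := T1.vert02 _ c1 s1 ⟨by push_cast; linarith, by push_cast; linarith⟩
  obtain ⟨w02, q3, q4, q5⟩ := T2.vert02 _ c2 s2 ⟨by push_cast; linarith, by push_cast; linarith⟩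
  obtain ⟨v12, p6, p7, p8⟩ := T1.vert12 _ c1 s1 (by push_cast; linarith) (by push_cast; linarith)
  obtain ⟨w12, q6, q7, q8⟩ := T2.vert12 _ c2 s2 (by push_cast; linarith) (by push_cast; linarith)
  have h01 : φ 0 v01 w01 = φ 1 v01 w01 := by
    unfold φ
    rw [T1.arg_A0, T2.arg_A0, p2, q2, k0, k1]
    push_cast; ring
  have h02 : φ 0 v02 w02 = φ 2 v02 w02 := by
    unfold φ
    rw [T1.arg_A0, T2.arg_A0, p5, q5, k0, k2]
    push_cast; ring
  have h12 : φ 1 v12 w12 = φ 2 v12 w12 := by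
    unfold φ
    rw [k1, k2]
    push_cast at p8 q8
    linarith
  have hi : i = 0 ∨ i = 1 ∨ i = 2 := by fin_cases i <;> simp
  have hj : j = 0 ∨ j = 1 ∨ j = 2 := by fin_cases j <;> simp
  rcases hi with rfl | rfl | rfl <;> rcases hj with rfl | rfl | rfl
  · exact absurd rfl h
  · exact ⟨v01, w01, p0, p1, q0, q1, h01⟩
  · exact ⟨v02, w02, p3, p4, q3, q4, h02⟩
  · exact ⟨v01, w01, p1, p0, q1, q0, h01.symm⟩
  · exact absurd rfl h
  · exact ⟨v12, w12, p6, p7, q6, q7, h12⟩
  · exact ⟨v02, w02, p4, p3, q4, q3, h02.symm⟩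
  · exact ⟨v12, w12, p7, p6, q7, q6, h12.symm⟩
  · exact absurd rfl h

lemma Rg_pow {i j : Fin 3} (h : i ≠ j) : (Rg i * Rg j) ^ 15 = 1 := by
  have hg : Good ((Rg i * Rg j) ^ 15) 1 := by
    have := good_pow ((good_Rg i).mul (good_Rg j)) 15
    rwa [sr_pow] at this
  have ha : ((Rg i * Rg j) ^ 15).a = 1 := by
    have := map_pow Big.ahom (Rg i * Rg j) 15
    simp only [Big.ahom_apply, Big.mul_a] at this
    rw [this]
    exact mkTri_pow 15 (by norm_num) (by decide) h
  have hb : ((Rg i * Rg j) ^ 15).b = 1 := by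
    have := map_pow Big.bhom (Rg i * Rg j) 15
    simp only [Big.bhom_apply, Big.mul_b] at this
    rw [this]
    have h5 := mkTri_pow 5 (by norm_num) (by decide) h
    have e : (T2.A i * T2.A j) ^ 15 = ((T2.A i * T2.A j) ^ 5) ^ 3 := by rw [← pow_mul]
    show (T2.A i * T2.A j) ^ 15 = 1
    rw [e]
    unfold T2
    rw [h5, one_pow]
  obtain ⟨v, v', hv1, hv2, hv3, hv4, hv5⟩ := vert h
  have hfix : ∀ n : ℕ, ((Rg i * Rg j) ^ n).f v v' = 0 := by
    intro n
    induction n with
    | zero => simp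
    | succ n ih =>
      have e1 : (Rg i * Rg j).f v v' = 0 := by
        rw [Big.mul_f]
        show (T1.A j).det.val * φ i (T1.A j • v) (T2.A j • v') + φ j v v' = 0
        rw [hv2, hv4, T1.det_A, hv5]; ring
      have e2 : (Rg i * Rg j).a • v = v := by
        show (T1.A i * T1.A j) • v = v
        rw [mul_smul, hv2, hv1]
      have e3 : (Rg i * Rg j).b • v' = v' := by
        show (T2.A i * T2.A j) • v' = v'
        rw [mul_smul, hv4, hv3]
      rw [pow_succ, Big.mul_f, e1, e2, e3, ih]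
      ring
  refine Big.ext ha hb ?_
  funext z w
  have hc := const_of_exp (fun p : ℍ × ℍ => ((Rg i * Rg j) ^ 15).f p.1 p.2) hg.2.2.1 (by
    intro p
    have := hg.2.2.2 p.1 p.2
    rw [ha, hb, U_one, U_one, one_def] at this
    simpa [om, ζ_zero] using this) (z, w) (v, v')
  simp only at hc
  rw [hc, hfix 15]
  rfl

/-- the lift -/
def Φ : W →* Big := cs.lift ⟨Rg, liftable _ Rg_sq (fun _ _ h => Rg_pow h)⟩

/-- the finite quotient -/
def χ : W →* DihedralGroup 3 :=
  cs.lift ⟨fun i : Fin 3 => sr (i : ZMod 3), liftable _ (fun _ => sr_mul_self _)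
    (fun _ _ _ => sr_pow _ _)⟩

@[simp] lemma Φ_s (i : Fin 3) : Φ (cs.simple i) = Rg i := cs.lift_apply_simple _ i
@[simp] lemma χ_s (i : Fin 3) : χ (cs.simple i) = sr (i : ZMod 3) := cs.lift_apply_simple _ i

theorem good_Φ (w : W) : Good (Φ w) (χ w) := by
  induction w using cs.simple_induction with
  | simple i => rw [Φ_s, χ_s]; exact good_Rg i
  | one => rw [map_one, map_one]; exact Good.one
  | mul w w' h h' => rw [map_mul, map_mul]; exact h.mul h'

lemma Φ_a (w : W) : (Φ w).a = jh w := by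
  have : Big.ahom.comp Φ = jh := cs.ext_simple (fun i => by
    rw [MonoidHom.comp_apply, Φ_s, jh_s]; rfl)
  exact DFunLike.congr_fun this w

lemma Φ_b (w : W) : (Φ w).b = rh w := by
  have : Big.bhom.comp Φ = rh := cs.ext_simple (fun i => by
    rw [MonoidHom.comp_apply, Φ_s, rh_s]; rfl)
  exact DFunLike.congr_fun this w

end

end Pool.Agent.H838
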