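import Pool.Agent.H838.Cox

/-!
# Positivity for the large triangle group
-/

set_option autoImplicit false

namespace Pool.Agent.H838

open UpperHalfPlane Matrix

noncomputable section

/-- alternating products of length `k` beginning with `s i` -/
def alt (i j : Fin 3) : ℕ → W
  | 0 => 1
  | k + 1 => cs.simple i * alt j i k

@[simp] lemma alt_zero (i j : Fin 3) : alt i j 0 = 1 := rfl
lemma alt_succ (i j : Fin 3) (k : ℕ) : alt i j (k + 1) = cs.simple i * alt j i k := rfl

lemma length_alt_le (i j : Fin 3) (k : ℕ) : cs.length (alt i j k) ≤ k := by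
  induction k generalizing i j with
  | zero => simp
  | succ k ih =>
    rw [alt_succ]
    have := cs.length_mul_le (cs.simple i) (alt j i k)
    rw [cs.length_simple] at this
    have := ih j i
    omega

/-- the last letter of an alternating word -/
def lastL (i j : Fin 3) (k : ℕ) : Fin 3 := if Even k then j else i

lemma alt_succ' (i j : Fin 3) (k : ℕ) :
    alt i j (k + 1) = alt i j k * cs.simple (if Even k then i else j) := by
  induction k generalizing i j with
  | zero => simp [alt_succ]
  | succ k ih =>
    rw [alt_succ, ih j i, alt_succ i j k, mul_assoc]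
    congr 2
    by_cases h : Even k <;> simp [h, Nat.even_add_one]

lemma alt_two (i j : Fin 3) (k : ℕ) : alt i j (2 * k) = (cs.simple i * cs.simple j) ^ k := by
  induction k with
  | zero => simp
  | succ k ih =>
    rw [show 2 * (k + 1) = 2 * k + 1 + 1 by ring, alt_succ, alt_succ, ih, pow_succ', mul_assoc]

lemma alt_15 {i j : Fin 3} (h : i ≠ j) : alt i j 15 = alt j i 15 := by
  have h1 : (cs.simple i * cs.simple j) ^ 15 = 1 := by
    have := cs.simple_mul_simple_pow i j
    rwa [CM_ne h] at this
  have e1 : alt i j 15 = (cs.simple i * cs.simple j) ^ 7 * cs.simple i := by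
    rw [show (15 : ℕ) = 2 * 7 + 1 by norm_num, alt_succ', alt_two,
      if_pos (even_two_mul 7)]
  have e2 : alt j i 15 = (cs.simple j * cs.simple i) ^ 7 * cs.simple j := by
    rw [show (15 : ℕ) = 2 * 7 + 1 by norm_num, alt_succ', alt_two,
      if_pos (even_two_mul 7)]
  have e3 : cs.simple j * cs.simple i = (cs.simple i * cs.simple j)⁻¹ := by simp
  rw [e1, e2, e3, inv_pow, eq_inv_mul_iff_mul_eq, ← mul_assoc, ← pow_add]
  have e4 : (cs.simple i * cs.simple j) ^ 15 =
    (cs.simple i * cs.simple j) ^ (7 + 7) * cs.simple i * cs.simple j := by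
    rw [mul_assoc, ← pow_succ]
  rw [h1] at e4
  calc (cs.simple i * cs.simple j) ^ (7 + 7) * cs.simple i =
      (cs.simple i * cs.simple j) ^ (7 + 7) * cs.simple i * cs.simple j * cs.simple j := by
        rw [cs.simple_mul_simple_cancel_right]
    _ = _ := by rw [← e4, one_mul]

/-- the values of the functionals along alternating words -/
lemma l_alt (k : ℕ) {i j : Fin 3} (h : i ≠ j) (σ : ℍ) :
    T1.s * T1.l i (jh (alt j i k) • σ) =
      Real.sin ((k + 1) * (Real.pi / (15 : ℕ))) * (if Even k then T1.l i σ else T1.l j σ) +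
      Real.sin (k * (Real.pi / (15 : ℕ))) * (if Even k then T1.l j σ else T1.l i σ) := by
  induction k using Nat.strong_induction_on generalizing i j with
  | _ k ih =>
    match k with
    | 0 => simp; left; rfl
    | 1 =>
      simp only [alt_succ, alt_zero, mul_one, jh_s]
      rw [T1.l_refl h]
      have e : Real.sin (((1 : ℕ) + 1 : ℝ) * (Real.pi / (15 : ℕ))) = 2 * T1.s * T1.C := by
        have : ((1 : ℕ) + 1 : ℝ) * (Real.pi / (15 : ℕ)) = 2 * (Real.pi / (15 : ℕ)) := by
          push_cast; ring
        rw [this, Real.sin_two_mul]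
        rfl
      rw [e]
      have e' : Real.sin (((1 : ℕ) : ℝ) * (Real.pi / (15 : ℕ))) = T1.s := by
        rw [Nat.cast_one, one_mul]; rfl
      rw [e']
      simp
      ring
    | k + 2 =>
      have h1 := ih (k + 1) (by omega) h.symm
      have h2 := ih k (by omega) h
      rw [alt_succ, map_mul, mul_smul, jh_s, T1.l_refl h, mul_add]
      have e1 : T1.l i (jh (alt i j (k + 1)) • σ) = - T1.l i (jh (alt j i k) • σ) := by
        rw [alt_succ, map_mul, mul_smul, jh_s, T1.l_refl_self]
      rw [e1]
      have e2 : T1.s * (2 * T1.C * T1.l j (jh (alt i j (k + 1)) • σ)) =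
        2 * T1.C * (T1.s * T1.l j (jh (alt i j (k + 1)) • σ)) := by ring
      rw [e2, h1, mul_neg, h2]
      have e3 : Real.sin (((k + 2 : ℕ) + 1 : ℝ) * (Real.pi / (15 : ℕ))) =
          2 * T1.C * Real.sin (((k + 1 : ℕ) + 1 : ℝ) * (Real.pi / (15 : ℕ))) -
            Real.sin ((k + 1) * (Real.pi / (15 : ℕ))) := by
        have a1 : ((k + 2 : ℕ) + 1 : ℝ) * (Real.pi / (15 : ℕ)) =
          ((k + 1 : ℕ) + 1 : ℝ) * (Real.pi / (15 : ℕ)) + Real.pi / (15 : ℕ) := by
          push_cast; ring
        have a2 : ((k : ℝ) + 1) * (Real.pi / (15 : ℕ)) =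
          ((k + 1 : ℕ) + 1 : ℝ) * (Real.pi / (15 : ℕ)) - Real.pi / (15 : ℕ) := by
          push_cast; ring
        rw [a1, a2, Real.sin_add, Real.sin_sub]
        show _ = 2 * Real.cos (Real.pi / (15 : ℕ)) * _ - _
        ring
      have e4 : Real.sin (((k + 2 : ℕ) : ℝ) * (Real.pi / (15 : ℕ))) =
          2 * T1.C * Real.sin (((k + 1 : ℕ) : ℝ) * (Real.pi / (15 : ℕ))) -
            Real.sin (k * (Real.pi / (15 : ℕ))) := by
        have a1 : ((k + 2 : ℕ) : ℝ) * (Real.pi / (15 : ℕ)) =
          ((k + 1 : ℕ) : ℝ) * (Real.pi / (15 : ℕ)) + Real.pi / (15 : ℕ) := by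
          push_cast; ring
        have a2 : ((k : ℝ)) * (Real.pi / (15 : ℕ)) =
          ((k + 1 : ℕ) : ℝ) * (Real.pi / (15 : ℕ)) - Real.pi / (15 : ℕ) := by
          push_cast; ring
        rw [a1, a2, Real.sin_add, Real.sin_sub]
        show _ = 2 * Real.cos (Real.pi / (15 : ℕ)) * _ - _
        ring
      rw [e3, e4]
      by_cases hk : Even k <;> simp [hk, Nat.even_add_one] <;> ring

lemma sin_pos_of {k : ℕ} (hk : 1 ≤ k) (hk' : k < 15) :
    0 < Real.sin (k * (Real.pi / (15 : ℕ))) := by
  have hpi := Real.pi_pos
  have h1 : (1 : ℝ) ≤ k := by exact_mod_cast hk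
  have h2 : (k : ℝ) < 15 := by exact_mod_cast hk'
  apply Real.sin_pos_of_pos_of_lt_pi
  · positivity
  · push_cast
    rw [← mul_div_assoc, div_lt_iff₀ (by norm_num)]
    nlinarith

lemma sin_nonneg_of {k : ℕ} (hk' : k ≤ 15) :
    0 ≤ Real.sin (k * (Real.pi / (15 : ℕ))) := by
  have hpi := Real.pi_pos
  have h2 : (k : ℝ) ≤ 15 := by exact_mod_cast hk'
  apply Real.sin_nonneg_of_nonneg_of_le_pi
  · positivity
  · push_cast
    rw [← mul_div_assoc, div_le_iff₀ (by norm_num)]
    nlinarith

/-- Tits' positivity lemma for the large triangle group. -/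
theorem pos (w : W) : ∀ i, ¬ cs.IsLeftDescent w i → ∀ τ ∈ T1.Tr,
    0 ≤ T1.l i (jh w • τ) ∧ ((∀ k, 0 < T1.l k τ) → 0 < T1.l i (jh w • τ)) := by
  obtain ⟨n, hn⟩ : ∃ n, cs.length w = n := ⟨_, rfl⟩
  induction n using Nat.strong_induction_on generalizing w with
  | _ n ih =>
    intro i hi τ hτ
    by_cases hw : w = 1
    · subst hw
      simp only [map_one, one_smul]
      exact ⟨hτ i, fun h => h i⟩
    obtain ⟨j, hj⟩ := cs.exists_leftDescent_of_ne_one hw
    have hij : i ≠ j := by rintro rfl; exact hi hj
    -- the set of decompositions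
    let P : ℕ → Prop := fun k => ∃ v, w = alt j i k * v ∧ cs.length w = k + cs.length v
    have hP1 : P 1 := by
      refine ⟨cs.simple j * w, ?_, ?_⟩
      · simp [alt_succ]
      · have := cs.isLeftDescent_iff.mp hj
        omega
    have hbd : ∀ k, P k → k ≤ cs.length w := by
      rintro k ⟨v, _, h⟩; omega
    obtain ⟨k, hkP, hk1, hkmax⟩ : ∃ k, P k ∧ 1 ≤ k ∧ ∀ k', P k' → k' ≤ k := by
      classical
      refine ⟨Nat.findGreatest P (cs.length w), Nat.findGreatest_spec (hbd 1 hP1) hP1,
        Nat.le_findGreatest (hbd 1 hP1) hP1, fun k' hk' => Nat.le_findGreatest (hbd k' hk') hk'⟩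
    obtain ⟨v, hv1, hv2⟩ := hkP
    have hklt : k < 15 := by
      by_contra hge
      push Not at hge
      -- `w` begins with an alternating word of length `15`
      have hdec : ∀ r, r ≤ k → ∃ v', w = alt j i r * v' ∧ cs.length v' + r ≤ cs.length w := by
        intro r hr
        induction r with
        | zero => exact ⟨w, by simp, by simp⟩
        | succ r ihr =>
          -- direct argument
          have hsplit : ∀ (p q : ℕ) (x y : Fin 3), ∃ x' y', alt x y (p + q) =
              alt x y p * alt x' y' q := by
            intro p q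
            induction p with
            | zero => intro x y; exact ⟨x, y, by simp⟩
            | succ p ihp =>
              intro x y
              obtain ⟨x', y', h⟩ := ihp y x
              refine ⟨x', y', ?_⟩
              rw [show p + 1 + q = p + q + 1 by ring, alt_succ, h, alt_succ, mul_assoc]
          obtain ⟨x', y', h⟩ := hsplit (r + 1) (k - (r + 1)) j i
          rw [show r + 1 + (k - (r + 1)) = k by omega] at h
          refine ⟨alt x' y' (k - (r + 1)) * v, ?_, ?_⟩
          · rw [hv1, h, mul_assoc]
          · have a1 := cs.length_mul_le (alt x' y' (k - (r + 1))) v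
            have a2 := length_alt_le x' y' (k - (r + 1))
            omega
      obtain ⟨v', hv', hl'⟩ := hdec 15 hge
      apply hi
      rw [alt_15 hij.symm, alt_succ] at hv'
      unfold CoxeterSystem.IsLeftDescent
      have e : cs.simple i * w = alt j i 14 * v' := by
        rw [hv', mul_assoc, cs.simple_mul_simple_cancel_left]
      rw [e]
      have a1 := cs.length_mul_le (alt j i 14) v'
      have a2 := length_alt_le j i 14
      omega
    -- descents of `v`
    have hv_next : ¬ cs.IsLeftDescent v (if Even k then j else i) := by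
      intro hd
      have h3 := cs.isLeftDescent_iff.mp hd
      have : P (k + 1) := by
        refine ⟨cs.simple (if Even k then j else i) * v, ?_, by omega⟩
        rw [alt_succ', mul_assoc, cs.simple_mul_simple_cancel_left]
        exact hv1
      have := hkmax _ this
      omega
    have hv_prev : ¬ cs.IsLeftDescent v (if Even k then i else j) := by
      intro hd
      have h3 := cs.isLeftDescent_iff.mp hd
      obtain ⟨k', rfl⟩ : ∃ k', k = k' + 1 := ⟨k - 1, by omega⟩
      have e1 : (if Even (k' + 1) then i else j) = (if Even k' then j else i) := by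
        by_cases h : Even k' <;> simp [h, Nat.even_add_one]
      rw [e1] at h3
      have e2 : w = alt j i k' * (cs.simple (if Even k' then j else i) * v) := by
        rw [hv1, alt_succ', mul_assoc]
      have a1 := cs.length_mul_le (alt j i k') (cs.simple (if Even k' then j else i) * v)
      rw [← e2] at a1
      have a2 := length_alt_le j i k'
      omega
    have hvlt : cs.length v < n := by omega
    have hvi : ¬ cs.IsLeftDescent v i := by
      by_cases h : Even k
      · simpa [h] using hv_prev
      · simpa [h] using hv_next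
    have hvj : ¬ cs.IsLeftDescent v j := by
      by_cases h : Even k
      · simpa [h] using hv_next
      · simpa [h] using hv_prev
    have hI := ih _ hvlt v rfl i hvi τ hτ
    have hJ := ih _ hvlt v rfl j hvj τ hτ
    have hs := T1.hs
    have key := l_alt k hij (jh v • τ)
    rw [← mul_smul, ← map_mul, ← hv1] at key
    have s1 : 0 ≤ Real.sin (((k : ℝ) + 1) * (Real.pi / (15 : ℕ))) := by
      have := sin_nonneg_of (k := k + 1) (by omega)
      push_cast at this ⊢
      exact this
    have s2 : 0 < Real.sin ((k : ℝ) * (Real.pi / (15 : ℕ))) := sin_pos_of hk1 hklt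
    constructor
    · have : 0 ≤ T1.s * T1.l i (jh w • τ) := by
        rw [key]
        apply add_nonneg
        · apply mul_nonneg s1
          split_ifs
          · exact hI.1
          · exact hJ.1
        · apply mul_nonneg s2.le
          split_ifs
          · exact hJ.1
          · exact hI.1
      exact nonneg_of_mul_nonneg_right this hs
    · intro hpos
      have : 0 < T1.s * T1.l i (jh w • τ) := by
        rw [key]
        apply add_pos_of_nonneg_of_pos
        · apply mul_nonneg s1
          split_ifs
          · exact hI.1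
          · exact hJ.1
        · apply mul_pos s2
          split_ifs
          · exact hJ.2 hpos
          · exact hI.2 hpos
      exact (mul_pos_iff_of_pos_left hs).mp this

/-- the same for descents -/
theorem neg' (w : W) (i : Fin 3) (h : cs.IsLeftDescent w i) (τ : ℍ) (hτ : τ ∈ T1.Tr) :
    T1.l i (jh w • τ) ≤ 0 ∧ ((∀ k, 0 < T1.l k τ) → T1.l i (jh w • τ) < 0) := by
  have h1 := cs.isLeftDescent_iff_not_isLeftDescent_mul.mp h
  have h2 := pos _ i h1 τ hτ
  rw [map_mul, mul_smul, jh_s, T1.l_refl_self] at h2
  constructor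
  · linarith [h2.1]
  · intro h3
    linarith [h2.2 h3]

end

end Pool.Agent.H838
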