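import Pool.Agent.H838.Gam

/-!
# The homogeneous space and the exotic subgroup
-/

set_option autoImplicit false

namespace Pool.Agent.H838

open UpperHalfPlane Matrix Topology
open scoped MatrixGroups Pointwise

noncomputable section

lemma isOpenMap_mul_inv : IsOpenMap fun p : SL(2, ℝ) × SL(2, ℝ) => p.1 * p.2⁻¹ := by
  let e : SL(2, ℝ) × SL(2, ℝ) ≃ₜ SL(2, ℝ) × SL(2, ℝ) :=
    { toFun := fun p => (p.1 * p.2⁻¹, p.2)
      invFun := fun p => (p.1 * p.2, p.2)
      left_inv := fun p => by simp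
      right_inv := fun p => by simp
      continuous_toFun := by fun_prop
      continuous_invFun := by fun_prop }
  exact isOpenMap_fst.comp e.isOpenMap

namespace Gp

/-- the quotient map in coordinates -/
def q (x : Gp) : SL(2, ℝ) := x.g1 * x.g2⁻¹

lemma isOpenMap_pr : IsOpenMap pr := pr.isOpenMap_of_sigmaCompact pr_surjective continuous_pr

lemma isOpenMap_q : IsOpenMap q := isOpenMap_mul_inv.comp isOpenMap_pr

lemma continuous_q : Continuous q := continuous_g1.mul continuous_g2.inv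

lemma q_eq_iff (x y : Gp) : q x = q y ↔ x⁻¹ * y ∈ Hs := by
  rw [mem_Hs, mul_g1, mul_g2, inv_g1, inv_g2, q, q]
  constructor
  · intro h
    rw [inv_mul_eq_iff_eq_mul, ← mul_assoc, ← mul_inv_eq_iff_eq_mul, ← h]
  · intro h
    rw [inv_mul_eq_iff_eq_mul, ← mul_assoc, ← mul_inv_eq_iff_eq_mul] at h
    exact h.symm

/-- the induced map on the homogeneous space -/
def qbar : Gp ⧸ Hs → SL(2, ℝ) := Quotient.lift q (by
  intro x y h
  exact (q_eq_iff x y).mpr (QuotientGroup.leftRel_apply.mp h))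

@[simp] lemma qbar_mk (x : Gp) : qbar (x : Gp ⧸ Hs) = x.g1 * x.g2⁻¹ := rfl

lemma qbar_bijective : Function.Bijective qbar := by
  constructor
  · intro a b
    induction a using QuotientGroup.induction_on with
    | H x =>
      induction b using QuotientGroup.induction_on with
      | H y =>
        intro h
        exact QuotientGroup.eq.mpr ((q_eq_iff x y).mp h)
  · intro s
    obtain ⟨x, h1, h2⟩ := exists_of s 1
    exact ⟨(x : Gp ⧸ Hs), by rw [qbar_mk, h1, h2]; simp⟩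

lemma continuous_qbar : Continuous qbar :=
  continuous_quot_lift _ continuous_q

lemma isOpenMap_qbar : IsOpenMap qbar := by
  intro V hV
  have h1 : qbar '' V = q '' ((fun x : Gp => (x : Gp ⧸ Hs)) ⁻¹' V) := by
    ext s
    constructor
    · rintro ⟨a, ha, rfl⟩
      induction a using QuotientGroup.induction_on with
      | H x => exact ⟨x, ha, rfl⟩
    · rintro ⟨x, hx, rfl⟩
      exact ⟨_, hx, rfl⟩
  rw [h1]
  exact isOpenMap_q _ (hV.preimage QuotientGroup.continuous_mk)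

/-- the homogeneous space is `SL(2, ℝ)` -/
def Q : Gp ⧸ Hs ≃ₜ SL(2, ℝ) :=
  (Equiv.ofBijective qbar qbar_bijective).toHomeomorphOfContinuousOpen continuous_qbar
    isOpenMap_qbar

@[simp] lemma Q_mk (x : Gp) : Q (x : Gp ⧸ Hs) = x.g1 * x.g2⁻¹ := rfl

lemma Q_smul (x : Gp) (a : Gp ⧸ Hs) : Q (x • a) = x.g1 * Q a * x.g2⁻¹ := by
  induction a using QuotientGroup.induction_on with
  | H y =>
    have : x • (y : Gp ⧸ Hs) = ((x * y : Gp) : Gp ⧸ Hs) := rfl
    rw [this, Q_mk, Q_mk, mul_g1, mul_g2, _root_.mul_inv_rev]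
    group

/-- the exotic subgroup -/
def Gam : Subgroup Gp := Subgroup.comap bigHom (Subgroup.map Φ χ.ker)

lemma mem_Gam {x : Gp} : x ∈ Gam ↔ ∃ w : W, χ w = 1 ∧ Φ w = x.big := by
  unfold Gam
  rw [Subgroup.mem_comap, Subgroup.mem_map]
  simp only [MonoidHom.mem_ker, bigHom_apply]

lemma exists_Gam (w : W) (hw : χ w = 1) : ∃ x ∈ Gam, tg x.g1 = jh w ∧ tg x.g2 = rh w := by
  have hg : Good (Φ w) 1 := by
    have := good_Φ w
    rwa [hw] at this
  refine ⟨ofGood (Φ w) hg, mem_Gam.mpr ⟨w, hw, (big_ofGood _ hg).symm⟩, ?_, ?_⟩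
  · rw [tg_ofGood_g1, Φ_a]
  · rw [tg_ofGood_g2, Φ_b]

lemma bddAbove_dist1 {K : Set SL(2, ℝ)} (hK : IsCompact K) :
    ∃ M : ℝ, ∀ s ∈ K, dist (s⁻¹ • o) o' ≤ M ∧ dist (s • o') o ≤ M := by
  have c1 : Continuous fun s : SL(2, ℝ) => dist (s⁻¹ • o) o' :=
    (continuous_inv.smul continuous_const).dist continuous_const
  have c2 : Continuous fun s : SL(2, ℝ) => dist (s • o') o :=
    (continuous_id.smul continuous_const).dist continuous_const
  obtain ⟨M1, h1⟩ := hK.bddAbove_image c1.continuousOn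
  obtain ⟨M2, h2⟩ := hK.bddAbove_image c2.continuousOn
  refine ⟨max M1 M2, fun s hs => ⟨?_, ?_⟩⟩
  · exact (h1 (Set.mem_image_of_mem _ hs)).trans (le_max_left _ _)
  · exact (h2 (Set.mem_image_of_mem _ hs)).trans (le_max_right _ _)

/-- the basic finiteness property -/
lemma finite_Gam {K L : Set SL(2, ℝ)} (hK : IsCompact K) (hL : IsCompact L) :
    {x : Gp | x ∈ Gam ∧ ∃ s ∈ K, x.g1 * s * x.g2⁻¹ ∈ L}.Finite := by
  obtain ⟨M1, h1⟩ := bddAbove_dist1 hK
  obtain ⟨M2, h2⟩ := bddAbove_dist1 hL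
  have hfin := finite_prop (max M1 M2)
  apply Set.Finite.of_finite_image (f := bigHom) _ (big_injective.injOn)
  apply (hfin.image Φ).subset
  rintro _ ⟨x, ⟨hx, s, hs, hs'⟩, rfl⟩
  obtain ⟨w, hw, hΦ⟩ := mem_Gam.mp hx
  refine ⟨w, ⟨s, x.g1 * s * x.g2⁻¹, ?_, ?_, ?_⟩, hΦ⟩
  · have e1 : jh w = tg x.g1 := by rw [← Φ_a, hΦ]; rfl
    have e2 : rh w = tg x.g2 := by rw [← Φ_b, hΦ]; rfl
    rw [e1, e2, ← map_mul, ← map_mul, inv_mul_cancel_right]
  · exact ((h1 s hs).1).trans (le_max_left _ _)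
  · exact ((h2 _ hs').2).trans (le_max_right _ _)

/-- proper discontinuity -/
instance properlyDiscontinuous_Gam : ProperlyDiscontinuousSMul Gam (Gp ⧸ Hs) where
  finite_disjoint_inter_image := by
    intro K L hK hL
    have h := finite_Gam (hK.image Q.continuous) (hL.image Q.continuous)
    apply Set.Finite.of_finite_image (f := Subtype.val) _ Subtype.val_injective.injOn
    apply h.subset
    rintro _ ⟨γ, ⟨_, ⟨a, ha, rfl⟩, hb⟩, rfl⟩
    refine ⟨γ.2, Q a, ⟨a, ha, rfl⟩, ?_⟩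
    refine ⟨γ • a, hb, ?_⟩
    exact Q_smul γ.1 a

/-- discreteness -/
instance discrete_Gam : DiscreteTopology Gam := by
  obtain ⟨K, hK, hK1⟩ := exists_compact_mem_nhds (1 : Gp)
  have hfin : {x : Gp | x ∈ Gam ∧ x ∈ K}.Finite := by
    have h := finite_Gam (isCompact_singleton (x := (1 : SL(2, ℝ)))) (hK.image continuous_q)
    apply h.subset
    rintro x ⟨hx, hxK⟩
    refine ⟨hx, 1, rfl, x, hxK, ?_⟩
    rw [mul_one]; rfl
  have hopen : IsOpen ({1} : Set Gam) := by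
    have hs : ({x : Gp | x ∈ Gam ∧ x ∈ K} \ {1}).Finite := hfin.sdiff
    have hU : interior K ∩ ({x : Gp | x ∈ Gam ∧ x ∈ K} \ {1})ᶜ ∈ nhds (1 : Gp) := by
      apply Filter.inter_mem (interior_mem_nhds.mpr hK1)
      exact hs.isClosed.isOpen_compl.mem_nhds (by simp)
    rw [isOpen_singleton_iff_nhds_eq_pure, nhds_subtype_eq_comap]
    apply le_antisymm
    · rw [Filter.le_pure_iff]
      refine ⟨_, hU, ?_⟩
      rintro ⟨x, hx⟩ ⟨h1, h2⟩
      by_contra hne
      apply h2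
      refine ⟨⟨hx, interior_subset h1⟩, ?_⟩
      intro hx1
      apply hne
      exact Subtype.ext hx1
    · rw [← nhds_subtype_eq_comap]
      exact pure_le_nhds _
  exact discreteTopology_of_isOpen_singleton_one hopen

/-- compact sets of `SL(2, ℝ)` -/
lemma isCompact_near (D : ℝ) : IsCompact {s : SL(2, ℝ) | dist (s • o') o ≤ D} := by
  obtain ⟨g, hg⟩ := MulAction.exists_smul_eq SL(2, ℝ) I o'
  have h1 : IsCompact ((fun s : SL(2, ℝ) => s • I) ⁻¹' (Metric.closedBall o D)) :=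
    isProperMap_smul_I.isCompact_preimage (isCompact_closedBall _ _)
  have h2 : {s : SL(2, ℝ) | dist (s • o') o ≤ D} =
      (fun s => s * g) ⁻¹' ((fun s : SL(2, ℝ) => s • I) ⁻¹' (Metric.closedBall o D)) := by
    ext s
    simp only [Set.mem_preimage, Metric.mem_closedBall, mul_smul, hg]
    rfl
  rw [h2]
  exact (Homeomorph.mulRight g).isCompact_preimage.mpr h1

/-- cocompactness: a compact set whose translates cover -/
lemma exists_compact_Gam : ∃ C : Set SL(2, ℝ), IsCompact C ∧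
    ∀ s : SL(2, ℝ), ∃ x ∈ Gam, x.g1 * s * x.g2⁻¹ ∈ C := by
  obtain ⟨D, hD⟩ := exists_near'
  refine ⟨_, isCompact_near D, fun s => ?_⟩
  obtain ⟨w, hw, h⟩ := hD (tg s) (abs_det_tg s)
  obtain ⟨x, hx, h1, h2⟩ := exists_Gam w hw
  refine ⟨x⁻¹, Gam.inv_mem hx, ?_⟩
  show dist ((x⁻¹.g1 * s * (x⁻¹.g2)⁻¹) • o') o ≤ D
  rw [inv_g1, inv_g2, inv_inv, mul_smul, mul_smul, ← tg_smul x.g1⁻¹, ← tg_smul s,
    ← tg_smul x.g2, map_inv, h1, h2]
  exact h

lemma compactSpace_quot (L : Subgroup Gp) (C : Set SL(2, ℝ)) (hC : IsCompact C)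
    (h : ∀ s : SL(2, ℝ), ∃ x ∈ L, x.g1 * s * x.g2⁻¹ ∈ C) :
    CompactSpace (MulAction.orbitRel.Quotient L (Gp ⧸ Hs)) := by
  have hc : IsCompact (Q ⁻¹' C) := Q.isCompact_preimage.mpr hC
  have h1 : IsCompact ((fun a : Gp ⧸ Hs =>
      (Quotient.mk _ a : MulAction.orbitRel.Quotient L (Gp ⧸ Hs))) '' (Q ⁻¹' C)) :=
    hc.image continuous_quot_mk
  have h2 : ((fun a : Gp ⧸ Hs =>
      (Quotient.mk _ a : MulAction.orbitRel.Quotient L (Gp ⧸ Hs))) '' (Q ⁻¹' C)) =
      Set.univ := by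
    apply Set.eq_univ_of_forall
    intro a
    induction a using Quotient.inductionOn with
    | h a =>
      obtain ⟨x, hx, hxC⟩ := h (Q a)
      refine ⟨x • a, ?_, ?_⟩
      · show Q (x • a) ∈ C
        rw [Q_smul]; exact hxC
      · apply Quotient.sound
        exact ⟨⟨x, hx⟩, rfl⟩
  rw [h2] at h1
  exact ⟨h1⟩

instance cocompact_Gam : CompactSpace (MulAction.orbitRel.Quotient Gam (Gp ⧸ Hs)) := by
  obtain ⟨C, hC, h⟩ := exists_compact_Gam
  exact compactSpace_quot Gam C hC h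

end Gp

end

end Pool.Agent.H838
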