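import Pool.Agent.H838.Lie
import Pool.Agent.H838.Free

/-!
# Elements of `SL(2, ℝ)` and of its Lie algebra
-/

set_option autoImplicit false

namespace Pool.Agent.H838

open Filter Topology Matrix UpperHalfPlane
open scoped MatrixGroups Matrix.Norms.Operator

noncomputable section

/-- size of an element -/
def Dd (s : SL(2, ℝ)) : ℝ := dist (s • I) I

lemma Dd_nonneg (s : SL(2, ℝ)) : 0 ≤ Dd s := dist_nonneg

lemma dist_sl (g : SL(2, ℝ)) (z w : ℍ) : dist (g • z) (g • w) = dist z w :=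
  dist_smul_gl (tg g) (abs_det_tg g) z w

lemma Dd_inv (s : SL(2, ℝ)) : Dd s⁻¹ = Dd s := by
  unfold Dd
  rw [← dist_sl s, smul_inv_smul, dist_comm]

lemma Dd_mul_le (s t : SL(2, ℝ)) : Dd (s * t) ≤ Dd s + Dd t := by
  unfold Dd
  have := dist_triangle ((s * t) • I) (s • I) I
  rw [mul_smul, dist_sl s] at this
  rw [mul_smul]
  linarith

lemma Dd_rot (θ : ℝ) : Dd (Gp.rot θ) = 0 := by
  unfold Dd
  rw [Gp.rot_smul_I, dist_self]

lemma isCompact_Dd (R : ℝ) : IsCompact {s : SL(2, ℝ) | Dd s ≤ R} := by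
  have h1 : IsCompact ((fun s : SL(2, ℝ) => s • I) ⁻¹' (Metric.closedBall I R)) :=
    isProperMap_smul_I.isCompact_preimage (isCompact_closedBall _ _)
  exact h1

lemma continuous_Dd : Continuous Dd := by
  unfold Dd
  exact (continuous_id.smul continuous_const).dist continuous_const

/-- hyperbolic one-parameter group -/
def aa (s : ℝ) : SL(2, ℝ) := ⟨!![Real.exp s, 0; 0, Real.exp (-s)], by
  rw [Matrix.det_fin_two_of, ← Real.exp_add]; simp⟩

lemma aa_val (s : ℝ) : (aa s).val = !![Real.exp s, 0; 0, Real.exp (-s)] := rfl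

lemma aa_smul_vQ (s : ℝ) (z : ℍ) : vQ (aa s • z) = vQ z := by
  rw [sl_vQ]
  have h1 : (aa s) 0 0 = Real.exp s := rfl
  have h2 : (aa s) 0 1 = 0 := rfl
  have h3 : (aa s) 1 0 = 0 := rfl
  have h4 : (aa s) 1 1 = Real.exp (-s) := rfl
  rw [h1, h2, h3, h4]
  have h5 : Real.exp s * Real.exp (-s) = 1 := by rw [← Real.exp_add]; simp
  linear_combination h5 * vQ z

lemma aa_smul_vR (s : ℝ) (z : ℍ) : vR (aa s • z) = Real.exp (-2 * s) * vR z := by
  rw [sl_vR]
  have h3 : (aa s) 1 0 = 0 := rfl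
  have h4 : (aa s) 1 1 = Real.exp (-s) := rfl
  rw [h3, h4]
  have h5 : Real.exp (-s) ^ 2 = Real.exp (-2 * s) := by
    rw [sq, ← Real.exp_add]; congr 1; ring
  rw [h5]; ring

lemma vQ_I : vQ I = 0 := by simp [vQ]
lemma vR_I : vR I = 1 := by simp [vR]
lemma vP_I : vP I = 1 := by simp [vP]

lemma vQ_eq_zero {z : ℍ} : vQ z = 0 ↔ z.re = 0 := by
  unfold vQ
  rw [div_eq_zero_iff]
  constructor
  · rintro (h | h)
    · exact h
    · exact absurd h z.im_ne_zero
  · exact Or.inl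

/-- transitivity on the axis -/
lemma exists_aa {z : ℍ} (hz : vQ z = 0) : ∃ s : ℝ, aa s • z = I := by
  refine ⟨Real.log (vR z) / 2, ext_vec ?_ ?_⟩
  · rw [aa_smul_vQ, hz, vQ_I]
  · rw [aa_smul_vR, vR_I]
    have h : -2 * (Real.log (vR z) / 2) = -Real.log (vR z) := by ring
    rw [h, Real.exp_neg, Real.exp_log (vR_pos z), inv_mul_cancel₀ (vR_pos z).ne']

/-- rotations bring every point to the axis -/
lemma exists_rot (z : ℍ) : ∃ θ : ℝ, vQ (Gp.rot θ • z) = 0 := by
  have hcont : Continuous fun θ : ℝ => vQ (Gp.rot θ • z) :=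
    continuous_vQ.comp (Gp.continuous_rot.smul continuous_const)
  have h0 : Gp.rot 0 • z = z := by
    have : Gp.rot 0 = 1 := by
      apply Matrix.SpecialLinearGroup.ext
      intro i j
      fin_cases i <;> fin_cases j <;> simp [Gp.rot]
    rw [this, one_smul]
  have h1 : vQ (Gp.rot (Real.pi / 2) • z) = -vQ z := by
    rw [sl_vQ]
    have a1 : (Gp.rot (Real.pi / 2)) 0 0 = Real.cos (Real.pi / 2) := rfl
    have a2 : (Gp.rot (Real.pi / 2)) 0 1 = -Real.sin (Real.pi / 2) := rfl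
    have a3 : (Gp.rot (Real.pi / 2)) 1 0 = Real.sin (Real.pi / 2) := rfl
    have a4 : (Gp.rot (Real.pi / 2)) 1 1 = Real.cos (Real.pi / 2) := rfl
    rw [a1, a2, a3, a4, Real.cos_pi_div_two, Real.sin_pi_div_two]
    ring
  rcases le_total (vQ z) 0 with hz | hz
  · have hmem : (0 : ℝ) ∈ Set.Icc (vQ (Gp.rot 0 • z)) (vQ (Gp.rot (Real.pi / 2) • z)) := by
      rw [h0, h1]; exact ⟨hz, by linarith⟩
    obtain ⟨θ, -, hθ⟩ := intermediate_value_Icc (by positivity : (0 : ℝ) ≤ Real.pi / 2)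
      hcont.continuousOn hmem
    exact ⟨θ, hθ⟩
  · have hmem : (0 : ℝ) ∈ Set.Icc (vQ (Gp.rot (Real.pi / 2) • z)) (vQ (Gp.rot 0 • z)) := by
      rw [h0, h1]; exact ⟨by linarith, hz⟩
    obtain ⟨θ, -, hθ⟩ := intermediate_value_Icc' (by positivity : (0 : ℝ) ≤ Real.pi / 2)
      hcont.continuousOn hmem
    exact ⟨θ, hθ⟩

lemma Dd_aa (s : ℝ) : Real.cosh (Dd (aa s)) = Real.cosh (2 * s) := by
  unfold Dd
  rw [cosh_dist_vec, vP_I, vQ_I, vR_I, aa_smul_vR, vR_I]
  have h1 := vPR (aa s • I)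
  rw [aa_smul_vQ, vQ_I, aa_smul_vR, vR_I] at h1
  have h2 : Real.exp (-2 * s) * Real.exp (2 * s) = 1 := by rw [← Real.exp_add]; simp
  have h3 : vP (aa s • I) = Real.exp (2 * s) := by
    have hne : Real.exp (-2 * s) ≠ 0 := Real.exp_ne_zero _
    apply mul_right_cancel₀ hne
    linarith
  rw [h3, Real.cosh_eq]
  have : -(2 * s) = -2 * s := by ring
  rw [this]
  ring

lemma Dd_aa' (s : ℝ) : Dd (aa s) = |2 * s| := by
  have h := Dd_aa s
  rw [← Real.cosh_abs (2 * s)] at h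
  exact Real.cosh_injOn (Set.mem_Ici.mpr (Dd_nonneg _)) (Set.mem_Ici.mpr (abs_nonneg _)) h

/-- the diagonal element of the Lie algebra -/
def dg (c : ℝ) : Mat := !![c, 0; 0, -c]

lemma E1_dg (c t : ℝ) : E1 (dg c) t = (aa (t * c)).val := by
  have h1 : t • dg c = Matrix.diagonal ![t * c, -(t * c)] := by
    ext i j
    fin_cases i <;> fin_cases j <;> simp [dg]
  have h2 : (aa (t * c)).val = Matrix.diagonal ![Real.exp (t * c), Real.exp (-(t * c))] := by
    rw [aa_val]
    ext i j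
    fin_cases i <;> fin_cases j <;> simp
  unfold E1
  rw [h1, h2]
  refine (Matrix.exp_diagonal ![t * c, -(t * c)]).trans ?_
  congr 1
  rw [Pi.exp_def]
  funext i
  fin_cases i
  · simp [Real.exp_eq_exp_ℝ]
  · simp [Real.exp_eq_exp_ℝ]

/-- diagonalisation of hyperbolic elements -/
lemma exists_diag {X : Mat} (htr : X.trace = 0) (hdet : X.det < 0) :
    ∃ (g : SL(2, ℝ)) (c : ℝ), c ≠ 0 ∧ X = g.val * dg c * (g⁻¹).val := by
  have h11 : X 1 1 = -X 0 0 := by
    rw [Matrix.trace_fin_two] at htr; linarith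
  rw [Matrix.det_fin_two, h11] at hdet
  have hX : X = !![X 0 0, X 0 1; X 1 0, -X 0 0] := by
    rw [← h11]
    ext i j
    fin_cases i <;> fin_cases j <;> rfl
  generalize X 0 0 = p at *
  generalize X 0 1 = q at *
  generalize X 1 0 = r at *
  have key : ∀ (g : SL(2, ℝ)) (c : ℝ), X * g.val = g.val * dg c →
      X = g.val * dg c * (g⁻¹).val := by
    intro g c h
    rw [← h, mul_assoc]
    have : g.val * (g⁻¹).val = 1 := congrArg Subtype.val (mul_inv_cancel g)
    rw [this, mul_one]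
  by_cases hr : r = 0
  · -- upper triangular
    rw [hr] at hdet hX
    have hp : p ≠ 0 := by rintro rfl; simp at hdet
    refine ⟨⟨!![1, -(q / (2 * p)); 0, 1], by simp [Matrix.det_fin_two_of]⟩, p, hp, ?_⟩
    apply key
    rw [hX]
    ext i j
    fin_cases i <;> fin_cases j <;> simp [dg, Matrix.mul_apply, Fin.sum_univ_two]
    field_simp
    ring
  · have hd : 0 < p ^ 2 + q * r := by linarith
    obtain ⟨l, hl, hl2⟩ : ∃ l : ℝ, 0 < l ∧ l ^ 2 = p ^ 2 + q * r :=
      ⟨Real.sqrt (p ^ 2 + q * r), Real.sqrt_pos.mpr hd, Real.sq_sqrt hd.le⟩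
    refine ⟨⟨!![(l + p) / (2 * l * r), p - l; 1 / (2 * l), r], ?_⟩, l, hl.ne', ?_⟩
    · rw [Matrix.det_fin_two_of]
      field_simp
      ring
    · apply key
      rw [hX]
      ext i j
      fin_cases i <;> fin_cases j <;> simp [dg, Matrix.mul_apply, Fin.sum_univ_two]
      · field_simp
        linear_combination -hl2
      · linear_combination -hl2
      · field_simp
        ring
      · ring

lemma dg_neg (c : ℝ) : (Gp.rot (Real.pi / 2)).val * dg c * ((Gp.rot (Real.pi / 2))⁻¹).val =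
    dg (-c) := by
  have h1 : (Gp.rot (Real.pi / 2)).val = !![0, -1; 1, 0] := by
    show !![Real.cos (Real.pi / 2), -Real.sin (Real.pi / 2);
      Real.sin (Real.pi / 2), Real.cos (Real.pi / 2)] = _
    rw [Real.cos_pi_div_two, Real.sin_pi_div_two]
  have h2 : (Gp.rot (Real.pi / 2)).val * dg c = dg (-c) * (Gp.rot (Real.pi / 2)).val := by
    rw [h1]
    ext i j
    fin_cases i <;> fin_cases j <;> simp [dg, Matrix.mul_apply, Fin.sum_univ_two]
  rw [h2, mul_assoc]
  have : (Gp.rot (Real.pi / 2)).val * ((Gp.rot (Real.pi / 2))⁻¹).val = 1 :=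
    congrArg Subtype.val (mul_inv_cancel (Gp.rot (Real.pi / 2)))
  rw [this, mul_one]

/-- Two hyperbolic elements with the same determinant are conjugate. -/
lemma exists_conj {X Y : Mat} (hX : X.trace = 0) (hY : Y.trace = 0) (hdX : X.det < 0)
    (hd : X.det = Y.det) : ∃ x : SL(2, ℝ), x.val * Y * (x⁻¹).val = X := by
  obtain ⟨g, c, hc, hg⟩ := exists_diag hX hdX
  obtain ⟨g', c', hc', hg'⟩ := exists_diag hY (by rw [← hd]; exact hdX)
  have hdetX : X.det = -c ^ 2 := by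
    rw [hg, Matrix.det_mul, Matrix.det_mul, g.2, (g⁻¹).2, dg, Matrix.det_fin_two_of]; ring
  have hdetY : Y.det = -c' ^ 2 := by
    rw [hg', Matrix.det_mul, Matrix.det_mul, g'.2, (g'⁻¹).2, dg, Matrix.det_fin_two_of]; ring
  have hcc : c = c' ∨ c = -c' := by
    rw [hdetX, hdetY] at hd
    exact sq_eq_sq_iff_eq_or_eq_neg.mp (by linarith)
  have hinv : (g'⁻¹).val * g'.val = 1 := congrArg Subtype.val (inv_mul_cancel g')
  rcases hcc with rfl | rfl
  · refine ⟨g * g'⁻¹, ?_⟩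
    rw [_root_.mul_inv_rev, inv_inv, hg', hg]
    show (g.val * (g'⁻¹).val) * (g'.val * dg c * (g'⁻¹).val) * (g'.val * (g⁻¹).val) = _
    calc (g.val * (g'⁻¹).val) * (g'.val * dg c * (g'⁻¹).val) * (g'.val * (g⁻¹).val) =
        g.val * ((g'⁻¹).val * g'.val) * dg c * ((g'⁻¹).val * g'.val) * (g⁻¹).val := by
          simp only [mul_assoc]
      _ = _ := by rw [hinv, mul_one, mul_one]
  · set w := Gp.rot (Real.pi / 2) with hw
    refine ⟨g * w * g'⁻¹, ?_⟩
    rw [_root_.mul_inv_rev, _root_.mul_inv_rev, inv_inv, hg', hg, ← dg_neg, ← hw]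
    show (g.val * w.val * (g'⁻¹).val) * (g'.val * dg c' * (g'⁻¹).val) *
      (g'.val * ((w⁻¹).val * (g⁻¹).val)) = _
    calc (g.val * w.val * (g'⁻¹).val) * (g'.val * dg c' * (g'⁻¹).val) *
          (g'.val * ((w⁻¹).val * (g⁻¹).val)) =
        g.val * w.val * ((g'⁻¹).val * g'.val) * dg c' * ((g'⁻¹).val * g'.val) *
          (w⁻¹).val * (g⁻¹).val := by simp only [mul_assoc]
      _ = _ := by rw [hinv, mul_one, mul_one]; simp only [mul_assoc]

/-- one-parameter groups of elliptic elements close up -/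
lemma elliptic {X : Mat} (htr : X.trace = 0) (hdet : 0 < X.det) :
    ∃ t : ℝ, (E1 X t) ^ 3 = 1 ∧ E1 X t ≠ 1 := by
  have h11 : X 1 1 = -X 0 0 := by
    rw [Matrix.trace_fin_two] at htr; linarith
  have hXX : X * X = -(X.det • (1 : Mat)) := by
    rw [Matrix.det_fin_two, h11]
    ext i j
    fin_cases i <;> fin_cases j <;> simp [Matrix.mul_apply, Fin.sum_univ_two, h11] <;> ring
  obtain ⟨l, hl, hl2⟩ : ∃ l : ℝ, 0 < l ∧ l ^ 2 = X.det :=
    ⟨Real.sqrt X.det, Real.sqrt_pos.mpr hdet, Real.sq_sqrt hdet.le⟩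
  set J : Mat := l⁻¹ • X with hJ
  have hJJ : J * J = -1 := by
    rw [hJ, smul_mul_smul_comm, hXX, ← hl2, smul_neg, smul_smul]
    have : l⁻¹ * l⁻¹ * l ^ 2 = 1 := by field_simp
    rw [this, one_smul]
  let φ : ℂ →ₐ[ℝ] Mat := Complex.liftAux J hJJ
  have hφI : φ Complex.I = J := by simp [φ]
  have hφc : Continuous φ := φ.toLinearMap.continuous_of_finiteDimensional
  let : NormedAlgebra ℚ Mat := NormedAlgebra.restrictScalars ℚ ℝ Mat
  have hE : ∀ t : ℝ, E1 X t = φ (Complex.exp ((t * l : ℝ) * Complex.I)) := by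
    intro t
    have h1 : φ (NormedSpace.exp (((t * l : ℝ) : ℂ) * Complex.I)) =
        NormedSpace.exp (φ (((t * l : ℝ) : ℂ) * Complex.I)) :=
      NormedSpace.map_exp φ hφc _
    rw [Complex.exp_eq_exp_ℂ, h1]
    unfold E1
    congr 1
    have h2 : ((t * l : ℝ) : ℂ) * Complex.I = (t * l) • Complex.I := by
      rw [Complex.real_smul]
    rw [h2, map_smul, hφI, hJ, smul_smul]
    congr 1
    field_simp
  refine ⟨2 * Real.pi / (3 * l), ?_, ?_⟩
  · rw [hE, ← map_pow, ← Complex.exp_nat_mul]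
    have : ((3 : ℕ) : ℂ) * (((2 * Real.pi / (3 * l) * l : ℝ) : ℂ) * Complex.I) =
        2 * Real.pi * Complex.I := by
      have h3 : (2 * Real.pi / (3 * l) * l : ℝ) = 2 * Real.pi / 3 := by field_simp
      rw [h3]
      push_cast
      ring
    rw [this, Complex.exp_two_pi_mul_I, map_one]
  · intro h
    rw [hE] at h
    have hinj : Function.Injective φ := φ.toRingHom.injective
    have h4 : Complex.exp (((2 * Real.pi / (3 * l) * l : ℝ) : ℂ) * Complex.I) = 1 :=
      hinj (by rw [h, map_one])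
    rw [Complex.exp_eq_one_iff] at h4
    obtain ⟨n, hn⟩ := h4
    have h3 : (2 * Real.pi / (3 * l) * l : ℝ) = 2 * Real.pi / 3 := by field_simp
    rw [h3] at hn
    have h5 : (2 * Real.pi / 3 : ℝ) = n * (2 * Real.pi) := by
      have : ((2 * Real.pi / 3 : ℝ) : ℂ) = ((n * (2 * Real.pi) : ℝ) : ℂ) := by
        apply mul_right_cancel₀ Complex.I_ne_zero
        rw [hn]; push_cast; ring
      exact_mod_cast this
    have hpi := Real.pi_pos
    have h6 : (3 : ℝ) * n = 1 := by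
      have : (2 * Real.pi) * (3 * n - 1) = 0 := by linarith
      rcases mul_eq_zero.mp this with h | h
      · linarith
      · linarith
    have h7 : (3 : ℤ) * n = 1 := by exact_mod_cast h6
    omega

end

end Pool.Agent.H838
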