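import Mathlib

/-!
# A locally compact group with a uniform lattice is unimodular
-/

set_option autoImplicit false
set_option linter.unusedSectionVars false

namespace Pool.Agent.H838.T

open MeasureTheory MeasureTheory.Measure Filter Topology Set
open scoped ENNReal NNReal Pointwise

variable {A : Type*} [Group A] [TopologicalSpace A] [IsTopologicalGroup A] [T2Space A]
  [LocallyCompactSpace A] [SecondCountableTopology A] [MeasurableSpace A] [BorelSpace A]

lemma exists_compact_fund {Gam : Subgroup A} [CompactSpace (A ⧸ Gam)] :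
    ∃ C : Set A, IsCompact C ∧ ∀ a : A, ∃ g : Gam, (g : A) * a ∈ C := by
  -- compact sets of `A` cover the quotient
  have h1 : ∀ a : A, ∃ K : Set A, IsCompact K ∧ K ∈ 𝓝 a := fun a => exists_compact_mem_nhds a
  choose K hK hKn using h1
  have hopen : IsOpenMap (QuotientGroup.mk : A → A ⧸ Gam) := QuotientGroup.isOpenMap_coe
  obtain ⟨t, ht⟩ := (isCompact_univ (X := A ⧸ Gam)).elim_finite_subcover
    (fun a : A => (QuotientGroup.mk : A → A ⧸ Gam) '' interior (K a))
    (fun a => hopen _ isOpen_interior) (by
      intro x _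
      induction x using QuotientGroup.induction_on with
      | H a =>
        exact mem_iUnion.mpr ⟨a, a, mem_interior_iff_mem_nhds.mpr (hKn a), rfl⟩)
  refine ⟨(⋃ a ∈ t, K a)⁻¹, (t.isCompact_biUnion fun a _ => hK a).inv, fun a => ?_⟩
  have h2 := ht (mem_univ (QuotientGroup.mk a⁻¹ : A ⧸ Gam))
  simp only [mem_iUnion] at h2
  obtain ⟨b, hb, y, hy, hya⟩ := h2
  rw [QuotientGroup.eq] at hya
  refine ⟨⟨y⁻¹ * a⁻¹, hya⟩, ?_⟩
  rw [Set.mem_inv]
  simp only [mul_inv_rev, inv_inv, mem_iUnion]
  refine ⟨b, hb, ?_⟩
  have : a⁻¹ * (a * y) = y := by group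
  rw [this]
  exact interior_subset hy

/-- A locally compact group with a uniform lattice is unimodular. -/
theorem right_invariant_of_lattice {Gam : Subgroup A} [DiscreteTopology Gam]
    [CompactSpace (A ⧸ Gam)] (mu : Measure A) [IsHaarMeasure mu] : mu.IsMulRightInvariant := by
  obtain ⟨C, hC, hfund⟩ := exists_compact_fund (Gam := Gam)
  have hcount : Countable Gam := countable_of_Lindelof_of_discrete
  have hclosed : IsClosed (Gam : Set A) := Subgroup.isClosed_of_discrete
  have hCm : MeasurableSet C := hC.isClosed.measurableSet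
  set ind : A → ℝ≥0∞ := C.indicator 1 with hind
  have hindm : Measurable ind := measurable_one.indicator hCm
  set N : A → ℝ≥0∞ := fun l => ∑' g : Gam, ind ((g : A) * l) with hN
  have hNm : Measurable N := Measurable.tsum fun g => hindm.comp (measurable_const_mul _)
  have hNfin : ∀ l, N l ≠ ∞ := by
    intro l
    have hfin : {g : Gam | (g : A) * l ∈ C}.Finite := by
      have hc : IsCompact {g : Gam | (g : A) * l ∈ C} := by
        have hcl : Topology.IsClosedEmbedding (Subtype.val : Gam → A) :=
          hclosed.isClosedEmbedding_subtypeVal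
        have : {g : Gam | (g : A) * l ∈ C} = Subtype.val ⁻¹' ((fun a => a * l⁻¹) '' C) := by
          ext g
          simp only [mem_ofPred_eq, mem_preimage, mem_image]
          constructor
          · intro h
            exact ⟨_, h, by group⟩
          · rintro ⟨y, hy, hyg⟩
            rw [← hyg]
            simpa using hy
        rw [this]
        exact hcl.isCompact_preimage (hC.image (by fun_prop))
      exact hc.finite_of_discrete
    rw [hN]
    simp only
    rw [tsum_eq_sum (s := hfin.toFinset)]
    · refine (ENNReal.sum_lt_top.mpr fun g _ => ?_).ne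
      rw [hind]
      exact (indicator_le_self' (fun _ _ => zero_le) _).trans_lt ENNReal.one_lt_top
    · intro g hg
      rw [Finite.mem_toFinset, mem_ofPred_eq] at hg
      rw [hind, indicator_of_notMem hg]
  have hNpos : ∀ l, 1 ≤ N l := by
    intro l
    obtain ⟨g, hg⟩ := hfund l
    calc (1 : ℝ≥0∞) = ind ((g : A) * l) := by rw [hind, indicator_of_mem hg]; rfl
      _ ≤ N l := ENNReal.le_tsum g
  have hNinv : ∀ (g : Gam) (l : A), N ((g : A) * l) = N l := by
    intro g l
    rw [hN]
    simp only
    rw [← (Equiv.mulRight g).tsum_eq (fun g' : Gam => ind ((g' : A) * l))]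
    refine tsum_congr fun g' => ?_
    simp [mul_assoc]
  set psi : A → ℝ≥0∞ := fun l => ind l / N l with hpsi
  have hpsim : Measurable psi := hindm.div hNm
  have hsum : ∀ l, ∑' g : Gam, psi ((g : A) * l) = 1 := by
    intro l
    rw [hpsi]
    simp only [hNinv, div_eq_mul_inv]
    rw [ENNReal.tsum_mul_right]
    exact ENNReal.mul_inv_cancel (zero_lt_one.trans_le (hNpos l)).ne' (hNfin l)
  have hfinite : ∫⁻ l, psi l ∂mu ≠ ∞ := by
    have h1 : ∫⁻ l, psi l ∂mu ≤ mu C := by
      rw [← lintegral_indicator_one hCm]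
      refine lintegral_mono fun l => ?_
      rw [hpsi]
      simp only
      calc ind l / N l ≤ ind l / 1 := ENNReal.div_le_div_left (hNpos l) _
        _ = ind l := div_one _
    exact (h1.trans_lt hC.measure_lt_top).ne
  have hkey : ∀ x : A, ∫⁻ l, psi (l * x) ∂mu = ∫⁻ l, psi l ∂mu := by
    intro x
    have hpx : Measurable fun l => psi (l * x) := hpsim.comp (measurable_mul_const x)
    have e1 : ∫⁻ l, psi l ∂mu = ∑' g : Gam, ∫⁻ l, psi l * psi ((g : A) * l * x) ∂mu := by
      rw [← lintegral_tsum fun g => ?_]
      · refine lintegral_congr fun l => ?_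
        rw [ENNReal.tsum_mul_left]
        have : ∀ g : Gam, psi ((g : A) * l * x) = psi ((g : A) * (l * x)) := by
          intro g; rw [mul_assoc]
        simp only [this, hsum, mul_one]
      · exact (hpsim.mul (hpx.comp (measurable_const_mul _))).aemeasurable
    have e2 : ∫⁻ l, psi (l * x) ∂mu = ∑' g : Gam, ∫⁻ l, psi ((g : A) * l) * psi (l * x) ∂mu := by
      rw [← lintegral_tsum fun g => ?_]
      · refine lintegral_congr fun l => ?_
        rw [ENNReal.tsum_mul_right, hsum, one_mul]
      · exact ((hpsim.comp (measurable_const_mul _)).mul hpx).aemeasurable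
    rw [e1, e2, ← (Equiv.inv Gam).tsum_eq]
    refine tsum_congr fun g => ?_
    have := lintegral_mul_left_eq_self (μ := mu) (fun l => psi l * psi ((g : A) * l * x)) (g : A)⁻¹
    rw [← this]
    refine lintegral_congr fun l => ?_
    simp
  have hpos : ∫⁻ l, psi l ∂mu ≠ 0 := by
    intro h0
    have h1 : mu univ = ∑' g : Gam, ∫⁻ l, psi ((g : A) * l) ∂mu := by
      rw [← lintegral_tsum (f := fun (g : Gam) (l : A) => psi ((g : A) * l))
        fun g => (hpsim.comp (measurable_const_mul _)).aemeasurable]
      simp [hsum]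
    have h2 : ∀ g : Gam, ∫⁻ l, psi ((g : A) * l) ∂mu = 0 := by
      intro g
      rw [lintegral_mul_left_eq_self psi (g : A), h0]
    simp only [h2, tsum_zero] at h1
    exact (isOpen_univ.measure_pos mu ⟨1, trivial⟩).ne' h1
  constructor
  intro x
  have hH : IsHaarMeasure (map (fun l => l * x) mu) := inferInstance
  have hs := isMulLeftInvariant_eq_smul (map (fun l => l * x) mu) mu
  have h3 : ∫⁻ l, psi l ∂(map (fun l => l * x) mu) = ∫⁻ l, psi (l * x) ∂mu :=
    lintegral_map hpsim (measurable_mul_const x)
  rw [hkey x] at h3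
  rw [hs, lintegral_smul_measure] at h3
  have h4 : ((haarScalarFactor (map (fun l => l * x) mu) mu : ℝ≥0) : ℝ≥0∞) = 1 := by
    have h5 : ((haarScalarFactor (map (fun l => l * x) mu) mu : ℝ≥0) : ℝ≥0∞) *
        ∫⁻ l, psi l ∂mu = 1 * ∫⁻ l, psi l ∂mu := by
      rw [one_mul]; exact h3
    exact (ENNReal.mul_left_inj hpos hfinite).mp h5
  have h6 : haarScalarFactor (map (fun l => l * x) mu) mu = 1 := by exact_mod_cast h4
  rw [hs, h6, one_smul]

end Pool.Agent.H838.T
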