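import Pool.Agent.H838.TBaire
import Pool.Agent.H838.TUni

/-!
# Limits of conjugates of a transitive subgroup are transitive
-/

set_option autoImplicit false
set_option linter.unusedSectionVars false

namespace Pool.Agent.H838.T

open MeasureTheory MeasureTheory.Measure Filter Topology Set
open scoped ENNReal Pointwise

lemma Unimod.exists_measure {A : Type*} [Group A] [TopologicalSpace A] [mA : MeasurableSpace A]
    [hb : BorelSpace A] (h : Unimod A) :
    ∃ μ : Measure A, IsHaarMeasure μ ∧ IsMulRightInvariant μ := by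
  have e := hb.measurable_eq
  subst e
  exact h

lemma Unimod.of_lattice {A : Type*} [Group A] [TopologicalSpace A] [IsTopologicalGroup A]
    [T2Space A] [LocallyCompactSpace A] [SecondCountableTopology A] (Gam : Subgroup A)
    [DiscreteTopology Gam] [CompactSpace (A ⧸ Gam)] : Unimod A := by
  let _ : MeasurableSpace A := borel A
  have : BorelSpace A := ⟨rfl⟩
  exact ⟨haar, inferInstance, right_invariant_of_lattice (Gam := Gam) haar⟩

variable {G : Type*} [Group G] [TopologicalSpace G] [IsTopologicalGroup G] [T2Space G]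
  [LocallyCompactSpace G] [SecondCountableTopology G]

/-- Limits of conjugates of a transitive subgroup are transitive. -/
theorem abstract_limit (hGu : Unimod G) {L H : Subgroup G} (hLc : IsClosed (L : Set G))
    (hHc : IsClosed (H : Set G)) (hLu : Unimod L) (hHu : Unimod H)
    (hs : ∀ g : G, ∃ (l : L) (h : H), (l : G) * h = g)
    (hp : ∀ K : Set G, IsCompact K → IsCompact {p : L × H | (p.1 : G) * p.2 ∈ K})
    {g : ℕ → G} (hg0 : ∀ k, g k ∈ connectedComponent (1 : G)) {phi : L →* G}
    (hphi : Continuous phi)
    (hg : ∀ l : L, Tendsto (fun k => (g k)⁻¹ * l * g k) atTop (𝓝 (phi l))) :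
    (∀ K : Set G, IsCompact K → IsCompact {p : L × H | phi p.1 * p.2 ∈ K}) ∧
      ∀ x : G, ∃ (l : L) (h : H), phi l * h = x := by
  let _ : MeasurableSpace G := borel G
  have : BorelSpace G := ⟨rfl⟩
  have : SecondCountableTopology L := TopologicalSpace.Subtype.secondCountableTopology (L : Set G)
  have : SecondCountableTopology H := TopologicalSpace.Subtype.secondCountableTopology (H : Set G)
  have : LocallyCompactSpace L := hLc.isClosedEmbedding_subtypeVal.locallyCompactSpace
  have : LocallyCompactSpace H := hHc.isClosedEmbedding_subtypeVal.locallyCompactSpace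
  obtain ⟨m, hm1, hm2⟩ := hGu.exists_measure
  obtain ⟨lam, hl1, hl2⟩ := hLu.exists_measure
  obtain ⟨eta, he1, he2⟩ := hHu.exists_measure
  have : TopologicalSpace.MetrizableSpace G := TopologicalSpace.metrizableSpace_of_t3_secondCountable G
  have hsum := fun x => limit_summary (lam := lam) (eta := eta) (m := m) hs hp hphi hg x
  refine ⟨fun K hK => ?_, fun x => ?_⟩
  · have := (hsum 1).1 K hK
    simpa only [mul_one] using this
  · have hsub := cc_sub_DC (m := m) phi (fun x => (hsum x).2.1) (fun x => (hsum x).2.2) x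
    obtain ⟨l, h, hlh⟩ := hs x
    have hmem : phi l * (l : G)⁻¹ ∈ connectedComponent (1 : G) := by
      have hcl : IsClosed (connectedComponent (1 : G)) := isClosed_connectedComponent
      refine hcl.mem_of_tendsto ((hg l).mul_const (l : G)⁻¹) (Eventually.of_forall fun k => ?_)
      have h1 : (g k)⁻¹ * l * g k * (l : G)⁻¹ = (g k)⁻¹ * (l * g k * (l : G)⁻¹) := by group
      rw [h1]
      exact cc_mul (cc_inv (hg0 k)) (cc_conj (hg0 k) _)
    obtain ⟨⟨a, b⟩, hab⟩ := hsub _ hmem
    simp only at hab
    refine ⟨a⁻¹ * l, h * b⁻¹, ?_⟩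
    rw [map_mul, map_inv, Subgroup.coe_mul, Subgroup.coe_inv]
    have h2 : phi l * (l : G)⁻¹ * x = phi l * h := by rw [← hlh]; group
    rw [h2] at hab
    calc (phi a)⁻¹ * phi l * (h * (b : G)⁻¹) = (phi a)⁻¹ * (phi l * h) * (b : G)⁻¹ := by group
      _ = x := by rw [← hab]; group

end Pool.Agent.H838.T
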