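import Pool.Agent.H838.TMeas

/-!
# Closed double cosets of positive measure in a locally compact group
-/

set_option autoImplicit false
set_option linter.unusedSectionVars false

namespace Pool.Agent.H838.T

open MeasureTheory MeasureTheory.Measure Filter Topology Set
open scoped ENNReal Pointwise

variable {G : Type*} [Group G] [TopologicalSpace G] [IsTopologicalGroup G]

lemma cc_conj {u : G} (hu : u ∈ connectedComponent (1 : G)) (a : G) :
    a * u * a⁻¹ ∈ connectedComponent (1 : G) := by
  have h1 : IsPreconnected ((fun v => a * v * a⁻¹) '' connectedComponent (1 : G)) :=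
    isPreconnected_connectedComponent.image _ (by fun_prop)
  have h2 : (1 : G) ∈ (fun v => a * v * a⁻¹) '' connectedComponent (1 : G) :=
    ⟨1, mem_connectedComponent, by simp⟩
  exact h1.subset_connectedComponent h2 ⟨u, hu, rfl⟩

lemma cc_mul {u v : G} (hu : u ∈ connectedComponent (1 : G)) (hv : v ∈ connectedComponent (1 : G)) :
    u * v ∈ connectedComponent (1 : G) :=
  (Subgroup.connectedComponentOfOne G).mul_mem hu hv

lemma cc_inv {u : G} (hu : u ∈ connectedComponent (1 : G)) :
    u⁻¹ ∈ connectedComponent (1 : G) :=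
  (Subgroup.connectedComponentOfOne G).inv_mem hu

variable [T2Space G] [LocallyCompactSpace G] [SecondCountableTopology G]
  {L H : Subgroup G}

/-- the double coset -/
def DC (phi : L →* G) (x : G) : Set G := range fun p : L × H => phi p.1 * x * (p.2 : G)

lemma mem_DC_self (phi : L →* G) (x : G) : x ∈ DC (H := H) phi x := ⟨1, by simp⟩

lemma DC_act {phi : L →* G} {x y : G} (hy : y ∈ DC (H := H) phi x) (a : L) (b : H) :
    phi a * y * b ∈ DC (H := H) phi x := by
  obtain ⟨p, rfl⟩ := hy
  refine ⟨(a * p.1, p.2 * b), ?_⟩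
  simp only [map_mul, Subgroup.coe_mul, mul_assoc]

lemma DC_eq {phi : L →* G} {x y : G} (hy : y ∈ DC (H := H) phi x) :
    DC (H := H) phi y = DC (H := H) phi x := by
  apply subset_antisymm
  · rintro _ ⟨p, rfl⟩
    exact DC_act hy p.1 p.2
  · obtain ⟨q, rfl⟩ := hy
    rintro _ ⟨p, rfl⟩
    refine ⟨(p.1 * q.1⁻¹, q.2⁻¹ * p.2), ?_⟩
    simp only [map_mul, map_inv, Subgroup.coe_mul, Subgroup.coe_inv]
    group

theorem cc_sub_DC [MeasurableSpace G] [BorelSpace G] {m : Measure G} [SigmaFinite m]
    (phi : L →* G) (hcl : ∀ x : G, IsClosed (DC (H := H) phi x))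
    (hpos : ∀ x : G, 0 < m (DC (H := H) phi x)) (x : G) :
    ∀ u ∈ connectedComponent (1 : G), u * x ∈ DC (H := H) phi x := by
  set G0 : Subgroup G := Subgroup.connectedComponentOfOne G with hG0
  have hG0c : IsClosed (G0 : Set G) := isClosed_connectedComponent
  have : LocallyCompactSpace G0 := hG0c.isClosedEmbedding_subtypeVal.locallyCompactSpace
  have : ConnectedSpace G0 :=
    isConnected_iff_connectedSpace.mp (isConnected_connectedComponent (x := (1 : G)))
  -- the family of double cosets is countable
  have hcount : Countable (range (DC (H := H) phi)) := by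
    have hd : Pairwise (Function.onFun Disjoint fun D : range (DC (H := H) phi) => (D : Set G)) := by
      rintro ⟨D, a, rfl⟩ ⟨E, b, rfl⟩ hne
      rw [Function.onFun, Set.disjoint_left]
      intro y hy hy'
      apply hne
      apply Subtype.ext
      show DC phi a = DC phi b
      rw [← DC_eq hy, ← DC_eq hy']
    have h1 := Measure.countable_meas_pos_of_disjoint_iUnion (μ := m)
      (As := fun D : range (DC (H := H) phi) => (D : Set G))
      (by rintro ⟨D, a, rfl⟩; exact (hcl a).measurableSet) hd
    have h2 : {i : range (DC (H := H) phi) | 0 < m (i : Set G)} = univ := by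
      ext ⟨D, a, rfl⟩
      simp only [mem_ofPred_eq, mem_univ, iff_true]
      exact hpos a
    rw [h2] at h1
    exact countable_univ_iff.mp h1
  obtain ⟨⟨D, y, hD⟩, hint⟩ := nonempty_interior_of_iUnion_of_closed
    (f := fun D : range (DC (H := H) phi) => {u : G0 | (u : G) * x ∈ (D : Set G)})
    (by
      rintro ⟨D, a, rfl⟩
      exact (hcl a).preimage (by fun_prop))
    (by
      rw [eq_univ_iff_forall]
      intro u
      exact mem_iUnion.mpr ⟨⟨_, (u : G) * x, rfl⟩, mem_DC_self phi _⟩)
  simp only at hint
  subst hD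
  set F : Set G0 := {u : G0 | (u : G) * x ∈ DC (H := H) phi y} with hF
  obtain ⟨u0, hu0⟩ := hint
  have hu0F : u0 ∈ F := interior_subset hu0
  have hopen : IsOpen F := by
    rw [← subset_interior_iff_isOpen]
    intro u hu
    have h1 : (u : G) * x ∈ DC (H := H) phi ((u0 : G) * x) := by
      rw [DC_eq hu0F]; exact hu
    obtain ⟨⟨a, b⟩, hab⟩ := h1
    simp only at hab
    -- the homeomorphism
    have hmem : ∀ w : G0, (phi a)⁻¹ * ((w : G) * (u : G)⁻¹) * (phi a) * u0 ∈ G0 := by
      intro w
      refine cc_mul ?_ u0.2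
      have := cc_conj (cc_mul w.2 (cc_inv u.2)) (phi a)⁻¹
      rwa [inv_inv] at this
    let τ : G0 → G0 := fun w => ⟨_, hmem w⟩
    have hτ : Continuous τ := by
      apply Continuous.subtype_mk
      fun_prop
    have hτu : τ u = u0 := by
      apply Subtype.ext
      simp only [τ]
      group
    have hpre : τ ⁻¹' (interior F) ⊆ F := by
      intro w hw
      have h20 : τ w ∈ F := interior_subset hw
      have h2 : (τ w : G) * x ∈ DC (H := H) phi y := h20
      have h3 := DC_act h2 a b
      have h4 : phi a * ((τ w : G) * x) * b = w * x := by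
        simp only [τ]
        calc phi a * ((phi a)⁻¹ * ((w : G) * (u : G)⁻¹) * (phi a) * u0 * x) * b
            = (w : G) * (u : G)⁻¹ * (phi a * (u0 * x) * b) := by group
          _ = w * x := by rw [hab]; group
      rw [h4] at h3
      exact h3
    have : IsOpen (τ ⁻¹' (interior F)) := isOpen_interior.preimage hτ
    exact interior_maximal hpre this (by rw [mem_preimage, hτu]; exact hu0)
  have hclosed : IsClosed F := (hcl y).preimage (by fun_prop)
  have huniv : F = univ := IsClopen.eq_univ ⟨hclosed, hopen⟩ ⟨u0, hu0F⟩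
  have hx : x ∈ DC (H := H) phi y := by
    have : (1 : G0) ∈ F := huniv ▸ mem_univ _
    simpa [hF] using this
  intro u hu
  rw [DC_eq hx]
  have : (⟨u, hu⟩ : G0) ∈ F := huniv ▸ mem_univ _
  exact this

/-- a group is unimodular -/
def Unimod (A : Type*) [Group A] [TopologicalSpace A] : Prop :=
  ∃ μ : @Measure A (borel A), @IsHaarMeasure A _ _ (borel A) μ ∧
    @IsMulRightInvariant A (borel A) _ μ

end Pool.Agent.H838.T
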