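import Mathlib

/-!
# Complete reducibility passes to a set commuting with the rest
-/

set_option autoImplicit false
set_option linter.unusedSectionVars false

namespace Pool.Agent.H838.T

open Module

variable {V : Type*} [AddCommGroup V] [Module ℝ V]

/-- an invariant real subspace as a submodule over the generated algebra -/
def toSub {Q : Set (Module.End ℝ V)} (W : Submodule ℝ V)
    (hW : ∀ a ∈ Q, ∀ w ∈ W, a w ∈ W) : Submodule (Algebra.adjoin ℝ Q) V where
  carrier := W
  zero_mem' := W.zero_mem
  add_mem' := W.add_mem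
  smul_mem' := by
    rintro ⟨x, hx⟩ w hw
    have key : ∀ y ∈ Algebra.adjoin ℝ Q, ∀ w ∈ W, y w ∈ W := by
      intro y hy
      induction hy using Algebra.adjoin_induction with
      | mem a ha => exact hW a ha
      | algebraMap r =>
        intro w hw
        rw [Module.algebraMap_end_apply]
        exact W.smul_mem r hw
      | add a b _ _ ha hb =>
        intro w hw
        exact W.add_mem (ha w hw) (hb w hw)
      | mul a b _ _ ha hb =>
        intro w hw
        exact ha _ (hb w hw)
    exact key x hx w hw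

lemma mem_toSub {Q : Set (Module.End ℝ V)} (W : Submodule ℝ V)
    (hW : ∀ a ∈ Q, ∀ w ∈ W, a w ∈ W) (v : V) : v ∈ toSub W hW ↔ v ∈ W := Iff.rfl

/-- a submodule over the generated algebra as a real subspace -/
def toReal {Q : Set (Module.End ℝ V)} (N : Submodule (Algebra.adjoin ℝ Q) V) :
    Submodule ℝ V where
  carrier := N
  zero_mem' := N.zero_mem
  add_mem' := N.add_mem
  smul_mem' := by
    intro r v hv
    exact N.smul_mem (algebraMap ℝ (Algebra.adjoin ℝ Q) r) hv

lemma mem_toReal {Q : Set (Module.End ℝ V)} (N : Submodule (Algebra.adjoin ℝ Q) V) (v : V) :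
    v ∈ toReal N ↔ v ∈ N := Iff.rfl

lemma toReal_inv {Q : Set (Module.End ℝ V)} (N : Submodule (Algebra.adjoin ℝ Q) V) :
    ∀ a ∈ Q, ∀ w ∈ toReal N, a w ∈ toReal N := by
  intro a ha w hw
  exact N.smul_mem (⟨a, Algebra.subset_adjoin ha⟩ : Algebra.adjoin ℝ Q) hw

theorem socle_complement [FiniteDimensional ℝ V] (Q S : Set (Module.End ℝ V))
    (hcomm : ∀ s ∈ S, ∀ a ∈ Q, s * a = a * s)
    (hc : ∀ W : Submodule ℝ V, (∀ a ∈ Q, ∀ w ∈ W, a w ∈ W) → (∀ s ∈ S, ∀ w ∈ W, s w ∈ W) →
      ∃ W' : Submodule ℝ V, (∀ a ∈ Q, ∀ w ∈ W', a w ∈ W') ∧ IsCompl W W')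
    (W : Submodule ℝ V) (hW : ∀ a ∈ Q, ∀ w ∈ W, a w ∈ W) :
    ∃ W' : Submodule ℝ V, (∀ a ∈ Q, ∀ w ∈ W', a w ∈ W') ∧ IsCompl W W' := by
  set A := Algebra.adjoin ℝ Q with hA
  have hart : IsArtinian A V := isArtinian_of_tower ℝ inferInstance
  set Soc : Submodule A V := ⨆ m ∈ {m : Submodule A V | IsSimpleModule A m}, m with hSoc
  -- elements of `S` preserve the socle
  have hS : ∀ s ∈ S, ∀ w ∈ Soc, s w ∈ Soc := by
    intro s hs
    have hsA : ∀ x ∈ A, ∀ v : V, s (x v) = x (s v) := by
      intro x hx
      induction hx using Algebra.adjoin_induction with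
      | mem a ha =>
        intro v
        have := hcomm s hs a ha
        exact congrArg (fun f : Module.End ℝ V => f v) this
      | algebraMap r =>
        intro v
        rw [Module.algebraMap_end_apply, Module.algebraMap_end_apply, map_smul]
      | add a b _ _ ha hb =>
        intro v
        rw [LinearMap.add_apply, LinearMap.add_apply, map_add, ha, hb]
      | mul a b _ _ ha hb =>
        intro v
        show s (a (b v)) = a (b (s v))
        rw [ha, hb]
    let sl : V →ₗ[A] V :=
      { toFun := s
        map_add' := s.map_add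
        map_smul' := fun x v => hsA x.1 x.2 v }
    have hmap : Soc.map sl ≤ Soc := by
      rw [hSoc, Submodule.map_iSup]
      refine iSup_le fun m => ?_
      rw [Submodule.map_iSup]
      refine iSup_le fun hm => ?_
      have hm' : IsSimpleModule A m := hm
      rcases LinearMap.injective_or_eq_zero (R := A) (M := m) (N := V) (sl.comp m.subtype)
        with h | h
      · have e : m ≃ₗ[A] (m.map sl) := by
          have h1 : LinearMap.range (sl.comp m.subtype) = m.map sl := by
            rw [LinearMap.range_comp, Submodule.range_subtype]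
          exact (LinearEquiv.ofInjective _ h).trans (LinearEquiv.ofEq _ _ h1)
        have : IsSimpleModule A (m.map sl) := IsSimpleModule.congr (R := A) (M := m.map sl) (N := m) e.symm
        exact le_iSup₂_of_le (m.map sl) this le_rfl
      · have h1 : m.map sl = ⊥ := by
          rw [← Submodule.range_subtype m, ← LinearMap.range_comp, h, LinearMap.range_zero]
        rw [h1]
        exact bot_le
    intro w hw
    exact hmap ⟨w, hw, rfl⟩
  obtain ⟨C, hC1, hC2⟩ := hc (toReal Soc) (toReal_inv Soc) hS
  have hCbot : C = ⊥ := by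
    by_contra hne
    have hne' : toSub C hC1 ≠ ⊥ := by
      intro h
      apply hne
      rw [Submodule.eq_bot_iff] at h ⊢
      exact h
    obtain ⟨T, hT1, hT2⟩ := (eq_bot_or_exists_atom_le (toSub C hC1)).resolve_left hne'
    have hTs : IsSimpleModule A T := isSimpleModule_iff_isAtom.mpr hT1
    have hTS : T ≤ Soc := le_iSup₂_of_le T hTs le_rfl
    apply hT1.1
    rw [Submodule.eq_bot_iff]
    intro x hx
    have h1 : x ∈ toReal Soc := hTS hx
    have h2 : x ∈ C := hT2 hx
    have := (Submodule.disjoint_def.mp hC2.disjoint) x h1 h2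
    exact this
  have hSt : Soc = ⊤ := by
    rw [Submodule.eq_top_iff']
    intro x
    have h1 : toReal Soc = ⊤ := by
      have := hC2.sup_eq_top
      rwa [hCbot, sup_bot_eq] at this
    have h2 : x ∈ toReal Soc := h1 ▸ Submodule.mem_top
    exact h2
  have hss : IsSemisimpleModule A V := by
    apply IsSemisimpleModule.of_sSup_simples_eq_top
    rw [sSup_eq_iSup, ← hSt]
  obtain ⟨N, hN⟩ := exists_isCompl (toSub W hW)
  refine ⟨toReal N, toReal_inv N, ?_⟩
  constructor
  · rw [Submodule.disjoint_def]
    intro x hx1 hx2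
    exact (Submodule.disjoint_def.mp hN.disjoint) x hx1 hx2
  · rw [codisjoint_iff, Submodule.eq_top_iff']
    intro x
    have h1 : x ∈ toSub W hW ⊔ N := by
      rw [hN.sup_eq_top]
      exact Submodule.mem_top
    rw [Submodule.mem_sup] at h1 ⊢
    obtain ⟨y, hy, z, hz, hyz⟩ := h1
    exact ⟨y, hy, z, hz, hyz⟩

end Pool.Agent.H838.T
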