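import Pool.Agent.H838.TPro
import Pool.Agent.H838.TSoc

/-!
# Minimal tuples act completely reducibly
-/

set_option autoImplicit false
set_option linter.unusedSectionVars false

namespace Pool.Agent.H838.T

open Filter Topology Set Matrix

variable {n : ℕ} {J : Matrix (Fin n) (Fin n) ℝ} {S : Set (Matrix (Fin n) (Fin n) ℝ)}

/-- the matrix `J` and the set `S` define a classical group in standard position -/
structure Std (J : Matrix (Fin n) (Fin n) ℝ) (S : Set (Matrix (Fin n) (Fin n) ℝ)) : Prop where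
  orth : Jᵀ * J = 1
  symm : Jᵀ = J ∨ Jᵀ = -J
  star : ∀ s ∈ S, sᵀ ∈ S ∧ J * s * Jᵀ ∈ S

/-- `P` is an orthogonal projection onto an isotropic subspace, commuting with `S` -/
structure IsoProj (J : Matrix (Fin n) (Fin n) ℝ) (S : Set (Matrix (Fin n) (Fin n) ℝ))
    (P : Matrix (Fin n) (Fin n) ℝ) : Prop where
  symm : Pᵀ = P
  idem : P * P = P
  iso : P * J * P = 0
  comm : ∀ s ∈ S, s * P = P * s

namespace Std

variable (h : Std J S)
include h

lemma orth' : J * Jᵀ = 1 := mul_eq_one_comm.mp h.orth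

lemma star' : ∀ s ∈ S, Jᵀ * s * J ∈ S := by
  intro s hs
  have h1 := (h.star s hs).2
  rcases h.symm with e | e
  · rw [e] at h1 ⊢; exact h1
  · rw [e] at h1 ⊢
    rw [mul_neg] at h1
    rw [neg_mul, neg_mul]
    exact h1

variable {P : Matrix (Fin n) (Fin n) ℝ} (hP : IsoProj J S P)
include hP

lemma symm' : (J * P * Jᵀ)ᵀ = J * P * Jᵀ := by
  rw [Matrix.transpose_mul, Matrix.transpose_mul, Matrix.transpose_transpose, hP.symm, mul_assoc]

lemma idem' : (J * P * Jᵀ) * (J * P * Jᵀ) = J * P * Jᵀ := by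
  calc (J * P * Jᵀ) * (J * P * Jᵀ) = J * P * (Jᵀ * J) * P * Jᵀ := by simp only [mul_assoc]
    _ = J * (P * P) * Jᵀ := by rw [h.orth, mul_one]; simp only [mul_assoc]
    _ = _ := by rw [hP.idem]

lemma perp1 : P * (J * P * Jᵀ) = 0 := by
  calc P * (J * P * Jᵀ) = (P * J * P) * Jᵀ := by simp only [mul_assoc]
    _ = 0 := by rw [hP.iso, zero_mul]

lemma perp2 : (J * P * Jᵀ) * P = 0 := by
  have h1 := congrArg Matrix.transpose (h.perp1 hP)
  rwa [Matrix.transpose_mul, h.symm' hP, hP.symm, Matrix.transpose_zero] at h1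

lemma mulJ : (J * P * Jᵀ) * J = J * P := by
  rw [mul_assoc, mul_assoc, h.orth, mul_one]

lemma Jmul : J * (J * P * Jᵀ) = P * J := by
  rcases h.symm with e | e
  · have h1 := h.orth
    rw [e] at h1
    calc J * (J * P * Jᵀ) = (J * J) * P * Jᵀ := by simp only [mul_assoc]
      _ = P * J := by rw [h1, one_mul, e]
  · have h1 := h.orth
    rw [e, neg_mul] at h1
    have h2 : J * J = -1 := by rw [← h1, neg_neg]
    calc J * (J * P * Jᵀ) = (J * J) * P * Jᵀ := by simp only [mul_assoc]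
      _ = P * J := by rw [h2, e]; simp

lemma comm' : ∀ s ∈ S, s * (J * P * Jᵀ) = (J * P * Jᵀ) * s := by
  intro s hs
  have h1 := hP.comm _ (h.star' s hs)
  calc s * (J * P * Jᵀ) = (J * Jᵀ) * s * (J * P * Jᵀ) := by rw [h.orth', one_mul]
    _ = J * ((Jᵀ * s * J) * P) * Jᵀ := by simp only [mul_assoc]
    _ = J * P * Jᵀ * s * (J * Jᵀ) := by rw [h1]; simp only [mul_assoc]
    _ = _ := by rw [h.orth', mul_one]

omit h hP in
/-- the one-parameter group attached to an isotropic projection -/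
noncomputable def lamM (J P : Matrix (Fin n) (Fin n) ℝ) (t : ℝ) : Matrix (Fin n) (Fin n) ℝ :=
  1 + (Real.exp t - 1) • P + (Real.exp (-t) - 1) • (J * P * Jᵀ)

lemma lamM_mul (t : ℝ) : lamM J P t * lamM J P (-t) = 1 := by
  have he : Real.exp t * Real.exp (-t) = 1 := by rw [← Real.exp_add]; simp
  unfold lamM
  rw [neg_neg]
  set a := Real.exp t
  set b := Real.exp (-t)
  have h1 := h.perp1 hP
  have h2 := h.perp2 hP
  have h3 := h.idem' hP
  have h4 := hP.idem
  simp only [add_mul, mul_add, one_mul, mul_one, Matrix.smul_mul, Matrix.mul_smul, h1, h2, h3, h4,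
    smul_zero, add_zero]
  have e1 : (b - 1) + ((a - 1) + (b - 1) * (a - 1)) = 0 := by linear_combination he
  have e2 : (a - 1) + ((b - 1) + (a - 1) * (b - 1)) = 0 := by linear_combination he
  calc _ = 1 + ((b - 1) + ((a - 1) + (b - 1) * (a - 1))) • P +
        ((a - 1) + ((b - 1) + (a - 1) * (b - 1))) • (J * P * Jᵀ) := by module
    _ = 1 := by rw [e1, e2]; simp

lemma lamM_transpose (t : ℝ) : (lamM J P t)ᵀ = lamM J P t := by
  unfold lamM
  rw [Matrix.transpose_add, Matrix.transpose_add, Matrix.transpose_smul, Matrix.transpose_smul,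
    h.symm' hP, hP.symm, Matrix.transpose_one]

lemma lamM_J (t : ℝ) : J * lamM J P t = lamM J P (-t) * J := by
  unfold lamM
  rw [neg_neg]
  simp only [add_mul, mul_add, one_mul, mul_one, Matrix.smul_mul, Matrix.mul_smul, h.mulJ hP,
    h.Jmul hP]
  abel

omit h hP in
lemma lamM_zero : lamM J P 0 = 1 := by simp [lamM]

/-- as an invertible matrix -/
noncomputable def lamU (t : ℝ) : GL (Fin n) ℝ :=
  ⟨lamM J P t, lamM J P (-t), h.lamM_mul hP t, by
    have := h.lamM_mul hP (-t)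
    rwa [neg_neg] at this⟩

lemma lamU_mem (t : ℝ) : h.lamU hP t ∈ classicalGroup J S := by
  refine ⟨?_, fun s hs => ?_⟩
  · show (lamM J P t)ᵀ * J * lamM J P t = J
    rw [h.lamM_transpose hP, mul_assoc, h.lamM_J hP, ← mul_assoc, h.lamM_mul hP, one_mul]
  · show s * lamM J P t = lamM J P t * s
    unfold lamM
    simp only [add_mul, mul_add, one_mul, mul_one, Matrix.smul_mul, Matrix.mul_smul,
      hP.comm s hs, h.comm' hP s hs]

/-- in the classical group -/
noncomputable def lamG (t : ℝ) : classicalGroup J S := ⟨h.lamU hP t, h.lamU_mem hP t⟩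

lemma continuous_lamG : Continuous (h.lamG hP) := by
  have hc : Continuous (lamM J P) := by
    unfold lamM
    fun_prop
  refine Continuous.subtype_mk ?_ _
  rw [Units.continuous_iff]
  exact ⟨hc, hc.comp continuous_neg⟩

lemma lamG_mem (t : ℝ) : h.lamG hP t ∈ connectedComponent (1 : classicalGroup J S) := by
  have h1 : IsPreconnected (range (h.lamG hP)) := isPreconnected_range (h.continuous_lamG hP)
  refine h1.subset_connectedComponent ⟨0, ?_⟩ ⟨t, rfl⟩
  apply Subtype.ext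
  apply Units.ext
  exact lamM_zero

end Std

lemma nsq_transpose (a : Matrix (Fin n) (Fin n) ℝ) : nsq aᵀ = nsq a := by
  rw [nsq_trace, nsq_trace, Matrix.transpose_transpose, Matrix.trace_mul_comm]

lemma nsq_smul (r : ℝ) (a : Matrix (Fin n) (Fin n) ℝ) : nsq (r • a) = r ^ 2 * nsq a := by
  rw [nsq_trace, nsq_trace, Matrix.transpose_smul, Matrix.smul_mul, Matrix.mul_smul, smul_smul,
    Matrix.trace_smul, smul_eq_mul]
  ring

lemma nsq_split_left {P Q R : Matrix (Fin n) (Fin n) ℝ} (hP : Pᵀ = P) (hQ : Qᵀ = Q)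
    (hR : Rᵀ = R) (hP2 : P * P = P) (hQ2 : Q * Q = Q) (hR2 : R * R = R) (hs : P + Q + R = 1)
    (a : Matrix (Fin n) (Fin n) ℝ) : nsq a = nsq (P * a) + nsq (Q * a) + nsq (R * a) := by
  have key : ∀ A : Matrix (Fin n) (Fin n) ℝ, Aᵀ = A → A * A = A →
      nsq (A * a) = (aᵀ * (A * a)).trace := by
    intro A h1 h2
    rw [nsq_trace, Matrix.transpose_mul, h1, mul_assoc, ← mul_assoc A, h2]
  rw [key P hP hP2, key Q hQ hQ2, key R hR hR2, ← Matrix.trace_add, ← Matrix.trace_add,
    ← mul_add, ← mul_add, ← add_mul, ← add_mul, hs, one_mul, nsq_trace]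

lemma nsq_split_right {P Q R : Matrix (Fin n) (Fin n) ℝ} (hP : Pᵀ = P) (hQ : Qᵀ = Q)
    (hR : Rᵀ = R) (hP2 : P * P = P) (hQ2 : Q * Q = Q) (hR2 : R * R = R) (hs : P + Q + R = 1)
    (a : Matrix (Fin n) (Fin n) ℝ) : nsq a = nsq (a * P) + nsq (a * Q) + nsq (a * R) := by
  have h1 := nsq_split_left hP hQ hR hP2 hQ2 hR2 hs aᵀ
  rw [nsq_transpose, ← nsq_transpose (P * aᵀ), ← nsq_transpose (Q * aᵀ),
    ← nsq_transpose (R * aᵀ), Matrix.transpose_mul, Matrix.transpose_mul, Matrix.transpose_mul,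
    Matrix.transpose_transpose, hP, hQ, hR] at h1
  exact h1

lemma block_ineq {P Q R : Matrix (Fin n) (Fin n) ℝ} (hP : Pᵀ = P) (hQ : Qᵀ = Q)
    (hR : Rᵀ = R) (hP2 : P * P = P) (hQ2 : Q * Q = Q) (hR2 : R * R = R) (hs : P + Q + R = 1)
    {m y : Matrix (Fin n) (Fin n) ℝ} {c : ℝ} (hc0 : 0 < c) (hc1 : c < 1)
    (h1 : Q * m * P = 0) (h2 : R * m * P = 0) (h3 : R * m * Q = 0)
    (y11 : P * y * P = P * m * P) (y12 : P * y * Q = c • (P * m * Q))
    (y13 : P * y * R = (c ^ 2) • (P * m * R)) (y21 : Q * y * P = c⁻¹ • (Q * m * P))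
    (y22 : Q * y * Q = Q * m * Q) (y23 : Q * y * R = c • (Q * m * R))
    (y31 : R * y * P = (c⁻¹ ^ 2) • (R * m * P)) (y32 : R * y * Q = c⁻¹ • (R * m * Q))
    (y33 : R * y * R = R * m * R) :
    (1 - c ^ 2) * (nsq (P * m * R) + nsq (Q * m * R)) ≤ nsq m - nsq y := by
  have e := fun a : Matrix (Fin n) (Fin n) ℝ => nsq_split_left hP hQ hR hP2 hQ2 hR2 hs a
  have f := fun a : Matrix (Fin n) (Fin n) ℝ => nsq_split_right hP hQ hR hP2 hQ2 hR2 hs a
  have em := e m
  rw [f (P * m), f (Q * m), f (R * m), h1, h2, h3] at em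
  have ey := e y
  rw [f (P * y), f (Q * y), f (R * y), y11, y12, y13, y21, y22, y23, y31, y32, y33, h1, h2, h3,
    smul_zero, smul_zero, nsq_smul, nsq_smul, nsq_smul] at ey
  have z0 : nsq (0 : Matrix (Fin n) (Fin n) ℝ) = 0 := by simp [nsq]
  rw [z0] at em ey
  have p1 := nsq_nonneg (P * m * Q)
  have p2 := nsq_nonneg (P * m * R)
  have hc2 : c ^ 2 < 1 := by nlinarith
  have hc4 : (c ^ 2) ^ 2 ≤ c ^ 2 := by nlinarith [sq_nonneg c]
  rw [em, ey]
  nlinarith [mul_nonneg (sub_nonneg.mpr hc2.le) p1, mul_nonneg (sub_nonneg.mpr hc4) p2]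

namespace Std

variable (h : Std J S) {P : Matrix (Fin n) (Fin n) ℝ} (hP : IsoProj J S P)
include h hP

/-- the conjugates by the one-parameter group, block by block -/
lemma block_ineq' {m : Matrix (Fin n) (Fin n) ℝ} (hm1 : m * P = P * m * P)
    (hm2 : (J * P * Jᵀ) * m = (J * P * Jᵀ) * m * (J * P * Jᵀ)) :
    (1 - Real.exp (-1) ^ 2) * (nsq (P * m * (J * P * Jᵀ)) +
        nsq ((1 - P - J * P * Jᵀ) * m * (J * P * Jᵀ))) ≤
      nsq m - nsq (lamM J P (-1) * m * lamM J P 1) := by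
  set R := J * P * Jᵀ with hR
  set Q := 1 - P - R with hQ
  have p1 : P * R = 0 := h.perp1 hP
  have p2 : R * P = 0 := h.perp2 hP
  have p3 : R * R = R := h.idem' hP
  have p4 : P * P = P := hP.idem
  have s1 : Pᵀ = P := hP.symm
  have s2 : Rᵀ = R := h.symm' hP
  have s3 : Qᵀ = Q := by
    rw [hQ, Matrix.transpose_sub, Matrix.transpose_sub, s1, s2, Matrix.transpose_one]
  have q1 : P * Q = 0 := by rw [hQ, mul_sub, mul_sub, p1, p4, mul_one, sub_self, sub_zero]
  have q2 : Q * P = 0 := by rw [hQ, sub_mul, sub_mul, p2, p4, one_mul, sub_self, sub_zero]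
  have q3 : R * Q = 0 := by rw [hQ, mul_sub, mul_sub, p2, p3, mul_one, sub_zero, sub_self]
  have q4 : Q * R = 0 := by rw [hQ, sub_mul, sub_mul, p1, p3, one_mul, sub_zero, sub_self]
  have q5 : Q * Q = Q := by
    nth_rewrite 2 [hQ]
    rw [mul_sub, mul_sub, q2, q4, mul_one, sub_zero, sub_zero]
  have hs : P + Q + R = 1 := by rw [hQ]; abel
  have hc0 : 0 < Real.exp (-1) := Real.exp_pos _
  have hc1 : Real.exp (-1) < 1 := by
    rw [← Real.exp_zero]
    exact Real.exp_lt_exp.mpr (by norm_num)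
  have hci : (Real.exp (-1))⁻¹ = Real.exp 1 := by rw [← Real.exp_neg, neg_neg]
  -- the blocks of the one-parameter group
  have L1 : ∀ t, P * lamM J P t = Real.exp t • P := by
    intro t
    unfold lamM
    rw [← hR, mul_add, mul_add, Matrix.mul_smul, Matrix.mul_smul, p1, p4, mul_one]
    module
  have L2 : ∀ t, R * lamM J P t = Real.exp (-t) • R := by
    intro t
    unfold lamM
    rw [← hR, mul_add, mul_add, Matrix.mul_smul, Matrix.mul_smul, p2, p3, mul_one]
    module
  have L3 : ∀ t, Q * lamM J P t = Q := by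
    intro t
    unfold lamM
    rw [← hR, mul_add, mul_add, Matrix.mul_smul, Matrix.mul_smul, q2, q4, mul_one]
    module
  have K1 : ∀ t, lamM J P t * P = Real.exp t • P := by
    intro t
    unfold lamM
    rw [← hR, add_mul, add_mul, Matrix.smul_mul, Matrix.smul_mul, p2, p4, one_mul]
    module
  have K2 : ∀ t, lamM J P t * R = Real.exp (-t) • R := by
    intro t
    unfold lamM
    rw [← hR, add_mul, add_mul, Matrix.smul_mul, Matrix.smul_mul, p1, p3, one_mul]
    module
  have K3 : ∀ t, lamM J P t * Q = Q := by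
    intro t
    unfold lamM
    rw [← hR, add_mul, add_mul, Matrix.smul_mul, Matrix.smul_mul, q1, q3, one_mul]
    module
  have asc : ∀ A B : Matrix (Fin n) (Fin n) ℝ,
      A * (lamM J P (-1) * m * lamM J P 1) * B = (A * lamM J P (-1)) * m * (lamM J P 1 * B) := by
    intro A B
    simp only [mul_assoc]
  have hexp : Real.exp 1 * Real.exp (-1) = 1 := by rw [← Real.exp_add]; simp
  have z1 : Q * m * P = 0 := by
    calc Q * m * P = Q * (m * P) := mul_assoc _ _ _
      _ = Q * (P * m * P) := by rw [hm1]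
      _ = (Q * P) * (m * P) := by rw [mul_assoc P, ← mul_assoc]
      _ = 0 := by rw [q2, zero_mul]
  have z2 : R * m * P = 0 := by
    calc R * m * P = R * (m * P) := mul_assoc _ _ _
      _ = R * (P * m * P) := by rw [hm1]
      _ = (R * P) * (m * P) := by rw [mul_assoc P, ← mul_assoc R]
      _ = 0 := by rw [p2, zero_mul]
  have z3 : R * m * Q = 0 := by
    calc R * m * Q = (R * m * R) * Q := by rw [← hm2]
      _ = (R * m) * (R * Q) := mul_assoc _ _ _
      _ = 0 := by rw [q3, mul_zero]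
  refine block_ineq s1 s3 s2 p4 q5 p3 hs hc0 hc1 z1 z2 z3 ?_ ?_ ?_ ?_ ?_ ?_ ?_ ?_ ?_
  · rw [asc, L1, K1, Matrix.smul_mul, Matrix.smul_mul, Matrix.mul_smul, smul_smul, mul_comm, hexp,
      one_smul]
  · rw [asc, L1, K3, Matrix.smul_mul, Matrix.smul_mul]
  · rw [asc, L1, K2, Matrix.smul_mul, Matrix.smul_mul, Matrix.mul_smul, smul_smul, sq]
  · rw [asc, L3, K1, Matrix.mul_smul, hci]
  · rw [asc, L3, K3]
  · rw [asc, L3, K2, Matrix.mul_smul]
  · rw [asc, L2, K1, Matrix.smul_mul, Matrix.smul_mul, Matrix.mul_smul, smul_smul, sq, neg_neg, hci]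
  · rw [asc, L2, K3, Matrix.smul_mul, Matrix.smul_mul, neg_neg, hci]
  · rw [asc, L2, K2, Matrix.smul_mul, Matrix.smul_mul, Matrix.mul_smul, smul_smul, neg_neg, hexp,
      one_smul]

end Std

end Pool.Agent.H838.T
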