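import Pool.Agent.H838.TCR

/-!
# Minimal tuples act completely reducibly, second part
-/

set_option autoImplicit false
set_option linter.unusedSectionVars false

namespace Pool.Agent.H838.T

open Filter Topology Set Matrix

variable {n : ℕ} {J : Matrix (Fin n) (Fin n) ℝ} {S : Set (Matrix (Fin n) (Fin n) ℝ)}

lemma dot_move (A : Matrix (Fin n) (Fin n) ℝ) (a b : Fin n → ℝ) :
    (A *ᵥ a) ⬝ᵥ b = a ⬝ᵥ (Aᵀ *ᵥ b) := by
  rw [Matrix.dotProduct_mulVec, Matrix.vecMul_transpose]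

lemma mat_ext {A B : Matrix (Fin n) (Fin n) ℝ} (h : ∀ v, A *ᵥ v = B *ᵥ v) : A = B :=
  Matrix.toLin'.injective (LinearMap.ext h)

lemma vec_zero_of_dot {a : Fin n → ℝ} (h : ∀ u, u ⬝ᵥ a = 0) : a = 0 := by
  have h1 := h a
  exact dotProduct_self_eq_zero.mp h1

lemma mat_zero_of_dot {A : Matrix (Fin n) (Fin n) ℝ} (h : ∀ v w, v ⬝ᵥ (A *ᵥ w) = 0) : A = 0 := by
  apply mat_ext
  intro w
  rw [Matrix.zero_mulVec]
  exact vec_zero_of_dot fun u => h u w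

lemma proj_inv {P A : Matrix (Fin n) (Fin n) ℝ} {W : Submodule ℝ (Fin n → ℝ)}
    (hP1 : ∀ w ∈ W, P *ᵥ w = w) (hP2 : ∀ v, P *ᵥ v ∈ W) (hA : ∀ w ∈ W, A *ᵥ w ∈ W) :
    A * P = P * A * P := by
  apply mat_ext
  intro v
  rw [← Matrix.mulVec_mulVec, ← Matrix.mulVec_mulVec, ← Matrix.mulVec_mulVec]
  exact (hP1 _ (hA _ (hP2 v))).symm

theorem exists_complement (h : Std J S) (Lam : Subgroup (GL (Fin n) ℝ))
    (hL : Lam ≤ classicalGroup J S)
    (hmin : ∀ P, IsoProj J S P →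
      (∀ g ∈ Lam, (g : Matrix (Fin n) (Fin n) ℝ) * P = P * (g : Matrix (Fin n) (Fin n) ℝ) * P) →
      ∀ g ∈ Lam, (g : Matrix (Fin n) (Fin n) ℝ) * (J * P * Jᵀ) =
        (J * P * Jᵀ) * (g : Matrix (Fin n) (Fin n) ℝ) * (J * P * Jᵀ))
    (W : Submodule ℝ (Fin n → ℝ)) (hW : ∀ g ∈ Lam, ∀ w ∈ W,
      (g : Matrix (Fin n) (Fin n) ℝ) *ᵥ w ∈ W) (hWS : ∀ s ∈ S, ∀ w ∈ W, s *ᵥ w ∈ W) :
    ∃ C : Submodule ℝ (Fin n → ℝ), (∀ g ∈ Lam, ∀ w ∈ C,
      (g : Matrix (Fin n) (Fin n) ℝ) *ᵥ w ∈ C) ∧ IsCompl W C := by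
  set B : LinearMap.BilinForm ℝ (Fin n → ℝ) := Matrix.toBilin' J with hB
  have bil : ∀ x y, B x y = x ⬝ᵥ (J *ᵥ y) := fun x y => Matrix.toBilin'_apply' J x y
  have hrefl : B.IsRefl := by
    intro x y hxy
    rw [bil] at hxy ⊢
    rw [dotProduct_comm, dot_move] at hxy
    rcases h.symm with e | e
    · rwa [e] at hxy
    · rw [e, Matrix.neg_mulVec, dotProduct_neg, neg_eq_zero] at hxy
      exact hxy
  have hperp : ∀ (U : Submodule ℝ (Fin n → ℝ)) y, y ∈ B.orthogonal U ↔ ∀ x ∈ U, B x y = 0 := by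
    intro U y
    exact Iff.rfl
  -- orthogonal spaces of invariant spaces are invariant
  have hpg : ∀ U : Submodule ℝ (Fin n → ℝ),
      (∀ g ∈ Lam, ∀ w ∈ U, (g : Matrix (Fin n) (Fin n) ℝ) *ᵥ w ∈ U) →
      ∀ g ∈ Lam, ∀ w ∈ B.orthogonal U, (g : Matrix (Fin n) (Fin n) ℝ) *ᵥ w ∈ B.orthogonal U := by
    intro U hU g hg y hy
    rw [hperp] at hy ⊢
    intro x hx
    have h1 := hy _ (hU g⁻¹ (Lam.inv_mem hg) x hx)
    have h2 : x = (g : Matrix (Fin n) (Fin n) ℝ) *ᵥ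
        (((g⁻¹ : GL (Fin n) ℝ) : Matrix (Fin n) (Fin n) ℝ) *ᵥ x) := by
      rw [Matrix.mulVec_mulVec, g.mul_inv, Matrix.one_mulVec]
    rw [bil] at h1 ⊢
    rw [h2, dot_move, Matrix.mulVec_mulVec, Matrix.mulVec_mulVec, (hL hg).1]
    exact h1
  have hps : ∀ s ∈ S, ∀ w ∈ B.orthogonal W, s *ᵥ w ∈ B.orthogonal W := by
    intro s hs y hy
    rw [hperp] at hy ⊢
    intro x hx
    have h1 := hy _ (hWS _ (h.star _ (h.star s hs).2).1 x hx)
    rw [bil] at h1 ⊢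
    rw [dot_move, Matrix.transpose_transpose, Matrix.mulVec_mulVec] at h1
    have h2 : J * s * Jᵀ * J = J * s := by rw [mul_assoc, h.orth, mul_one]
    rw [h2] at h1
    rw [Matrix.mulVec_mulVec]
    exact h1
  obtain ⟨P, hP1, hP2, hP3, hP4⟩ := exists_proj (W ⊓ B.orthogonal W)
  have hPW : ∀ v, P *ᵥ v ∈ W := fun v => (hP4 v).1
  have hPo : ∀ v, P *ᵥ v ∈ B.orthogonal W := fun v => (hP4 v).2
  have hgP : ∀ g ∈ Lam, (g : Matrix (Fin n) (Fin n) ℝ) * P =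
      P * (g : Matrix (Fin n) (Fin n) ℝ) * P := by
    intro g hg
    refine proj_inv hP3 hP4 fun w hw => ?_
    exact ⟨hW g hg w hw.1, hpg W hW g hg w hw.2⟩
  have hsP : ∀ s ∈ S, s * P = P * s * P := by
    intro s hs
    refine proj_inv hP3 hP4 fun w hw => ?_
    exact ⟨hWS s hs w hw.1, hps s hs w hw.2⟩
  have hiso : IsoProj J S P := by
    refine ⟨hP1, hP2, ?_, fun s hs => ?_⟩
    · apply mat_zero_of_dot
      intro v w
      have h1 := (hperp W _).mp (hPo w) _ (hPW v)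
      rw [bil, dot_move, hP1, Matrix.mulVec_mulVec, Matrix.mulVec_mulVec] at h1
      exact h1
    · have h1 := hsP sᵀ (h.star s hs).1
      have h2 := congrArg Matrix.transpose h1
      rw [Matrix.transpose_mul, Matrix.transpose_mul, Matrix.transpose_mul, hP1,
        Matrix.transpose_transpose] at h2
      rw [h2, ← mul_assoc]
      exact hsP s hs
  have hR := hmin P hiso hgP
  set R := J * P * Jᵀ with hRdef
  have hRR : R * R = R := h.idem' hiso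
  set V' : Submodule ℝ (Fin n → ℝ) := LinearMap.range R.mulVecLin with hV'
  have hV'1 : ∀ x ∈ V', R *ᵥ x = x := by
    rintro _ ⟨u, rfl⟩
    rw [Matrix.mulVecLin_apply, Matrix.mulVec_mulVec, hRR]
  have hV'2 : ∀ u, R *ᵥ u ∈ V' := fun u => ⟨u, rfl⟩
  have hJinj : ∀ x, J *ᵥ x = 0 → x = 0 := by
    intro x hx
    have : (Jᵀ * J) *ᵥ x = 0 := by rw [← Matrix.mulVec_mulVec, hx, Matrix.mulVec_zero]
    rwa [h.orth, Matrix.one_mulVec] at this
  -- `B (P u) x = 0` for all `u` and `R x = x` imply `x = 0`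
  have key1 : ∀ x, R *ᵥ x = x → (∀ u, B (P *ᵥ u) x = 0) → x = 0 := by
    intro x hx hu
    have h1 : P *ᵥ (J *ᵥ x) = 0 := by
      apply vec_zero_of_dot
      intro u
      have := hu u
      rw [bil, dot_move, hP1] at this
      exact this
    rw [Matrix.mulVec_mulVec, ← h.Jmul hiso, ← hRdef, ← Matrix.mulVec_mulVec, hx] at h1
    exact hJinj x h1
  have hWP : ∀ x ∈ W, ∀ u, B (P *ᵥ u) x = 0 := by
    intro x hx u
    exact hrefl _ _ ((hperp W _).mp (hPo u) x hx)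
  have hd1 : Disjoint W V' := by
    rw [Submodule.disjoint_def]
    intro x hx hx'
    exact key1 x (hV'1 x hx') (hWP x hx)
  have hd2 : Disjoint (W ⊔ V') (B.orthogonal (W ⊔ V')) := by
    rw [Submodule.disjoint_def]
    intro x hx hx'
    rw [hperp] at hx'
    obtain ⟨w, hw, v, hv, rfl⟩ := Submodule.mem_sup.mp hx
    have hv0 : v = 0 := by
      apply key1 v (hV'1 v hv)
      intro u
      have h1 := hx' _ (Submodule.mem_sup_left (hPW u))
      rw [map_add, hWP w hw u, zero_add] at h1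
      exact h1
    rw [hv0, add_zero] at hx' ⊢
    have hw0 : P *ᵥ w = w := by
      refine hP3 w ⟨hw, ?_⟩
      show w ∈ B.orthogonal W
      rw [hperp]
      intro x hx
      exact hx' x (Submodule.mem_sup_left hx)
    have h2 : R *ᵥ (J *ᵥ w) = 0 := by
      apply vec_zero_of_dot
      intro u
      have := hx' _ (Submodule.mem_sup_right (hV'2 u))
      rw [bil, dot_move, h.symm' hiso] at this
      exact this
    rw [Matrix.mulVec_mulVec, h.mulJ hiso, ← Matrix.mulVec_mulVec, hw0] at h2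
    exact hJinj w h2
  have hc : IsCompl (W ⊔ V') (B.orthogonal (W ⊔ V')) :=
    (LinearMap.BilinForm.isCompl_orthogonal_iff_disjoint hrefl).mpr hd2
  have hV'g : ∀ g ∈ Lam, ∀ w ∈ V', (g : Matrix (Fin n) (Fin n) ℝ) *ᵥ w ∈ V' := by
    intro g hg w hw
    have h1 : (g : Matrix (Fin n) (Fin n) ℝ) *ᵥ w = R *ᵥ ((g : Matrix (Fin n) (Fin n) ℝ) *ᵥ w) := by
      conv_lhs => rw [← hV'1 w hw]
      rw [Matrix.mulVec_mulVec, hR g hg, ← Matrix.mulVec_mulVec, ← Matrix.mulVec_mulVec, hV'1 w hw]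
    rw [h1]
    exact hV'2 _
  have hsup : ∀ g ∈ Lam, ∀ w ∈ W ⊔ V', (g : Matrix (Fin n) (Fin n) ℝ) *ᵥ w ∈ W ⊔ V' := by
    intro g hg w hw
    obtain ⟨a, ha, b, hb, rfl⟩ := Submodule.mem_sup.mp hw
    rw [Matrix.mulVec_add]
    exact Submodule.add_mem_sup (hW g hg a ha) (hV'g g hg b hb)
  refine ⟨V' ⊔ B.orthogonal (W ⊔ V'), ?_, ?_, ?_⟩
  · intro g hg w hw
    obtain ⟨a, ha, b, hb, rfl⟩ := Submodule.mem_sup.mp hw
    rw [Matrix.mulVec_add]
    exact Submodule.add_mem_sup (hV'g g hg a ha) (hpg _ hsup g hg b hb)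
  · exact hd1.disjoint_sup_right_of_disjoint_sup_left hc.disjoint
  · rw [codisjoint_iff, ← sup_assoc]
    exact hc.sup_eq_top

/-- Complete reducibility of the action of a matrix group on `ℝ ^ n`: every invariant subspace
has an invariant complement. -/
def CompletelyReducible (Lam : Subgroup (GL (Fin n) ℝ)) : Prop :=
  ∀ W : Submodule ℝ (Fin n → ℝ),
    (∀ g ∈ Lam, ∀ w ∈ W, (g : Matrix (Fin n) (Fin n) ℝ) *ᵥ w ∈ W) →
    ∃ W' : Submodule ℝ (Fin n → ℝ),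
      (∀ g ∈ Lam, ∀ w ∈ W', (g : Matrix (Fin n) (Fin n) ℝ) *ᵥ w ∈ W') ∧ IsCompl W W'

theorem completelyReducible_of (h : Std J S) (Lam : Subgroup (GL (Fin n) ℝ))
    (hL : Lam ≤ classicalGroup J S)
    (hmin : ∀ P, IsoProj J S P →
      (∀ g ∈ Lam, (g : Matrix (Fin n) (Fin n) ℝ) * P = P * (g : Matrix (Fin n) (Fin n) ℝ) * P) →
      ∀ g ∈ Lam, (g : Matrix (Fin n) (Fin n) ℝ) * (J * P * Jᵀ) =
        (J * P * Jᵀ) * (g : Matrix (Fin n) (Fin n) ℝ) * (J * P * Jᵀ)) :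
    CompletelyReducible Lam := by
  intro W hW
  obtain ⟨W', h1, h2⟩ := socle_complement
    (Q := (fun g : GL (Fin n) ℝ => Matrix.toLin' (g : Matrix (Fin n) (Fin n) ℝ)) '' Lam)
    (S := Matrix.toLin' '' S)
    (by
      rintro _ ⟨s, hs, rfl⟩ _ ⟨g, hg, rfl⟩
      show Matrix.toLin' s ∘ₗ Matrix.toLin' _ = Matrix.toLin' _ ∘ₗ Matrix.toLin' s
      rw [← Matrix.toLin'_mul, ← Matrix.toLin'_mul, (hL hg).2 s hs])
    (by
      intro U hU1 hU2
      obtain ⟨C, hC1, hC2⟩ := exists_complement h Lam hL hmin U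
        (fun g hg w hw => hU1 _ ⟨g, hg, rfl⟩ w hw) (fun s hs w hw => hU2 _ ⟨s, hs, rfl⟩ w hw)
      refine ⟨C, ?_, hC2⟩
      rintro _ ⟨g, hg, rfl⟩ w hw
      exact hC1 g hg w hw)
    W (by
      rintro _ ⟨g, hg, rfl⟩ w hw
      exact hW g hg w hw)
  exact ⟨W', fun g hg w hw => h1 _ ⟨g, hg, rfl⟩ w hw, h2⟩

end Pool.Agent.H838.T
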