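import Mathlib

/-!
# Classical groups: topology
-/

set_option autoImplicit false
set_option linter.unusedSectionVars false

namespace Pool.Agent.H838.T

open Filter Topology Set Matrix

variable {n : ℕ}

/-- The group of all real invertible matrices `g` with `gᵀ J g = J` which commute with all
elements of `S`. -/
def classicalGroup (J : Matrix (Fin n) (Fin n) ℝ) (S : Set (Matrix (Fin n) (Fin n) ℝ)) :
    Subgroup (GL (Fin n) ℝ) where
  carrier := {g | (g : Matrix (Fin n) (Fin n) ℝ)ᵀ * J * (g : Matrix (Fin n) (Fin n) ℝ) = J ∧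
    ∀ s ∈ S, s * (g : Matrix (Fin n) (Fin n) ℝ) = (g : Matrix (Fin n) (Fin n) ℝ) * s}
  one_mem' := by simp
  mul_mem' := by
    rintro a b ⟨ha, ha'⟩ ⟨hb, hb'⟩
    refine ⟨?_, fun s hs => ?_⟩
    · rw [Units.val_mul, Matrix.transpose_mul]
      calc (b : Matrix (Fin n) (Fin n) ℝ)ᵀ * (a : Matrix (Fin n) (Fin n) ℝ)ᵀ * J *
            ((a : Matrix (Fin n) (Fin n) ℝ) * (b : Matrix (Fin n) (Fin n) ℝ))
          = (b : Matrix (Fin n) (Fin n) ℝ)ᵀ * ((a : Matrix (Fin n) (Fin n) ℝ)ᵀ * J *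
            (a : Matrix (Fin n) (Fin n) ℝ)) * (b : Matrix (Fin n) (Fin n) ℝ) := by
            simp only [mul_assoc]
        _ = J := by rw [ha, hb]
    · rw [Units.val_mul, ← mul_assoc, ha' s hs, mul_assoc, hb' s hs, mul_assoc]
  inv_mem' := by
    rintro a ⟨ha, ha'⟩
    have h1 : (a : Matrix (Fin n) (Fin n) ℝ) * (a⁻¹ : GL (Fin n) ℝ) = 1 := a.mul_inv
    have h2 : ((a⁻¹ : GL (Fin n) ℝ) : Matrix (Fin n) (Fin n) ℝ) * a = 1 := a.inv_mul
    refine ⟨?_, fun s hs => ?_⟩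
    · calc ((a⁻¹ : GL (Fin n) ℝ) : Matrix (Fin n) (Fin n) ℝ)ᵀ * J * (a⁻¹ : GL (Fin n) ℝ)
          = ((a⁻¹ : GL (Fin n) ℝ) : Matrix (Fin n) (Fin n) ℝ)ᵀ *
            ((a : Matrix (Fin n) (Fin n) ℝ)ᵀ * J * a) * (a⁻¹ : GL (Fin n) ℝ) := by rw [ha]
        _ = ((a : Matrix (Fin n) (Fin n) ℝ) *
              ((a⁻¹ : GL (Fin n) ℝ) : Matrix (Fin n) (Fin n) ℝ))ᵀ * J *
            (a * (a⁻¹ : GL (Fin n) ℝ)) := by
            rw [Matrix.transpose_mul]; simp only [mul_assoc]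
        _ = J := by rw [h1]; simp
    · calc s * ((a⁻¹ : GL (Fin n) ℝ) : Matrix (Fin n) (Fin n) ℝ)
          = ((a⁻¹ : GL (Fin n) ℝ) : Matrix (Fin n) (Fin n) ℝ) * (a * s) *
            ((a⁻¹ : GL (Fin n) ℝ) : Matrix (Fin n) (Fin n) ℝ) := by
            rw [← mul_assoc _ _ s, h2, one_mul]
        _ = ((a⁻¹ : GL (Fin n) ℝ) : Matrix (Fin n) (Fin n) ℝ) * s := by
            rw [← ha' s hs, mul_assoc, mul_assoc, h1, mul_one]

/-- the matrix of an element of a subgroup -/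
def mat {G : Subgroup (GL (Fin n) ℝ)} (g : G) : Matrix (Fin n) (Fin n) ℝ := ((g : GL (Fin n) ℝ) : _)

lemma mat_mul {G : Subgroup (GL (Fin n) ℝ)} (g h : G) : mat (g * h) = mat g * mat h := rfl

lemma mat_one {G : Subgroup (GL (Fin n) ℝ)} : mat (1 : G) = 1 := rfl

lemma mat_inv_mul {G : Subgroup (GL (Fin n) ℝ)} (g : G) : mat g⁻¹ * mat g = 1 := by
  rw [← mat_mul, inv_mul_cancel, mat_one]

lemma mat_mul_inv {G : Subgroup (GL (Fin n) ℝ)} (g : G) : mat g * mat g⁻¹ = 1 := by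
  rw [← mat_mul, mul_inv_cancel, mat_one]

lemma mat_injective {G : Subgroup (GL (Fin n) ℝ)} : Function.Injective (mat (G := G)) := by
  intro a b h
  exact Subtype.ext (Units.ext h)

lemma continuous_mat {G : Subgroup (GL (Fin n) ℝ)} : Continuous (mat (G := G)) :=
  Units.continuous_val.comp continuous_subtype_val

variable {J : Matrix (Fin n) (Fin n) ℝ} {S : Set (Matrix (Fin n) (Fin n) ℝ)}

lemma mat_inv_eq (hJ : Jᵀ * J = 1) {G : Subgroup (GL (Fin n) ℝ)} (hG : G ≤ classicalGroup J S)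
    (g : G) : mat g⁻¹ = Jᵀ * (mat g)ᵀ * J := by
  have h1 : (mat g)ᵀ * J * mat g = J := (hG g.2).1
  have h2 : (Jᵀ * (mat g)ᵀ * J) * mat g = 1 := by
    rw [mul_assoc, mul_assoc, ← mul_assoc _ J, h1, hJ]
  calc mat g⁻¹ = (Jᵀ * (mat g)ᵀ * J) * mat g * mat g⁻¹ := by rw [h2, one_mul]
    _ = Jᵀ * (mat g)ᵀ * J := by rw [mul_assoc, mat_mul_inv, mul_one]

lemma isClosedEmbedding_mat (hJ : Jᵀ * J = 1) {G : Subgroup (GL (Fin n) ℝ)}
    (hG : G ≤ classicalGroup J S) (hGc : IsClosed (G : Set (GL (Fin n) ℝ))) :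
    IsClosedEmbedding (mat (G := G)) := by
  have h1 : IsClosedEmbedding (fun g : G => Units.embedProduct (Matrix (Fin n) (Fin n) ℝ) g.1) :=
    Units.isClosedEmbedding_embedProduct.comp hGc.isClosedEmbedding_subtypeVal
  let σ : Matrix (Fin n) (Fin n) ℝ → Matrix (Fin n) (Fin n) ℝ × (Matrix (Fin n) (Fin n) ℝ)ᵐᵒᵖ :=
    fun a => (a, MulOpposite.op (Jᵀ * aᵀ * J))
  have hσ : Continuous σ := by
    refine continuous_id.prodMk (MulOpposite.continuous_op.comp ?_)
    exact ((continuous_const.matrix_mul (continuous_id.matrix_transpose)).matrix_mul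
      continuous_const)
  have h2 : ∀ g : G, Units.embedProduct (Matrix (Fin n) (Fin n) ℝ) g.1 = σ (mat g) := by
    intro g
    have := mat_inv_eq hJ hG g
    show ((mat g), MulOpposite.op (mat g⁻¹)) = _
    rw [this]
  have h3 : (fun g : G => Units.embedProduct (Matrix (Fin n) (Fin n) ℝ) g.1) = σ ∘ mat :=
    funext h2
  rw [h3] at h1
  have h4 : IsEmbedding (mat (G := G)) := IsEmbedding.of_comp continuous_mat hσ h1.isEmbedding
  refine ⟨h4, ?_⟩
  have h5 : range (mat (G := G)) = σ ⁻¹' (range (σ ∘ mat (G := G))) := by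
    ext a
    constructor
    · rintro ⟨g, rfl⟩
      exact ⟨g, rfl⟩
    · rintro ⟨g, hg⟩
      exact ⟨g, congrArg Prod.fst hg⟩
  rw [h5]
  exact h1.isClosed_range.preimage hσ

instance : LocallyCompactSpace (Matrix (Fin n) (Fin n) ℝ) :=
  inferInstanceAs (LocallyCompactSpace (Fin n → Fin n → ℝ))

instance : SecondCountableTopology (Matrix (Fin n) (Fin n) ℝ) :=
  inferInstanceAs (SecondCountableTopology (Fin n → Fin n → ℝ))

/-- sum of the squares of the entries -/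
def nsq (a : Matrix (Fin n) (Fin n) ℝ) : ℝ := ∑ i, ∑ j, a i j ^ 2

lemma nsq_nonneg (a : Matrix (Fin n) (Fin n) ℝ) : 0 ≤ nsq a :=
  Finset.sum_nonneg fun _ _ => Finset.sum_nonneg fun _ _ => sq_nonneg _

lemma nsq_eq_zero {a : Matrix (Fin n) (Fin n) ℝ} (h : nsq a = 0) : a = 0 := by
  ext i j
  have h0 := (Finset.sum_eq_zero_iff_of_nonneg (f := fun i => ∑ j, a i j ^ 2)
    (fun i _ => Finset.sum_nonneg fun j _ => sq_nonneg (a i j))).mp h i (Finset.mem_univ _)
  have h1 := (Finset.sum_eq_zero_iff_of_nonneg (f := fun j => a i j ^ 2)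
    (fun j _ => sq_nonneg (a i j))).mp h0 j (Finset.mem_univ _)
  simpa using h1

lemma nsq_trace (a : Matrix (Fin n) (Fin n) ℝ) : nsq a = (aᵀ * a).trace := by
  unfold nsq Matrix.trace
  rw [Finset.sum_comm]
  refine Finset.sum_congr rfl fun i _ => ?_
  rw [Matrix.diag_apply, Matrix.mul_apply]
  refine Finset.sum_congr rfl fun j _ => ?_
  rw [Matrix.transpose_apply]
  ring

lemma continuous_nsq : Continuous (nsq (n := n)) := by
  unfold nsq
  refine continuous_finsetSum _ fun i _ => continuous_finsetSum _ fun j _ => ?_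
  exact (continuous_id.matrix_elem i j).pow 2

lemma isCompact_nsq (C : ℝ) : IsCompact {a : Matrix (Fin n) (Fin n) ℝ | nsq a ≤ C} := by
  have h1 : IsCompact (Set.pi univ fun _ : Fin n => Set.pi univ fun _ : Fin n =>
      Icc (-(|C| + 1)) (|C| + 1)) :=
    isCompact_univ_pi fun _ => isCompact_univ_pi fun _ => isCompact_Icc
  have h2 : IsClosed {a : Matrix (Fin n) (Fin n) ℝ | nsq a ≤ C} :=
    isClosed_le continuous_nsq continuous_const
  refine IsCompact.of_isClosed_subset (X := Matrix (Fin n) (Fin n) ℝ) h1 h2 ?_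
  intro a ha i _ j _
  have ha' : nsq a ≤ C := ha
  have h3 : a i j ^ 2 ≤ nsq a := by
    unfold nsq
    calc a i j ^ 2 ≤ ∑ j, a i j ^ 2 :=
          Finset.single_le_sum (f := fun j => a i j ^ 2) (fun j _ => sq_nonneg _)
            (Finset.mem_univ j)
      _ ≤ _ := Finset.single_le_sum (f := fun i => ∑ j, a i j ^ 2)
            (fun i _ => Finset.sum_nonneg fun j _ => sq_nonneg _) (Finset.mem_univ i)
  have h4 : a i j ^ 2 ≤ (|C| + 1) ^ 2 := by
    have := le_abs_self C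
    nlinarith [abs_nonneg C]
  exact abs_le.mp (abs_le_of_sq_le_sq h4 (by positivity))

end Pool.Agent.H838.T
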