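import Pool.Agent.H838.TUni

/-!
# Images of uniform lattices under proper homomorphisms
-/

set_option autoImplicit false
set_option linter.unusedSectionVars false

namespace Pool.Agent.H838.T

open Filter Topology Set
open scoped Pointwise

variable {A B : Type*} [Group A] [TopologicalSpace A] [IsTopologicalGroup A] [T2Space A]
  [LocallyCompactSpace A] [SecondCountableTopology A]
  [Group B] [TopologicalSpace B] [IsTopologicalGroup B] [T2Space B] [LocallyCompactSpace B]

lemma finite_inter {Gam : Subgroup A} (hd : DiscreteTopology Gam) {K : Set A}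
    (hK : IsCompact K) : {g : Gam | (g : A) ∈ K}.Finite := by
  have hclosed : IsClosed (Gam : Set A) := Subgroup.isClosed_of_discrete
  have hc : IsCompact {g : Gam | (g : A) ∈ K} :=
    hclosed.isClosedEmbedding_subtypeVal.isCompact_preimage hK
  exact hc.finite_of_discrete

lemma discrete_image {phi : A →* B} (hphi : IsProperMap phi) {Gam : Subgroup A}
    (hd : DiscreteTopology Gam) : DiscreteTopology (Gam.map phi) := by
  obtain ⟨K, hK, hKn⟩ := exists_compact_mem_nhds (1 : B)
  have hfin := (finite_inter hd (hphi.isCompact_preimage hK)).image fun g : Gam => phi g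
  set F : Set B := (fun g : Gam => phi g) '' {g : Gam | (g : A) ∈ phi ⁻¹' K} with hF
  apply discreteTopology_of_isOpen_singleton_one
  rw [isOpen_induced_iff]
  refine ⟨interior K \ (F \ {1}), isOpen_interior.sdiff (hfin.subset sdiff_subset).isClosed, ?_⟩
  ext ⟨x, hx⟩
  simp only [mem_preimage, Set.mem_sdiff, mem_singleton_iff, not_and, not_not]
  constructor
  · rintro ⟨h1, h2⟩
    apply Subtype.ext
    refine h2 ?_
    obtain ⟨g, hg, rfl⟩ := hx
    have h3 : phi g ∈ K := interior_subset h1
    exact ⟨⟨g, hg⟩, h3, rfl⟩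
  · intro h
    have hx1 : x = 1 := congrArg Subtype.val h
    rw [hx1]
    exact ⟨mem_interior_iff_mem_nhds.mpr hKn, fun _ => rfl⟩

lemma cocompact_image {phi : A →* B} (hphi : Continuous phi) (hs : Function.Surjective phi)
    {Gam : Subgroup A} (hc : CompactSpace (A ⧸ Gam)) : CompactSpace (B ⧸ Gam.map phi) := by
  let _ : MeasurableSpace A := borel A
  have _ : BorelSpace A := ⟨rfl⟩
  obtain ⟨C, hC, hfund⟩ := exists_compact_fund (Gam := Gam)
  have h1 : IsCompact ((QuotientGroup.mk : B → B ⧸ Gam.map phi) '' (phi '' C⁻¹)) :=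
    (hC.inv.image hphi).image QuotientGroup.continuous_mk
  refine ⟨?_⟩
  convert h1
  symm
  rw [eq_univ_iff_forall]
  intro x
  induction x using QuotientGroup.induction_on with
  | H b =>
    obtain ⟨a, rfl⟩ := hs b
    obtain ⟨g, hg⟩ := hfund a⁻¹
    refine ⟨phi (a * (g : A)⁻¹), ⟨a * (g : A)⁻¹, ?_, rfl⟩, ?_⟩
    · rw [Set.mem_inv]
      simpa using hg
    · rw [QuotientGroup.eq]
      refine ⟨g, g.2, ?_⟩
      rw [map_mul, map_inv]
      group

lemma injOn_of_torsionFree {phi : A →* B} (hphi : IsProperMap phi) {Gam : Subgroup A}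
    (hd : DiscreteTopology Gam) (ht : ∀ g ∈ Gam, IsOfFinOrder g → g = 1) :
    Set.InjOn phi Gam := by
  have hfin := finite_inter hd (hphi.isCompact_preimage (isCompact_singleton (x := (1 : B))))
  intro x hx y hy hxy
  have h1 : y⁻¹ * x = 1 := by
    refine ht _ (Gam.mul_mem (Gam.inv_mem hy) hx) ?_
    rw [← finite_zpowers]
    refine (hfin.image (fun g : Gam => (g : A))).subset ?_
    rintro _ ⟨k, rfl⟩
    refine ⟨⟨(y⁻¹ * x) ^ k, Gam.zpow_mem (Gam.mul_mem (Gam.inv_mem hy) hx) k⟩, ?_, rfl⟩
    show phi ((y⁻¹ * x) ^ k) ∈ ({1} : Set B)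
    rw [map_zpow, map_mul, map_inv, hxy, inv_mul_cancel, one_zpow]
    rfl
  rw [inv_mul_eq_one] at h1
  exact h1.symm

end Pool.Agent.H838.T
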