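import Pool.Agent.H838.TCls

/-!
# Minimal limits of conjugates
-/

set_option autoImplicit false
set_option linter.unusedSectionVars false

namespace Pool.Agent.H838.T

open Filter Topology Set Matrix

variable {n : ℕ} {J : Matrix (Fin n) (Fin n) ℝ} {S : Set (Matrix (Fin n) (Fin n) ℝ)}

lemma exists_finset_span {G : Subgroup (GL (Fin n) ℝ)} (L : Subgroup G) :
    ∃ t : Finset L, ∀ l : L, mat (l : G) ∈
      Submodule.span ℝ ((fun l : L => mat (l : G)) '' (t : Set L)) := by
  classical
  obtain ⟨b, hb1, hb2, hb3⟩ := exists_linearIndependent ℝ (range fun l : L => mat (l : G))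
  have hbf : b.Finite := hb3.setFinite
  obtain ⟨b', rfl⟩ := hbf.exists_finset_coe
  rw [← image_univ, Finset.subset_set_image_iff] at hb1
  obtain ⟨t, -, ht⟩ := hb1
  refine ⟨t, fun l => ?_⟩
  rw [← ht, Finset.coe_image] at hb2
  rw [hb2]
  exact Submodule.subset_span ⟨l, rfl⟩

theorem exists_limit (hJ : Jᵀ * J = 1) {G : Subgroup (GL (Fin n) ℝ)} (hG : G ≤ classicalGroup J S)
    (hGc : IsClosed (G : Set (GL (Fin n) ℝ))) (L : Subgroup G) :
    ∃ (g : ℕ → G) (phi : L →* G) (t : Finset L), (∀ k, g k ∈ connectedComponent (1 : G)) ∧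
      Continuous phi ∧ (∀ l : L, Tendsto (fun k => (g k)⁻¹ * (l : G) * g k) atTop (𝓝 (phi l))) ∧
      (∀ l : L, mat (phi l) ∈ Submodule.span ℝ ((fun l : L => mat (phi l)) '' (t : Set L))) ∧
      ∀ x ∈ connectedComponent (1 : G),
        ∑ l ∈ t, nsq (mat (phi l)) ≤ ∑ l ∈ t, nsq (mat (x⁻¹ * phi l * x)) := by
  classical
  have hemb := isClosedEmbedding_mat hJ hG hGc
  have hT2 : T2Space G := hemb.isEmbedding.t2Space
  obtain ⟨t, ht⟩ := exists_finset_span L
  set E : G → ℝ := fun x => ∑ l ∈ t, nsq (mat (x⁻¹ * (l : G) * x)) with hE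
  have hE0 : ∀ x, 0 ≤ E x := fun x => Finset.sum_nonneg fun _ _ => nsq_nonneg _
  obtain ⟨u, hu1, hu2, hu3⟩ := exists_seq_tendsto_sInf (S := E '' connectedComponent (1 : G))
    ⟨_, 1, mem_connectedComponent, rfl⟩ ⟨0, by rintro _ ⟨x, -, rfl⟩; exact hE0 x⟩
  choose x hx1 hx2 using hu3
  set C := u 0 with hC
  have hbd : ∀ k, ∀ l ∈ t, nsq (mat ((x k)⁻¹ * (l : G) * x k)) ≤ C := by
    intro k l hl
    calc nsq (mat ((x k)⁻¹ * (l : G) * x k)) ≤ E (x k) :=
          Finset.single_le_sum (f := fun l : L => nsq (mat ((x k)⁻¹ * (l : G) * x k)))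
            (fun _ _ => nsq_nonneg _) hl
      _ = u k := hx2 k
      _ ≤ C := hu1 (Nat.zero_le k)
  have hcomp : IsCompact (Set.pi univ fun _ : t => {a : Matrix (Fin n) (Fin n) ℝ | nsq a ≤ C}) :=
    isCompact_univ_pi fun _ => isCompact_nsq C
  obtain ⟨a, -, ψ, hψ, hlim⟩ := hcomp.tendsto_subseq
    (x := fun k => fun l : t => mat ((x k)⁻¹ * ((l : L) : G) * x k))
    (fun k => fun l _ => hbd k l.1 l.2)
  rw [tendsto_pi_nhds] at hlim
  set g : ℕ → G := fun k => x (ψ k) with hg
  have hlim' : ∀ l : t, Tendsto (fun k => mat (g k)⁻¹ * mat ((l : L) : G) * mat (g k)) atTop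
      (𝓝 (a l)) := hlim
  -- convergence on the whole span
  have hconv : ∀ b ∈ Submodule.span ℝ ((fun l : L => mat (l : G)) '' (t : Set L)),
      ∃ c ∈ Submodule.span ℝ (range a),
        Tendsto (fun k => mat (g k)⁻¹ * b * mat (g k)) atTop (𝓝 c) := by
    intro b hb
    induction hb using Submodule.span_induction with
    | mem y hy =>
      obtain ⟨l, hl, rfl⟩ := hy
      exact ⟨a ⟨l, hl⟩, Submodule.subset_span ⟨_, rfl⟩, hlim' ⟨l, hl⟩⟩
    | zero => exact ⟨0, Submodule.zero_mem _, by simp⟩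
    | add y z _ _ hy hz =>
      obtain ⟨c, hc1, hc2⟩ := hy
      obtain ⟨d, hd1, hd2⟩ := hz
      refine ⟨c + d, Submodule.add_mem _ hc1 hd1, ?_⟩
      simp only [mul_add, add_mul]
      exact hc2.add hd2
    | smul r y _ hy =>
      obtain ⟨c, hc1, hc2⟩ := hy
      refine ⟨r • c, Submodule.smul_mem _ _ hc1, ?_⟩
      simp only [Matrix.mul_smul, Matrix.smul_mul]
      exact hc2.const_smul r
  set R := Submodule.span ℝ ((fun l : L => mat (l : G)) '' (t : Set L)) with hR
  choose! T hT1 hT2' using hconv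
  let Tl : R →ₗ[ℝ] Matrix (Fin n) (Fin n) ℝ :=
    { toFun := fun b => T b
      map_add' := by
        intro b c
        refine tendsto_nhds_unique (hT2' _ (b + c).2) ?_
        have := (hT2' _ b.2).add (hT2' _ c.2)
        refine this.congr fun k => ?_
        simp only [Submodule.coe_add, mul_add, add_mul]
      map_smul' := by
        intro r b
        refine tendsto_nhds_unique (hT2' _ (r • b).2) ?_
        have := (hT2' _ b.2).const_smul r
        refine this.congr fun k => ?_
        simp only [Submodule.coe_smul, Matrix.mul_smul, Matrix.smul_mul] }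
  have hTc : Continuous Tl := Tl.continuous_of_finiteDimensional
  have hphi : ∀ l : L, ∃ y : G, mat y = T (mat (l : G)) := by
    intro l
    have h1 := hT2' _ (ht l)
    have h2 : ∀ k, mat (g k)⁻¹ * mat (l : G) * mat (g k) ∈ range (mat (G := G)) := fun k =>
      ⟨(g k)⁻¹ * l * g k, rfl⟩
    exact hemb.isClosed_range.mem_of_tendsto h1 (Eventually.of_forall h2)
  choose φ hφ using hphi
  have hφt : ∀ l : L, Tendsto (fun k => (g k)⁻¹ * (l : G) * g k) atTop (𝓝 (φ l)) := by
    intro l
    rw [hemb.isEmbedding.tendsto_nhds_iff, hφ l]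
    exact hT2' _ (ht l)
  let phi : L →* G := MonoidHom.mk' φ (by
    intro l1 l2
    refine tendsto_nhds_unique (hφt (l1 * l2)) ?_
    refine ((hφt l1).mul (hφt l2)).congr fun k => ?_
    rw [Subgroup.coe_mul]
    group)
  have haphi : ∀ l : t, a l = mat (φ l) := by
    intro l
    rw [hφ]
    exact tendsto_nhds_unique (hlim' l) (hT2' _ (ht l))
  refine ⟨g, phi, t, fun k => hx1 _, ?_, hφt, ?_, ?_⟩
  · have h1 : Continuous φ := by
      rw [hemb.isEmbedding.continuous_iff]
      have h2 : mat ∘ φ = Tl ∘ fun l : L => (⟨mat (l : G), ht l⟩ : R) := by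
        funext l
        exact hφ l
      rw [h2]
      exact hTc.comp ((continuous_mat.comp continuous_subtype_val).subtype_mk _)
    exact h1
  · intro l
    have h1 : mat (φ l) ∈ Submodule.span ℝ (range a) := by
      rw [hφ]
      exact hT1 _ (ht l)
    refine Submodule.span_mono ?_ h1
    rintro _ ⟨y, rfl⟩
    exact ⟨y, y.2, (haphi y).symm⟩
  · intro y hy
    have h1 : Tendsto (fun k => E (g k)) atTop (𝓝 (∑ l ∈ t, nsq (mat (phi l)))) := by
      refine tendsto_finsetSum _ fun l _ => ?_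
      exact ((continuous_nsq.comp continuous_mat).tendsto _).comp (hφt l)
    have h2 : Tendsto (fun k => E (g k)) atTop (𝓝 (sInf (E '' connectedComponent (1 : G)))) := by
      refine (hu2.comp hψ.tendsto_atTop).congr fun k => ?_
      exact (hx2 (ψ k)).symm
    rw [tendsto_nhds_unique h1 h2]
    have h3 : Tendsto (fun k => E (g k * y)) atTop
        (𝓝 (∑ l ∈ t, nsq (mat (y⁻¹ * phi l * y)))) := by
      refine tendsto_finsetSum _ fun l _ => ?_
      have h4 := ((hφt l).const_mul y⁻¹).mul_const y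
      refine (((continuous_nsq.comp continuous_mat).tendsto _).comp h4).congr fun k => ?_
      simp only [Function.comp_apply]
      congr 2
      group
    refine ge_of_tendsto' h3 fun k => ?_
    refine csInf_le ⟨0, by rintro _ ⟨x, -, rfl⟩; exact hE0 x⟩ ⟨g k * y, ?_, rfl⟩
    exact (Subgroup.connectedComponentOfOne G).mul_mem (hx1 _) hy

end Pool.Agent.H838.T
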