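import Mathlib

/-!
# Proper actions on homogeneous spaces
-/

set_option autoImplicit false
set_option linter.unusedSectionVars false

namespace Pool.Agent.H838.T

open Filter Topology Set
open scoped Pointwise

variable {G : Type*} [Group G] [TopologicalSpace G] [IsTopologicalGroup G] [T2Space G]
  [LocallyCompactSpace G]

lemma t2_quotient {H : Subgroup G} (hHc : IsClosed (H : Set G)) : T2Space (G ⧸ H) := by
  rw [t2Space_iff_of_isOpenQuotientMap (QuotientGroup.isOpenQuotientMap_mk (N := H))]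
  have : {q : G × G | (QuotientGroup.mk q.1 : G ⧸ H) = QuotientGroup.mk q.2} =
      (fun q : G × G => q.1⁻¹ * q.2) ⁻¹' (H : Set G) := by
    ext q
    simp only [mem_ofPred_eq, mem_preimage, SetLike.mem_coe]
    exact QuotientGroup.eq
  rw [this]
  exact hHc.preimage (by fun_prop)

lemma exists_compact_lift {H : Subgroup G} {K' : Set (G ⧸ H)} (hK' : IsCompact K') :
    ∃ K : Set G, IsCompact K ∧ K' ⊆ (QuotientGroup.mk : G → G ⧸ H) '' K := by
  have h1 : ∀ a : G, ∃ K : Set G, IsCompact K ∧ K ∈ 𝓝 a := fun a => exists_compact_mem_nhds a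
  choose K hK hKn using h1
  have hopen : IsOpenMap (QuotientGroup.mk : G → G ⧸ H) := QuotientGroup.isOpenMap_coe
  obtain ⟨t, ht⟩ := hK'.elim_finite_subcover
    (fun a : G => (QuotientGroup.mk : G → G ⧸ H) '' interior (K a))
    (fun a => hopen _ isOpen_interior) (by
      intro x _
      induction x using QuotientGroup.induction_on with
      | H a =>
        exact mem_iUnion.mpr ⟨a, a, mem_interior_iff_mem_nhds.mpr (hKn a), rfl⟩)
  refine ⟨⋃ a ∈ t, K a, t.isCompact_biUnion fun a _ => hK a, fun x hx => ?_⟩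
  have h2 := ht hx
  simp only [mem_iUnion] at h2
  obtain ⟨b, hb, y, hy, hya⟩ := h2
  refine ⟨y, ?_, hya⟩
  simp only [mem_iUnion]
  exact ⟨b, hb, interior_subset hy⟩

lemma compact_of_proper {L H : Subgroup G} (hHc : IsClosed (H : Set G))
    (hp : ProperSMul L (G ⧸ H)) {K : Set G} (hK : IsCompact K) :
    IsCompact {p : L × H | (p.1 : G) * p.2 ∈ K} := by
  have hf := hp.isProperMap_smul_pair
  set K1 : Set ((G ⧸ H) × (G ⧸ H)) := ((QuotientGroup.mk : G → G ⧸ H) '' K) ×ˢ
    {(QuotientGroup.mk (1 : G) : G ⧸ H)} with hK1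
  have hK1c : IsCompact K1 := (hK.image QuotientGroup.continuous_mk).prod isCompact_singleton
  have hA := (hf.isCompact_preimage hK1c).image continuous_fst
  set A : Set L := Prod.fst '' ((fun gx : L × (G ⧸ H) => (gx.1 • gx.2, gx.2)) ⁻¹' K1) with hAdef
  have hB : IsCompact ((fun q : L × G => (q.1 : G)⁻¹ * q.2) '' (A ×ˢ K)) :=
    (hA.prod hK).image (by fun_prop)
  have hB' := hHc.isClosedEmbedding_subtypeVal.isCompact_preimage hB
  have hclosed : IsClosed {p : L × H | (p.1 : G) * p.2 ∈ K} :=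
    hK.isClosed.preimage (by fun_prop)
  refine (hA.prod hB').of_isClosed_subset hclosed ?_
  rintro ⟨l, h⟩ hlh
  have hlh' : (l : G) * h ∈ K := hlh
  have hl : l ∈ A := by
    refine ⟨(l, QuotientGroup.mk 1), ⟨?_, rfl⟩, rfl⟩
    refine ⟨(l : G) * h, hlh', ?_⟩
    show (QuotientGroup.mk ((l : G) * h) : G ⧸ H) = QuotientGroup.mk ((l : G) * 1)
    rw [QuotientGroup.eq]
    simp
  refine ⟨hl, ?_⟩
  refine ⟨(l, (l : G) * h), ⟨hl, hlh'⟩, ?_⟩
  show (l : G)⁻¹ * ((l : G) * h) = (h : G)
  group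

lemma proper_of_compact {L H : Subgroup G} (hHc : IsClosed (H : Set G))
    (hp : ∀ K : Set G, IsCompact K → IsCompact {p : L × H | (p.1 : G) * p.2 ∈ K})
    (hs : ∀ g : G, ∃ (l : L) (h : H), (l : G) * h = g) : ProperSMul L (G ⧸ H) := by
  have := t2_quotient hHc
  refine ⟨?_⟩
  rw [isProperMap_iff_isCompact_preimage]
  have hcont : Continuous fun gx : L × (G ⧸ H) => (gx.1 • gx.2, gx.2) := by
    refine Continuous.prodMk ?_ continuous_snd
    have h1 : Continuous fun p : G × (G ⧸ H) => p.1 • p.2 := continuous_smul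
    exact h1.comp ((continuous_subtype_val.comp continuous_fst).prodMk continuous_snd)
  refine ⟨hcont, fun K1 hK1 => ?_⟩
  obtain ⟨A, hA, hAs⟩ := exists_compact_lift (hK1.image continuous_fst)
  obtain ⟨B, hB, hBs⟩ := exists_compact_lift (hK1.image continuous_snd)
  -- `B` lies in the product of compact sets
  have hB1 := (hp B hB).image continuous_fst
  have hA1 := (hp A hA).image continuous_fst
  set B1 : Set L := Prod.fst '' {p : L × H | (p.1 : G) * p.2 ∈ B} with hB1def
  set A1 : Set L := Prod.fst '' {p : L × H | (p.1 : G) * p.2 ∈ A} with hA1def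
  have hC : IsCompact ((fun q : L × L => q.1 * q.2⁻¹) '' (A1 ×ˢ B1)) :=
    (hA1.prod hB1).image (by fun_prop)
  refine (hC.prod (hK1.image continuous_snd)).of_isClosed_subset
    (hK1.isClosed.preimage hcont) ?_
  rintro ⟨l, x⟩ hlx
  have hlx' : (l • x, x) ∈ K1 := hlx
  refine ⟨?_, ⟨_, hlx', rfl⟩⟩
  obtain ⟨b, hb, hbx⟩ := hBs ⟨_, hlx', rfl⟩
  obtain ⟨a, ha, hax⟩ := hAs ⟨_, hlx', rfl⟩
  simp only at hbx hax
  obtain ⟨l1, h1, hlh⟩ := hs b
  have e1 : l • x = QuotientGroup.mk ((l : G) * b) := by rw [← hbx]; rfl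
  rw [e1, QuotientGroup.eq] at hax
  -- `a⁻¹ * (l * b) ∈ H`
  refine ⟨(l * l1, l1), ⟨⟨(l * l1, h1 * ⟨_, hax⟩⁻¹), ?_, rfl⟩, ⟨(l1, h1), ?_, rfl⟩⟩, ?_⟩
  · show ((l * l1 : L) : G) * ((h1 * (⟨_, hax⟩ : H)⁻¹ : H) : G) ∈ A
    have : ((l * l1 : L) : G) * ((h1 * (⟨_, hax⟩ : H)⁻¹ : H) : G) = a := by
      simp only [Subgroup.coe_mul, Subgroup.coe_inv]
      calc (l : G) * l1 * (h1 * (a⁻¹ * ((l : G) * b))⁻¹)
          = (l : G) * (l1 * h1) * (b⁻¹ * (l : G)⁻¹ * a) := by group
        _ = a := by rw [hlh]; group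
    rw [this]
    exact ha
  · show (l1 : G) * h1 ∈ B
    rw [hlh]
    exact hb
  · show l * l1 * l1⁻¹ = l
    group

/-- Everything about the image of a limit homomorphism. -/
lemma image_facts {L H : Subgroup G} (hHc : IsClosed (H : Set G)) {phi : L →* G}
    (hphi : Continuous phi)
    (hp : ∀ K : Set G, IsCompact K → IsCompact {p : L × H | phi p.1 * p.2 ∈ K})
    (hs : ∀ g : G, ∃ (l : L) (h : H), phi l * h = g) :
    IsClosed (phi.range : Set G) ∧ ProperSMul phi.range (G ⧸ H) ∧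
      IsCompact (phi.ker : Set L) ∧
      (∀ x y : G ⧸ H, ∃ l : phi.range, l • x = y) := by
  have hpre : ∀ K : Set G, IsCompact K → IsCompact (phi ⁻¹' K) := by
    intro K hK
    have h1 := (hp K hK).image continuous_fst
    refine h1.of_isClosed_subset (hK.isClosed.preimage hphi) ?_
    intro l hl
    exact ⟨(l, 1), by simpa using hl, rfl⟩
  have hprop : IsProperMap phi := by
    rw [isProperMap_iff_isCompact_preimage]
    exact ⟨hphi, fun K hK => hpre K hK⟩
  have hcl : IsClosed (phi.range : Set G) := by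
    have := hprop.isClosedMap.isClosed_range
    rwa [← MonoidHom.coe_range] at this
  have hs' : ∀ g : G, ∃ (l : phi.range) (h : H), (l : G) * h = g := by
    intro g
    obtain ⟨l, h, hlh⟩ := hs g
    exact ⟨⟨phi l, l, rfl⟩, h, hlh⟩
  refine ⟨hcl, ?_, ?_, ?_⟩
  · apply proper_of_compact hHc _ hs'
    intro K hK
    have h1 := (hp K hK).image (f := fun p : L × H => ((⟨phi p.1, p.1, rfl⟩ : phi.range), p.2))
      (by fun_prop)
    have h2 : {p : phi.range × H | (p.1 : G) * p.2 ∈ K} =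
        (fun p : L × H => ((⟨phi p.1, p.1, rfl⟩ : phi.range), p.2)) ''
          {p : L × H | phi p.1 * p.2 ∈ K} := by
      ext ⟨⟨_, l, rfl⟩, h⟩
      constructor
      · intro hx
        exact ⟨(l, h), hx, rfl⟩
      · rintro ⟨⟨l', h'⟩, hx, he⟩
        have he1 : phi l' = phi l := congrArg (fun q : phi.range × H => (q.1 : G)) he
        have he2 : (h' : G) = h := congrArg (fun q : phi.range × H => (q.2 : G)) he
        show phi l * h ∈ K
        have hx' : phi l' * h' ∈ K := hx
        rw [he1, he2] at hx'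
        exact hx'
    rw [h2]
    exact h1
  · have : (phi.ker : Set L) = phi ⁻¹' {1} := by
      ext l
      simp [MonoidHom.mem_ker]
    rw [this]
    exact hpre _ isCompact_singleton
  · intro x y
    induction x using QuotientGroup.induction_on with
    | H a =>
      induction y using QuotientGroup.induction_on with
      | H b =>
        obtain ⟨l1, h1, hlh1⟩ := hs' a
        obtain ⟨l2, h2, hlh2⟩ := hs' b
        refine ⟨l2 * l1⁻¹, ?_⟩
        have e1 : (l2 * l1⁻¹) • (QuotientGroup.mk a : G ⧸ H) =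
            QuotientGroup.mk ((l2 : G) * (l1 : G)⁻¹ * a) := rfl
        rw [e1, QuotientGroup.eq, ← hlh1, ← hlh2]
        have e2 : ((l2 : G) * (l1 : G)⁻¹ * ((l1 : G) * h1))⁻¹ * ((l2 : G) * h2) =
            ((h1⁻¹ * h2 : H) : G) := by
          rw [Subgroup.coe_mul, Subgroup.coe_inv]
          group
        rw [e2]
        exact (h1⁻¹ * h2).2

lemma factor_of_transitive {L H : Subgroup G} (ht : ∀ x y : G ⧸ H, ∃ l : L, l • x = y) (g : G) :
    ∃ (l : L) (h : H), (l : G) * h = g := by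
  obtain ⟨l, hl⟩ := ht (QuotientGroup.mk 1) (QuotientGroup.mk g)
  have e1 : l • (QuotientGroup.mk (1 : G) : G ⧸ H) = QuotientGroup.mk ((l : G) * 1) := rfl
  rw [e1, QuotientGroup.eq, mul_one] at hl
  exact ⟨l, ⟨_, hl⟩, by simp⟩

end Pool.Agent.H838.T
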