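import Pool.Agent.H838.TCR2
import Pool.Agent.H838.TLim
import Pool.Agent.H838.TAbs
import Pool.Agent.H838.TProp

/-!
# The main theorem on transitive proper actions
-/

set_option autoImplicit false
set_option linter.unusedSectionVars false

namespace Pool.Agent.H838.T

open Filter Topology Set Matrix

variable {n : ℕ} {J : Matrix (Fin n) (Fin n) ℝ} {S : Set (Matrix (Fin n) (Fin n) ℝ)}

lemma tr_lemma {A R : Matrix (Fin n) (Fin n) ℝ} (hR : Rᵀ = R) (h : Aᵀ * R = R * Aᵀ * R) :
    R * A = R * A * R := by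
  have h5 := congrArg Matrix.transpose h
  rw [Matrix.transpose_mul, Matrix.transpose_mul, Matrix.transpose_mul,
    Matrix.transpose_transpose, hR, ← mul_assoc] at h5
  exact h5

lemma min_of_minimal (h : Std J S) {G : Subgroup (GL (Fin n) ℝ)} (hG : G ≤ classicalGroup J S)
    (hGcc : ∀ x ∈ connectedComponent (1 : classicalGroup J S),
      ∃ y ∈ connectedComponent (1 : G), ∀ g ∈ G,
        (x : GL (Fin n) ℝ)⁻¹ * g * x = (y : GL (Fin n) ℝ)⁻¹ * g * y)
    {L : Subgroup G} {phi : L →* G} {t : Finset L}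
    (hspan : ∀ l : L, mat (phi l) ∈ Submodule.span ℝ ((fun l : L => mat (phi l)) '' (t : Set L)))
    (hmin : ∀ x ∈ connectedComponent (1 : G),
        ∑ l ∈ t, nsq (mat (phi l)) ≤ ∑ l ∈ t, nsq (mat (x⁻¹ * phi l * x)))
    {P : Matrix (Fin n) (Fin n) ℝ} (hP : IsoProj J S P)
    (hinv : ∀ l : L, mat (phi l) * P = P * mat (phi l) * P) (l : L) :
    mat (phi l) * (J * P * Jᵀ) = (J * P * Jᵀ) * mat (phi l) * (J * P * Jᵀ) := by
  obtain ⟨y, hy1, hy2⟩ := hGcc _ (h.lamG_mem hP 1)
  have hconj : ∀ l : L, mat (y⁻¹ * phi l * y) = Std.lamM J P (-1) * mat (phi l) * Std.lamM J P 1 := by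
    intro l
    have h1 := hy2 (phi l) (phi l).2
    have h2 := congrArg (fun g : GL (Fin n) ℝ => (g : Matrix (Fin n) (Fin n) ℝ)) h1
    exact h2.symm
  -- the second invariance
  have hR : ∀ l : L, (J * P * Jᵀ) * mat (phi l) = (J * P * Jᵀ) * mat (phi l) * (J * P * Jᵀ) := by
    intro l
    have h1 := hinv l⁻¹
    rw [map_inv] at h1
    have h2 : (mat (phi l))ᵀ = J * mat (phi l)⁻¹ * Jᵀ := by
      rw [mat_inv_eq h.orth hG (phi l)]
      calc (mat (phi l))ᵀ = (J * Jᵀ) * (mat (phi l))ᵀ * (J * Jᵀ) := by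
            rw [h.orth', one_mul, mul_one]
        _ = _ := by simp only [mul_assoc]
    have h3 := h.symm' hP
    have h4 : (mat (phi l))ᵀ * (J * P * Jᵀ) = (J * P * Jᵀ) * (mat (phi l))ᵀ * (J * P * Jᵀ) := by
      rw [h2]
      calc J * mat (phi l)⁻¹ * Jᵀ * (J * P * Jᵀ)
          = J * mat (phi l)⁻¹ * (Jᵀ * J) * P * Jᵀ := by simp only [mul_assoc]
        _ = J * (mat (phi l)⁻¹ * P) * Jᵀ := by rw [h.orth, mul_one]; simp only [mul_assoc]
        _ = J * (P * mat (phi l)⁻¹ * P) * Jᵀ := by rw [← h1]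
        _ = J * P * (Jᵀ * J) * mat (phi l)⁻¹ * (Jᵀ * J) * P * Jᵀ := by
            rw [h.orth, mul_one, mul_one]; simp only [mul_assoc]
        _ = _ := by simp only [mul_assoc]
    exact tr_lemma h3 h4
  have hb := fun l : L => h.block_ineq' hP (hinv l) (hR l)
  have hc2 : 0 < 1 - Real.exp (-1) ^ 2 := by
    have h1 : Real.exp (-1) < 1 := by
      rw [← Real.exp_zero]
      exact Real.exp_lt_exp.mpr (by norm_num)
    have h2 := Real.exp_pos (-1)
    nlinarith
  have hsum : ∑ l ∈ t, (nsq (mat (phi l)) - nsq (Std.lamM J P (-1) * mat (phi l) * Std.lamM J P 1)) ≤ 0 := by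
    have h1 := hmin y hy1
    simp only [hconj] at h1
    rw [Finset.sum_sub_distrib]
    linarith
  have hz : ∀ l ∈ t, nsq (P * mat (phi l) * (J * P * Jᵀ)) = 0 ∧
      nsq ((1 - P - J * P * Jᵀ) * mat (phi l) * (J * P * Jᵀ)) = 0 := by
    intro l hl
    have h0 : ∀ l : L, 0 ≤ nsq (mat (phi l)) - nsq (Std.lamM J P (-1) * mat (phi l) * Std.lamM J P 1) := by
      intro l
      refine le_trans ?_ (hb l)
      exact mul_nonneg hc2.le (add_nonneg (nsq_nonneg _) (nsq_nonneg _))
    have h1 := Finset.single_le_sum (f := fun l : L =>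
      nsq (mat (phi l)) - nsq (Std.lamM J P (-1) * mat (phi l) * Std.lamM J P 1)) (fun l _ => h0 l) hl
    have h2 := (hb l).trans (h1.trans hsum)
    have h3 := nsq_nonneg (P * mat (phi l) * (J * P * Jᵀ))
    have h4 := nsq_nonneg ((1 - P - J * P * Jᵀ) * mat (phi l) * (J * P * Jᵀ))
    constructor <;> nlinarith
  have hkey : ∀ b ∈ Submodule.span ℝ ((fun l : L => mat (phi l)) '' (t : Set L)),
      b * (J * P * Jᵀ) = (J * P * Jᵀ) * b * (J * P * Jᵀ) := by
    intro b hb'
    induction hb' using Submodule.span_induction with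
    | mem b hb' =>
      obtain ⟨l, hl, rfl⟩ := hb'
      obtain ⟨z1, z2⟩ := hz l hl
      have z1' := nsq_eq_zero z1
      have z2' := nsq_eq_zero z2
      simp only
      calc mat (phi l) * (J * P * Jᵀ)
          = P * mat (phi l) * (J * P * Jᵀ) + (1 - P - J * P * Jᵀ) * mat (phi l) * (J * P * Jᵀ) +
            (J * P * Jᵀ) * mat (phi l) * (J * P * Jᵀ) := by
            rw [← add_mul, ← add_mul, ← add_mul, ← add_mul]
            congr 1
            nth_rewrite 1 [← one_mul (mat (phi l))]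
            congr 1
            abel
        _ = _ := by rw [z1', z2', zero_add, zero_add]
    | zero => simp
    | add a b _ _ ha hb =>
      rw [mul_add, add_mul, add_mul, ← ha, ← hb]
    | smul r a _ ha =>
      rw [Matrix.mul_smul, Matrix.smul_mul, Matrix.smul_mul, ← ha]
  exact hkey _ (hspan l)

/-- the main theorem, for unimodular `L` -/
theorem main_unimodular (h : Std J S) {G : Subgroup (GL (Fin n) ℝ)} (hG : G ≤ classicalGroup J S)
    (hGc : IsClosed (G : Set (GL (Fin n) ℝ))) (hGu : Unimod G)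
    (hGcc : ∀ x ∈ connectedComponent (1 : classicalGroup J S),
      ∃ y ∈ connectedComponent (1 : G), ∀ g ∈ G,
        (x : GL (Fin n) ℝ)⁻¹ * g * x = (y : GL (Fin n) ℝ)⁻¹ * g * y)
    {H L : Subgroup G} (hHc : IsClosed (H : Set G)) (hHu : Unimod H)
    (hLc : IsClosed (L : Set G)) (hLu : Unimod L) (hLp : ProperSMul L (G ⧸ H))
    (hLt : ∀ x y : G ⧸ H, ∃ l : L, l • x = y) :
    ∃ (g : ℕ → G) (phi : L →* G),
      (∀ l : L, Tendsto (fun k => (g k)⁻¹ * (l : G) * g k) atTop (𝓝 (phi l))) ∧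
      Continuous phi ∧ IsCompact (phi.ker : Set L) ∧ IsClosed (phi.range : Set G) ∧
      CompletelyReducible (phi.range.map G.subtype) ∧ ProperSMul phi.range (G ⧸ H) ∧
      (∀ x y : G ⧸ H, ∃ l : phi.range, l • x = y) ∧ IsProperMap phi := by
  have hemb := isClosedEmbedding_mat h.orth hG hGc
  have hT2 : T2Space G := hemb.isEmbedding.t2Space
  have hlc : LocallyCompactSpace G := hemb.locallyCompactSpace
  have hsc : SecondCountableTopology G := hemb.isEmbedding.secondCountableTopology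
  obtain ⟨g, phi, t, hg0, hphi, hg, hspan, hmin⟩ := exists_limit h.orth hG hGc L
  obtain ⟨h1, h2⟩ := abstract_limit hGu hLc hHc hLu hHu (factor_of_transitive hLt)
    (fun K hK => compact_of_proper hHc hLp hK) hg0 hphi hg
  obtain ⟨f1, f2, f3, f4⟩ := image_facts hHc hphi h1 h2
  refine ⟨g, phi, hg, hphi, f3, f1, ?_, f2, f4, ?_⟩
  · refine completelyReducible_of h _ ?_ ?_
    · rintro _ ⟨x, -, rfl⟩
      exact hG x.2
    · rintro P hP hinv _ ⟨_, ⟨l, rfl⟩, rfl⟩
      refine min_of_minimal h hG hGcc hspan hmin hP (fun l => ?_) l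
      exact hinv _ ⟨phi l, ⟨l, rfl⟩, rfl⟩
  · rw [isProperMap_iff_isCompact_preimage]
    refine ⟨hphi, fun K hK => ?_⟩
    have h3 := (h1 K hK).image continuous_fst
    refine h3.of_isClosed_subset (hK.isClosed.preimage hphi) ?_
    intro l hl
    exact ⟨(l, 1), by simpa using hl, rfl⟩

end Pool.Agent.H838.T
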