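import Mathlib

/-!
# An integration formula for `G = L H` and limits of conjugates
-/

set_option autoImplicit false
set_option linter.unusedSectionVars false

namespace Pool.Agent.H838.T

open MeasureTheory MeasureTheory.Measure Filter Topology Set
open scoped ENNReal Pointwise

variable {G : Type*} [Group G] [TopologicalSpace G] [IsTopologicalGroup G] [T2Space G]
  [LocallyCompactSpace G] [SecondCountableTopology G] [MeasurableSpace G] [BorelSpace G]
  {L H : Subgroup G} {lam : Measure L} {eta : Measure H} {m : Measure G}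

/-- translation invariance on `L × H` -/
lemma lint_translate [SFinite lam] [SFinite eta] [lam.IsMulRightInvariant]
    [eta.IsMulLeftInvariant] (l0 : L) (h0 : H) (F : L × H → ℝ≥0∞) (hF : Measurable F) :
    ∫⁻ p, F (p.1 * l0, h0 * p.2) ∂(lam.prod eta) = ∫⁻ p, F p ∂(lam.prod eta) := by
  have hm1 : Measurable fun p : L × H => F (p.1 * l0, h0 * p.2) :=
    hF.comp ((measurable_fst.mul_const l0).prodMk (measurable_snd.const_mul h0))
  rw [lintegral_prod _ hm1.aemeasurable, lintegral_prod _ hF.aemeasurable]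
  have e1 : ∀ l : L, ∫⁻ h : H, F (l * l0, h0 * h) ∂eta = ∫⁻ h : H, F (l * l0, h) ∂eta := by
    intro l
    exact lintegral_mul_left_eq_self (fun h => F (l * l0, h)) h0
  simp only [e1]
  exact lintegral_mul_right_eq_self (fun l => ∫⁻ h : H, F (l, h) ∂eta) l0

/-- translation invariance on `L × H`, the other way round -/
lemma lint_translate' [SFinite lam] [SFinite eta] [lam.IsMulLeftInvariant]
    [eta.IsMulRightInvariant] (l0 : L) (h0 : H) (F : L × H → ℝ≥0∞) (hF : Measurable F) :
    ∫⁻ p, F (l0 * p.1, p.2 * h0) ∂(lam.prod eta) = ∫⁻ p, F p ∂(lam.prod eta) := by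
  have hm1 : Measurable fun p : L × H => F (l0 * p.1, p.2 * h0) :=
    hF.comp ((measurable_fst.const_mul l0).prodMk (measurable_snd.mul_const h0))
  rw [lintegral_prod _ hm1.aemeasurable, lintegral_prod _ hF.aemeasurable]
  have e1 : ∀ l : L, ∫⁻ h : H, F (l0 * l, h * h0) ∂eta = ∫⁻ h : H, F (l0 * l, h) ∂eta := by
    intro l
    exact lintegral_mul_right_eq_self (fun h => F (l0 * l, h)) h0
  simp only [e1]
  exact lintegral_mul_left_eq_self (fun l => ∫⁻ h : H, F (l, h) ∂eta) l0

lemma meas_mul : Measurable fun p : L × H => (p.1 : G) * p.2 :=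
  (measurable_subtype_coe.comp measurable_fst).mul (measurable_subtype_coe.comp measurable_snd)

/-- The swapping identity. -/
lemma swap_identity [SFinite lam] [SFinite eta] [lam.IsMulRightInvariant]
    [eta.IsMulLeftInvariant] [lam.IsMulLeftInvariant] [eta.IsMulRightInvariant]
    [SFinite m] [m.IsMulLeftInvariant] [m.IsMulRightInvariant]
    (hs : ∀ g : G, ∃ (l : L) (h : H), (l : G) * h = g)
    (f1 f2 : G → ℝ≥0∞) (h1 : Measurable f1) (h2 : Measurable f2) :
    (∫⁻ g, f2 g ∂m) * ∫⁻ p : L × H, f1 ((p.1 : G) * p.2) ∂(lam.prod eta) =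
      (∫⁻ g, f1 g ∂m) * ∫⁻ p : L × H, f2 ((p.1 : G)⁻¹ * (p.2 : G)⁻¹) ∂(lam.prod eta) := by
  have k1 : ∀ g : G, ∫⁻ p : L × H, f1 ((p.1 : G) * g * p.2) ∂(lam.prod eta) =
      ∫⁻ p : L × H, f1 ((p.1 : G) * p.2) ∂(lam.prod eta) := by
    intro g
    obtain ⟨l0, h0, rfl⟩ := hs g
    have := lint_translate (lam := lam) (eta := eta) l0 h0
      (fun p => f1 ((p.1 : G) * p.2)) (h1.comp meas_mul)
    rw [← this]
    refine lintegral_congr fun p => ?_
    simp only [Subgroup.coe_mul, mul_assoc]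
  have mi : Measurable fun p : L × H => ((p.1 : G)⁻¹ * (p.2 : G)⁻¹) :=
    (measurable_subtype_coe.comp measurable_fst).inv.mul
      (measurable_subtype_coe.comp measurable_snd).inv
  have k2 : ∀ g : G, ∫⁻ p : L × H, f2 ((p.1 : G)⁻¹ * g * (p.2 : G)⁻¹) ∂(lam.prod eta) =
      ∫⁻ p : L × H, f2 ((p.1 : G)⁻¹ * (p.2 : G)⁻¹) ∂(lam.prod eta) := by
    intro g
    obtain ⟨l0, h0, rfl⟩ := hs g
    have := lint_translate' (lam := lam) (eta := eta) l0⁻¹ h0⁻¹
      (fun p => f2 ((p.1 : G)⁻¹ * (p.2 : G)⁻¹)) (h2.comp mi)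
    rw [← this]
    refine lintegral_congr fun p => ?_
    simp only [Subgroup.coe_mul, Subgroup.coe_inv, mul_inv_rev, inv_inv, mul_assoc]
  have s1 : (∫⁻ g, f2 g ∂m) * ∫⁻ p : L × H, f1 ((p.1 : G) * p.2) ∂(lam.prod eta) =
      ∫⁻ g, ∫⁻ p : L × H, f2 g * f1 ((p.1 : G) * g * p.2) ∂(lam.prod eta) ∂m := by
    rw [← lintegral_mul_const _ h2]
    refine lintegral_congr fun g => ?_
    rw [lintegral_const_mul, k1 g]
    exact h1.comp (((measurable_subtype_coe.comp measurable_fst).mul_const g).mul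
      (measurable_subtype_coe.comp measurable_snd))
  have s2 : (∫⁻ g, f1 g ∂m) * ∫⁻ p : L × H, f2 ((p.1 : G)⁻¹ * (p.2 : G)⁻¹) ∂(lam.prod eta) =
      ∫⁻ g, ∫⁻ p : L × H, f1 g * f2 ((p.1 : G)⁻¹ * g * (p.2 : G)⁻¹) ∂(lam.prod eta) ∂m := by
    rw [← lintegral_mul_const _ h1]
    refine lintegral_congr fun g => ?_
    rw [lintegral_const_mul, k2 g]
    exact h2.comp (((measurable_subtype_coe.comp measurable_fst).inv.mul_const g).mul
      (measurable_subtype_coe.comp measurable_snd).inv)
  have sw1 := lintegral_lintegral_swap (μ := m) (ν := lam.prod eta)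
    (f := fun g p => f2 g * f1 ((p.1 : G) * g * p.2)) (by
      apply Measurable.aemeasurable
      exact (h2.comp measurable_fst).mul (h1.comp
        (((measurable_subtype_coe.comp (measurable_fst.comp measurable_snd)).mul
          measurable_fst).mul
          (measurable_subtype_coe.comp (measurable_snd.comp measurable_snd)))))
  have sw2 := lintegral_lintegral_swap (μ := m) (ν := lam.prod eta)
    (f := fun g p => f1 g * f2 ((p.1 : G)⁻¹ * g * (p.2 : G)⁻¹)) (by
      apply Measurable.aemeasurable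
      exact (h1.comp measurable_fst).mul (h2.comp
        (((measurable_subtype_coe.comp (measurable_fst.comp measurable_snd)).inv.mul
          measurable_fst).mul
          (measurable_subtype_coe.comp (measurable_snd.comp measurable_snd)).inv)))
  rw [s1, s2, sw1, sw2]
  refine lintegral_congr fun p => ?_
  have e := lintegral_mul_left_eq_self (μ := m)
    (fun g => f1 g * f2 ((p.1 : G)⁻¹ * g * (p.2 : G)⁻¹)) (p.1 : G)
  have e' := lintegral_mul_right_eq_self (μ := m)
    (fun g => f1 ((p.1 : G) * g) * f2 ((p.1 : G)⁻¹ * ((p.1 : G) * g) * (p.2 : G)⁻¹)) (p.2 : G)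
  rw [← e, ← e']
  refine lintegral_congr fun g => ?_
  rw [mul_comm]
  congr 2
  · group
  · group

/-- The integration formula for `G = L H`. -/
lemma exists_formula [SigmaFinite lam] [SigmaFinite eta] [lam.IsMulRightInvariant]
    [eta.IsMulLeftInvariant] [lam.IsMulLeftInvariant] [eta.IsMulRightInvariant]
    [IsFiniteMeasureOnCompacts lam] [IsFiniteMeasureOnCompacts eta]
    [SFinite m] [m.IsMulLeftInvariant] [m.IsMulRightInvariant]
    [IsFiniteMeasureOnCompacts m] [IsOpenPosMeasure m]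
    (hs : ∀ g : G, ∃ (l : L) (h : H), (l : G) * h = g)
    (hp : ∀ K : Set G, IsCompact K → IsCompact {p : L × H | (p.1 : G) * p.2 ∈ K}) :
    ∃ c : ℝ≥0∞, c ≠ ∞ ∧ ∀ f : G → ℝ≥0∞, Measurable f →
      ∫⁻ p : L × H, f ((p.1 : G) * p.2) ∂(lam.prod eta) = c * ∫⁻ g, f g ∂m := by
  obtain ⟨K0, hK0, hK0n⟩ := exists_compact_mem_nhds (1 : G)
  have hK0m : MeasurableSet K0 := hK0.isClosed.measurableSet
  set f2 : G → ℝ≥0∞ := K0.indicator 1 with hf2
  have hf2m : Measurable f2 := measurable_one.indicator hK0m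
  have e2 : ∫⁻ g, f2 g ∂m = m K0 := by
    rw [hf2, lintegral_indicator_one hK0m]
  have hpos : m K0 ≠ 0 := (measure_pos_of_mem_nhds m hK0n).ne'
  have hfin : m K0 ≠ ∞ := hK0.measure_lt_top.ne
  set c' := ∫⁻ p : L × H, f2 ((p.1 : G)⁻¹ * (p.2 : G)⁻¹) ∂(lam.prod eta) with hc'
  have hc'fin : c' ≠ ∞ := by
    have hset : IsCompact {p : L × H | (p.1 : G)⁻¹ * (p.2 : G)⁻¹ ∈ K0} := by
      have h1 := hp K0 hK0
      have h2 : {p : L × H | (p.1 : G)⁻¹ * (p.2 : G)⁻¹ ∈ K0} =
          (fun p : L × H => (p.1⁻¹, p.2⁻¹)) '' {p : L × H | (p.1 : G) * p.2 ∈ K0} := by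
        ext p
        constructor
        · intro hp1
          exact ⟨(p.1⁻¹, p.2⁻¹), by simpa using hp1, by simp⟩
        · rintro ⟨q, hq, rfl⟩
          simpa using hq
      rw [h2]
      exact h1.image (by fun_prop)
    have hle : c' ≤ (lam.prod eta) {p : L × H | (p.1 : G)⁻¹ * (p.2 : G)⁻¹ ∈ K0} := by
      rw [hc']
      have : (fun p : L × H => f2 ((p.1 : G)⁻¹ * (p.2 : G)⁻¹)) =
          ({p : L × H | (p.1 : G)⁻¹ * (p.2 : G)⁻¹ ∈ K0}).indicator 1 := by
        funext p
        by_cases hp1 : (p.1 : G)⁻¹ * (p.2 : G)⁻¹ ∈ K0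
        · rw [hf2, indicator_of_mem hp1, indicator_of_mem (by exact hp1)]; rfl
        · rw [hf2, indicator_of_notMem hp1, indicator_of_notMem (by exact hp1)]
      rw [this]
      exact lintegral_indicator_one_le _
    exact (hle.trans_lt hset.measure_lt_top).ne
  refine ⟨c' / m K0, ENNReal.div_ne_top hc'fin hpos, fun f hf => ?_⟩
  have key := swap_identity (lam := lam) (eta := eta) (m := m) hs f f2 hf hf2m
  rw [e2, ← hc'] at key
  rw [ENNReal.div_eq_inv_mul, mul_assoc, mul_comm c', ← key, ← mul_assoc,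
    ENNReal.inv_mul_cancel hpos hfin, one_mul]

/-- The same formula for the conjugates of `L`. -/
lemma formula_conj [SigmaFinite lam] [SigmaFinite eta] [lam.IsMulRightInvariant]
    [eta.IsMulLeftInvariant] [m.IsMulLeftInvariant]
    (hs : ∀ g : G, ∃ (l : L) (h : H), (l : G) * h = g) {c : ℝ≥0∞}
    (hc : ∀ f : G → ℝ≥0∞, Measurable f →
      ∫⁻ p : L × H, f ((p.1 : G) * p.2) ∂(lam.prod eta) = c * ∫⁻ g, f g ∂m)
    (g x : G) (f : G → ℝ≥0∞) (hf : Measurable f) :
    ∫⁻ p : L × H, f (g⁻¹ * p.1 * g * x * p.2) ∂(lam.prod eta) = c * ∫⁻ g, f g ∂m := by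
  obtain ⟨l0, h0, hlh⟩ := hs (g * x)
  have h1 := lint_translate (lam := lam) (eta := eta) l0 h0
    (fun p => f (g⁻¹ * ((p.1 : G) * p.2))) (hf.comp (meas_mul.const_mul g⁻¹))
  have h2 := hc (fun y => f (g⁻¹ * y)) (hf.comp (measurable_const_mul g⁻¹))
  have h3 := lintegral_mul_left_eq_self (μ := m) f g⁻¹
  rw [← h3, ← h2, ← h1]
  refine lintegral_congr fun p => ?_
  congr 1
  simp only [Subgroup.coe_mul]
  calc g⁻¹ * p.1 * g * x * p.2 = g⁻¹ * (p.1 * (g * x) * p.2) := by group
    _ = g⁻¹ * (p.1 * l0 * (h0 * p.2)) := by rw [← hlh]; group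

/-- Limits of conjugates: the inequality on open sets. -/
lemma limit_open [SigmaFinite lam] [SigmaFinite eta] [lam.IsMulRightInvariant]
    [eta.IsMulLeftInvariant] [m.IsMulLeftInvariant]
    (hs : ∀ g : G, ∃ (l : L) (h : H), (l : G) * h = g) {c : ℝ≥0∞}
    (hc : ∀ f : G → ℝ≥0∞, Measurable f →
      ∫⁻ p : L × H, f ((p.1 : G) * p.2) ∂(lam.prod eta) = c * ∫⁻ g, f g ∂m)
    {g : ℕ → G} {phi : L → G}
    (hg : ∀ l : L, Tendsto (fun k => (g k)⁻¹ * l * g k) atTop (𝓝 (phi l)))
    (x : G) {U : Set G} (hU : IsOpen U) :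
    (lam.prod eta) {p : L × H | phi p.1 * x * p.2 ∈ U} ≤ c * m U := by
  set F : ℕ → L × H → ℝ≥0∞ := fun k p => U.indicator 1 ((g k)⁻¹ * p.1 * g k * x * p.2) with hF
  have hFm : ∀ k, Measurable (F k) := by
    intro k
    refine (measurable_one.indicator hU.measurableSet).comp ?_
    exact ((((measurable_subtype_coe.comp measurable_fst).const_mul _).mul_const _).mul_const _).mul
      (measurable_subtype_coe.comp measurable_snd)
  have hFi : ∀ k, ∫⁻ p, F k p ∂(lam.prod eta) = c * m U := by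
    intro k
    have := formula_conj (lam := lam) (eta := eta) hs hc (g k) x (U.indicator 1)
      (measurable_one.indicator hU.measurableSet)
    rw [lintegral_indicator_one hU.measurableSet] at this
    exact this
  have hle : ∀ p : L × H, ({p : L × H | phi p.1 * x * p.2 ∈ U}).indicator (1 : L × H → ℝ≥0∞) p ≤
      liminf (fun k => F k p) atTop := by
    intro p
    by_cases hp : phi p.1 * x * p.2 ∈ U
    · rw [indicator_of_mem (by exact hp)]
      have ht : Tendsto (fun k => (g k)⁻¹ * p.1 * g k * x * p.2) atTop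
          (𝓝 (phi p.1 * x * p.2)) := ((hg p.1).mul_const x).mul_const (p.2 : G)
      have hev := ht.eventually (hU.mem_nhds hp)
      refine le_liminf_of_le (by isBoundedDefault) ?_
      filter_upwards [hev] with k hk
      rw [hF]
      simp only
      rw [indicator_of_mem hk]
      exact le_refl _
    · rw [indicator_of_notMem (by exact hp)]
      exact zero_le
  have hsub : {p : L × H | phi p.1 * x * p.2 ∈ U} ⊆
      {p : L × H | 1 ≤ liminf (fun k => F k p) atTop} := by
    intro p hp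
    have := hle p
    rw [indicator_of_mem hp] at this
    exact this
  calc (lam.prod eta) {p : L × H | phi p.1 * x * p.2 ∈ U}
      ≤ (lam.prod eta) {p : L × H | 1 ≤ liminf (fun k => F k p) atTop} := measure_mono hsub
    _ = 1 * (lam.prod eta) {p : L × H | 1 ≤ liminf (fun k => F k p) atTop} := (one_mul _).symm
    _ ≤ ∫⁻ p, liminf (fun k => F k p) atTop ∂(lam.prod eta) :=
      mul_meas_ge_le_lintegral (Measurable.liminf hFm) 1
    _ ≤ liminf (fun k => ∫⁻ p, F k p ∂(lam.prod eta)) atTop := lintegral_liminf_le hFm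
    _ = c * m U := by simp only [hFi, liminf_const]

/-- A set whose thickenings have finite measure is relatively compact. -/
lemma isCompact_of_measure [IsHaarMeasure lam] [IsHaarMeasure eta] [lam.IsMulRightInvariant]
    [SigmaFinite lam] [SigmaFinite eta]
    [LocallyCompactSpace L] [LocallyCompactSpace H]
    {phi : L →* G} (hphi : Continuous phi) (x : G)
    (hb : ∀ K : Set G, IsCompact K → (lam.prod eta) {p : L × H | phi p.1 * x * p.2 ∈ K} < ∞)
    {K : Set G} (hK : IsCompact K) : IsCompact {p : L × H | phi p.1 * x * p.2 ∈ K} := by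
  set T : Set (L × H) := {p : L × H | phi p.1 * x * p.2 ∈ K} with hT
  have hcont : Continuous fun p : L × H => phi p.1 * x * (p.2 : G) := by fun_prop
  have hTc : IsClosed T := hK.isClosed.preimage hcont
  obtain ⟨A, hA, hAn⟩ := exists_compact_mem_nhds (1 : L)
  obtain ⟨B, hB, hBn⟩ := exists_compact_mem_nhds (1 : H)
  set box : L × H → Set (L × H) := fun p => ((fun a => a * p.1) '' A) ×ˢ ((fun b => p.2 * b) '' B)
    with hbox
  by_contra hcon
  -- choose infinitely many points with disjoint boxes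
  have hstep : ∀ s : Finset (L × H), (∀ p ∈ s, p ∈ T) →
      ∃ q, q ∈ T ∧ ∀ p ∈ s, Disjoint (box p) (box q) := by
    intro s _
    by_contra hno
    push Not at hno
    apply hcon
    set C : Set (L × H) := ⋃ p ∈ s, ((fun a : L × L => a.1⁻¹ * a.2 * p.1) '' (A ×ˢ A)) ×ˢ
      ((fun b : H × H => p.2 * b.1 * b.2⁻¹) '' (B ×ˢ B)) with hC
    have hCc : IsCompact C := by
      refine s.isCompact_biUnion fun p _ => ?_
      exact ((hA.prod hA).image (by fun_prop)).prod ((hB.prod hB).image (by fun_prop))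
    refine hCc.of_isClosed_subset hTc fun q hq => ?_
    obtain ⟨p, hps, hpq⟩ := hno q hq
    rw [Set.not_disjoint_iff] at hpq
    obtain ⟨r, ⟨⟨a, ha, har⟩, ⟨b, hb', hbr⟩⟩, ⟨⟨a', ha', har'⟩, ⟨b', hb'', hbr'⟩⟩⟩ := hpq
    rw [hC]
    simp only [mem_iUnion]
    refine ⟨p, hps, ⟨(a', a), ⟨ha', ha⟩, ?_⟩, ⟨(b, b'), ⟨hb', hb''⟩, ?_⟩⟩
    · simp only at har har' ⊢
      rw [mul_assoc, har, ← har']
      group
    · simp only at hbr hbr' ⊢
      rw [hbr, ← hbr']
      group
  obtain ⟨f, hfT, hfd⟩ := exists_seq_of_forall_finset_exists (fun p => p ∈ T)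
    (fun p q => Disjoint (box p) (box q)) hstep
  have hdisj : Pairwise (Function.onFun Disjoint fun n => box (f n)) := by
    intro i j hij
    rcases lt_or_gt_of_ne hij with h | h
    · exact hfd i j h
    · exact (hfd j i h).symm
  have hboxm : ∀ p, MeasurableSet (box p) := by
    intro p
    exact ((hA.image (by fun_prop)).isClosed.measurableSet).prod
      ((hB.image (by fun_prop)).isClosed.measurableSet)
  have hmeas : ∀ p, (lam.prod eta) (box p) = lam A * eta B := by
    intro p
    rw [hbox]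
    simp only
    rw [Measure.prod_prod]
    congr 1
    · have : (fun a => a * p.1) '' A = (fun a => a * p.1⁻¹) ⁻¹' A := by
        rw [image_mul_right]
      rw [this, measure_preimage_mul_right]
    · have : (fun b => p.2 * b) '' B = (fun b => p.2⁻¹ * b) ⁻¹' B := by
        rw [image_mul_left]
      rw [this, measure_preimage_mul]
  set K' : Set G := (fun q : L × G × H => phi q.1 * q.2.1 * q.2.2) '' (A ×ˢ (K ×ˢ B)) with hK'
  have hK'c : IsCompact K' := (hA.prod (hK.prod hB)).image (by fun_prop)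
  have hsub : (⋃ n, box (f n)) ⊆ {p : L × H | phi p.1 * x * p.2 ∈ K'} := by
    intro r hr
    rw [mem_iUnion] at hr
    obtain ⟨n, ⟨a, ha, har⟩, ⟨b, hb', hbr⟩⟩ := hr
    refine ⟨(a, (phi (f n).1 * x * (f n).2, b)), ⟨ha, hfT n, hb'⟩, ?_⟩
    simp only at har hbr ⊢
    rw [← har, ← hbr, map_mul, Subgroup.coe_mul]
    group
  have h1 : (lam.prod eta) (⋃ n, box (f n)) = ∞ := by
    rw [measure_iUnion hdisj fun n => hboxm _]
    simp only [hmeas]
    apply ENNReal.tsum_const_eq_top_of_ne_zero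
    exact mul_ne_zero (measure_pos_of_mem_nhds lam hAn).ne' (measure_pos_of_mem_nhds eta hBn).ne'
  have h2 := (measure_mono hsub).trans_lt (hb K' hK'c)
  rw [h1] at h2
  exact lt_irrefl _ h2

/-- Limits of conjugates, summary: the maps `(l, h) ↦ phi l * x * h` are proper, and their images
are closed sets of positive measure. -/
theorem limit_summary [IsHaarMeasure lam] [IsHaarMeasure eta] [lam.IsMulRightInvariant]
    [eta.IsMulRightInvariant] [SigmaFinite lam] [SigmaFinite eta]
    [LocallyCompactSpace L] [LocallyCompactSpace H]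
    [IsHaarMeasure m] [m.IsMulRightInvariant] [SFinite m] [m.OuterRegular]
    (hs : ∀ g : G, ∃ (l : L) (h : H), (l : G) * h = g)
    (hp : ∀ K : Set G, IsCompact K → IsCompact {p : L × H | (p.1 : G) * p.2 ∈ K})
    {g : ℕ → G} {phi : L →* G} (hphi : Continuous phi)
    (hg : ∀ l : L, Tendsto (fun k => (g k)⁻¹ * l * g k) atTop (𝓝 (phi l))) (x : G) :
    (∀ K : Set G, IsCompact K → IsCompact {p : L × H | phi p.1 * x * p.2 ∈ K}) ∧
    IsClosed (range fun p : L × H => phi p.1 * x * (p.2 : G)) ∧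
    0 < m (range fun p : L × H => phi p.1 * x * (p.2 : G)) := by
  obtain ⟨c, hcf, hc⟩ := exists_formula (lam := lam) (eta := eta) (m := m) hs hp
  have hopen := fun (U : Set G) (hU : IsOpen U) =>
    limit_open (lam := lam) (eta := eta) (m := m) hs hc hg x hU
  have hfin : ∀ K : Set G, IsCompact K →
      (lam.prod eta) {p : L × H | phi p.1 * x * p.2 ∈ K} < ∞ := by
    intro K hK
    obtain ⟨U, hKU, hU, hUfin⟩ := hK.exists_open_superset_measure_lt_top m
    have hsub : {p : L × H | phi p.1 * x * p.2 ∈ K} ⊆ {p : L × H | phi p.1 * x * p.2 ∈ U} :=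
      fun p hp => hKU hp
    refine (measure_mono hsub).trans_lt ((hopen U hU).trans_lt ?_)
    exact ENNReal.mul_lt_top hcf.lt_top hUfin
  have hcomp : ∀ K : Set G, IsCompact K →
      IsCompact {p : L × H | phi p.1 * x * p.2 ∈ K} := fun K hK =>
    isCompact_of_measure (lam := lam) (eta := eta) hphi x hfin hK
  have hcont : Continuous fun p : L × H => phi p.1 * x * (p.2 : G) := by fun_prop
  have hprop : IsProperMap fun p : L × H => phi p.1 * x * (p.2 : G) := by
    rw [isProperMap_iff_isCompact_preimage]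
    exact ⟨hcont, fun K hK => hcomp K hK⟩
  refine ⟨hcomp, hprop.isClosedMap.isClosed_range, ?_⟩
  by_contra hz
  have hz' : m (range fun p : L × H => phi p.1 * x * (p.2 : G)) = 0 := by
    simpa using hz
  have hall : (lam.prod eta) univ = 0 := by
    by_contra hne
    have hpos : 0 < (lam.prod eta) univ := pos_iff_ne_zero.mpr hne
    have hlt : ∃ e : ℝ≥0∞, 0 < e ∧ c * e < (lam.prod eta) univ := by
      by_cases hc0 : c = 0
      · exact ⟨1, one_pos, by rw [hc0, zero_mul]; exact hpos⟩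
      · obtain ⟨b, hb0, hb1⟩ := exists_between hpos
        refine ⟨c⁻¹ * b, ENNReal.mul_pos (ENNReal.inv_ne_zero.mpr hcf) hb0.ne', ?_⟩
        rw [← mul_assoc, ENNReal.mul_inv_cancel hc0 hcf, one_mul]
        exact hb1
    obtain ⟨e, he, hlt⟩ := hlt
    obtain ⟨U, hU1, hU2, hU3⟩ := (range fun p : L × H => phi p.1 * x * (p.2 : G)).exists_isOpen_lt_of_lt
      e (by rw [hz']; exact he)
    have h1 : (lam.prod eta) univ ≤ c * m U := by
      refine (measure_mono ?_).trans (hopen U hU2)
      intro p _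
      exact hU1 ⟨p, rfl⟩
    exact absurd (h1.trans (mul_le_mul_right hU3.le c)) (not_le.mpr hlt)
  have : (lam.prod eta) univ ≠ 0 := by
    rw [← univ_prod_univ, Measure.prod_prod]
    exact mul_ne_zero (isOpen_univ.measure_pos lam ⟨1, trivial⟩).ne'
      (isOpen_univ.measure_pos eta ⟨1, trivial⟩).ne'
  exact this hall

end Pool.Agent.H838.T
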