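import Pool.Agent.H838.TCR

/-!
# Polar decomposition in classical groups
-/

set_option autoImplicit false
set_option linter.unusedSectionVars false

namespace Pool.Agent.H838.T

open Filter Topology Set Matrix
open scoped MatrixOrder

variable {n : ℕ} {J : Matrix (Fin n) (Fin n) ℝ} {S : Set (Matrix (Fin n) (Fin n) ℝ)}

/-- a symmetric matrix in the classical group -/
structure SymEl (J : Matrix (Fin n) (Fin n) ℝ) (S : Set (Matrix (Fin n) (Fin n) ℝ))
    (p : Matrix (Fin n) (Fin n) ℝ) : Prop where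
  symm : pᵀ = p
  form : p * J * p = J
  comm : ∀ s ∈ S, s * p = p * s

namespace Std

variable (h : Std J S)
include h

lemma g_J_gT {g : Matrix (Fin n) (Fin n) ℝ} (hg : gᵀ * J * g = J) : g * J * gᵀ = J := by
  have h1 : (Jᵀ * gᵀ * J) * g = 1 := by
    rw [mul_assoc, mul_assoc, ← mul_assoc _ J, hg, h.orth]
  have h2 : g * (Jᵀ * gᵀ * J) = 1 := mul_eq_one_comm.mp h1
  have h3 : g * Jᵀ * gᵀ = Jᵀ := by
    calc g * Jᵀ * gᵀ = g * Jᵀ * gᵀ * (J * Jᵀ) := by rw [h.orth', mul_one]
      _ = (g * (Jᵀ * gᵀ * J)) * Jᵀ := by simp only [mul_assoc]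
      _ = Jᵀ := by rw [h2, one_mul]
  rcases h.symm with e | e
  · rwa [e] at h3
  · rw [e, mul_neg, neg_mul] at h3
    exact neg_injective h3

/-- existence of the positive part -/
lemma exists_pos (g : classicalGroup J S) :
    ∃ p : Matrix (Fin n) (Fin n) ℝ, p.PosDef ∧ SymEl J S p ∧ p * p = (mat g)ᵀ * mat g := by
  set s := (mat g)ᵀ * mat g with hs
  have hg : (mat g)ᵀ * J * mat g = J := g.2.1
  have hspos : s.PosSemidef := by
    have := Matrix.posSemidef_conjTranspose_mul_self (mat g)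
    rwa [Matrix.conjTranspose_eq_transpose_of_trivial] at this
  have hgu : IsUnit (mat g) := ⟨(g : GL (Fin n) ℝ), rfl⟩
  have hgtu : IsUnit (mat g)ᵀ := by
    rw [Matrix.isUnit_iff_isUnit_det, Matrix.det_transpose, ← Matrix.isUnit_iff_isUnit_det]
    exact hgu
  have hsu : IsUnit s := hgtu.mul hgu
  have hs0 : (0 : Matrix (Fin n) (Fin n) ℝ) ≤ s := hspos.nonneg
  set p := CFC.sqrt s with hp
  have hpp : p * p = s := CFC.sqrt_mul_sqrt_self s hs0
  have hp0 : 0 ≤ p := CFC.sqrt_nonneg s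
  have hppos : p.PosSemidef := Matrix.nonneg_iff_posSemidef.mp hp0
  have hpu : IsUnit p := by
    have h1 : IsUnit (p * p) := hpp ▸ hsu
    rw [Matrix.isUnit_iff_isUnit_det, Matrix.det_mul] at h1
    rw [Matrix.isUnit_iff_isUnit_det]
    exact isUnit_of_mul_isUnit_left h1
  have hpd : p.PosDef := hppos.posDef_iff_isUnit.mpr hpu
  have hpT : pᵀ = p := by
    have := hpd.isHermitian
    rwa [Matrix.IsHermitian, Matrix.conjTranspose_eq_transpose_of_trivial] at this
  have hsJs : s * J * s = J := by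
    calc s * J * s = (mat g)ᵀ * (mat g * J * (mat g)ᵀ) * mat g := by
          rw [hs]; simp only [mul_assoc]
      _ = J := by rw [h.g_J_gT hg]; exact hg
  have hJs : s * (J * s * Jᵀ) = 1 := by
    calc s * (J * s * Jᵀ) = (s * J * s) * Jᵀ := by simp only [mul_assoc]
      _ = 1 := by rw [hsJs, h.orth']
  have hsinv : s⁻¹ = J * s * Jᵀ := Matrix.inv_eq_right_inv hJs
  set q := J * p * Jᵀ with hq
  have hq0 : 0 ≤ q := by
    have := hppos.mul_mul_conjTranspose_same J
    rw [Matrix.conjTranspose_eq_transpose_of_trivial] at this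
    exact this.nonneg
  have hqq : q * q = s⁻¹ := by
    rw [hsinv, hq]
    calc J * p * Jᵀ * (J * p * Jᵀ) = J * p * (Jᵀ * J) * p * Jᵀ := by simp only [mul_assoc]
      _ = J * (p * p) * Jᵀ := by rw [h.orth, mul_one]; simp only [mul_assoc]
      _ = _ := by rw [hpp]
  have hpi0 : 0 ≤ p⁻¹ := hppos.inv.nonneg
  have hpi : p⁻¹ * p⁻¹ = s⁻¹ := by rw [← Matrix.mul_inv_rev, hpp]
  have hqp : q = p⁻¹ := by
    rw [← CFC.sqrt_unique hqq hq0, ← CFC.sqrt_unique hpi hpi0]
  have hpq : p * q = 1 := by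
    rw [hqp]
    exact Matrix.mul_nonsing_inv p ((Matrix.isUnit_iff_isUnit_det _).mp hpu)
  refine ⟨p, hpd, ⟨hpT, ?_, fun t ht => ?_⟩, hpp⟩
  · calc p * J * p = p * J * p * (Jᵀ * J) := by rw [h.orth, mul_one]
      _ = (p * (J * p * Jᵀ)) * J := by simp only [mul_assoc]
      _ = J := by rw [← hq, hpq, one_mul]
  · have c1 : t * mat g = mat g * t := g.2.2 t ht
    have c2 : tᵀ * mat g = mat g * tᵀ := g.2.2 _ (h.star t ht).1
    have c3 : (mat g)ᵀ * t = t * (mat g)ᵀ := by
      have := congrArg Matrix.transpose c2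
      rwa [Matrix.transpose_mul, Matrix.transpose_mul, Matrix.transpose_transpose] at this
    have c4 : Commute s t := by
      show s * t = t * s
      rw [hs, mul_assoc, ← c1, ← mul_assoc, c3, mul_assoc]
    have c5 : Commute p t := by
      rw [hp, CFC.sqrt_eq_cfc]
      exact c4.cfc_nnreal _
    exact c5.eq.symm

/-- a symmetric element as an element of the group -/
noncomputable def posG {p : Matrix (Fin n) (Fin n) ℝ} (hp : SymEl J S p) : classicalGroup J S :=
  ⟨⟨p, J * p * Jᵀ, by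
      calc p * (J * p * Jᵀ) = (p * J * p) * Jᵀ := by simp only [mul_assoc]
        _ = 1 := by rw [hp.form, h.orth'], by
      rw [mul_eq_one_comm]
      calc p * (J * p * Jᵀ) = (p * J * p) * Jᵀ := by simp only [mul_assoc]
        _ = 1 := by rw [hp.form, h.orth']⟩, by
      refine ⟨?_, hp.comm⟩
      show pᵀ * J * p = J
      rw [hp.symm, hp.form]⟩

lemma mat_posG {p : Matrix (Fin n) (Fin n) ℝ} (hp : SymEl J S p) : mat (h.posG hp) = p := rfl

/-- the path from the identity to a positive element -/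
lemma path_el {p : Matrix (Fin n) (Fin n) ℝ} (hpos : p.PosDef) (hp : SymEl J S p) {t : ℝ}
    (ht : t ∈ Icc (0 : ℝ) 1) : SymEl J S (((1 - t) • (1 : Matrix (Fin n) (Fin n) ℝ) + (1 + t) • p) *
      ((1 + t) • (1 : Matrix (Fin n) (Fin n) ℝ) + (1 - t) • p)⁻¹) := by
  obtain ⟨ht0, ht1⟩ := ht
  set u := (1 - t) • (1 : Matrix (Fin n) (Fin n) ℝ) + (1 + t) • p with hu
  set v := (1 + t) • (1 : Matrix (Fin n) (Fin n) ℝ) + (1 - t) • p with hv
  have hone : (1 : Matrix (Fin n) (Fin n) ℝ).PosDef := Matrix.PosDef.one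
  have hvpos : v.PosDef :=
    Matrix.PosDef.add_posSemidef (hone.smul (by linarith)) (hpos.posSemidef.smul (by linarith))
  have huv : Commute u v := by
    rw [hu, hv]
    have h1 : Commute (1 : Matrix (Fin n) (Fin n) ℝ) p := Commute.one_left p
    have h2 : Commute p p := Commute.refl p
    have h3 : Commute (1 : Matrix (Fin n) (Fin n) ℝ) 1 := Commute.refl 1
    have h4 : Commute p (1 : Matrix (Fin n) (Fin n) ℝ) := Commute.one_right p
    exact (((h3.smul_left _).smul_right _).add_right ((h1.smul_left _).smul_right _)).add_left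
      (((h4.smul_left _).smul_right _).add_right ((h2.smul_left _).smul_right _))
  have hvu : IsUnit v := hvpos.isUnit
  have hvd : IsUnit v.det := (Matrix.isUnit_iff_isUnit_det _).mp hvu
  have hvi : v * v⁻¹ = 1 := Matrix.mul_nonsing_inv v hvd
  have hiv : v⁻¹ * v = 1 := Matrix.nonsing_inv_mul v hvd
  have huvi : u * v⁻¹ = v⁻¹ * u := by
    calc u * v⁻¹ = v⁻¹ * v * u * v⁻¹ := by rw [hiv, one_mul]
      _ = v⁻¹ * (u * v) * v⁻¹ := by rw [huv.eq]; simp only [mul_assoc]
      _ = v⁻¹ * u * (v * v⁻¹) := by simp only [mul_assoc]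
      _ = v⁻¹ * u := by rw [hvi, mul_one]
  have hvT : (v⁻¹)ᵀ = v⁻¹ := by
    have := hvpos.inv.isHermitian
    rwa [Matrix.IsHermitian, Matrix.conjTranspose_eq_transpose_of_trivial] at this
  have huT : uᵀ = u := by
    rw [hu, Matrix.transpose_add, Matrix.transpose_smul, Matrix.transpose_smul, hp.symm,
      Matrix.transpose_one]
  refine ⟨?_, ?_, fun s hs => ?_⟩
  · rw [Matrix.transpose_mul, hvT, huT, huvi]
  · -- the form
    have e1 : u * J * u = v * J * v := by
      rw [hu, hv]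
      simp only [add_mul, mul_add, Matrix.smul_mul, Matrix.mul_smul, one_mul, mul_one, hp.form]
      module
    calc u * v⁻¹ * J * (u * v⁻¹) = v⁻¹ * (u * J * u) * v⁻¹ := by
          rw [huvi]
          nth_rewrite 2 [← huvi]
          simp only [mul_assoc]
      _ = (v⁻¹ * v) * J * (v * v⁻¹) := by rw [e1]; simp only [mul_assoc]
      _ = J := by rw [hvi, hiv, one_mul, mul_one]
  · have c := hp.comm s hs
    have cu : s * u = u * s := by
      rw [hu]
      simp only [add_mul, mul_add, Matrix.smul_mul, Matrix.mul_smul, one_mul, mul_one, c]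
    have cv : s * v = v * s := by
      rw [hv]
      simp only [add_mul, mul_add, Matrix.smul_mul, Matrix.mul_smul, one_mul, mul_one, c]
    have cvi : s * v⁻¹ = v⁻¹ * s := by
      calc s * v⁻¹ = v⁻¹ * v * s * v⁻¹ := by rw [hiv, one_mul]
        _ = v⁻¹ * (s * v) * v⁻¹ := by rw [cv]; simp only [mul_assoc]
        _ = v⁻¹ * s * (v * v⁻¹) := by simp only [mul_assoc]
        _ = v⁻¹ * s := by rw [hvi, mul_one]
    rw [← mul_assoc, cu, mul_assoc, cvi, mul_assoc]

lemma posG_mem {p : Matrix (Fin n) (Fin n) ℝ} (hpos : p.PosDef) (hp : SymEl J S p) :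
    h.posG hp ∈ connectedComponent (1 : classicalGroup J S) := by
  let γ : unitInterval → classicalGroup J S := fun t => h.posG (h.path_el hpos hp t.2)
  have hvpos : ∀ t : unitInterval, ((1 + (t : ℝ)) • (1 : Matrix (Fin n) (Fin n) ℝ) +
      (1 - (t : ℝ)) • p).PosDef := by
    intro t
    exact Matrix.PosDef.add_posSemidef (Matrix.PosDef.one.smul (by linarith [t.2.1]))
      (hpos.posSemidef.smul (by linarith [t.2.2]))
  have hinv : Continuous fun t : unitInterval => ((1 + (t : ℝ)) • (1 : Matrix (Fin n) (Fin n) ℝ) +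
      (1 - (t : ℝ)) • p)⁻¹ := by
    simp only [Matrix.inv_def, Ring.inverse_eq_inv']
    have hc : Continuous fun t : unitInterval =>
        ((1 + (t : ℝ)) • (1 : Matrix (Fin n) (Fin n) ℝ) + (1 - (t : ℝ)) • p) := by fun_prop
    refine Continuous.smul (hc.matrix_det.inv₀ fun t => ?_) hc.matrix_adjugate
    exact ((Matrix.isUnit_iff_isUnit_det _).mp (hvpos t).isUnit).ne_zero
  have hcm : Continuous fun t : unitInterval =>
      (((1 - (t : ℝ)) • (1 : Matrix (Fin n) (Fin n) ℝ) + (1 + (t : ℝ)) • p) *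
      ((1 + (t : ℝ)) • (1 : Matrix (Fin n) (Fin n) ℝ) + (1 - (t : ℝ)) • p)⁻¹) := by
    refine Continuous.mul (by fun_prop) hinv
  have hγ : Continuous γ := by
    refine Continuous.subtype_mk ?_ _
    rw [Units.continuous_iff]
    refine ⟨hcm, ?_⟩
    exact (continuous_const.mul hcm).mul continuous_const
  have h1 : IsPreconnected (range γ) := isPreconnected_range hγ
  refine h1.subset_connectedComponent ⟨0, ?_⟩ ⟨1, ?_⟩
  · apply mat_injective
    show ((1 - ((0 : unitInterval) : ℝ)) • (1 : Matrix (Fin n) (Fin n) ℝ) +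
      (1 + ((0 : unitInterval) : ℝ)) • p) * ((1 + ((0 : unitInterval) : ℝ)) •
      (1 : Matrix (Fin n) (Fin n) ℝ) + (1 - ((0 : unitInterval) : ℝ)) • p)⁻¹ = 1
    have h2 := (Matrix.isUnit_iff_isUnit_det _).mp (hvpos 0).isUnit
    simp only [Set.Icc.coe_zero, add_zero, sub_zero] at h2 ⊢
    exact Matrix.mul_nonsing_inv _ h2
  · apply mat_injective
    show ((1 - ((1 : unitInterval) : ℝ)) • (1 : Matrix (Fin n) (Fin n) ℝ) +
      (1 + ((1 : unitInterval) : ℝ)) • p) * ((1 + ((1 : unitInterval) : ℝ)) •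
      (1 : Matrix (Fin n) (Fin n) ℝ) + (1 - ((1 : unitInterval) : ℝ)) • p)⁻¹ = p
    simp only [Set.Icc.coe_one, sub_self, zero_smul, add_zero, zero_add]
    have h3 : ((1 + 1 : ℝ) • (1 : Matrix (Fin n) (Fin n) ℝ))⁻¹ =
        ((1 + 1 : ℝ)⁻¹) • (1 : Matrix (Fin n) (Fin n) ℝ) := by
      apply Matrix.inv_eq_right_inv
      rw [Matrix.smul_mul, Matrix.mul_smul, smul_smul, mul_one, mul_inv_cancel₀ (by norm_num),
        one_smul]
    rw [h3, Matrix.smul_mul, Matrix.mul_smul, smul_smul, mul_one, mul_inv_cancel₀ (by norm_num),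
      one_smul]

/-- polar decomposition -/
lemma polar (g : classicalGroup J S) :
    ∃ p : classicalGroup J S, p ∈ connectedComponent (1 : classicalGroup J S) ∧
      (mat p)ᵀ = mat p ∧ (mat (g * p⁻¹))ᵀ * mat (g * p⁻¹) = 1 := by
  obtain ⟨p, hpos, hp, hpp⟩ := h.exists_pos g
  refine ⟨h.posG hp, h.posG_mem hpos hp, hp.symm, ?_⟩
  have h1 : mat (h.posG hp) * mat (h.posG hp)⁻¹ = 1 := mat_mul_inv _
  have h2 : mat (h.posG hp)⁻¹ * mat (h.posG hp) = 1 := mat_inv_mul _
  rw [h.mat_posG hp] at h1 h2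
  set q := mat (h.posG hp)⁻¹ with hq
  have hqT : qᵀ = q := by
    have h3 : p * qᵀ = 1 := by
      have := congrArg Matrix.transpose h2
      rwa [Matrix.transpose_mul, hp.symm, Matrix.transpose_one] at this
    calc qᵀ = q * p * qᵀ := by rw [h2, one_mul]
      _ = q := by rw [mul_assoc, h3, mul_one]
  rw [mat_mul, ← hq, Matrix.transpose_mul, hqT]
  calc q * (mat g)ᵀ * (mat g * q) = q * ((mat g)ᵀ * mat g) * q := by simp only [mul_assoc]
    _ = (q * p) * (p * q) := by rw [← hpp]; simp only [mul_assoc]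
    _ = 1 := by rw [h1, h2, one_mul]

end Std

end Pool.Agent.H838.T
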