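import Pool.Agent.H838.TCls

/-!
# Orthogonal projections as matrices
-/

set_option autoImplicit false
set_option linter.unusedSectionVars false

namespace Pool.Agent.H838.T

open Filter Topology Set Matrix

variable {n : ℕ}

lemma exists_proj (W : Submodule ℝ (Fin n → ℝ)) : ∃ P : Matrix (Fin n) (Fin n) ℝ, Pᵀ = P ∧
    P * P = P ∧ (∀ w ∈ W, P *ᵥ w = w) ∧ ∀ v, P *ᵥ v ∈ W := by
  let e := WithLp.linearEquiv 2 ℝ (Fin n → ℝ)
  let W' : Submodule ℝ (EuclideanSpace ℝ (Fin n)) := W.comap e.toLinearMap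
  let T : (Fin n → ℝ) →ₗ[ℝ] (Fin n → ℝ) :=
    e.toLinearMap ∘ₗ (W'.starProjection : EuclideanSpace ℝ (Fin n) →ₗ[ℝ] _) ∘ₗ e.symm.toLinearMap
  have hT : ∀ v, T v = e (W'.starProjection (e.symm v)) := fun v => rfl
  have hTW : ∀ v, T v ∈ W := by
    intro v
    have h1 : W'.starProjection (e.symm v) ∈ W' := W'.starProjection_apply_mem _
    exact h1
  have hTw : ∀ w ∈ W, T w = w := by
    intro w hw
    have h1 : e.symm w ∈ W' := by
      show e (e.symm w) ∈ W
      rw [LinearEquiv.apply_symm_apply]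
      exact hw
    rw [hT, Submodule.starProjection_eq_self_iff.mpr h1, LinearEquiv.apply_symm_apply]
  have hdot : ∀ u v : EuclideanSpace ℝ (Fin n), e u ⬝ᵥ e v = inner ℝ u v := by
    intro u v
    rw [EuclideanSpace.inner_eq_star_dotProduct, star_trivial, dotProduct_comm]
    rfl
  have hsym : ∀ v w, T v ⬝ᵥ w = v ⬝ᵥ T w := by
    intro v w
    have h1 := Submodule.inner_starProjection_left_eq_right W' (e.symm v) (e.symm w)
    rw [← hdot, ← hdot, LinearEquiv.apply_symm_apply, LinearEquiv.apply_symm_apply] at h1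
    exact h1
  refine ⟨LinearMap.toMatrix' T, ?_, ?_, ?_, ?_⟩
  · ext i j
    rw [Matrix.transpose_apply, LinearMap.toMatrix'_apply, LinearMap.toMatrix'_apply]
    have h1 := hsym (Pi.single i 1) (Pi.single j 1)
    rw [dotProduct_single, single_dotProduct, mul_one, one_mul] at h1
    exact h1
  · rw [← LinearMap.toMatrix'_mul]
    congr 1
    refine LinearMap.ext fun v => ?_
    exact hTw _ (hTW _)
  · intro w hw
    rw [LinearMap.toMatrix'_mulVec]
    exact hTw w hw
  · intro v
    rw [LinearMap.toMatrix'_mulVec]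
    exact hTW v

end Pool.Agent.H838.T
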