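import Pool.Agent.H838.TPol
import Pool.Agent.H838.TBaire

/-!
# Classical groups are unimodular
-/

set_option autoImplicit false
set_option linter.unusedSectionVars false

namespace Pool.Agent.H838.T

open Filter Topology Set Matrix MeasureTheory MeasureTheory.Measure

variable {n : ℕ} {J : Matrix (Fin n) (Fin n) ℝ} {S : Set (Matrix (Fin n) (Fin n) ℝ)}

/-- conjugation as an automorphism of topological groups -/
def cj {G : Type*} [Group G] [TopologicalSpace G] [IsTopologicalGroup G] (y : G) : G ≃ₜ* G :=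
  { MulAut.conj y with
    continuous_toFun := by
      show Continuous fun z => y * z * y⁻¹
      fun_prop
    continuous_invFun := by
      show Continuous fun z => y⁻¹ * z * y
      fun_prop }

lemma cj_apply {G : Type*} [Group G] [TopologicalSpace G] [IsTopologicalGroup G] (y z : G) :
    cj y z = y * z * y⁻¹ := rfl

lemma nsq_conj {k a b : Matrix (Fin n) (Fin n) ℝ} (hk : kᵀ * k = 1) (hb : k * b = 1) :
    nsq (k * a * b) = nsq a := by
  have hb' : b = kᵀ := by
    calc b = kᵀ * k * b := by rw [hk, one_mul]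
      _ = kᵀ := by rw [mul_assoc, hb, mul_one]
  have hk' : k * kᵀ = 1 := mul_eq_one_comm.mp hk
  rw [hb', nsq_trace, nsq_trace, Matrix.transpose_mul, Matrix.transpose_mul,
    Matrix.transpose_transpose]
  calc (k * (aᵀ * kᵀ) * (k * a * kᵀ)).trace = (k * (aᵀ * (kᵀ * k) * a * kᵀ)).trace := by
        simp only [mul_assoc]
    _ = ((aᵀ * (kᵀ * k) * a * kᵀ) * k).trace := Matrix.trace_mul_comm _ _
    _ = (aᵀ * (kᵀ * k) * a * (kᵀ * k)).trace := by simp only [mul_assoc]
    _ = _ := by rw [hk, mul_one, mul_one]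

theorem unimod_of_transpose (h : Std J S) {G : Subgroup (GL (Fin n) ℝ)}
    (hG : G ≤ classicalGroup J S) (hGc : IsClosed (G : Set (GL (Fin n) ℝ)))
    (hT : ∀ g ∈ G, ∃ g' ∈ G, (g' : Matrix (Fin n) (Fin n) ℝ) =
      (g : Matrix (Fin n) (Fin n) ℝ)ᵀ)
    (hGcc : ∀ x ∈ connectedComponent (1 : classicalGroup J S),
      ∃ y ∈ connectedComponent (1 : G), ∀ g ∈ G,
        (x : GL (Fin n) ℝ)⁻¹ * g * x = (y : GL (Fin n) ℝ)⁻¹ * g * y) : Unimod G := by
  have hemb := isClosedEmbedding_mat h.orth hG hGc
  have hT2 : T2Space G := hemb.isEmbedding.t2Space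
  have hlc : LocallyCompactSpace G := hemb.locallyCompactSpace
  have hsc : SecondCountableTopology G := hemb.isEmbedding.secondCountableTopology
  let _ : MeasurableSpace G := borel G
  have _ : BorelSpace G := ⟨rfl⟩
  -- transposition
  have hT' : ∀ g : G, ∃ g' : G, mat g' = (mat g)ᵀ := by
    intro g
    obtain ⟨g', h1, h2⟩ := hT g g.2
    exact ⟨⟨g', h1⟩, h2⟩
  choose tr htr using hT'
  have htrtr : ∀ g, tr (tr g) = g := fun g => mat_injective (by
    rw [htr, htr, Matrix.transpose_transpose])
  have htrm : ∀ a b, tr (a * b) = tr b * tr a := fun a b => mat_injective (by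
    rw [mat_mul, htr, mat_mul, Matrix.transpose_mul, htr, htr])
  have htr1 : tr 1 = 1 := mat_injective (by rw [htr, mat_one, Matrix.transpose_one])
  have htri : ∀ a, tr a⁻¹ = (tr a)⁻¹ := by
    intro a
    rw [eq_inv_iff_mul_eq_one, ← htrm, mul_inv_cancel, htr1]
  have htrc : Continuous tr := by
    rw [hemb.isEmbedding.continuous_iff]
    have : mat ∘ tr = fun g : G => (mat g)ᵀ := funext htr
    rw [this]
    exact continuous_mat.matrix_transpose
  let θ : G ≃ₜ* G :=
    { toFun := fun g => (tr g)⁻¹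
      invFun := fun g => (tr g)⁻¹
      left_inv := fun g => by
        show (tr (tr g)⁻¹)⁻¹ = g
        rw [htri, inv_inv, htrtr]
      right_inv := fun g => by
        show (tr (tr g)⁻¹)⁻¹ = g
        rw [htri, inv_inv, htrtr]
      map_mul' := fun a b => by rw [htrm, _root_.mul_inv_rev]
      continuous_toFun := htrc.inv
      continuous_invFun := htrc.inv }
  have hθ : ∀ g, θ g = (tr g)⁻¹ := fun g => rfl
  -- the scaling factor of conjugations
  have key : ∀ g : G, mulEquivHaarChar (cj g) = 1 := by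
    intro g
    obtain ⟨p, hp1, hp2, hp3⟩ := h.polar ⟨g, hG g.2⟩
    obtain ⟨y, hy1, hy2⟩ := hGcc p hp1
    have hp4 : (mat p⁻¹)ᵀ = mat p⁻¹ := by
      have h1 : mat p * (mat p⁻¹)ᵀ = 1 := by
        have := congrArg Matrix.transpose (mat_inv_mul p)
        rwa [Matrix.transpose_mul, hp2, Matrix.transpose_one] at this
      calc (mat p⁻¹)ᵀ = mat p⁻¹ * mat p * (mat p⁻¹)ᵀ := by rw [mat_inv_mul, one_mul]
        _ = mat p⁻¹ := by rw [mul_assoc, h1, mul_one]
    -- conjugations by `p` and `y` agree on `G`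
    have hy3 : ∀ z : G, (mat y) * mat z * mat y⁻¹ = mat p * mat z * mat p⁻¹ := by
      intro z
      have h1 := hy2 (y * z * y⁻¹ : G) (y * z * y⁻¹ : G).2
      have h2 : (y : GL (Fin n) ℝ)⁻¹ * (y * z * y⁻¹ : G) * y = z := by
        rw [Subgroup.coe_mul, Subgroup.coe_mul, Subgroup.coe_inv]
        group
      rw [h2] at h1
      have h3 : ((y * z * y⁻¹ : G) : GL (Fin n) ℝ) = (p : GL (Fin n) ℝ) * z * (p : GL (Fin n) ℝ)⁻¹ := by
        rw [← h1]
        group
      exact congrArg (fun g : GL (Fin n) ℝ => (g : Matrix (Fin n) (Fin n) ℝ)) h3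
    have hy4 : ∀ w : G, mat (y⁻¹ * w * y) = mat p⁻¹ * mat w * mat p := by
      intro w
      exact (congrArg (fun g : GL (Fin n) ℝ => (g : Matrix (Fin n) (Fin n) ℝ)) (hy2 w w.2)).symm
    -- the orthogonal part
    have h1 : mulEquivHaarChar (cj (g * y⁻¹)) = 1 := by
      set U : Set G := {z : G | nsq (mat z) ≤ nsq (1 : Matrix (Fin n) (Fin n) ℝ) + 1} with hU
      have hUc : IsCompact U := hemb.isCompact_preimage (isCompact_nsq _)
      have hUn : U ∈ 𝓝 (1 : G) := by
        have hc : Continuous fun z : G => nsq (mat z) := continuous_nsq.comp continuous_mat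
        have hlt : ∀ᶠ z in 𝓝 (1 : G), nsq (mat z) < nsq (1 : Matrix (Fin n) (Fin n) ℝ) + 1 := by
          apply hc.continuousAt.eventually_lt continuousAt_const
          rw [mat_one]
          exact lt_add_one _
        filter_upwards [hlt] with z hz using hz.le
      have hUpre : (cj (g * y⁻¹)) ⁻¹' U = U := by
        ext z
        have h2 : nsq (mat (cj (g * y⁻¹) z)) = nsq (mat z) := by
          have h3 : mat (cj (g * y⁻¹) z) =
              mat ((⟨g, hG g.2⟩ : classicalGroup J S) * p⁻¹) * mat z *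
              mat ((⟨g, hG g.2⟩ : classicalGroup J S) * p⁻¹)⁻¹ := by
            have h7 := hy4 z
            have h8 : cj (g * y⁻¹) z = g * (y⁻¹ * z * y) * g⁻¹ := by
              rw [cj_apply]; group
            rw [h8, mat_mul, mat_mul, h7, _root_.mul_inv_rev, inv_inv, mat_mul, mat_mul]
            have h9 : mat (⟨(g : GL (Fin n) ℝ), hG g.2⟩ : classicalGroup J S) = mat g := rfl
            have h10 : mat (⟨(g : GL (Fin n) ℝ), hG g.2⟩ : classicalGroup J S)⁻¹ = mat g⁻¹ := rfl
            rw [h9, h10]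
            simp only [mul_assoc]
          rw [h3]
          exact nsq_conj hp3 (mat_mul_inv _)
        show nsq (mat (cj (g * y⁻¹) z)) ≤ _ ↔ nsq (mat z) ≤ _
        rw [h2]
      have h2 := mulEquivHaarChar_smul_preimage (haar : Measure G) (X := U) (cj (g * y⁻¹))
      rw [hUpre] at h2
      have h3 : (haar : Measure G) U ≠ 0 := (measure_pos_of_mem_nhds _ hUn).ne'
      have h4 : (haar : Measure G) U ≠ ⊤ := hUc.measure_lt_top.ne
      rw [ENNReal.smul_def, smul_eq_mul] at h2
      have h5 : ((mulEquivHaarChar (cj (g * y⁻¹)) : NNReal) : ENNReal) = 1 := by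
        calc ((mulEquivHaarChar (cj (g * y⁻¹)) : NNReal) : ENNReal)
            = (mulEquivHaarChar (cj (g * y⁻¹)) : ENNReal) * (haar U) * (haar U)⁻¹ := by
              rw [mul_assoc, ENNReal.mul_inv_cancel h3 h4, mul_one]
          _ = 1 := by rw [h2, ENNReal.mul_inv_cancel h3 h4]
      exact_mod_cast h5
    -- the symmetric part
    have h2 : mulEquivHaarChar (cj y) = 1 := by
      have h3 : (cj y).trans θ = θ.trans (cj y).symm := by
        ext1 z
        show θ (cj y z) = (cj y).symm (θ z)
        have hsy : ∀ w : G, (cj y).symm w = y⁻¹ * w * y := fun w => rfl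
        rw [hsy, hθ, hθ, cj_apply]
        have h9 : tr (y * z * y⁻¹) = y⁻¹ * tr z * y := by
          apply mat_injective
          rw [htr, hy4, mat_mul, mat_mul, hy3, htr, Matrix.transpose_mul, Matrix.transpose_mul,
            hp2, hp4]
          simp only [mul_assoc]
        rw [h9]
        group
      have h4 := congrArg mulEquivHaarChar h3
      rw [mulEquivHaarChar_trans, mulEquivHaarChar_trans, mulEquivHaarChar_symm] at h4
      have h5 := mulEquivHaarChar_pos θ
      have h6 := mulEquivHaarChar_pos (cj y)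
      rw [mul_comm] at h4
      have h7 := mul_left_cancel₀ h5.ne' h4
      have h8 : mulEquivHaarChar (cj y) * mulEquivHaarChar (cj y) = 1 := by
        nth_rewrite 2 [h7]
        exact mul_inv_cancel₀ h6.ne'
      have h9 : mulEquivHaarChar (cj y) ^ 2 = 1 ^ 2 := by rw [sq, h8, one_pow]
      exact (pow_left_inj₀ zero_le zero_le two_ne_zero).mp h9
    have h3 : cj g = (cj y).trans (cj (g * y⁻¹)) := by
      ext1 z
      show cj g z = cj (g * y⁻¹) (cj y z)
      rw [cj_apply, cj_apply, cj_apply]
      group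
    rw [h3, mulEquivHaarChar_trans, h1, h2, one_mul]
  refine ⟨haar, inferInstance, ⟨fun g => ?_⟩⟩
  have h1 := mulEquivHaarChar_smul_map (haar : Measure G) (cj g⁻¹)
  rw [key, one_smul] at h1
  have h2 : (fun x : G => x * g) = (fun x => g * x) ∘ (cj g⁻¹) := by
    funext x
    simp only [Function.comp_apply, cj_apply]
    group
  have h3 : Measurable (cj g⁻¹ : G → G) := (cj g⁻¹).continuous.measurable
  rw [h2, ← Measure.map_map (measurable_const_mul g) h3, h1]
  exact map_mul_left_eq_self _ g

end Pool.Agent.H838.T
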