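import Mathlib

/-!
# Tangent vectors of closed submonoids of Banach algebras
-/

set_option autoImplicit false
set_option linter.unusedSectionVars false

namespace Pool.Agent.H838

open Filter Topology

noncomputable section

variable {𝔸 : Type*} [NormedRing 𝔸] [NormedAlgebra ℝ 𝔸] [CompleteSpace 𝔸]

/-- one-parameter groups -/
def E1 (v : 𝔸) (t : ℝ) : 𝔸 := NormedSpace.exp (t • v)

lemma E1_zero (v : 𝔸) : E1 v 0 = 1 := by
  unfold E1; rw [zero_smul, NormedSpace.exp_zero]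

lemma E1_add (v : 𝔸) (s t : ℝ) : E1 v (s + t) = E1 v s * E1 v t := by
  let : NormedAlgebra ℚ 𝔸 := NormedAlgebra.restrictScalars ℚ ℝ 𝔸
  unfold E1
  rw [add_smul]
  apply NormedSpace.exp_add_of_commute
  exact ((Commute.refl v).smul_left s).smul_right t

lemma E1_nat (v : 𝔸) (n : ℕ) (t : ℝ) : E1 v (n * t) = (E1 v t) ^ n := by
  induction n with
  | zero => simp [E1_zero]
  | succ n ih =>
    rw [pow_succ, ← ih, ← E1_add]
    congr 1
    push_cast; ring

lemma E1_neg_mul (v : 𝔸) (t : ℝ) : E1 v (-t) * E1 v t = 1 := by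
  rw [← E1_add, neg_add_cancel, E1_zero]

lemma E1_mul_neg (v : 𝔸) (t : ℝ) : E1 v t * E1 v (-t) = 1 := by
  rw [← E1_add, add_neg_cancel, E1_zero]

lemma E1_smul (c : ℝ) (v : 𝔸) (t : ℝ) : E1 (c • v) t = E1 v (t * c) := by
  unfold E1; rw [smul_smul]

lemma hasDerivAt_E1 (v : 𝔸) : HasDerivAt (E1 v) v 0 := by
  have h := hasDerivAt_exp_smul_const (𝕂 := ℝ) v 0
  rw [zero_smul, NormedSpace.exp_zero, one_mul] at h
  exact h

lemma continuous_E1 (v : 𝔸) : Continuous (E1 v) :=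
  (differentiable_exp_smul_const ℝ v).continuous

lemma slope_seq {f : ℝ → 𝔸} {v : 𝔸} (hf : HasDerivAt f v 0) (h0 : f 0 = 1) {τ : ℕ → ℝ}
    (hτ : ∀ n, 0 < τ n) (hτ0 : Tendsto τ atTop (𝓝 0)) :
    Tendsto (fun n => (τ n)⁻¹ • (f (τ n) - 1)) atTop (𝓝 v) := by
  have h := hasDerivAt_iff_tendsto_slope.mp hf
  have h1 : Tendsto τ atTop (𝓝[≠] 0) :=
    tendsto_nhdsWithin_iff.mpr ⟨hτ0, Eventually.of_forall fun n => (hτ n).ne'⟩
  have h2 := h.comp h1
  refine h2.congr fun n => ?_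
  simp [slope_def_module, h0]

lemma tele (a b : 𝔸) (ρ : ℝ) (hρ : 1 ≤ ρ) (ha : ‖a‖ ≤ ρ) (hb : ‖b‖ ≤ ρ) (h1 : ‖(1 : 𝔸)‖ ≤ 1)
    (k : ℕ) : ‖a ^ k - b ^ k‖ ≤ k * ‖a - b‖ * ρ ^ k := by
  have hak : ∀ k : ℕ, ‖a ^ k‖ ≤ ρ ^ k := by
    intro k
    induction k with
    | zero => simpa using h1
    | succ k ih =>
      rw [pow_succ, pow_succ]
      exact (norm_mul_le _ _).trans (mul_le_mul ih ha (norm_nonneg _) (by positivity))
  induction k with
  | zero => simp
  | succ k ih =>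
    have e : a ^ (k + 1) - b ^ (k + 1) = a ^ k * (a - b) + (a ^ k - b ^ k) * b := by
      rw [pow_succ, pow_succ]; noncomm_ring
    rw [e]
    calc ‖a ^ k * (a - b) + (a ^ k - b ^ k) * b‖
        ≤ ‖a ^ k‖ * ‖a - b‖ + ‖a ^ k - b ^ k‖ * ‖b‖ :=
          (norm_add_le _ _).trans (add_le_add (norm_mul_le _ _) (norm_mul_le _ _))
      _ ≤ ρ ^ k * ‖a - b‖ + (k * ‖a - b‖ * ρ ^ k) * ρ := by
          apply add_le_add
          · exact mul_le_mul_of_nonneg_right (hak k) (norm_nonneg _)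
          · exact mul_le_mul ih hb (norm_nonneg _) (by positivity)
      _ ≤ ρ ^ (k + 1) * ‖a - b‖ + (k * ‖a - b‖ * ρ ^ k) * ρ := by
          apply add_le_add_left
          apply mul_le_mul_of_nonneg_right _ (norm_nonneg _)
          exact pow_le_pow_right₀ hρ (Nat.le_succ k)
      _ = ((k + 1 : ℕ) : ℝ) * ‖a - b‖ * ρ ^ (k + 1) := by
          push_cast; rw [pow_succ]; ring

/-- Tangent vectors integrate. -/
theorem tangent (h1 : ‖(1 : 𝔸)‖ ≤ 1) (S : Submonoid 𝔸) (hS : IsClosed (S : Set 𝔸)) (v : 𝔸)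
    {τ : ℕ → ℝ} (hτ : ∀ n, 0 < τ n) (hτ0 : Tendsto τ atTop (𝓝 0)) {g : ℕ → 𝔸}
    (hg : ∀ n, g n ∈ S) (hlim : Tendsto (fun n => (τ n)⁻¹ • (g n - 1)) atTop (𝓝 v))
    {t : ℝ} (ht : 0 ≤ t) : E1 v t ∈ S := by
  have hlim2 := slope_seq (hasDerivAt_E1 v) (E1_zero v) hτ hτ0
  set C := ‖v‖ + 1 with hC
  let k : ℕ → ℕ := fun n => ⌊t / τ n⌋₊
  have hk1 : ∀ n, (k n : ℝ) * τ n ≤ t := by
    intro n
    have := Nat.floor_le (div_nonneg ht (hτ n).le)
    rwa [le_div_iff₀ (hτ n)] at this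
  have hk2 : ∀ n, t - τ n ≤ (k n : ℝ) * τ n := by
    intro n
    have := (Nat.lt_floor_add_one (t / τ n)).le
    rw [div_le_iff₀ (hτ n)] at this
    have h3 : ((k n : ℝ) + 1) * τ n = k n * τ n + τ n := by ring
    rw [h3] at this
    linarith
  have hkt : Tendsto (fun n => (k n : ℝ) * τ n) atTop (𝓝 t) := by
    have h3 : Tendsto (fun n => t - τ n) atTop (𝓝 t) := by
      simpa using (tendsto_const_nhds (x := t)).sub hτ0
    exact tendsto_of_tendsto_of_tendsto_of_le_of_le h3 tendsto_const_nhds hk2 hk1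
  -- norms
  have hnorm : ∀ {f : ℕ → 𝔸}, Tendsto (fun n => (τ n)⁻¹ • (f n - 1)) atTop (𝓝 v) →
      ∀ᶠ n in atTop, ‖f n‖ ≤ Real.exp (τ n * C) := by
    intro f hf
    have h3 : ∀ᶠ n in atTop, ‖(τ n)⁻¹ • (f n - 1)‖ < C :=
      (hf.norm).eventually (gt_mem_nhds (by rw [hC]; linarith))
    filter_upwards [h3] with n hn
    rw [norm_smul, norm_inv, Real.norm_of_nonneg (hτ n).le, inv_mul_lt_iff₀ (hτ n)] at hn
    have h4 : ‖f n‖ ≤ ‖f n - 1‖ + ‖(1 : 𝔸)‖ := by
      have := norm_add_le (f n - 1) 1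
      simpa using this
    have h5 := Real.add_one_le_exp (τ n * C)
    linarith
  have e1 := hnorm hlim
  have e2 := hnorm hlim2
  -- the difference
  have hη : Tendsto (fun n => ‖(τ n)⁻¹ • (g n - 1) - (τ n)⁻¹ • (E1 v (τ n) - 1)‖) atTop
      (𝓝 0) := by
    have := (hlim.sub hlim2).norm
    simpa using this
  have hdiff : Tendsto (fun n => (g n) ^ (k n) - (E1 v (τ n)) ^ (k n)) atTop (𝓝 0) := by
    apply squeeze_zero_norm' (a := fun n => t *
      ‖(τ n)⁻¹ • (g n - 1) - (τ n)⁻¹ • (E1 v (τ n) - 1)‖ * Real.exp (t * C))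
    · filter_upwards [e1, e2] with n h3 h4
      have hρ : 1 ≤ Real.exp (τ n * C) := by
        apply Real.one_le_exp
        have := hτ n
        positivity
      have h5 := tele (g n) (E1 v (τ n)) _ hρ h3 h4 h1 (k n)
      refine h5.trans ?_
      have h6 : ‖g n - E1 v (τ n)‖ =
          τ n * ‖(τ n)⁻¹ • (g n - 1) - (τ n)⁻¹ • (E1 v (τ n) - 1)‖ := by
        rw [← smul_sub, norm_smul, norm_inv, Real.norm_of_nonneg (hτ n).le,
          mul_inv_cancel_left₀ (hτ n).ne']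
        congr 1
        abel
      rw [h6]
      have h7 : Real.exp (τ n * C) ^ (k n) ≤ Real.exp (t * C) := by
        rw [← Real.exp_nat_mul]
        apply Real.exp_le_exp.mpr
        rw [← mul_assoc]
        exact mul_le_mul_of_nonneg_right (hk1 n) (by positivity)
      have h8 : (k n : ℝ) * (τ n * ‖(τ n)⁻¹ • (g n - 1) - (τ n)⁻¹ • (E1 v (τ n) - 1)‖) ≤
          t * ‖(τ n)⁻¹ • (g n - 1) - (τ n)⁻¹ • (E1 v (τ n) - 1)‖ := by
        rw [← mul_assoc]
        exact mul_le_mul_of_nonneg_right (hk1 n) (norm_nonneg _)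
      exact mul_le_mul h8 h7 (by positivity) (by positivity)
    · have := (hη.const_mul t).mul_const (Real.exp (t * C))
      simpa using this
  have hE : Tendsto (fun n => (E1 v (τ n)) ^ (k n)) atTop (𝓝 (E1 v t)) := by
    have h3 := ((continuous_E1 v).tendsto t).comp hkt
    refine h3.congr fun n => ?_
    exact E1_nat v (k n) (τ n)
  have hfin : Tendsto (fun n => (g n) ^ (k n)) atTop (𝓝 (E1 v t)) := by
    have := hdiff.add hE
    simpa using this
  exact hS.mem_of_tendsto hfin (Eventually.of_forall fun n => S.pow_mem (hg n) _)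

end

end Pool.Agent.H838
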