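import Pool.Agent.H838.Act

/-!
# Equilateral hyperbolic triangles and their reflections
-/

set_option autoImplicit false

namespace Pool.Agent.H838

open UpperHalfPlane Matrix

noncomputable section

/-- The parameters of an equilateral triangle with angles `θ`, `C = cos θ`, `s = sin θ`. -/
structure Tri where
  /-- cosine of the angle -/
  C : ℝ
  /-- sine of the angle -/
  s : ℝ
  /-- scaling parameter -/
  t : ℝ
  /-- its inverse -/
  u : ℝ
  hs : 0 < s
  hC : 1 / 2 < C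
  hCs : C ^ 2 + s ^ 2 = 1
  hu : 0 < u
  hut : u < t
  htu : t * u = 1
  hT : (1 - C) * (t ^ 2 + u ^ 2) = 2 * C

namespace Tri
variable (T : Tri)

/-- upper left entries of the reflection matrices -/
def a : Fin 3 → ℝ := ![1, -T.C, -T.C]
/-- upper right entries of the reflection matrices -/
def b : Fin 3 → ℝ := ![0, T.s * T.u, -(T.t * T.s)]
/-- lower left entries of the reflection matrices -/
def c : Fin 3 → ℝ := ![0, T.t * T.s, -(T.s * T.u)]

lemma ht : 0 < T.t := lt_trans T.hu T.hut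

lemma hC1 : T.C < 1 := by
  have := T.hs
  have := T.hC
  have := T.hCs
  nlinarith

lemma norm_eq (i : Fin 3) : T.a i ^ 2 + T.b i * T.c i = 1 := by
  have h1 := T.hCs
  have h2 := T.htu
  fin_cases i
  · simp [a, b, c]
  · simp [a, b, c]
    linear_combination h1 + T.s ^ 2 * h2
  · simp [a, b, c]
    linear_combination h1 + T.s ^ 2 * h2

/-- twice the Gram matrix -/
lemma gram {i j : Fin 3} (h : i ≠ j) :
    T.a i * T.a j + (T.b i * T.c j + T.c i * T.b j) / 2 = -T.C := by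
  have h1 := T.hCs
  have h2 := T.htu
  have h3 := T.hT
  have hC1 := T.hC1
  have key : T.C * T.C + (T.s * T.u * -(T.s * T.u) + T.t * T.s * -(T.t * T.s)) / 2 = -T.C := by
    have e : (1 - T.C) * (T.C * T.C + (T.s * T.u * -(T.s * T.u) + T.t * T.s * -(T.t * T.s)) / 2
        + T.C) = 0 := by
      linear_combination -(T.s ^ 2 / 2) * h3 - T.C * h1
    rcases mul_eq_zero.mp e with h | h <;> linarith
  fin_cases i <;> fin_cases j <;> simp [a, b, c] at h ⊢ <;> linarith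

/-- the `i`-th reflection, as a matrix of determinant `-1` -/
def A (i : Fin 3) : GL (Fin 2) ℝ :=
  GeneralLinearGroup.mkOfDetNeZero !![T.a i, T.b i; T.c i, -T.a i] (by
    rw [Matrix.det_fin_two_of]
    have := T.norm_eq i
    intro h
    nlinarith)

@[simp] lemma A00 (i : Fin 3) : (T.A i) 0 0 = T.a i := rfl
@[simp] lemma A01 (i : Fin 3) : (T.A i) 0 1 = T.b i := rfl
@[simp] lemma A10 (i : Fin 3) : (T.A i) 1 0 = T.c i := rfl
@[simp] lemma A11 (i : Fin 3) : (T.A i) 1 1 = -T.a i := rfl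

lemma det_A (i : Fin 3) : (T.A i).det.val = -1 := by
  rw [Matrix.GeneralLinearGroup.val_det_apply, Matrix.det_fin_two]
  have := T.norm_eq i
  simp only [A00, A01, A10, A11]
  linarith

lemma abs_det_A (i : Fin 3) : |(T.A i).det.val| = 1 := by rw [det_A]; norm_num

lemma A_sq (i : Fin 3) : T.A i * T.A i = 1 := by
  have := T.norm_eq i
  apply Matrix.GeneralLinearGroup.ext
  intro k l
  fin_cases k <;> fin_cases l <;> simp [Matrix.mul_apply, Fin.sum_univ_two] <;> linarith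

/-- The linear functionals on vectors. -/
def L (i : Fin 3) (p q r : ℝ) : ℝ := (T.c i * p - 2 * T.a i * q - T.b i * r) / 2

/-- the (signed) sinh of the distance to the `i`-th side -/
def l (i : Fin 3) (z : ℍ) : ℝ := T.L i (vP z) (vQ z) (vR z)

lemma l_def (i : Fin 3) (z : ℍ) :
    T.l i z = (T.c i * vP z - 2 * T.a i * vQ z - T.b i * vR z) / 2 := rfl

lemma l_refl_self (i : Fin 3) (z : ℍ) : T.l i (T.A i • z) = -T.l i z := by
  have := T.norm_eq i
  simp only [l_def]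
  rw [vP_smul _ (T.abs_det_A i), vQ_smul _ (T.abs_det_A i), vR_smul _ (T.abs_det_A i)]
  simp only [A00, A01, A10, A11]
  linear_combination -(T.c i * vP z - 2 * T.a i * vQ z - T.b i * vR z) / 2 * this

lemma l_refl {i j : Fin 3} (h : i ≠ j) (z : ℍ) :
    T.l i (T.A j • z) = T.l i z + 2 * T.C * T.l j z := by
  have h1 := T.norm_eq j
  have h2 := T.gram h
  simp only [l_def]
  rw [vP_smul _ (T.abs_det_A j), vQ_smul _ (T.abs_det_A j), vR_smul _ (T.abs_det_A j)]
  simp only [A00, A01, A10, A11]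
  linear_combination (T.c i * vP z - 2 * T.a i * vQ z - T.b i * vR z) / 2 * h1
    - (T.c j * vP z - 2 * T.a j * vQ z - T.b j * vR z) * h2

lemma cosh_refl (j : Fin 3) (z w : ℍ) : Real.cosh (dist z (T.A j • w)) =
    Real.cosh (dist z w) + 2 * T.l j z * T.l j w := by
  have h1 := T.norm_eq j
  rw [cosh_dist_vec, cosh_dist_vec]
  simp only [l_def]
  rw [vP_smul _ (T.abs_det_A j), vQ_smul _ (T.abs_det_A j), vR_smul _ (T.abs_det_A j)]
  simp only [A00, A01, A10, A11]
  linear_combination ((vP z * vR w + vP w * vR z) / 2 - vQ z * vQ w) * h1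

lemma fixed_iff (i : Fin 3) (z : ℍ) : T.A i • z = z ↔ T.l i z = 0 := by
  constructor
  · intro h
    have := T.l_refl_self i z
    rw [h] at this
    linarith
  · intro h
    have := T.cosh_refl i z z
    rw [h, dist_self] at this
    have h1 : Real.cosh (dist z (T.A i • z)) = 1 := by simpa using this
    have h2 : dist z (T.A i • z) = 0 := by
      by_contra hne
      have := Real.one_lt_cosh.mpr hne
      linarith
    exact (dist_eq_zero.mp h2).symm

/-- The Gram duality formula. -/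
lemma dual (p q r p' q' r' : ℝ) :
    (1 + T.C) * (2 * T.C - 1) * ((p * r' + p' * r) / 2 - q * q') =
      T.C * (T.L 0 p q r + T.L 1 p q r + T.L 2 p q r) *
        (T.L 0 p' q' r' + T.L 1 p' q' r' + T.L 2 p' q' r')
      - (2 * T.C - 1) * (T.L 0 p q r * T.L 0 p' q' r' + T.L 1 p q r * T.L 1 p' q' r'
        + T.L 2 p q r * T.L 2 p' q' r') := by
  have h1 := T.hCs
  have h2 := T.htu
  have h3 := T.hT
  simp only [L, a, b, c]
  simp
  linear_combination (p * p' + r * r') * (-(T.s ^ 2 / 4)) * h3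
    + (p * p' + r * r') * (T.s ^ 2 / 2 * T.C) * h2
    + (p * r' + p' * r) * (-(T.C * (T.t ^ 2 + T.u ^ 2) + (2 * T.C - 2) * (T.t * T.u)) / 4) * h1
    + (p * r' + p' * r) * (-(1 + T.C) * T.C / 4) * h3
    + (p * r' + p' * r) * ((1 - T.C) ^ 2 * (1 + T.C) / 2) * h2

/-- the sum of the three functionals -/
def S (z : ℍ) : ℝ := T.l 0 z + T.l 1 z + T.l 2 z

/-- the sum of the products -/
def Pr (z w : ℍ) : ℝ := T.l 0 z * T.l 0 w + T.l 1 z * T.l 1 w + T.l 2 z * T.l 2 w

lemma dual_pt (z w : ℍ) : (1 + T.C) * (2 * T.C - 1) * Real.cosh (dist z w) =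
    T.C * T.S z * T.S w - (2 * T.C - 1) * T.Pr z w := by
  rw [cosh_dist_vec]
  have := T.dual (vP z) (vQ z) (vR z) (vP w) (vQ w) (vR w)
  unfold S Pr l
  linarith

/-- the closed triangle -/
def Tr : Set ℍ := {z | ∀ i, 0 ≤ T.l i z}

lemma S_nonneg {z : ℍ} (hz : z ∈ T.Tr) : 0 ≤ T.S z := by
  unfold S
  have h0 := hz 0
  have h1 := hz 1
  have h2 := hz 2
  linarith

lemma dual_self (z : ℍ) : (1 + T.C) * (2 * T.C - 1) =
    T.C * T.S z ^ 2 - (2 * T.C - 1) * T.Pr z z := by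
  have := T.dual_pt z z
  rw [dist_self, Real.cosh_zero] at this
  linarith

lemma Pr_self (z : ℍ) : T.Pr z z = T.l 0 z ^ 2 + T.l 1 z ^ 2 + T.l 2 z ^ 2 := by
  unfold Pr; ring

/-- lower bound for `S` on the triangle -/
lemma S_sq_ge (z : ℍ) : 3 * (2 * T.C - 1) ≤ T.S z ^ 2 := by
  have h := T.dual_self z
  rw [T.Pr_self] at h
  have hC := T.hC
  have h3 : T.S z ^ 2 ≤ 3 * (T.l 0 z ^ 2 + T.l 1 z ^ 2 + T.l 2 z ^ 2) := by
    unfold S
    nlinarith [sq_nonneg (T.l 0 z - T.l 1 z), sq_nonneg (T.l 1 z - T.l 2 z),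
      sq_nonneg (T.l 0 z - T.l 2 z)]
  have h4 : (2 * T.C - 1) * T.S z ^ 2 ≤
      (2 * T.C - 1) * (3 * (T.l 0 z ^ 2 + T.l 1 z ^ 2 + T.l 2 z ^ 2)) :=
    mul_le_mul_of_nonneg_left h3 (by linarith)
  have h5 : (1 + T.C) * (3 * (2 * T.C - 1)) ≤ (1 + T.C) * T.S z ^ 2 := by nlinarith
  exact le_of_mul_le_mul_left h5 (by linarith)

/-- upper bound for `S` on the triangle -/
lemma S_sq_le {z : ℍ} (hz : z ∈ T.Tr) :
    (1 - T.C) * T.S z ^ 2 ≤ (1 + T.C) * (2 * T.C - 1) := by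
  have h := T.dual_self z
  rw [T.Pr_self] at h
  have hC := T.hC
  have h0 := hz 0
  have h1 := hz 1
  have h2 := hz 2
  have h3 : T.l 0 z ^ 2 + T.l 1 z ^ 2 + T.l 2 z ^ 2 ≤ T.S z ^ 2 := by
    unfold S
    nlinarith [mul_nonneg h0 h1, mul_nonneg h0 h2, mul_nonneg h1 h2]
  have h4 : (2 * T.C - 1) * (T.l 0 z ^ 2 + T.l 1 z ^ 2 + T.l 2 z ^ 2) ≤
      (2 * T.C - 1) * T.S z ^ 2 :=
    mul_le_mul_of_nonneg_left h3 (by linarith)
  nlinarith

/-- the triangle is bounded -/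
lemma dist_le {z w : ℍ} (hz : z ∈ T.Tr) (hw : w ∈ T.Tr) :
    (1 - T.C) * Real.cosh (dist z w) ≤ T.C := by
  have h := T.dual_pt z w
  have hC := T.hC
  have hC1 := T.hC1
  have hP : 0 ≤ T.Pr z w := by
    unfold Pr
    have a0 := mul_nonneg (hz 0) (hw 0)
    have a1 := mul_nonneg (hz 1) (hw 1)
    have a2 := mul_nonneg (hz 2) (hw 2)
    linarith
  have h1 := T.S_sq_le hz
  have h2 := T.S_sq_le hw
  have hSz := T.S_nonneg hz
  have hSw := T.S_nonneg hw
  have h3 : (1 - T.C) * (T.S z * T.S w) ≤ (1 + T.C) * (2 * T.C - 1) := by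
    have : (1 - T.C) * (T.S z * T.S w) ≤ (1 - T.C) * ((T.S z ^ 2 + T.S w ^ 2) / 2) :=
      mul_le_mul_of_nonneg_left (by nlinarith [sq_nonneg (T.S z - T.S w)]) (by linarith)
    linarith
  have h4 : 0 ≤ (2 * T.C - 1) * T.Pr z w := mul_nonneg (by linarith) hP
  have h5 : (1 + T.C) * (2 * T.C - 1) * ((1 - T.C) * Real.cosh (dist z w)) ≤
      (1 + T.C) * (2 * T.C - 1) * T.C := by
    have e : (1 + T.C) * (2 * T.C - 1) * ((1 - T.C) * Real.cosh (dist z w)) =
      (1 - T.C) * ((1 + T.C) * (2 * T.C - 1) * Real.cosh (dist z w)) := by ring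
    rw [e, h]
    nlinarith [mul_nonneg (by linarith : (0:ℝ) ≤ 1 - T.C) h4]
  exact le_of_mul_le_mul_left h5 (by nlinarith)

/-- inversion: every nonnegative vector of the right kind is realised -/
lemma exists_pt (X : Fin 3 → ℝ) (hX : ∀ i, 0 ≤ X i)
    (hN : 0 < T.C * (X 0 + X 1 + X 2) ^ 2 - (2 * T.C - 1) * (X 0 ^ 2 + X 1 ^ 2 + X 2 ^ 2)) :
    ∃ (z : ℍ) (k : ℝ), 0 < k ∧ ∀ i, T.l i z = k * X i := by
  have h0 := hX 0
  have h1 := hX 1
  have h2 := hX 2
  have hC := T.hC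
  have hs := T.hs
  have htu := T.htu
  have ht := T.ht
  have hu := T.hu
  have hd : 0 < T.t ^ 2 - T.u ^ 2 := by nlinarith [T.hut]
  have hd' : T.t ^ 2 - T.u ^ 2 ≠ 0 := hd.ne'
  set p := 2 * (T.t * (X 1 + T.C * X 0) + T.u * (X 2 + T.C * X 0)) / (T.s * (T.t ^ 2 - T.u ^ 2))
    with hp
  set r := 2 * (T.t * (X 2 + T.C * X 0) + T.u * (X 1 + T.C * X 0)) / (T.s * (T.t ^ 2 - T.u ^ 2))
    with hr
  have e0 : T.L 0 p (-X 0) r = X 0 := by simp [L, a, b, c]
  have e1 : T.L 1 p (-X 0) r = X 1 := by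
    simp [L, a, b, c]
    rw [hp, hr]
    field_simp
    linear_combination (2 * (X 1 + T.C * X 0) * 0) * htu
  have e2 : T.L 2 p (-X 0) r = X 2 := by
    simp [L, a, b, c]
    rw [hp, hr]
    field_simp
    linear_combination (2 * (X 1 + T.C * X 0) * 0) * htu
  have hr0 : 0 ≤ r := by
    rw [hr]
    have : 0 ≤ T.C * X 0 := mul_nonneg (by linarith) h0
    positivity
  have hd1 := T.dual p (-X 0) r p (-X 0) r
  rw [e0, e1, e2] at hd1
  have hpr : 0 < p * r - (-X 0) ^ 2 := by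
    have h3 : 0 < (1 + T.C) * (2 * T.C - 1) := by nlinarith
    have h4 : 0 < (1 + T.C) * (2 * T.C - 1) * (p * r - (-X 0) ^ 2) := by
      have : (1 + T.C) * (2 * T.C - 1) * (p * r - (-X 0) ^ 2) =
        T.C * (X 0 + X 1 + X 2) ^ 2 - (2 * T.C - 1) * (X 0 ^ 2 + X 1 ^ 2 + X 2 ^ 2) := by
        linear_combination hd1
      rw [this]; exact hN
    exact (mul_pos_iff_of_pos_left h3).mp h4
  have hr1 : 0 < r := by
    rcases eq_or_lt_of_le hr0 with h | h
    · rw [← h] at hpr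
      nlinarith [sq_nonneg (X 0)]
    · exact h
  obtain ⟨z, k, hk, z1, z2, z3⟩ := exists_vec' p (-X 0) r hr1 hpr
  have lin : ∀ i, T.l i z = k * T.L i p (-X 0) r := by
    intro i
    unfold l L
    rw [z1, z2, z3]
    ring
  refine ⟨z, k, hk, ?_⟩
  intro i
  rw [lin i]
  fin_cases i
  · exact congrArg (fun y => k * y) e0
  · exact congrArg (fun y => k * y) e1
  · exact congrArg (fun y => k * y) e2


end Tri

end

end Pool.Agent.H838
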