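import Pool.Agent.H838.Big

/-!
# Vertices of the triangles and arguments there
-/

set_option autoImplicit false

namespace Pool.Agent.H838

open UpperHalfPlane Matrix

noncomputable section

namespace Tri
variable (T : Tri)

lemma denom_A (i : Fin 3) (z : ℂ) : denom (T.A i) z = (T.c i : ℂ) * z - T.a i := by
  simp [denom, sub_eq_add_neg]

lemma arg_A0 (z : ℍ) : Complex.arg (denom (T.A 0) z) = Real.pi := by
  rw [denom_A]
  simp [a, c, Complex.arg_neg_one]

lemma vert01 (θ : ℝ) (hC : T.C = Real.cos θ) (hs : T.s = Real.sin θ)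
    (hθ : θ ∈ Set.Ioc (-Real.pi) Real.pi) :
    ∃ v : ℍ, T.A 0 • v = v ∧ T.A 1 • v = v ∧ Complex.arg (denom (T.A 1) v) = θ := by
  have hu := T.hu
  have htu := T.htu
  let v : ℍ := ⟨⟨0, T.u⟩, by simpa using hu⟩
  have hre : v.re = 0 := rfl
  have him : v.im = T.u := rfl
  refine ⟨v, ?_, ?_, ?_⟩
  · rw [T.fixed_iff, T.l_def]
    simp [a, b, c, vQ, hre]
  · rw [T.fixed_iff, T.l_def]
    simp only [vP, vQ, vR, hre, him, a, b, c]
    simp
    field_simp
    linear_combination T.s * htu
  · have e : denom (T.A 1) v = Real.cos θ + Real.sin θ * Complex.I := by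
      rw [denom_A, ← hC, ← hs]
      apply Complex.ext
      · simp [a, c, v]
      · simp [a, c, v]
        linear_combination T.s * htu
    rw [e, Complex.ofReal_cos, Complex.ofReal_sin]
    exact Complex.arg_cos_add_sin_mul_I hθ

lemma vert02 (θ : ℝ) (hC : T.C = Real.cos θ) (hs : T.s = Real.sin θ)
    (hθ : -θ ∈ Set.Ioc (-Real.pi) Real.pi) :
    ∃ v : ℍ, T.A 0 • v = v ∧ T.A 2 • v = v ∧ Complex.arg (denom (T.A 2) v) = -θ := by
  have ht := T.ht
  have htu := T.htu
  let v : ℍ := ⟨⟨0, T.t⟩, by simpa using ht⟩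
  have hre : v.re = 0 := rfl
  have him : v.im = T.t := rfl
  refine ⟨v, ?_, ?_, ?_⟩
  · rw [T.fixed_iff, T.l_def]
    simp [a, b, c, vQ, hre]
  · rw [T.fixed_iff, T.l_def]
    simp only [vP, vQ, vR, hre, him, a, b, c]
    simp
    field_simp
    linear_combination -T.s * htu
  · have e : denom (T.A 2) v = Real.cos (-θ) + Real.sin (-θ) * Complex.I := by
      rw [denom_A, Real.cos_neg, Real.sin_neg, ← hC, ← hs]
      apply Complex.ext
      · simp [a, c, v]
      · simp [a, c, v]
        linear_combination T.s * htu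
    rw [e, Complex.ofReal_cos, Complex.ofReal_sin]
    exact Complex.arg_cos_add_sin_mul_I hθ

lemma arg_A1_mem (z : ℍ) : 0 < Complex.arg (denom (T.A 1) z) ∧
    Complex.arg (denom (T.A 1) z) < Real.pi := by
  have hs := T.hs
  have ht := T.ht
  have him : 0 < (denom (T.A 1) z).im := by
    rw [denom_A]
    simp [a, c]
    have := z.im_pos
    positivity
  constructor
  · have h0 : 0 ≤ Complex.arg (denom (T.A 1) z) := Complex.arg_nonneg_iff.mpr him.le
    rcases eq_or_lt_of_le h0 with h | h
    · have := Complex.arg_eq_zero_iff.mp h.symm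
      linarith [this.2]
    · exact h
  · rcases eq_or_lt_of_le (Complex.arg_le_pi (denom (T.A 1) z)) with h | h
    · have := Complex.arg_eq_pi_iff.mp h
      linarith [this.2]
    · exact h

lemma arg_A2_mem (z : ℍ) : -Real.pi < Complex.arg (denom (T.A 2) z) ∧
    Complex.arg (denom (T.A 2) z) < 0 := by
  have hs := T.hs
  have hu := T.hu
  have him : (denom (T.A 2) z).im < 0 := by
    rw [denom_A]
    simp [a, c]
    have := z.im_pos
    positivity
  exact ⟨Complex.neg_pi_lt_arg _, Complex.arg_neg_iff.mpr him⟩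

lemma vert12 (θ : ℝ) (hC : T.C = Real.cos θ) (hs : T.s = Real.sin θ)
    (hθ0 : 0 < θ) (hθ1 : θ < Real.pi) :
    ∃ v : ℍ, T.A 1 • v = v ∧ T.A 2 • v = v ∧
      Complex.arg (denom (T.A 1) v) - Complex.arg (denom (T.A 2) v) = Real.pi - θ := by
  have ht := T.ht
  have hu := T.hu
  have htu := T.htu
  have hs0 := T.hs
  have hC0 : 0 < T.C := by have := T.hC; linarith
  have hCs := T.hCs
  have hT := T.hT
  have hC1 := T.hC1
  have e1 : (1 - T.C) * (T.t + T.u) ^ 2 = 2 := by
    linear_combination hT + 2 * (1 - T.C) * htu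
  have hC1' : 1 - T.C ≠ 0 := by linarith
  obtain ⟨y, hy, hy1, hy2⟩ : ∃ y : ℝ, 0 < y ∧ T.C * (T.t + T.u) * y = 1 ∧
      2 * T.C ^ 2 * y ^ 2 = 1 - T.C := by
    refine ⟨1 / (T.C * (T.t + T.u)), by positivity, by field_simp, ?_⟩
    field_simp
    linarith
  obtain ⟨x, hx⟩ : ∃ x : ℝ, T.s * (T.t - T.u) = -2 * T.C * x := by
    refine ⟨-(T.s * (T.t - T.u)) / (2 * T.C), ?_⟩
    field_simp
  have e2 : (1 - T.C) * (T.t - T.u) ^ 2 = 4 * T.C - 2 := by
    linear_combination hT - 2 * (1 - T.C) * htu
  have hxy : x ^ 2 + y ^ 2 = 1 := by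
    have h1 : 4 * T.C ^ 2 * x ^ 2 = (1 + T.C) * (4 * T.C - 2) := by
      have h2 : (1 - T.C) * (4 * T.C ^ 2 * x ^ 2 - (1 + T.C) * (4 * T.C - 2)) = 0 := by
        have h3 : 4 * T.C ^ 2 * x ^ 2 = T.s ^ 2 * (T.t - T.u) ^ 2 := by
          linear_combination (-1) * (T.s * (T.t - T.u) - 2 * T.C * x) * hx
        rw [h3]
        linear_combination T.s ^ 2 * e2 + (4 * T.C - 2) * hCs
      rcases mul_eq_zero.mp h2 with h | h
      · exact absurd h hC1'
      · linarith
    have h4 : 4 * T.C ^ 2 * (x ^ 2 + y ^ 2 - 1) = 0 := by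
      linear_combination h1 + 2 * hy2
    have h5 : 4 * T.C ^ 2 ≠ 0 := by positivity
    rcases mul_eq_zero.mp h4 with h | h
    · exact absurd h h5
    · linarith
  let v : ℍ := ⟨⟨x, y⟩, hy⟩
  have hre : v.re = x := rfl
  have him : v.im = y := rfl
  have f1 : T.A 1 • v = v := by
    rw [T.fixed_iff, T.l_def]
    simp only [vP, vQ, vR, hre, him, a, b, c]
    simp
    field_simp
    linear_combination T.t * T.s * hxy + hx
  have f2 : T.A 2 • v = v := by
    rw [T.fixed_iff, T.l_def]
    simp only [vP, vQ, vR, hre, him, a, b, c]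
    simp
    field_simp
    linear_combination -T.u * T.s * hxy + hx
  refine ⟨v, f1, f2, ?_⟩
  have a1 := T.arg_A1_mem v
  have a2 := T.arg_A2_mem v
  set α := Complex.arg (denom (T.A 1) v) with hα
  set β := Complex.arg (denom (T.A 2) v) with hβ
  have n1 : ∀ i, T.A i • v = v → ‖denom (T.A i) v‖ = 1 := by
    intro i hi
    have h := UpperHalfPlane.im_smul_eq_div_normSq (T.A i) v
    rw [hi, T.abs_det_A, one_mul, Complex.normSq_eq_norm_sq] at h
    have h2 : ‖denom (T.A i) v‖ ^ 2 = 1 := by
      have h3 : 0 < ‖denom (T.A i) v‖ ^ 2 := by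
        have := norm_pos_iff.mpr (denom_ne_zero (T.A i) v)
        positivity
      rw [eq_div_iff h3.ne'] at h
      have h4 := v.im_pos
      have : v.im * (‖denom (T.A i) v‖ ^ 2 - 1) = 0 := by linarith
      rcases mul_eq_zero.mp this with h | h
      · linarith
      · linarith
    have h3 : 0 ≤ ‖denom (T.A i) v‖ := norm_nonneg _
    nlinarith
  have m1 := n1 1 f1
  have m2 := n1 2 f2
  have g1 : Complex.exp ((α : ℝ) * Complex.I) = denom (T.A 1) v := by
    have := Complex.norm_mul_exp_arg_mul_I (denom (T.A 1) v)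
    rwa [m1, Complex.ofReal_one, one_mul] at this
  have g2 : Complex.exp ((β : ℝ) * Complex.I) = denom (T.A 2) v := by
    have := Complex.norm_mul_exp_arg_mul_I (denom (T.A 2) v)
    rwa [m2, Complex.ofReal_one, one_mul] at this
  have g3 : Complex.exp (((α - β : ℝ)) * Complex.I) =
      Complex.exp (((Real.pi - θ : ℝ)) * Complex.I) := by
    have h1 : Complex.exp (((α - β : ℝ)) * Complex.I) =
        denom (T.A 1) v * (starRingEnd ℂ) (denom (T.A 2) v) := by
      rw [conj_eq_inv m2, ← g1, ← g2, ← Complex.exp_neg, ← Complex.exp_add]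
      congr 1
      push_cast; ring
    have h2 : Complex.exp (((Real.pi - θ : ℝ)) * Complex.I) = -T.C + T.s * Complex.I := by
      rw [Complex.exp_mul_I, ← Complex.ofReal_cos, ← Complex.ofReal_sin, Real.cos_pi_sub,
        Real.sin_pi_sub, ← hC, ← hs]
      push_cast; ring
    rw [h1, h2, denom_A, denom_A]
    apply Complex.ext
    · simp [a, c, v]
      linear_combination -T.s ^ 2 * (T.t * T.u) * hxy - T.s ^ 2 * htu + T.C * x * hx
        - 2 * T.C ^ 2 * hxy + hy2 - hCs
    · simp [a, c, v]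
      linear_combination T.s * hy1
  rw [Complex.exp_eq_exp_iff_exists_int] at g3
  obtain ⟨n, hn⟩ := g3
  have hn' : α - β = Real.pi - θ + n * (2 * Real.pi) := by
    have : ((α - β : ℝ) : ℂ) = ((Real.pi - θ + n * (2 * Real.pi) : ℝ) : ℂ) := by
      apply mul_right_cancel₀ Complex.I_ne_zero
      rw [hn]; push_cast; ring
    exact_mod_cast this
  have hpi := Real.pi_pos
  have hn1 : (n : ℝ) < 1 := by
    by_contra h
    push Not at h
    nlinarith
  have hn2 : (-1 : ℝ) < n := by
    by_contra h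
    push Not at h
    nlinarith
  have hn0 : n = 0 := by
    have h1 : n < 1 := by exact_mod_cast hn1
    have h2 : -1 < n := by exact_mod_cast hn2
    omega
  rw [hn0] at hn'
  simpa using hn'

lemma arg_smul_self (i : Fin 3) (z : ℍ) :
    Complex.arg (denom (T.A i) ↑(T.A i • z)) = Complex.arg (denom (T.A i) z) := by
  have h := denom_cocycle_σ (T.A i) (T.A i) z
  rw [T.A_sq] at h
  have h1 : denom (1 : GL (Fin 2) ℝ) z = 1 := denom_one z
  have hneg : ¬ (0 < (T.A i).det.val) := by rw [det_A]; norm_num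
  simp only [σ, if_neg hneg] at h
  rw [h1] at h
  set D := denom (T.A i) z with hD
  set D' := denom (T.A i) ↑(T.A i • z) with hD'
  have hD0 : D ≠ 0 := denom_ne_zero _ _
  have h2 : D' = (((‖D‖ ^ 2)⁻¹ : ℝ) : ℂ) * D := by
    have h3 : (starRingEnd ℂ) D' = D⁻¹ := by
      apply mul_right_cancel₀ hD0
      rw [inv_mul_cancel₀ hD0]
      exact h.symm
    have h4 : D' = (starRingEnd ℂ) (D⁻¹) := by
      rw [← h3, Complex.conj_conj]
    rw [h4, Complex.inv_def]
    simp [Complex.normSq_eq_norm_sq, mul_comm]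
  rw [h2]
  apply Complex.arg_real_mul
  have := norm_pos_iff.mpr hD0
  positivity

/-- continuity of the argument -/
lemma continuous_arg (i : Fin 3) : Continuous fun z : ℍ => Complex.arg (denom (T.A i) z) := by
  have hcont : Continuous fun z : ℍ => denom (T.A i) z := by
    have : (fun z : ℍ => denom (T.A i) z) = fun z : ℍ => (T.c i : ℂ) * (z : ℂ) - T.a i := by
      funext z; exact T.denom_A i z
    rw [this]
    exact (continuous_const.mul UpperHalfPlane.continuous_coe).sub continuous_const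
  have h0 : i = 0 ∨ i = 1 ∨ i = 2 := by
    fin_cases i <;> simp
  rcases h0 with rfl | rfl | rfl
  · have : (fun z : ℍ => Complex.arg (denom (T.A 0) z)) = fun _ => Real.pi := by
      funext z; exact T.arg_A0 z
    rw [this]
    exact continuous_const
  · rw [continuous_iff_continuousAt]
    intro z
    have h1 := T.arg_A1_mem z
    have hsl : denom (T.A 1) z ∈ Complex.slitPlane := by
      rw [Complex.mem_slitPlane_iff_arg]
      exact ⟨h1.2.ne, denom_ne_zero _ _⟩
    exact ContinuousAt.comp (f := fun z : ℍ => denom (T.A _) z) (g := Complex.arg)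
      (Complex.continuousAt_arg hsl) hcont.continuousAt
  · rw [continuous_iff_continuousAt]
    intro z
    have h1 := T.arg_A2_mem z
    have hpi := Real.pi_pos
    have hsl : denom (T.A 2) z ∈ Complex.slitPlane := by
      rw [Complex.mem_slitPlane_iff_arg]
      exact ⟨by linarith, denom_ne_zero _ _⟩
    exact ContinuousAt.comp (f := fun z : ℍ => denom (T.A _) z) (g := Complex.arg)
      (Complex.continuousAt_arg hsl) hcont.continuousAt

end Tri

end

end Pool.Agent.H838
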